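import Pool.Agent.H12.SQM.Nu

/-!
# [SQM LAT] Lattice points of `v + n 𝓞^m` in a region, every number field (complete)

As `H97/SXM/Lat.lean`, with the measure `nu K m`; only vectors with real coordinates at the real places (`Rl`) occur.
-/

set_option autoImplicit false

open scoped NumberField Classical Pointwise
open IsDedekindDomain NumberField MeasureTheory H38.ML H63.MA H67.SX H77.MF H97.SXM

noncomputable section

namespace H12.SQM

theorem cv_pos (K : Type) [Field K] [NumberField K] (m : ℕ) : 0 < cv K m := by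
  have h : (0 : ℝ) < |(discr K : ℝ)| := by
    have := discr_ne_zero K
    positivity
  have h2 := Real.sqrt_pos.2 h
  unfold cv
  positivity

variable (K : Type) [Field K] [NumberField K]

/-- the fundamental domain -/
private def fe (m : ℕ) : Set (Em K m) :=
  Set.univ.pi fun _ : Fin m => ZSpan.fundamentalDomain (mixedEmbedding.latticeBasis K)

private def fd (m : ℕ) : Set (En K m) := cx '' fe K m

private theorem fe_meas (m : ℕ) : MeasurableSet (fe K m) :=
  MeasurableSet.univ_pi fun _ => ZSpan.fundamentalDomain_measurableSet _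

private theorem fd_meas (m : ℕ) : MeasurableSet (fd K m) :=
  cx_me.measurableSet_image.2 (fe_meas K m)

private theorem fd_rl (m : ℕ) {y : En K m} (hy : y ∈ fd K m) : Rl y := by
  obtain ⟨z, _, rfl⟩ := hy
  exact rl_cx z

private theorem fd_vol (m : ℕ) : nu K m (fd K m) = ENNReal.ofReal (cv K m) := by
  rw [nu_apply]
  have h0 : cx ⁻¹' fd K m = fe K m := Set.preimage_image_eq _ cx_inj
  rw [h0]
  unfold fe
  rw [volume_pi_pi, Finset.prod_const, Finset.card_univ, Fintype.card_fin,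
    mixedEmbedding.volume_fundamentalDomain_latticeBasis]
  unfold cv
  rw [ENNReal.ofReal_pow (by positivity)]
  congr 1
  rw [div_eq_mul_inv, mul_comm (Real.sqrt _), ENNReal.ofReal_mul (by positivity)]
  congr 1
  · rw [← inv_pow, ENNReal.ofReal_pow (by positivity)]
    congr 1
    rw [ENNReal.ofReal_inv_of_pos (by norm_num)]
    simp
  · rw [ENNReal.ofReal]
    congr 1
    rw [← NNReal.coe_inj, Real.coe_sqrt, coe_nnnorm, Int.norm_eq_abs,
      Real.coe_toNNReal _ (Real.sqrt_nonneg _)]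

private theorem fd_bd (m : ℕ) : ∃ ρ : ℝ, 1 ≤ ρ ∧ ∀ y ∈ fd K m, ‖y‖ ≤ ρ := by
  obtain ⟨δ, hδ⟩ := (ZSpan.fundamentalDomain_isBounded (mixedEmbedding.latticeBasis K)).exists_norm_le
  refine ⟨max 1 δ, le_max_left _ _, ?_⟩
  rintro y ⟨z, hz, rfl⟩
  have h0 : (0 : ℝ) ≤ max 1 δ := zero_le_one.trans (le_max_left _ _)
  refine (cx_norm z).trans ?_
  rw [pi_norm_le_iff_of_nonneg h0]
  intro i
  exact (hδ _ (hz i (Set.mem_univ _))).trans (le_max_right _ _)

private theorem fd_cover (m : ℕ) {x : En K m} (hx : Rl x) :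
    ∃ z : Fin m → 𝓞 K, x - emb (fun i => (z i : K)) ∈ fd K m := by
  obtain ⟨y, rfl⟩ := cx_of hx
  have h : ∀ i, ∃ z : 𝓞 K, y i - mixedEmbedding K (z : K) ∈
      ZSpan.fundamentalDomain (mixedEmbedding.latticeBasis K) := by
    intro i
    have h1 := ZSpan.fract_mem_fundamentalDomain (mixedEmbedding.latticeBasis K) (y i)
    rw [ZSpan.fract_apply] at h1
    have h2 := (mixedEmbedding.mem_span_latticeBasis K).1
      (ZSpan.floor (mixedEmbedding.latticeBasis K) (y i)).2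
    obtain ⟨z, hz⟩ := h2
    refine ⟨z, ?_⟩
    have h3 : mixedEmbedding K (z : K) =
        ((ZSpan.floor (mixedEmbedding.latticeBasis K) (y i) :
          Submodule.span ℤ (Set.range (mixedEmbedding.latticeBasis K))) : mixedEmbedding.mixedSpace K) := hz
    rw [h3]
    exact h1
  choose z hz using h
  refine ⟨z, fun i => y i - mixedEmbedding K (z i : K), fun i _ => hz i, ?_⟩
  have h4 : (fun i => y i - mixedEmbedding K (z i : K)) =
      y + -(fun i => mixedEmbedding K (z i : K)) := by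
    funext i
    rw [Pi.add_apply, Pi.neg_apply, sub_eq_add_neg]
  rw [h4, cx_add, cx_neg, emb_cx, sub_eq_add_neg]

private theorem fd_uniq (m : ℕ) (x : En K m) (z z' : Fin m → 𝓞 K)
    (h : x - emb (fun i => (z i : K)) ∈ fd K m) (h' : x - emb (fun i => (z' i : K)) ∈ fd K m) : z = z' := by
  obtain ⟨y, hy, hye⟩ := h
  obtain ⟨y', hy', hye'⟩ := h'
  have h0 : cx (y + fun i => mixedEmbedding K (z i : K)) =
      cx (y' + fun i => mixedEmbedding K (z' i : K)) := by
    rw [cx_add, cx_add, hye, hye', ← emb_cx, ← emb_cx, sub_add_cancel, sub_add_cancel]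
  have h1 := cx_inj h0
  funext i
  have h2 : y i + mixedEmbedding K (z i : K) = y' i + mixedEmbedding K (z' i : K) := congrFun h1 i
  have g1 := ZSpan.fract_eq_self.2 (hy i (Set.mem_univ _))
  have g2 := ZSpan.fract_eq_self.2 (hy' i (Set.mem_univ _))
  have hmem : ∀ a : 𝓞 K, mixedEmbedding K (a : K) ∈ Submodule.span ℤ (Set.range (mixedEmbedding.latticeBasis K)) := by
    intro a
    rw [mixedEmbedding.mem_span_latticeBasis]
    exact ⟨a, rfl⟩
  have h3 : ZSpan.fract (mixedEmbedding.latticeBasis K) (y i) =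
      ZSpan.fract (mixedEmbedding.latticeBasis K) (y' i) := by
    rw [ZSpan.fract_eq_fract]
    have h4 : -(y i) + y' i = mixedEmbedding K (z i : K) - mixedEmbedding K (z' i : K) := by
      have h5 : y' i = y i + mixedEmbedding K (z i : K) - mixedEmbedding K (z' i : K) := by
        rw [h2, add_sub_cancel_right]
      rw [h5]
      abel
    rw [h4]
    exact sub_mem (hmem _) (hmem _)
  rw [g1, g2] at h3
  rw [h3] at h2
  have h5 : mixedEmbedding K (z i : K) = mixedEmbedding K (z' i : K) := add_left_cancel h2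
  exact RingOfIntegers.ext (mixedEmbedding_injective K h5)

private theorem tr_vol (m : ℕ) {a : En K m} (ha : Rl a) :
    nu K m {x : En K m | x - a ∈ fd K m} = ENNReal.ofReal (cv K m) ∧ MeasurableSet {x : En K m | x - a ∈ fd K m} := by
  have h1 : {x : En K m | x - a ∈ fd K m} = {x | -a + x ∈ fd K m} := by
    ext x
    rw [Set.mem_ofPred_eq, Set.mem_ofPred_eq, sub_eq_add_neg, add_comm]
  refine ⟨?_, ?_⟩
  · rw [h1, nu_add ha.neg, fd_vol]
  · rw [h1]
    exact (measurable_const_add (-a)) (fd_meas K m)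

private theorem core_up (m : ℕ) {ρ : ℝ} (hρ : ∀ y ∈ fd K m, ‖y‖ ≤ ρ) (D Dp : Set (En K m))
    (ht : nu K m Dp ≠ ⊤) (hD : ∀ x ∈ D, Rl x → ∀ y, Rl y → ‖y‖ ≤ ρ → x + y ∈ Dp) :
    {z : Fin m → 𝓞 K | emb (fun i => (z i : K)) ∈ D}.Finite ∧
      ({z : Fin m → 𝓞 K | emb (fun i => (z i : K)) ∈ D}.ncard : ℝ) * cv K m ≤ (nu K m Dp).toReal := by
  have hcv := cv_pos K m
  have key : ∀ S : Finset (Fin m → 𝓞 K), (S : Set (Fin m → 𝓞 K)) ⊆ {z : Fin m → 𝓞 K | emb (fun i => (z i : K)) ∈ D} →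
      (S.card : ℝ) * cv K m ≤ (nu K m Dp).toReal := by
    intro S hS
    have h1 : nu K m (⋃ z ∈ S, {x : En K m | x - emb (fun i => (z i : K)) ∈ fd K m}) =
        ∑ z ∈ S, nu K m {x : En K m | x - emb (fun i => (z i : K)) ∈ fd K m} := by
      apply nu_biUnion
      · intro z _ z' _ hne
        rw [Set.disjoint_left]
        intro x hx hx'
        exact hne (fd_uniq K m x z z' hx hx')
      · intro z _
        exact (tr_vol K m (rl_emb _)).2
    rw [Finset.sum_congr rfl fun z _ => (tr_vol K m (rl_emb _)).1, Finset.sum_const, nsmul_eq_mul] at h1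
    have h2 : (⋃ z ∈ S, {x : En K m | x - emb (fun i => (z i : K)) ∈ fd K m}) ⊆ Dp := by
      intro x hx
      rw [Set.mem_iUnion₂] at hx
      obtain ⟨z, hz, hx⟩ := hx
      have h3 := hD _ (hS hz) (rl_emb _) _ (fd_rl K m hx) (hρ _ hx)
      rwa [add_sub_cancel] at h3
    have h4 := measure_mono (μ := nu K m) h2
    rw [h1] at h4
    have h5 := ENNReal.toReal_mono ht h4
    rw [ENNReal.toReal_mul, ENNReal.toReal_natCast, ENNReal.toReal_ofReal hcv.le] at h5
    exact h5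
  have hfin : {z : Fin m → 𝓞 K | emb (fun i => (z i : K)) ∈ D}.Finite := by
    by_contra hinf
    obtain ⟨N, hN⟩ := exists_nat_gt ((nu K m Dp).toReal / cv K m)
    obtain ⟨S, hS, hSN⟩ := Set.Infinite.exists_subset_card_eq hinf N
    have h1 := key S hS
    rw [hSN] at h1
    rw [div_lt_iff₀ hcv] at hN
    linarith
  refine ⟨hfin, ?_⟩
  rw [Set.ncard_eq_toFinset_card _ hfin]
  exact key _ (by rw [Set.Finite.coe_toFinset])

private theorem core_lo (m : ℕ) {ρ : ℝ} (hρ : ∀ y ∈ fd K m, ‖y‖ ≤ ρ) (D Dm : Set (En K m))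
    (hD : ∀ x ∈ Dm, Rl x → ∀ y, Rl y → ‖y‖ ≤ ρ → x + y ∈ D)
    (hfin : {z : Fin m → 𝓞 K | emb (fun i => (z i : K)) ∈ D}.Finite) :
    (nu K m Dm).toReal ≤ ({z : Fin m → 𝓞 K | emb (fun i => (z i : K)) ∈ D}.ncard : ℝ) * cv K m := by
  have hcv := cv_pos K m
  have h1 : ∀ x, Rl x → x ∈ Dm →
      x ∈ ⋃ z ∈ hfin.toFinset, {x : En K m | x - emb (fun i => (z i : K)) ∈ fd K m} := by
    intro x hr hx
    obtain ⟨z, hz⟩ := fd_cover K m hr
    rw [Set.mem_iUnion₂]
    refine ⟨z, ?_, hz⟩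
    rw [Set.Finite.mem_toFinset]
    have h2 := hD x hx hr (-(x - emb (fun i => (z i : K)))) (fd_rl K m hz).neg
      (by rw [norm_neg]; exact hρ _ hz)
    have h3 : x + -(x - emb (fun i => (z i : K))) = emb (fun i => (z i : K)) := by abel
    rw [h3] at h2
    exact h2
  have h4 := (nu_mono h1).trans (measure_biUnion_finset_le _ _)
  rw [Finset.sum_congr rfl fun z _ => (tr_vol K m (rl_emb _)).1, Finset.sum_const, nsmul_eq_mul] at h4
  have h5 := ENNReal.toReal_mono (ENNReal.mul_ne_top (ENNReal.natCast_ne_top _) ENNReal.ofReal_ne_top) h4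
  rw [ENNReal.toReal_mul, ENNReal.toReal_natCast, ENNReal.toReal_ofReal hcv.le] at h5
  rw [Set.ncard_eq_toFinset_card _ hfin]
  exact h5

theorem lat (m : ℕ) : ∃ ρ : ℝ, 1 ≤ ρ ∧
    ∀ n : ℕ, 1 ≤ n → ∀ v : En K m, Rl v → ∀ D : Set (En K m),
    (∀ Dp : Set (En K m), nu K m Dp ≠ ⊤ →
      (∀ x ∈ D, Rl x → ∀ y, Rl y → ‖y‖ ≤ ρ * n → x + y ∈ Dp) →
      {z : Fin m → 𝓞 K | v + (n : ℝ) • emb (fun i => (z i : K)) ∈ D}.Finite ∧
      ({z : Fin m → 𝓞 K | v + (n : ℝ) • emb (fun i => (z i : K)) ∈ D}.ncard : ℝ) *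
        ((n : ℝ) ^ (m * Module.finrank ℚ K) * cv K m) ≤ (nu K m Dp).toReal) ∧
    (∀ Dm : Set (En K m), nu K m Dm ≠ ⊤ →
      (∀ x ∈ Dm, Rl x → ∀ y, Rl y → ‖y‖ ≤ ρ * n → x + y ∈ D) →
      {z : Fin m → 𝓞 K | v + (n : ℝ) • emb (fun i => (z i : K)) ∈ D}.Finite →
      (nu K m Dm).toReal ≤ ({z : Fin m → 𝓞 K | v + (n : ℝ) • emb (fun i => (z i : K)) ∈ D}.ncard : ℝ) *
        ((n : ℝ) ^ (m * Module.finrank ℚ K) * cv K m)) := by
  obtain ⟨ρ, hρ1, hρ⟩ := fd_bd K m
  refine ⟨ρ, hρ1, fun n hn v hv D => ⟨fun Dp ht hD => ?_, fun Dm _ hD hfin => ?_⟩⟩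
  · have hn0 : (0 : ℝ) < n := by exact_mod_cast hn
    have hN : (0 : ℝ) < (n : ℝ) ^ (m * Module.finrank ℚ K) := by positivity
    have h1 := nu_pre hn0 hv Dp
    obtain ⟨h2, h3⟩ := core_up K m hρ {x : En K m | v + (n : ℝ) • x ∈ D} {x : En K m | v + (n : ℝ) • x ∈ Dp}
      (by
        rw [h1]
        exact ENNReal.mul_ne_top ENNReal.ofReal_ne_top ht) (fun x hx hr y hy' hy => by
        have h4 := hD _ hx (hv.add (hr.smul _)) ((n : ℝ) • y) (hy'.smul _) (by
          rw [norm_smul, Real.norm_of_nonneg hn0.le, mul_comm]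
          exact mul_le_mul_of_nonneg_right hy hn0.le)
        rw [add_assoc, ← smul_add] at h4
        exact h4)
    refine ⟨h2, ?_⟩
    rw [h1, ENNReal.toReal_mul, ENNReal.toReal_ofReal (by positivity), inv_mul_eq_div, le_div_iff₀ hN] at h3
    have h5 : ({z : Fin m → 𝓞 K | v + (n : ℝ) • emb (fun i => (z i : K)) ∈ D}.ncard : ℝ) * cv K m *
        (n : ℝ) ^ (m * Module.finrank ℚ K) ≤ (nu K m Dp).toReal := h3
    rw [mul_assoc, mul_comm (cv K m)] at h5
    exact h5
  · have hn0 : (0 : ℝ) < n := by exact_mod_cast hn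
    have hN : (0 : ℝ) < (n : ℝ) ^ (m * Module.finrank ℚ K) := by positivity
    have h1 := nu_pre hn0 hv Dm
    have h3 := core_lo K m hρ {x : En K m | v + (n : ℝ) • x ∈ D} {x : En K m | v + (n : ℝ) • x ∈ Dm}
      (fun x hx hr y hy' hy => by
        have h4 := hD _ hx (hv.add (hr.smul _)) ((n : ℝ) • y) (hy'.smul _) (by
          rw [norm_smul, Real.norm_of_nonneg hn0.le, mul_comm]
          exact mul_le_mul_of_nonneg_right hy hn0.le)
        rw [add_assoc, ← smul_add] at h4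
        exact h4) hfin
    rw [h1, ENNReal.toReal_mul, ENNReal.toReal_ofReal (by positivity), inv_mul_eq_div, div_le_iff₀ hN] at h3
    have h5 : (nu K m Dm).toReal ≤ ({z : Fin m → 𝓞 K | v + (n : ℝ) • emb (fun i => (z i : K)) ∈ D}.ncard : ℝ) * cv K m *
        (n : ℝ) ^ (m * Module.finrank ℚ K) := h3
    rw [mul_assoc, mul_comm (cv K m)] at h5
    exact h5

end H12.SQM
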