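import Pool.Agent.H12.SQM.Vol
import Pool.Agent.H12.SQM.Lat

/-!
# [SQM CNT] Forms of a class `v + n 𝓞⁴` in the region, 100-170 lines. File Pool/Agent/H97/SXM/Cnt.lean

`y = 1 + T^(4d)/R₁`, `N = #{z : v + n z ∈ Dg K sg T R₁ R₂}`, `V = T^(4d) vD (R₁/T^(4d)) (R₂/T^(4d))` = the volume of the region (`vd_scale`). CLAIM `|N n^(4d) cv - V| ≤ C y^A (n / T) T^(4d)` for `1 ≤ n ≤ T`, `0 < R₁ ≤ R₂`.
Let `θ = 1 / (C₁ y)` (`dg_low`; `θ ≤ 1`), `ε = C₀ ρ n / (θ⁵ T)` (`reg_pert`, `ρ` from `lat`), so `ε = C₂ y⁵ n / T`.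
CASE 1: `16 d ε ≤ 1/4` or so (`ε ≤ c`). By `reg_pert` `Dg K sg T R₁ R₂ + ball(ρ n) ⊆ Dg K sg (T(1+ε)) (R₁ (1-ε)^(2r)) (R₂ (1+ε)^(2r))`: `‖disc(x+y)‖ ∈ [(1-ε)‖disc x‖, (1+ε) ‖disc x‖]` at every place, the product of the squares over the `r` places. (`R₁ (1-ε)^(2r) < ∏`.)
`lat` (upper bound): `N n^(4d) cv ≤ vol(Dg K sg (T(1+ε)) ..) = (T(1+ε))^(4d) vD (R₁ (1-ε)^(2r) / (T(1+ε))^(4d)) (R₂ (1+ε)^(2r) / (T(1+ε))^(4d)) ≤ T^(4d) (1+ε)^(4d) vD (z₁ (1 - ε')) (z₂ (1 + ε'))`, `z_i = R_i / T^(4d)`, `ε' = 16 d ε` (Bernoulli, `vd_mono`), and by `vd_cont`, `vd_bd`, `vd_mono`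
(`vD (z₁(1+ε')) (z₂(1-ε')) ≤ vD z₁ z₂`) this is `≤ T^(4d) (vD z₁ z₂ + C ε (1 + 1/z₁)^A)`; `1 + 1/z₁ = y`.
LOWER: `Dg K sg (T(1-ε₂)) (R₁(1+ε₂)..) (R₂(1-..)..) + ball(ρ n) ⊆ Dg K sg T R₁ R₂` for a suitable `ε₂ = C ε`: apply `reg_pert` to the smaller region with `T' = T (1 - 2ε)`: (`θ' ≥ θ/2`, so the constant `C₀ ρ n/(θ'⁵ T')` is `≤ 64 ε`; take `T' = T / (1 + 64 ε)`).
CASE 2: `ε > c`: `V ≤ C y^A T^(4d)` (`vd_bd`) and `N n^(4d) cv ≤` the volume of a ball of radius `C (y T + n)` `≤ C y^A T^(4d)` (`lat` with `D ⊆` ball, `dg_low`); the right side is `≥ C y^A T^(4d)` when the exponent `A` and `C` are large, because `y⁵ n / T ≥ c / C₂`.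
-/

set_option autoImplicit false

open scoped NumberField Classical
open NumberField MeasureTheory H77.MF H97.SXM

noncomputable section

namespace H12.SQM

private theorem cnt_ball (K : Type) [Field K] [NumberField K] :
    ∃ c : ℝ, 0 ≤ c ∧ ∀ R : ℝ, 0 ≤ R → nu K 4 (Metric.closedBall (0 : En K 4) R) ≠ ⊤ ∧
      (nu K 4 (Metric.closedBall (0 : En K 4) R)).toReal = c * R ^ (4 * Module.finrank ℚ K) := by
  refine ⟨(volume (Metric.ball (0 : Em K 4) 1)).toReal, ENNReal.toReal_nonneg, fun R hR => ⟨?_, ?_⟩⟩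
  · exact nu_ball_fin R
  · rw [nu_closedBall, Measure.addHaar_closedBall volume 0 hR, ENNReal.toReal_mul,
      ENNReal.toReal_ofReal (by positivity), fr_em, mul_comm]

/-- the discriminant of a real form -/
theorem rl_disc {K : Type} [Field K] [NumberField K] {x : En K 4} (hx : Rl x) {w : InfinitePlace K}
    (hw : w.IsReal) : (disc (x w)).im = 0 := by
  have h : ∀ i, x w i = (((x w i).re : ℝ) : ℂ) := fun i => Complex.ext (by simp) (by simp [hx w hw i])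
  have h2 : disc (x w) = ((disc (fun i => (x w i).re) : ℝ) : ℂ) := by
    unfold disc
    rw [h 0, h 1, h 2, h 3]
    push_cast
    simp
  rw [h2, Complex.ofReal_im]

private theorem cnt_pow1 {e : ℝ} (h0 : 0 ≤ e) (h1 : e ≤ 1) (M : ℕ) : (1 + e) ^ M ≤ 1 + (2 ^ M - 1) * e := by
  induction M with
  | zero => simp
  | succ n ih =>
    have h2 : (1 : ℝ) ≤ 2 ^ n := one_le_pow₀ (by norm_num)
    calc (1 + e) ^ (n + 1) = (1 + e) ^ n * (1 + e) := pow_succ _ _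
      _ ≤ (1 + (2 ^ n - 1) * e) * (1 + e) := mul_le_mul_of_nonneg_right ih (by linarith)
      _ ≤ 1 + (2 ^ (n + 1) - 1) * e := by
        rw [pow_succ]
        nlinarith [mul_nonneg (mul_nonneg (sub_nonneg.2 h2) h0) (sub_nonneg.2 h1)]

private theorem cnt_up {e : ℝ} (h0 : 0 ≤ e) (h1 : e ≤ 1) {n M : ℕ} (hn : n ≤ M) :
    (1 + e) ^ n ≤ 1 + 2 ^ M * e := by
  have h2 : (2 : ℝ) ^ n ≤ 2 ^ M := pow_le_pow_right₀ (by norm_num) hn
  refine (cnt_pow1 h0 h1 n).trans ?_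
  nlinarith

private theorem cnt_lo {e : ℝ} (h1 : e ≤ 1) (h0 : 0 ≤ e) {n M : ℕ} (hn : n ≤ M) :
    1 - 2 ^ M * e ≤ (1 - e) ^ n := by
  have h2 := one_add_mul_le_pow (a := -e) (by linarith) n
  have h3 : (n : ℝ) ≤ 2 ^ M := by
    have h4 : n < 2 ^ n := Nat.lt_two_pow_self
    have h5 : (n : ℝ) < 2 ^ n := by exact_mod_cast h4
    have h6 : (2 : ℝ) ^ n ≤ 2 ^ M := pow_le_pow_right₀ (by norm_num) hn
    linarith
  have h4 : 1 + -e = 1 - e := by ring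
  rw [h4] at h2
  nlinarith [mul_le_mul_of_nonneg_right h3 h0]

section

variable {K : Type} [Field K] [NumberField K] {sg : InfinitePlace K → Bool}

private theorem cnt_D1 {T T' : ℝ} (h0 : 0 ≤ T) (h : T ≤ T') {x : Fin 4 → ℂ} (hx : D1 T x) : D1 T' x :=
  ⟨hx.1.trans (pow_le_pow_left₀ h0 h 2), hx.2.1.trans (pow_le_pow_left₀ h0 h 2),
    hx.2.2.1.trans (pow_le_pow_left₀ h0 h 6), hx.2.2.2.trans (pow_le_pow_left₀ h0 h 6)⟩

private theorem cnt_mono {T T' R₁ R₂ R₁' R₂' : ℝ} (h0 : 0 ≤ T) (h : T ≤ T') (h1 : R₁' ≤ R₁)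
    (h2 : R₂ ≤ R₂') {x : En K 4} (hx : x ∈ Dg K sg T R₁ R₂) : x ∈ Dg K sg T' R₁' R₂' :=
  ⟨fun w => cnt_D1 h0 h (hx.1 w), hx.2.1, lt_of_le_of_lt h1 hx.2.2.1, hx.2.2.2.trans h2⟩

/-- the perturbation of the region -/
private theorem cnt_pert {C₀ C₁ : ℝ} (hC₀ : 1 ≤ C₀) (hC₁ : 1 ≤ C₁)
    (hreg : ∀ (T θ ρ : ℝ) (x y : Fin 4 → ℂ), 0 < T → 0 < θ → θ ≤ 1 →
      0 ≤ ρ → C₀ * ρ / (θ ^ 5 * T) ≤ 1 / 2 → D1 T x → θ * T ^ 4 ≤ ‖disc x‖ → (∀ i, ‖y i‖ ≤ ρ) →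
      D1 (T * (1 + C₀ * ρ / (θ ^ 5 * T))) (x + y) ∧
        ‖disc (x + y) - disc x‖ ≤ C₀ * ρ / (θ ^ 5 * T) * ‖disc x‖)
    (hlow : ∀ T R₁ R₂ : ℝ, 0 < T → 0 < R₁ → ∀ x ∈ Dg K sg T R₁ R₂,
      (∀ w, T ^ 4 / (C₁ * (1 + T ^ (4 * Module.finrank ℚ K) / R₁)) ≤ ‖disc (x w)‖) ∧
      (∀ w i, ‖x w i‖ ^ 2 ≤ C₁ * (1 + T ^ (4 * Module.finrank ℚ K) / R₁) * T ^ 2) ∧
      R₁ ≤ C₁ * T ^ (4 * Module.finrank ℚ K))
    {T R₁ R₂ θ s e : ℝ} (hT : 0 < T) (hR : 0 < R₁) (hθ : 0 < θ)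
    (hθ1 : θ * (C₁ * (1 + T ^ (4 * Module.finrank ℚ K) / R₁)) ≤ 1) (hs : 0 ≤ s)
    (he : C₀ * s / (θ ^ 5 * T) ≤ e) (he2 : e ≤ 1 / 2) {x y : En K 4} (hx : x ∈ Dg K sg T R₁ R₂)
    (hxr : Rl x) (_hyr : Rl y) (hy : ‖y‖ ≤ s) :
    x + y ∈ Dg K sg (T * (1 + e)) (R₁ * (1 - e) ^ (Module.finrank ℚ K))
      (R₂ * (1 + e) ^ (Module.finrank ℚ K)) := by
  have hy1 : 1 ≤ 1 + T ^ (4 * Module.finrank ℚ K) / R₁ := by
    have : 0 ≤ T ^ (4 * Module.finrank ℚ K) / R₁ := by positivity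
    linarith
  have hθ2 : θ ≤ 1 := by
    have h1 : 1 ≤ C₁ * (1 + T ^ (4 * Module.finrank ℚ K) / R₁) := by nlinarith
    nlinarith
  have he0 : 0 ≤ e := le_trans (by positivity) he
  have hyw : ∀ w i, ‖y w i‖ ≤ s := fun w i =>
    ((norm_le_pi_norm (y w) i).trans (norm_le_pi_norm y w)).trans hy
  have hd : ∀ w, θ * T ^ 4 ≤ ‖disc (x w)‖ := by
    intro w
    refine le_trans ?_ ((hlow T R₁ R₂ hT hR x hx).1 w)
    rw [le_div_iff₀ (by positivity)]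
    have h1 : 0 ≤ T ^ 4 := by positivity
    calc θ * T ^ 4 * (C₁ * (1 + T ^ (4 * Module.finrank ℚ K) / R₁)) =
        (θ * (C₁ * (1 + T ^ (4 * Module.finrank ℚ K) / R₁))) * T ^ 4 := by ring
      _ ≤ 1 * T ^ 4 := mul_le_mul_of_nonneg_right hθ1 h1
      _ = T ^ 4 := one_mul _
  have hp : ∀ w, D1 (T * (1 + e)) ((x + y) w) ∧ ‖disc ((x + y) w) - disc (x w)‖ ≤ e * ‖disc (x w)‖ := by
    intro w
    obtain ⟨h1, h2⟩ := hreg T θ s (x w) (y w) hT hθ hθ2 hs (he.trans he2) (hx.1 w) (hd w) (hyw w)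
    refine ⟨cnt_D1 ?_ ?_ h1, h2.trans (mul_le_mul_of_nonneg_right he (norm_nonneg _))⟩
    · have : 0 ≤ C₀ * s / (θ ^ 5 * T) := by positivity
      positivity
    · exact mul_le_mul_of_nonneg_left (by linarith) hT.le
  have hup : ∀ w, ‖disc ((x + y) w)‖ ≤ (1 + e) * ‖disc (x w)‖ := by
    intro w
    have h1 := (hp w).2
    have h2 : ‖disc ((x + y) w)‖ ≤ ‖disc ((x + y) w) - disc (x w)‖ + ‖disc (x w)‖ := by
      have := norm_add_le (disc ((x + y) w) - disc (x w)) (disc (x w))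
      rwa [sub_add_cancel] at this
    linarith
  have hlo : ∀ w, (1 - e) * ‖disc (x w)‖ ≤ ‖disc ((x + y) w)‖ := by
    intro w
    have h1 := (hp w).2
    have h2 : ‖disc (x w)‖ ≤ ‖disc ((x + y) w) - disc (x w)‖ + ‖disc ((x + y) w)‖ := by
      have := norm_sub_le (disc ((x + y) w)) (disc ((x + y) w) - disc (x w))
      rw [sub_sub_cancel] at this
      linarith
    linarith
  have hprod : ∀ t : ℝ, ∏ w : InfinitePlace K, (t * ‖disc (x w)‖) ^ w.mult =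
      t ^ (Module.finrank ℚ K) * ∏ w : InfinitePlace K, ‖disc (x w)‖ ^ w.mult := by
    intro t
    rw [Finset.prod_congr rfl fun w _ => mul_pow t ‖disc (x w)‖ w.mult, Finset.prod_mul_distrib,
      Finset.prod_pow_eq_pow_sum, InfinitePlace.sum_mult_eq]
  refine ⟨fun w => (hp w).1, fun w hw => ?_, ?_, ?_⟩
  · rw [hx.2.1 w hw]
    have h1 := (hp w).2
    have h2 := Complex.abs_re_le_norm (disc ((x + y) w) - disc (x w))
    rw [Complex.sub_re] at h2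
    have h3 : ‖disc (x w)‖ = |(disc (x w)).re| := by
      have h4 : disc (x w) = (((disc (x w)).re : ℝ) : ℂ) :=
        Complex.ext (by simp) (by simp [rl_disc hxr hw])
      rw [h4, Complex.norm_real, Complex.ofReal_re, Real.norm_eq_abs]
    have h5 : 0 < ‖disc (x w)‖ := lt_of_lt_of_le (by positivity) (hd w)
    have h6 : |(disc ((x + y) w)).re - (disc (x w)).re| ≤ 1 / 2 * |(disc (x w)).re| := by
      rw [← h3]
      exact h2.trans (h1.trans (mul_le_mul_of_nonneg_right he2 (norm_nonneg _)))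
    rw [h3] at h5
    have h7 := abs_le.1 h6
    constructor
    · intro h8
      rw [abs_of_pos h8] at h7
      linarith [h7.1]
    · intro h8
      by_contra h9
      rw [not_lt] at h9
      rw [abs_of_nonpos h9] at h7 h5
      linarith [h7.2]
  · calc R₁ * (1 - e) ^ (Module.finrank ℚ K) <
        (∏ w : InfinitePlace K, ‖disc (x w)‖ ^ w.mult) * (1 - e) ^ (Module.finrank ℚ K) :=
          mul_lt_mul_of_pos_right hx.2.2.1 (pow_pos (by linarith) _)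
      _ = ∏ w : InfinitePlace K, ((1 - e) * ‖disc (x w)‖) ^ w.mult := by rw [hprod, mul_comm]
      _ ≤ ∏ w : InfinitePlace K, ‖disc ((x + y) w)‖ ^ w.mult :=
          Finset.prod_le_prod
            (fun w _ => pow_nonneg (mul_nonneg (by linarith) (norm_nonneg _)) _) fun w _ =>
          pow_le_pow_left₀ (mul_nonneg (by linarith) (norm_nonneg _)) (hlo w) _
  · calc ∏ w : InfinitePlace K, ‖disc ((x + y) w)‖ ^ w.mult ≤
          ∏ w : InfinitePlace K, ((1 + e) * ‖disc (x w)‖) ^ w.mult :=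
          Finset.prod_le_prod (fun w _ => by positivity) fun w _ =>
            pow_le_pow_left₀ (norm_nonneg _) (hup w) _
      _ = (∏ w : InfinitePlace K, ‖disc (x w)‖ ^ w.mult) * (1 + e) ^ (Module.finrank ℚ K) := by
          rw [hprod, mul_comm]
      _ ≤ R₂ * (1 + e) ^ (Module.finrank ℚ K) :=
          mul_le_mul_of_nonneg_right hx.2.2.2 (by positivity)

/-- the volume of the larger region -/
private theorem cnt_volup {C₃ C₄ : ℝ} {A₃ A₄ : ℕ} (hC₃ : 1 ≤ C₃) (hC₄ : 1 ≤ C₄)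
    (hcont : ∀ z₁ z₂ ε : ℝ, 0 < z₁ → z₁ ≤ z₂ → 0 ≤ ε → ε ≤ 1 / 4 →
      vD K sg (z₁ * (1 - ε)) (z₂ * (1 + ε)) ≤
        vD K sg (z₁ * (1 + ε)) (z₂ * (1 - ε)) + C₃ * ε * (1 + 1 / z₁) ^ A₃)
    (hbd : ∀ R₁ R₂ : ℝ, 0 < R₁ → 0 ≤ vD K sg R₁ R₂ ∧ vD K sg R₁ R₂ ≤ C₄ * (1 + 1 / R₁) ^ A₄)
    (m D : ℕ) (hD : D = 4 * Module.finrank ℚ K) {T R₁ R₂ e : ℝ} (hT : 0 < T) (hR : 0 < R₁)
    (hR2 : R₁ ≤ R₂) (he : 0 ≤ e) (he4 : 4 * (2 ^ (m + D) * e) ≤ 1 / 4) :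
    (nu K 4 (Dg K sg (T * (1 + e)) (R₁ * (1 - e) ^ m) (R₂ * (1 + e) ^ m))).toReal ≤
      T ^ D * vD K sg (R₁ / T ^ D) (R₂ / T ^ D) +
        2 ^ (m + D) * (2 * C₄ + 4 * C₃) * (1 + T ^ D / R₁) ^ (A₃ + A₄) * e * T ^ D := by
  have hL1 : (1 : ℝ) ≤ 2 ^ (m + D) := one_le_pow₀ (by norm_num)
  have he1 : e ≤ 1 / 4 := by nlinarith
  have hLe : 0 ≤ (2 : ℝ) ^ (m + D) * e := by positivity
  have hTD : 0 < T ^ D := by positivity
  have hz1 : 0 < R₁ / T ^ D := by positivity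
  have hz12 : R₁ / T ^ D ≤ R₂ / T ^ D := div_le_div_of_nonneg_right hR2 hTD.le
  have hz2 : 0 < R₂ / T ^ D := lt_of_lt_of_le hz1 hz12
  have hY : 1 + 1 / (R₁ / T ^ D) = 1 + T ^ D / R₁ := by rw [one_div_div]
  have hT' : 0 < T * (1 + e) := by positivity
  have hR' : 0 < R₁ * (1 - e) ^ m := mul_pos hR (pow_pos (by linarith) _)
  have hs := vd_scale K sg (R₂ := R₂ * (1 + e) ^ m) hT' hR'
  rw [← hD] at hs
  rw [hs]
  have hpD : 0 < (1 + e) ^ D := by positivity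
  have e1 : R₁ * (1 - e) ^ m / (T * (1 + e)) ^ D = R₁ / T ^ D * ((1 - e) ^ m / (1 + e) ^ D) := by
    rw [mul_pow]
    field_simp
  have e2 : R₂ * (1 + e) ^ m / (T * (1 + e)) ^ D = R₂ / T ^ D * ((1 + e) ^ m / (1 + e) ^ D) := by
    rw [mul_pow]
    field_simp
  have b1 : 1 - 2 ^ (m + D) * e ≤ (1 - e) ^ m / (1 + e) ^ D := by
    rw [le_div_iff₀ hpD]
    have h1 : 1 - 2 ^ (m + D) * e ≤ (1 - e) ^ (m + D) := cnt_lo (by linarith) he le_rfl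
    have h2 : ((1 - e) * (1 + e)) ^ D ≤ 1 :=
      pow_le_one₀ (mul_nonneg (by linarith) (by linarith)) (by nlinarith)
    calc (1 - 2 ^ (m + D) * e) * (1 + e) ^ D ≤ (1 - e) ^ (m + D) * (1 + e) ^ D :=
          mul_le_mul_of_nonneg_right h1 hpD.le
      _ = (1 - e) ^ m * ((1 - e) * (1 + e)) ^ D := by rw [pow_add, mul_pow]; ring
      _ ≤ (1 - e) ^ m * 1 := mul_le_mul_of_nonneg_left h2 (pow_nonneg (by linarith) _)
      _ = (1 - e) ^ m := mul_one _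
  have b2 : (1 + e) ^ m / (1 + e) ^ D ≤ 1 + 2 ^ (m + D) * e := by
    refine (div_le_self (by positivity) (one_le_pow₀ (by linarith))).trans ?_
    exact cnt_up he (by linarith) (by omega)
  have b3 : (1 + e) ^ D ≤ 1 + 2 ^ (m + D) * e := cnt_up he (by linarith) (by omega)
  have hv := hbd (R₁ / T ^ D) (R₂ / T ^ D) hz1
  rw [hY] at hv
  have hc := hcont (R₁ / T ^ D) (R₂ / T ^ D) (2 ^ (m + D) * e) hz1 hz12 hLe (by linarith)
  rw [hY] at hc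
  have hm1 : vD K sg (R₁ * (1 - e) ^ m / (T * (1 + e)) ^ D) (R₂ * (1 + e) ^ m / (T * (1 + e)) ^ D) ≤
      vD K sg (R₁ / T ^ D * (1 - 2 ^ (m + D) * e)) (R₂ / T ^ D * (1 + 2 ^ (m + D) * e)) := by
    rw [e1, e2]
    refine vd_mono K sg ?_ ?_ ?_
    · exact mul_pos hz1 (by linarith)
    · exact mul_le_mul_of_nonneg_left b1 hz1.le
    · exact mul_le_mul_of_nonneg_left b2 hz2.le
  have hm2 : vD K sg (R₁ / T ^ D * (1 + 2 ^ (m + D) * e)) (R₂ / T ^ D * (1 - 2 ^ (m + D) * e)) ≤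
      vD K sg (R₁ / T ^ D) (R₂ / T ^ D) := by
    refine vd_mono K sg hz1 ?_ ?_
    · nlinarith
    · nlinarith
  have hY1 : 1 ≤ 1 + T ^ D / R₁ := by
    have : 0 ≤ T ^ D / R₁ := by positivity
    linarith
  set Y : ℝ := 1 + T ^ D / R₁ with hYdef
  set v : ℝ := vD K sg (R₁ / T ^ D) (R₂ / T ^ D) with hvdef
  set L : ℝ := 2 ^ (m + D) with hLdef
  have hY3 : Y ^ A₃ ≤ Y ^ (A₃ + A₄) := pow_le_pow_right₀ hY1 (by omega)
  have hY4 : Y ^ A₄ ≤ Y ^ (A₃ + A₄) := pow_le_pow_right₀ hY1 (by omega)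
  have hY0 : 0 < Y ^ A₃ := by positivity
  have hw : vD K sg (R₁ * (1 - e) ^ m / (T * (1 + e)) ^ D) (R₂ * (1 + e) ^ m / (T * (1 + e)) ^ D) ≤
      v + C₃ * (L * e) * Y ^ A₃ := by linarith
  have hw0 : 0 ≤ v + C₃ * (L * e) * Y ^ A₃ := by
    have : 0 ≤ C₃ * (L * e) * Y ^ A₃ := by positivity
    linarith [hv.1]
  have hfin : (1 + e) ^ D * (v + C₃ * (L * e) * Y ^ A₃) ≤
      v + L * (2 * C₄ + 4 * C₃) * Y ^ (A₃ + A₄) * e := by
    have h1 : (1 + e) ^ D * (v + C₃ * (L * e) * Y ^ A₃) ≤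
        (1 + L * e) * (v + C₃ * (L * e) * Y ^ A₃) := mul_le_mul_of_nonneg_right b3 hw0
    have h2 : L * e * v ≤ L * e * (C₄ * Y ^ (A₃ + A₄)) :=
      mul_le_mul_of_nonneg_left (hv.2.trans (mul_le_mul_of_nonneg_left hY4 (by linarith))) hLe
    have h3 : C₃ * (L * e) * Y ^ A₃ ≤ C₃ * (L * e) * Y ^ (A₃ + A₄) :=
      mul_le_mul_of_nonneg_left hY3 (by positivity)
    have h4 : L * e * (C₃ * (L * e) * Y ^ A₃) ≤ 1 * (C₃ * (L * e) * Y ^ (A₃ + A₄)) :=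
      mul_le_mul (by linarith) h3 (by positivity) (by norm_num)
    have h5 : 0 ≤ L * e * Y ^ (A₃ + A₄) := by positivity
    nlinarith
  calc (T * (1 + e)) ^ D * vD K sg (R₁ * (1 - e) ^ m / (T * (1 + e)) ^ D)
        (R₂ * (1 + e) ^ m / (T * (1 + e)) ^ D)
      ≤ (T * (1 + e)) ^ D * (v + C₃ * (L * e) * Y ^ A₃) :=
        mul_le_mul_of_nonneg_left hw (by positivity)
    _ = T ^ D * ((1 + e) ^ D * (v + C₃ * (L * e) * Y ^ A₃)) := by rw [mul_pow]; ring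
    _ ≤ T ^ D * (v + L * (2 * C₄ + 4 * C₃) * Y ^ (A₃ + A₄) * e) :=
        mul_le_mul_of_nonneg_left hfin hTD.le
    _ = _ := by ring

/-- the volume of the smaller region -/
private theorem cnt_vollo {C₃ C₄ : ℝ} {A₃ A₄ : ℕ} (hC₃ : 1 ≤ C₃) (hC₄ : 1 ≤ C₄)
    (hcont : ∀ z₁ z₂ ε : ℝ, 0 < z₁ → z₁ ≤ z₂ → 0 ≤ ε → ε ≤ 1 / 4 →
      vD K sg (z₁ * (1 - ε)) (z₂ * (1 + ε)) ≤
        vD K sg (z₁ * (1 + ε)) (z₂ * (1 - ε)) + C₃ * ε * (1 + 1 / z₁) ^ A₃)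
    (hbd : ∀ R₁ R₂ : ℝ, 0 < R₁ → 0 ≤ vD K sg R₁ R₂ ∧ vD K sg R₁ R₂ ≤ C₄ * (1 + 1 / R₁) ^ A₄)
    (m D : ℕ) (hD : D = 4 * Module.finrank ℚ K) {T R₁ R₂ e : ℝ} (hT : 0 < T) (hR : 0 < R₁)
    (hR2 : R₁ ≤ R₂) (he : 0 ≤ e) (he4 : 4 * (2 ^ (m + D) * e) ≤ 1 / 4) :
    T ^ D * vD K sg (R₁ / T ^ D) (R₂ / T ^ D) -
        2 ^ (m + D) * (2 * C₄ + 4 * C₃) * (1 + T ^ D / R₁) ^ (A₃ + A₄) * e * T ^ D ≤
      (nu K 4 (Dg K sg (T / (1 + 2 * e)) (R₁ / (1 - 2 * e) ^ m) (R₂ / (1 + 2 * e) ^ m))).toReal := by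
  have hL1 : (1 : ℝ) ≤ 2 ^ (m + D) := one_le_pow₀ (by norm_num)
  have he1 : e ≤ 1 / 16 := by nlinarith
  have hLe : 0 ≤ (2 : ℝ) ^ (m + D) * e := by positivity
  have hTD : 0 < T ^ D := by positivity
  have hz1 : 0 < R₁ / T ^ D := by positivity
  have hz12 : R₁ / T ^ D ≤ R₂ / T ^ D := div_le_div_of_nonneg_right hR2 hTD.le
  have hz2 : 0 < R₂ / T ^ D := lt_of_lt_of_le hz1 hz12
  have hY : 1 + 1 / (R₁ / T ^ D) = 1 + T ^ D / R₁ := by rw [one_div_div]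
  have hT' : 0 < T / (1 + 2 * e) := by positivity
  have hq : 0 < (1 - 2 * e) ^ m := pow_pos (by linarith) _
  have hR' : 0 < R₁ / (1 - 2 * e) ^ m := div_pos hR hq
  have hs := vd_scale K sg (R₂ := R₂ / (1 + 2 * e) ^ m) hT' hR'
  rw [← hD] at hs
  rw [hs]
  have hpD : 0 < (1 + 2 * e) ^ D := by positivity
  have hpm : 0 < (1 + 2 * e) ^ m := by positivity
  have e1 : R₁ / (1 - 2 * e) ^ m / (T / (1 + 2 * e)) ^ D =
      R₁ / T ^ D * ((1 + 2 * e) ^ D / (1 - 2 * e) ^ m) := by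
    rw [div_pow]
    field_simp
  have e2 : R₂ / (1 + 2 * e) ^ m / (T / (1 + 2 * e)) ^ D =
      R₂ / T ^ D * ((1 + 2 * e) ^ D / (1 + 2 * e) ^ m) := by
    rw [div_pow]
    field_simp
  have b1 : (1 + 2 * e) ^ D / (1 - 2 * e) ^ m ≤ 1 + 4 * (2 ^ (m + D) * e) := by
    rw [div_le_iff₀ hq]
    have h1 : (1 + 4 * e) ^ (m + D) ≤ 1 + 2 ^ (m + D) * (4 * e) :=
      cnt_up (by linarith) (by linarith) le_rfl
    have h2 : (1 : ℝ) ≤ ((1 + 4 * e) * (1 - 2 * e)) ^ m := one_le_pow₀ (by nlinarith)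
    have h3 : (1 + 2 * e) ^ D ≤ (1 + 4 * e) ^ D := pow_le_pow_left₀ (by positivity) (by linarith) _
    calc (1 + 2 * e) ^ D ≤ (1 + 4 * e) ^ D * ((1 + 4 * e) * (1 - 2 * e)) ^ m :=
          h3.trans (le_mul_of_one_le_right (by positivity) h2)
      _ = (1 + 4 * e) ^ (m + D) * (1 - 2 * e) ^ m := by rw [pow_add, mul_pow]; ring
      _ ≤ (1 + 2 ^ (m + D) * (4 * e)) * (1 - 2 * e) ^ m := mul_le_mul_of_nonneg_right h1 hq.le
      _ = (1 + 4 * (2 ^ (m + D) * e)) * (1 - 2 * e) ^ m := by ring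
  have b0 : ∀ k : ℕ, k ≤ m + D → 1 - 2 * (2 ^ (m + D) * e) ≤ 1 / (1 + 2 * e) ^ k := by
    intro k hk
    have hk0 : 0 < (1 + 2 * e) ^ k := by positivity
    rw [le_div_iff₀ hk0]
    have h1 : 1 - 2 ^ (m + D) * (2 * e) ≤ (1 - 2 * e) ^ k := cnt_lo (by linarith) (by linarith) hk
    have h2 : ((1 - 2 * e) * (1 + 2 * e)) ^ k ≤ 1 :=
      pow_le_one₀ (mul_nonneg (by linarith) (by linarith)) (by nlinarith)
    calc (1 - 2 * (2 ^ (m + D) * e)) * (1 + 2 * e) ^ k =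
          (1 - 2 ^ (m + D) * (2 * e)) * (1 + 2 * e) ^ k := by ring
      _ ≤ (1 - 2 * e) ^ k * (1 + 2 * e) ^ k := mul_le_mul_of_nonneg_right h1 hk0.le
      _ = ((1 - 2 * e) * (1 + 2 * e)) ^ k := by rw [mul_pow]
      _ ≤ 1 := h2
  have b2 : 1 - 4 * (2 ^ (m + D) * e) ≤ (1 + 2 * e) ^ D / (1 + 2 * e) ^ m := by
    have h1 := b0 m (by omega)
    have h2 : 1 / (1 + 2 * e) ^ m ≤ (1 + 2 * e) ^ D / (1 + 2 * e) ^ m :=
      div_le_div_of_nonneg_right (one_le_pow₀ (by linarith)) hpm.le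
    linarith
  have hv := hbd (R₁ / T ^ D) (R₂ / T ^ D) hz1
  rw [hY] at hv
  have hc := hcont (R₁ / T ^ D) (R₂ / T ^ D) (4 * (2 ^ (m + D) * e)) hz1 hz12 (by positivity) he4
  rw [hY] at hc
  have hm1 : vD K sg (R₁ / T ^ D * (1 + 4 * (2 ^ (m + D) * e)))
      (R₂ / T ^ D * (1 - 4 * (2 ^ (m + D) * e))) ≤
      vD K sg (R₁ / (1 - 2 * e) ^ m / (T / (1 + 2 * e)) ^ D)
        (R₂ / (1 + 2 * e) ^ m / (T / (1 + 2 * e)) ^ D) := by
    rw [e1, e2]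
    refine vd_mono K sg ?_ ?_ ?_
    · exact mul_pos hz1 (div_pos hpD hq)
    · exact mul_le_mul_of_nonneg_left b1 hz1.le
    · exact mul_le_mul_of_nonneg_left b2 hz2.le
  have hm2 : vD K sg (R₁ / T ^ D) (R₂ / T ^ D) ≤ vD K sg (R₁ / T ^ D * (1 - 4 * (2 ^ (m + D) * e)))
      (R₂ / T ^ D * (1 + 4 * (2 ^ (m + D) * e))) := by
    refine vd_mono K sg (mul_pos hz1 (by linarith)) ?_ ?_
    · nlinarith
    · nlinarith
  have b3 := b0 D (by omega)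
  have hY1 : 1 ≤ 1 + T ^ D / R₁ := by
    have : 0 ≤ T ^ D / R₁ := by positivity
    linarith
  set Y : ℝ := 1 + T ^ D / R₁ with hYdef
  set v : ℝ := vD K sg (R₁ / T ^ D) (R₂ / T ^ D) with hvdef
  set L : ℝ := 2 ^ (m + D) with hLdef
  have hY3 : Y ^ A₃ ≤ Y ^ (A₃ + A₄) := pow_le_pow_right₀ hY1 (by omega)
  have hY4 : Y ^ A₄ ≤ Y ^ (A₃ + A₄) := pow_le_pow_right₀ hY1 (by omega)
  have hY0 : 0 < Y ^ A₃ := by positivity
  have hw : v - C₃ * (4 * (L * e)) * Y ^ A₃ ≤ vD K sg (R₁ / (1 - 2 * e) ^ m / (T / (1 + 2 * e)) ^ D)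
      (R₂ / (1 + 2 * e) ^ m / (T / (1 + 2 * e)) ^ D) := by linarith
  have hfin : v - L * (2 * C₄ + 4 * C₃) * Y ^ (A₃ + A₄) * e ≤
      1 / (1 + 2 * e) ^ D * (v - C₃ * (4 * (L * e)) * Y ^ A₃) := by
    have h1 : (1 - 2 * (L * e)) * v ≤ 1 / (1 + 2 * e) ^ D * v := mul_le_mul_of_nonneg_right b3 hv.1
    have h2 : L * e * v ≤ L * e * (C₄ * Y ^ (A₃ + A₄)) :=
      mul_le_mul_of_nonneg_left (hv.2.trans (mul_le_mul_of_nonneg_left hY4 (by linarith))) hLe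
    have h3 : C₃ * (4 * (L * e)) * Y ^ A₃ ≤ C₃ * (4 * (L * e)) * Y ^ (A₃ + A₄) :=
      mul_le_mul_of_nonneg_left hY3 (by positivity)
    have h4 : 1 / (1 + 2 * e) ^ D ≤ 1 := by
      rw [div_le_one hpD]
      exact one_le_pow₀ (by linarith)
    have h5 : 1 / (1 + 2 * e) ^ D * (C₃ * (4 * (L * e)) * Y ^ A₃) ≤
        1 * (C₃ * (4 * (L * e)) * Y ^ (A₃ + A₄)) :=
      mul_le_mul h4 h3 (by positivity) (by norm_num)
    calc v - L * (2 * C₄ + 4 * C₃) * Y ^ (A₃ + A₄) * e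
        = v - 2 * (L * e * (C₄ * Y ^ (A₃ + A₄))) - 1 * (C₃ * (4 * (L * e)) * Y ^ (A₃ + A₄)) := by ring
      _ ≤ v - 2 * (L * e * v) - 1 / (1 + 2 * e) ^ D * (C₃ * (4 * (L * e)) * Y ^ A₃) := by linarith
      _ = (1 - 2 * (L * e)) * v - 1 / (1 + 2 * e) ^ D * (C₃ * (4 * (L * e)) * Y ^ A₃) := by ring
      _ ≤ 1 / (1 + 2 * e) ^ D * v - 1 / (1 + 2 * e) ^ D * (C₃ * (4 * (L * e)) * Y ^ A₃) := by linarith
      _ = _ := by ring
  calc T ^ D * v - L * (2 * C₄ + 4 * C₃) * Y ^ (A₃ + A₄) * e * T ^ D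
      = T ^ D * (v - L * (2 * C₄ + 4 * C₃) * Y ^ (A₃ + A₄) * e) := by ring
    _ ≤ T ^ D * (1 / (1 + 2 * e) ^ D * (v - C₃ * (4 * (L * e)) * Y ^ A₃)) :=
        mul_le_mul_of_nonneg_left hfin hTD.le
    _ = (T / (1 + 2 * e)) ^ D * (v - C₃ * (4 * (L * e)) * Y ^ A₃) := by
        rw [div_pow]
        ring
    _ ≤ _ := mul_le_mul_of_nonneg_left hw (by positivity)

end

theorem form_cnt (K : Type) [Field K] [NumberField K] (sg : InfinitePlace K → Bool) :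
    ∃ (C : ℝ) (A : ℕ), 1 ≤ C ∧
    ∀ (n : ℕ) (T R₁ R₂ : ℝ) (v : En K 4), Rl v → 1 ≤ n → (n : ℝ) ≤ T → 0 < R₁ → R₁ ≤ R₂ →
    {z : Fin 4 → 𝓞 K | v + (n : ℝ) • emb (fun i => (z i : K)) ∈ Dg K sg T R₁ R₂}.Finite ∧
    |({z : Fin 4 → 𝓞 K | v + (n : ℝ) • emb (fun i => (z i : K)) ∈ Dg K sg T R₁ R₂}.ncard : ℝ) *
        ((n : ℝ) ^ (4 * Module.finrank ℚ K) * cv K 4) -
      T ^ (4 * Module.finrank ℚ K) * vD K sg (R₁ / T ^ (4 * Module.finrank ℚ K))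
        (R₂ / T ^ (4 * Module.finrank ℚ K))| ≤
      C * (1 + T ^ (4 * Module.finrank ℚ K) / R₁) ^ A * (n / T) * T ^ (4 * Module.finrank ℚ K) := by
  obtain ⟨ρ, hρ, hlat⟩ := lat K 4
  obtain ⟨C₀, hC₀, hreg⟩ := reg_pert
  obtain ⟨C₁, hC₁, hlow⟩ := dg_low K sg
  obtain ⟨C₃, A₃, hC₃, hcont⟩ := vd_cont K sg
  obtain ⟨C₄, A₄, hC₄, hbd⟩ := vd_bd K sg
  obtain ⟨cb, hcb, hball⟩ := cnt_ball K
  obtain ⟨D, hD⟩ : ∃ D : ℕ, D = 4 * Module.finrank ℚ K := ⟨_, rfl⟩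
  obtain ⟨m, hm⟩ : ∃ m : ℕ, m = Module.finrank ℚ K := ⟨_, rfl⟩
  have hpert := @cnt_pert K _ _ sg C₀ C₁ hC₀ hC₁ hreg hlow
  rw [← hD] at hlow hball hpert ⊢
  rw [← hm] at hpert
  obtain ⟨L, hL⟩ : ∃ L : ℝ, L = 2 ^ (m + D) := ⟨_, rfl⟩
  have hL1 : 1 ≤ L := by
    rw [hL]
    exact one_le_pow₀ (by norm_num)
  obtain ⟨C₂, hC₂⟩ : ∃ C₂ : ℝ, C₂ = C₀ * ρ * C₁ ^ 5 := ⟨_, rfl⟩
  have hC₂0 : 0 < C₂ := by
    rw [hC₂]
    positivity
  refine ⟨L * (2 * C₄ + 4 * C₃) * C₂ + 16 * L * C₂ * (cb * (C₁ + ρ) ^ D + C₄) + 1, A₃ + A₄ + D + 5,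
    ?_, ?_⟩
  · have h1 : 0 ≤ L * (2 * C₄ + 4 * C₃) * C₂ := by positivity
    have h2 : 0 ≤ 16 * L * C₂ * (cb * (C₁ + ρ) ^ D + C₄) := by positivity
    linarith
  intro n T R₁ R₂ v hrv hn hnT hR₁ hR₂
  have hn1 : (1 : ℝ) ≤ n := by exact_mod_cast hn
  have hT : 0 < T := by linarith
  have hTD : 0 < T ^ D := by positivity
  obtain ⟨hlat1, hlat2⟩ := hlat n hn v hrv (Dg K sg T R₁ R₂)
  rw [← hD] at hlat1 hlat2
  have hlowT := hlow T R₁ R₂ hT hR₁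
  have hY1 : 1 ≤ 1 + T ^ D / R₁ := by
    have : 0 ≤ T ^ D / R₁ := by positivity
    linarith
  obtain ⟨Y, hY⟩ : ∃ Y : ℝ, Y = 1 + T ^ D / R₁ := ⟨_, rfl⟩
  rw [← hY] at hlowT hY1 ⊢
  have hρn : 0 ≤ ρ * n := by positivity
  -- the ball
  have hballin : ∀ x ∈ Dg K sg T R₁ R₂, Rl x → ∀ y : En K 4, Rl y → ‖y‖ ≤ ρ * n →
      x + y ∈ Metric.closedBall (0 : En K 4) ((C₁ + ρ) * (Y * T)) := by
    intro x hx _ y _ hy
    rw [mem_closedBall_zero_iff]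
    have h1 : ‖x‖ ≤ C₁ * (Y * T) := by
      refine (pi_norm_le_iff_of_nonneg (by positivity)).2 fun w =>
        (pi_norm_le_iff_of_nonneg (by positivity)).2 fun i => ?_
      have h2 := (hlowT x hx).2.1 w i
      have h3 : C₁ * Y * T ^ 2 ≤ (C₁ * (Y * T)) ^ 2 := by
        have h4 : 1 ≤ C₁ * Y := by nlinarith
        have h5 : C₁ * Y * T ^ 2 ≤ (C₁ * Y) * (C₁ * Y) * T ^ 2 :=
          mul_le_mul_of_nonneg_right (le_mul_of_one_le_left (by positivity) h4) (by positivity)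
        calc C₁ * Y * T ^ 2 ≤ (C₁ * Y) * (C₁ * Y) * T ^ 2 := h5
          _ = _ := by ring
      exact (pow_le_pow_iff_left₀ (norm_nonneg _) (by positivity) (by norm_num)).1 (h2.trans h3)
    have h2 : ρ * n ≤ ρ * (Y * T) := by
      refine mul_le_mul_of_nonneg_left ?_ (by linarith)
      nlinarith
    calc ‖x + y‖ ≤ ‖x‖ + ‖y‖ := norm_add_le _ _
      _ ≤ C₁ * (Y * T) + ρ * (Y * T) := by linarith
      _ = (C₁ + ρ) * (Y * T) := by ring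
  have hRad : 0 ≤ (C₁ + ρ) * (Y * T) := by positivity
  obtain ⟨hfin, hNball⟩ := hlat1 _ (hball _ hRad).1 hballin
  rw [(hball _ hRad).2] at hNball
  refine ⟨hfin, ?_⟩
  obtain ⟨N', hN'⟩ : ∃ N' : ℝ, N' = ({z : Fin 4 → 𝓞 K |
    v + (n : ℝ) • emb (fun i => (z i : K)) ∈ Dg K sg T R₁ R₂}.ncard : ℝ) * ((n : ℝ) ^ D * cv K 4) := ⟨_, rfl⟩
  have hN'0 : 0 ≤ N' := by
    rw [hN']
    have := cv_pos K 4
    positivity
  rw [← hN'] at hNball ⊢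
  have hz1 : 0 < R₁ / T ^ D := by positivity
  have hv := hbd (R₁ / T ^ D) (R₂ / T ^ D) hz1
  rw [one_div_div, ← hY] at hv
  obtain ⟨V, hV⟩ : ∃ V : ℝ, V = T ^ D * vD K sg (R₁ / T ^ D) (R₂ / T ^ D) := ⟨_, rfl⟩
  have hV0 : 0 ≤ V := by
    rw [hV]
    exact mul_nonneg hTD.le hv.1
  have hVle : V ≤ T ^ D * (C₄ * Y ^ A₄) := by
    rw [hV]
    exact mul_le_mul_of_nonneg_left hv.2 hTD.le
  obtain ⟨e, he⟩ : ∃ e : ℝ, e = C₂ * Y ^ 5 * (n / T) := ⟨_, rfl⟩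
  have he0 : 0 ≤ e := by
    rw [he]
    positivity
  have hθe : C₀ * (ρ * n) / ((1 / (C₁ * Y)) ^ 5 * T) = e := by
    rw [he, hC₂, one_div, inv_pow]
    field_simp
  have hA5 : Y ^ (A₃ + A₄) * Y ^ 5 ≤ Y ^ (A₃ + A₄ + D + 5) := by
    rw [← pow_add]
    exact pow_le_pow_right₀ hY1 (by omega)
  have hnTpos : 0 ≤ (n : ℝ) / T := by positivity
  by_cases hcase : 4 * (2 ^ (m + D) * e) ≤ 1 / 4
  · -- small e
    have he16 : e ≤ 1 / 16 := by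
      rw [← hL] at hcase
      nlinarith
    have hup : N' ≤ V + L * (2 * C₄ + 4 * C₃) * Y ^ (A₃ + A₄) * e * T ^ D := by
      have h1 := (hlat1 (Dg K sg (T * (1 + e)) (R₁ * (1 - e) ^ m) (R₂ * (1 + e) ^ m)) (dg_fin K sg (by positivity)
        (mul_pos hR₁ (pow_pos (by linarith) _))) ?_).2
      · have h2 := cnt_volup hC₃ hC₄ hcont hbd m D hD hT hR₁ hR₂ he0 hcase
        rw [hN', hV, hL, hY]
        exact h1.trans h2
      · intro x hx hxr y hyr hy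
        refine hpert (θ := 1 / (C₁ * Y)) (s := ρ * n) hT hR₁ (by positivity) ?_ hρn hθe.le (by linarith)
          hx hxr hyr hy
        rw [← hY, one_div_mul_cancel (by positivity)]
    have hlo : V - L * (2 * C₄ + 4 * C₃) * Y ^ (A₃ + A₄) * e * T ^ D ≤ N' := by
      have hq : 0 < (1 - 2 * e) ^ m := pow_pos (by linarith) _
      have h1 := hlat2 (Dg K sg (T / (1 + 2 * e)) (R₁ / (1 - 2 * e) ^ m) (R₂ / (1 + 2 * e) ^ m))
        (dg_fin K sg (by positivity) (div_pos hR₁ hq)) ?_ hfin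
      · have h2 := cnt_vollo hC₃ hC₄ hcont hbd m D hD hT hR₁ hR₂ he0 hcase
        rw [hN', hV, hL, hY]
        exact h2.trans h1
      · intro x hx hxr y hyr hy
        have h3 : T / (1 + 2 * e) ≤ T := div_le_self hT.le (by linarith)
        have h4 : R₁ ≤ R₁ / (1 - 2 * e) ^ m := by
          rw [le_div_iff₀ hq]
          exact mul_le_of_le_one_right hR₁.le (pow_le_one₀ (by linarith) (by linarith))
        have h5 : 1 + (T / (1 + 2 * e)) ^ D / (R₁ / (1 - 2 * e) ^ m) ≤ Y := by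
          rw [hY]
          have h6 : (T / (1 + 2 * e)) ^ D ≤ T ^ D := pow_le_pow_left₀ (by positivity) h3 D
          have h7 := div_le_div₀ hTD.le h6 hR₁ h4
          linarith
        have h8 : C₀ * (ρ * n) / ((1 / (C₁ * Y)) ^ 5 * (T / (1 + 2 * e))) ≤ 2 * e := by
          have h9 : C₀ * (ρ * n) / ((1 / (C₁ * Y)) ^ 5 * (T / (1 + 2 * e))) =
              C₀ * (ρ * n) / ((1 / (C₁ * Y)) ^ 5 * T) * (1 + 2 * e) := by
            field_simp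
          rw [h9, hθe]
          nlinarith
        have h10 := hpert (θ := 1 / (C₁ * Y)) (s := ρ * n) (e := 2 * e) (T := T / (1 + 2 * e))
          (R₁ := R₁ / (1 - 2 * e) ^ m) (R₂ := R₂ / (1 + 2 * e) ^ m) (by positivity) (div_pos hR₁ hq)
          (by positivity) ?_ hρn h8 (by linarith) hx hxr hyr hy
        · have e1 : T / (1 + 2 * e) * (1 + 2 * e) = T := div_mul_cancel₀ _ (by positivity)
          have e2 : R₁ / (1 - 2 * e) ^ m * (1 - 2 * e) ^ m = R₁ := div_mul_cancel₀ _ hq.ne'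
          have e3 : R₂ / (1 + 2 * e) ^ m * (1 + 2 * e) ^ m = R₂ := div_mul_cancel₀ _ (by positivity)
          rwa [e1, e2, e3] at h10
        · calc 1 / (C₁ * Y) * (C₁ * (1 + (T / (1 + 2 * e)) ^ D / (R₁ / (1 - 2 * e) ^ m)))
              ≤ 1 / (C₁ * Y) * (C₁ * Y) :=
                mul_le_mul_of_nonneg_left (mul_le_mul_of_nonneg_left h5 (by linarith)) (by positivity)
            _ = 1 := one_div_mul_cancel (by positivity)
    have hbound : L * (2 * C₄ + 4 * C₃) * Y ^ (A₃ + A₄) * e * T ^ D ≤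
        (L * (2 * C₄ + 4 * C₃) * C₂ + 16 * L * C₂ * (cb * (C₁ + ρ) ^ D + C₄) + 1) *
          Y ^ (A₃ + A₄ + D + 5) * (n / T) * T ^ D := by
      have h1 : L * (2 * C₄ + 4 * C₃) * Y ^ (A₃ + A₄) * e * T ^ D =
          (L * (2 * C₄ + 4 * C₃) * C₂) * (Y ^ (A₃ + A₄) * Y ^ 5) * (n / T) * T ^ D := by
        rw [he]
        ring
      rw [h1]
      refine mul_le_mul_of_nonneg_right (mul_le_mul_of_nonneg_right (mul_le_mul ?_ hA5 (by positivity)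
        (by positivity)) hnTpos) hTD.le
      have h2 : 0 ≤ 16 * L * C₂ * (cb * (C₁ + ρ) ^ D + C₄) := by positivity
      linarith
    rw [← hV, abs_le]
    constructor <;> linarith
  · -- large e
    rw [not_le, ← hL] at hcase
    have h16 : 1 ≤ 16 * L * C₂ * Y ^ 5 * (n / T) := by
      rw [he] at hcase
      nlinarith
    have hN2 : N' ≤ 16 * L * C₂ * (cb * (C₁ + ρ) ^ D) * Y ^ (A₃ + A₄ + D + 5) * (n / T) * T ^ D := by
      have h1 : cb * ((C₁ + ρ) * (Y * T)) ^ D ≤ (cb * (C₁ + ρ) ^ D * Y ^ D * T ^ D) *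
          (16 * L * C₂ * Y ^ 5 * (n / T)) := by
        have h2 : cb * ((C₁ + ρ) * (Y * T)) ^ D = cb * (C₁ + ρ) ^ D * Y ^ D * T ^ D := by
          rw [mul_pow, mul_pow]
          ring
        rw [h2]
        exact le_mul_of_one_le_right (by positivity) h16
      have h3 : Y ^ D * Y ^ 5 ≤ Y ^ (A₃ + A₄ + D + 5) := by
        rw [← pow_add]
        exact pow_le_pow_right₀ hY1 (by omega)
      refine hNball.trans (h1.trans ?_)
      calc (cb * (C₁ + ρ) ^ D * Y ^ D * T ^ D) * (16 * L * C₂ * Y ^ 5 * (n / T))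
          = 16 * L * C₂ * (cb * (C₁ + ρ) ^ D) * (Y ^ D * Y ^ 5) * (n / T) * T ^ D := by ring
        _ ≤ _ := mul_le_mul_of_nonneg_right (mul_le_mul_of_nonneg_right (mul_le_mul_of_nonneg_left h3
            (by positivity)) hnTpos) hTD.le
    have hV2 : V ≤ 16 * L * C₂ * C₄ * Y ^ (A₃ + A₄ + D + 5) * (n / T) * T ^ D := by
      have h1 : T ^ D * (C₄ * Y ^ A₄) ≤ T ^ D * (C₄ * Y ^ A₄) * (16 * L * C₂ * Y ^ 5 * (n / T)) :=
        le_mul_of_one_le_right (by positivity) h16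
      have h3 : Y ^ A₄ * Y ^ 5 ≤ Y ^ (A₃ + A₄ + D + 5) := by
        rw [← pow_add]
        exact pow_le_pow_right₀ hY1 (by omega)
      refine hVle.trans (h1.trans ?_)
      calc T ^ D * (C₄ * Y ^ A₄) * (16 * L * C₂ * Y ^ 5 * (n / T))
          = 16 * L * C₂ * C₄ * (Y ^ A₄ * Y ^ 5) * (n / T) * T ^ D := by ring
        _ ≤ _ := mul_le_mul_of_nonneg_right (mul_le_mul_of_nonneg_right (mul_le_mul_of_nonneg_left h3
            (by positivity)) hnTpos) hTD.le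
    have hX : 0 ≤ Y ^ (A₃ + A₄ + D + 5) * (n / T) * T ^ D := by positivity
    have hY5 : 0 ≤ (L * (2 * C₄ + 4 * C₃) * C₂ + 1) * (Y ^ (A₃ + A₄ + D + 5) * (n / T) * T ^ D) := by
      positivity
    have hsum : (L * (2 * C₄ + 4 * C₃) * C₂ + 16 * L * C₂ * (cb * (C₁ + ρ) ^ D + C₄) + 1) *
          Y ^ (A₃ + A₄ + D + 5) * (n / T) * T ^ D =
        16 * L * C₂ * (cb * (C₁ + ρ) ^ D) * Y ^ (A₃ + A₄ + D + 5) * (n / T) * T ^ D +
        16 * L * C₂ * C₄ * Y ^ (A₃ + A₄ + D + 5) * (n / T) * T ^ D +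
        (L * (2 * C₄ + 4 * C₃) * C₂ + 1) * (Y ^ (A₃ + A₄ + D + 5) * (n / T) * T ^ D) := by ring
    rw [← hV, abs_le, hsum]
    constructor <;> linarith

end H12.SQM
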