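import Pool.Agent.H97.SXM.Cyc
import Pool.Agent.H97.AQ.Ms3
import Pool.Agent.H67.AQ.Cfn

/-!
# [SQ CYC] The number of the cyclic cubic fields, every number field, 60-110 lines. File Pool/Agent/H12/SQM/Cyc.lean

If `K` contains a primitive cube root of unity `ω`: `H97.SXM.cyc_cnt`. Otherwise `No3 K` (`H67/AQ/Defs.lean`) and `H97.AQ.ms3` (`H97/AQ/Ms3.lean`) gives `S₀` such that for all `S ⊇ S₀` and all `Q : DP K QBar`: `MS3 S Q ∧ LF3 S Q`, and `H67.AQ.cnt3` (`H67/AQ/Cfn.lean`) bounds the number of the `χ ∈ H38.MT.Ch K` with `cf Q S χ ≤ X` by `C X`.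
Take `S = S₀ ∪ (primes over 3)`. As in `H97/SXM/Cyc.lean` (copy the private lemmas; `cyc_disc` holds for every finite `S` which contains the primes over 3: the only use is `v ∉ S → v` is not over 3): `c ↦ χ_c` injective from the Galois `c : Cb K` to `Ch K`, `cf Q S χ_c ^ 2 ≤ c.D`. So the number of the `c` with `c.D ≤ R` is `≤ C R^(1/2) ≤ C R^(2/3)`.
(Finiteness: `H67.AQ.cnt3` bounds the cardinality of every finite set `T` of such `χ`, so the set is finite.)
-/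

set_option autoImplicit false

open scoped NumberField Classical
open IsDedekindDomain NumberField H38.ML H63.MA H67.SX H77.MF H97.SXM

noncomputable section

namespace H12.SQM

private theorem cyc_card {K : IntermediateField ℚ QBar} [NumberField K] (c : Cb K) (h : IsGalois K c.F) :
    Nat.card Gal(c.F/K) = 3 := by
  rw [IsGalois.card_aut_eq_finrank, c.deg]

private theorem cyc_ch {K : IntermediateField ℚ QBar} [NumberField K] (c : Cb K) (h : IsGalois K c.F) :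
    ∃ χ : Gal(QBar/K) →* Multiplicative (ZMod 3), Function.Surjective χ ∧ χ.ker = c.F.fixingSubgroup := by
  have hgal : IsGalois K QBar := IsAlgClosure.isGalois K QBar
  have hp : Fact (Nat.Prime 3) := ⟨Nat.prime_three⟩
  have h3 : Nat.card (Multiplicative (ZMod 3)) = 3 := by
    rw [Nat.card_congr Multiplicative.toAdd, Nat.card_zmod]
  let e : Gal(c.F/K) ≃* Multiplicative (ZMod 3) := mulEquivOfPrimeCardEq (p := 3) (cyc_card c h) h3
  refine ⟨e.toMonoidHom.comp (AlgEquiv.restrictNormalHom c.F), ?_, ?_⟩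
  · exact e.surjective.comp (AlgEquiv.restrictNormalHom_surjective QBar)
  · rw [← IntermediateField.restrictNormalHom_ker c.F]
    ext σ
    rw [MonoidHom.mem_ker, MonoidHom.mem_ker]
    exact e.map_eq_one_iff

private theorem cyc_disc {K : IntermediateField ℚ QBar} [NumberField K] (c : Cb K) (h : IsGalois K c.F)
    (Q : DP K QBar) (χ : Gal(QBar/K) →* Multiplicative (ZMod 3)) (hχ : χ.ker = c.F.fixingSubgroup)
    (S : Finset (Pl K)) (hS : (H63.MA.finite_above (K := K) (p := 3) (by norm_num)).toFinset ⊆ S) :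
    H38.MT.cf Q S χ ^ 2 ≤ c.D := by
  have hnf : NumberField c.F := NumberField.of_module_finite K c.F
  have h1 := H63.MA.disc_low (Ω := QBar) Nat.prime_three c.F (fun s => by
    rw [← cyc_card c h]
    exact pow_card_eq_one') (H38.MT.rf Q S χ) (fun v hv => by
      have h2 : v ∈ H48.KV.RC Q S χ := by
        unfold H38.MT.rf at hv
        split_ifs at hv with h3
        · exact h3.mem_toFinset.1 hv
        · exact absurd hv (Finset.notMem_empty v)
      obtain ⟨h3, σ, h4, h5⟩ := h2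
      refine ⟨fun h6 => h3 ?_, Q.P v, σ, Q.prime v, Q.under v, h4, fun h6 => h5 ?_⟩
      · apply hS
        rw [Set.Finite.mem_toFinset]
        exact h6
      · rw [← hχ] at h6
        exact h6)
  have h2 : H38.ML.relDisc K c.F = Ideal.absNorm (differentIdeal (𝓞 K) (𝓞 c.F)) := by
    unfold H38.ML.relDisc
    rw [dif_pos hnf]
  rw [c.deg, Finset.prod_pow] at h1
  have h3 : (∏ v ∈ H38.MT.rf Q S χ, nm v) ^ 2 ≤ H38.ML.relDisc K c.F := by
    rw [h2]
    exact h1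
  show (∏ v ∈ H38.MT.rf Q S χ, (nm v : ℝ)) ^ 2 ≤ ((H38.ML.relDisc K c.F : ℕ) : ℝ)
  exact_mod_cast h3

private theorem cyc_fin {α : Type} (s : Set α) (B : ℝ) (h : ∀ T : Finset α, (∀ x ∈ T, x ∈ s) → (T.card : ℝ) ≤ B) :
    s.Finite ∧ (s.ncard : ℝ) ≤ B := by
  have hf : s.Finite := by
    by_contra hcon
    have hinf : s.Infinite := hcon
    obtain ⟨T, hT, hT2⟩ := hinf.exists_subset_card_eq (⌊B⌋₊ + 1)
    have h1 := h T (fun x hx => hT hx)
    rw [hT2] at h1
    have h2 := Nat.lt_floor_add_one B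
    push_cast at h1
    linarith
  refine ⟨hf, ?_⟩
  rw [Set.ncard_eq_toFinset_card s hf]
  exact h _ (fun x hx => hf.mem_toFinset.1 hx)

theorem cyc_all (K : IntermediateField ℚ QBar) [NumberField K] :
    ∃ C : ℝ, 1 ≤ C ∧ ∀ R : ℝ, 1 ≤ R → {c : Cb K | IsGalois K c.F ∧ c.D ≤ R}.Finite ∧
      ({c : Cb K | IsGalois K c.F ∧ c.D ≤ R}.ncard : ℝ) ≤ C * R ^ (2 / 3 : ℝ) := by
  by_cases hK : ∃ ω : K, IsPrimitiveRoot ω 3
  · obtain ⟨ω, hω⟩ := hK
    exact cyc_cnt K hω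
  have hN : H67.AQ.No3 K := fun ω hω => hK ⟨ω, hω⟩
  have hgal : IsGalois K QBar := IsAlgClosure.isGalois K QBar
  have hgl := fun v : Pl K => gloc_over K QBar v.asIdeal v.isPrime
  choose P hPp hPu using hgl
  let Q : DP K QBar := ⟨P, hPp, hPu⟩
  obtain ⟨S₀, hS₀⟩ := H97.AQ.ms3 hN
  obtain ⟨S, hSd⟩ : ∃ S, S = S₀ ∪ (H63.MA.finite_above (K := K) (p := 3) (by norm_num)).toFinset := ⟨_, rfl⟩
  obtain ⟨hm, hL⟩ := hS₀ S (by rw [hSd]; exact Finset.subset_union_left) Q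
  have hS3 : (H63.MA.finite_above (K := K) (p := 3) (by norm_num)).toFinset ⊆ S := by
    rw [hSd]
    exact Finset.subset_union_right
  obtain ⟨C, hC, hcnt⟩ := H67.AQ.cnt3 hm hL
  choose! f hf using fun c : Cb K => cyc_ch c
  refine ⟨C, hC, fun R hR => ?_⟩
  have hR0 : 0 < R := by linarith
  have hX : (1 : ℝ) ≤ R ^ (1 / 2 : ℝ) := Real.one_le_rpow hR (by norm_num)
  obtain ⟨h1, h2⟩ := cyc_fin {χ | χ ∈ H38.MT.Ch K ∧ H38.MT.cf Q S χ ≤ R ^ (1 / 2 : ℝ)}
    (C * R ^ (1 / 2 : ℝ)) (fun T hT => hcnt (R ^ (1 / 2 : ℝ)) hX T hT)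
  have hmaps : ∀ c ∈ {c : Cb K | IsGalois K c.F ∧ c.D ≤ R},
      f c ∈ {χ | χ ∈ H38.MT.Ch K ∧ H38.MT.cf Q S χ ≤ R ^ (1 / 2 : ℝ)} := by
    rintro c ⟨hg, hD⟩
    obtain ⟨h3, h4⟩ := hf c hg
    refine ⟨⟨⟨c.F, inferInstance, le_of_eq h4.symm⟩, h3⟩, ?_⟩
    have h5 := (cyc_disc c hg Q (f c) h4 S hS3).trans hD
    rw [← Real.sqrt_eq_rpow]
    exact Real.le_sqrt_of_sq_le h5
  have hinj : Set.InjOn f {c : Cb K | IsGalois K c.F ∧ c.D ≤ R} := by
    rintro c ⟨hg, -⟩ c' ⟨hg', -⟩ he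
    have h3 := (hf c hg).2
    have h4 := (hf c' hg').2
    rw [he, h4] at h3
    have h5 : c.F = c'.F := by
      rw [← InfiniteGalois.fixedField_fixingSubgroup c.F, ← h3, InfiniteGalois.fixedField_fixingSubgroup]
    obtain ⟨F, hF⟩ := c
    obtain ⟨F', hF'⟩ := c'
    have h6 : F = F' := h5
    subst h6
    rfl
  refine ⟨Set.Finite.of_injOn (t := {χ | χ ∈ H38.MT.Ch K ∧ H38.MT.cf Q S χ ≤ R ^ (1 / 2 : ℝ)}) hmaps hinj h1, ?_⟩
  have h3 := Set.ncard_le_ncard_of_injOn f hmaps hinj h1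
  have h4 : ({c : Cb K | IsGalois K c.F ∧ c.D ≤ R}.ncard : ℝ) ≤ C * R ^ (1 / 2 : ℝ) :=
    le_trans (by exact_mod_cast h3) h2
  refine h4.trans ?_
  exact mul_le_mul_of_nonneg_left (Real.rpow_le_rpow_of_exponent_le hR (by norm_num)) (by linarith)

end H12.SQM
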