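import Pool.Agent.H97.SXM.Wt
import Pool.Agent.H12.SQ.Defs

/-!
# SQM (MP_b39724_nt, SQ chapter M, the large ball over EVERY number field): definitions (complete)

`d = [K : ℚ]`, `mult w = 1` at the real, `2` at the complex places. Unchanged from `Pool/Agent/H97/SXM/Defs.lean` (which never uses that `K` is totally complex): `En, emb, D1, V1, Vg, nd, Red, nO, dn, kp, LQ, NP, cV, piQ, nQ, pre, KO, Od, RF, mM, RFS, OCS`, and everything of
`Pool/Agent/H77/MF`. A vector of `En K n` has complex coordinates also at the real places; the vectors with real coordinates at the real places are `Rl`.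
* `Em K n = (K ⊗ ℝ)^n`, `cx : Em K n → En K n` the inclusion; its image is `{x | Rl x}`. `nu K n` = the image under `cx` of the Lebesgue measure. `cv K n` = the covolume of `𝓞^n`.
* `sg : InfinitePlace K → Bool`: a sign pattern (only the values at the real places matter). `Sg sg x`: at every real place `sg w = true` iff `disc (x w) > 0`. `Dg K sg T R₁ R₂`: `D1` at all places, `Sg sg x` and `R₁ < ∏ ‖disc‖^mult ≤ R₂`. `vD K sg R₁ R₂` its volume for `T = 1`.
* `cR b`: volume of `{v ∈ ℝ² | V1 1 f v}` times `√|disc f|` for the real forms with positive (`b = true`: `xy(x+y)`) or negative (`b = false`: `x³+y³`) discriminant. `c1 w b` the constant of one place, `cF K sg` the constant of the field side.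
* `Sc sg c`: the field `c` has three places over the real place `w` iff `sg w = true` (else two places). `sgc c` the sign pattern of `c`.
* `dl, GQ, Fs, Ft, FT, Wt`: as in SXM, with `sg` and `cv` of this file. `gI` the weight with the infinite places.
-/

set_option autoImplicit false

open scoped NumberField Classical
open IsDedekindDomain NumberField MeasureTheory H38.ML H63.MA H67.SX H77.MF H97.SXM

noncomputable section

namespace H12.SQM

section an

variable {K : Type} [Field K] [NumberField K]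

/-- `(K ⊗ ℝ)^n` -/
abbrev Em (K : Type) [Field K] [NumberField K] (n : ℕ) : Type :=
  Fin n → mixedEmbedding.mixedSpace K

/-- the inclusion -/
def cx {n : ℕ} (y : Em K n) : En K n := fun w i =>
  if h : w.IsReal then (((y i).1 ⟨w, h⟩ : ℝ) : ℂ)
  else (y i).2 ⟨w, InfinitePlace.not_isReal_iff_isComplex.1 h⟩

/-- real coordinates at the real places -/
def Rl {n : ℕ} (x : En K n) : Prop := ∀ w : InfinitePlace K, w.IsReal → ∀ i, (x w i).im = 0

/-- the measure -/
def nu (K : Type) [Field K] [NumberField K] (n : ℕ) : Measure (En K n) :=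
  Measure.map (cx (K := K) (n := n)) volume

/-- the covolume of `𝓞^n` -/
def cv (K : Type) [Field K] [NumberField K] (n : ℕ) : ℝ :=
  (Real.sqrt |(discr K : ℝ)| / 2 ^ InfinitePlace.nrComplexPlaces K) ^ n

/-- the signs of the discriminant at the real places -/
def Sg (sg : InfinitePlace K → Bool) (x : En K 4) : Prop :=
  ∀ w : InfinitePlace K, w.IsReal → (sg w = true ↔ 0 < (disc (x w)).re)

/-- the region of the forms -/
def Dg (K : Type) [Field K] [NumberField K] (sg : InfinitePlace K → Bool) (T R₁ R₂ : ℝ) :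
    Set (En K 4) :=
  {x | (∀ w, D1 T (x w)) ∧ Sg sg x ∧ R₁ < ∏ w : InfinitePlace K, ‖disc (x w)‖ ^ w.mult ∧
    ∏ w : InfinitePlace K, ‖disc (x w)‖ ^ w.mult ≤ R₂}

/-- the volume -/
def vD (K : Type) [Field K] [NumberField K] (sg : InfinitePlace K → Bool) (R₁ R₂ : ℝ) : ℝ :=
  (nu K 4 (Dg K sg 1 R₁ R₂)).toReal

/-- the density of the lattice of the forms -/
def dl (Λ : Submodule (𝓞 K) (Fin 2 → K)) : ℝ :=
  ((nO K (ix Λ ^ 3) 4).toAddSubgroup.relIndex (VL Λ).toAddSubgroup : ℝ) /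
    (((ix Λ : ℝ) ^ 3) ^ (4 * Module.finrank ℚ K) * cv K 4)

/-- the main term of the form side -/
def GQ (sg : InfinitePlace K → Bool) (Q : Finset (Pl K)) (z₁ z₂ : ℝ) : ℝ :=
  ∑ᶠ Λ ∈ LQ Q, dl Λ * kp Q Λ * vD K sg ((ix Λ : ℝ) ^ 2 * z₁) ((ix Λ : ℝ) ^ 2 * z₂)

/-- the forms which are maximal on `Λ` -/
def Fs (sg : InfinitePlace K → Bool) (T R₁ R₂ : ℝ) (Λ : Submodule (𝓞 K) (Fin 2 → K)) :
    Set (Fin 4 → K) :=
  {f | f ∈ VL Λ ∧ emb f ∈ Dg K sg T (R₁ * (ix Λ : ℝ) ^ 2) (R₂ * (ix Λ : ℝ) ^ 2) ∧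
    (∀ v : Fin 2 → K, v ≠ 0 → ev f v ≠ 0) ∧ ∀ l : Pl K, f ∉ NM l Λ}

/-- the forms on `Λ` which are not maximal at a large prime outside `Q` -/
def Ft (sg : InfinitePlace K → Bool) (Q : Finset (Pl K)) (z T R₁ R₂ : ℝ)
    (Λ : Submodule (𝓞 K) (Fin 2 → K)) : Set (Fin 4 → K) :=
  {f | f ∈ VL Λ ∧ emb f ∈ Dg K sg T (R₁ * (ix Λ : ℝ) ^ 2) (R₂ * (ix Λ : ℝ) ^ 2) ∧
    (∀ v : Fin 2 → K, v ≠ 0 → ev f v ≠ 0) ∧ ∃ l : Pl K, l ∉ Q ∧ z < nm l ∧ f ∈ NM l Λ}

/-- `xy(x+y)`, discriminant 1 -/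
def fp : Fin 4 → ℝ := ![0, 1, 1, 0]

/-- `x³+y³`, discriminant -27 -/
def fm : Fin 4 → ℝ := ![1, 0, 0, 1]

/-- the region of one real place: `V1` for real vectors -/
def VR (T : ℝ) (f : Fin 4 → ℝ) : Set (Fin 2 → ℝ) :=
  {v | V1 T (fun i => (f i : ℂ)) (fun i => (v i : ℂ))}

/-- the constant of one real place -/
def cR (b : Bool) : ℝ :=
  if b = true then (volume (VR 1 fp)).toReal else Real.sqrt 27 * (volume (VR 1 fm)).toReal

/-- the constant of one place -/
def c1 (w : InfinitePlace K) (b : Bool) : ℝ := if w.IsReal then cR b else cV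

/-- the constant of the field side -/
def cF (K : Type) [Field K] [NumberField K] (sg : InfinitePlace K → Bool) : ℝ :=
  ((∏ w : InfinitePlace K, c1 w (sg w)) / cv K 2) ^ 2

/-- the number of the infinite places of `F` over `v` -/
def niF (K F : Type) [Field K] [Field F] [Algebra K F] (v : InfinitePlace K) : ℕ :=
  {w : InfinitePlace F | w.comap (algebraMap K F) = v}.ncard

end an

variable {K : IntermediateField ℚ QBar} [NumberField K]

/-- the field has the sign pattern `sg` -/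
def Sc (sg : InfinitePlace K → Bool) (c : Cb K) : Prop :=
  ∀ w : InfinitePlace K, w.IsReal → (sg w = true ↔ niF K c.F w = 3)

/-- the sign pattern of the field -/
def sgc (c : Cb K) (w : InfinitePlace K) : Bool := decide (niF K c.F w = 3)

/-- the forms in the ball `T` whose field has the discriminant in `(R₁, R₂]` and whose frame generates the lattice of the field at `Q` -/
def FT (sg : InfinitePlace K → Bool) (Q : Finset (Pl K)) (T R₁ R₂ : ℝ) : Set (Fin 4 → K) :=
  {f | NZ f ∧ (∀ p, D1 T (emb f p)) ∧ Sg sg (emb f) ∧ Lmx f ∈ LQ Q ∧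
    R₁ * (ix (Lmx f) : ℝ) ^ 2 < nd f ∧ nd f ≤ R₂ * (ix (Lmx f) : ℝ) ^ 2}

/-- a weight on the cubic fields of the sign pattern `sg` and the corresponding periodic weight on the forms -/
structure Wt (sg : InfinitePlace K → Bool) (Q : Finset (Pl K)) (J : Ideal (𝓞 K))
    (H : (Fin 4 → K) → ℝ) (g : Cb K → ℝ) (m : ℝ) : Prop where
  ne : J ≠ ⊥
  sub : ∀ l : Pl K, J ≤ l.asIdeal → l ∈ Q
  per : ∀ Λ ∈ LQ Q, Per (VL Λ) J H
  bd : ∀ f, |H f| ≤ 1
  zero : ∀ Λ ∈ LQ Q, ∀ l ∈ Q, ∀ f ∈ NM l Λ, H f = 0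
  mn : ∀ Λ ∈ LQ Q, mean (VL Λ) J H = m
  inv : ∀ c c' : Cb K, Nonempty (c.F ≃ₐ[K] c'.F) → g c = g c'
  gbd : ∀ c, |g c| ≤ 1
  gal : ∀ c : Cb K, IsGalois K c.F → g c = 0
  sgn : ∀ c : Cb K, ¬ Sc sg c → g c = 0
  eq : ∀ (f : Fin 4 → K) (x : Fr K), Lv f x.2 → ¬ IsGalois K x.1.F → Lmx f ∈ LQ Q →
    Sg sg (emb f) → H f = g x.1

end H12.SQM
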