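import Pool.Agent.H12.SQM.Fld
import Pool.Agent.H12.SQM.Cyc
import Pool.Agent.H12.SQM.Defs

/-!
# [SQM EQN] The equation between the two sides, 100-160 lines. File Pool/Agent/H97/SXM/Eqn.lean

`d = [K : ℚ]`, `y = T^(4d)/R₂ ≥ 1`, `R₁ ≥ R₂/2 ≥ 1/2`, `1 + T^(4d)/R₁ ≤ 3 y`, `F = FT sg Q T R₁ R₂` (finite: `ft_fin`). Let `(H, g)` be a weight (`Wt sg Q J H g m`), `1 ≤ nQ Q`, `1 ≤ absNorm J`.
(1) `form_side`: `|∑_{f ∈ F} H f - m T^(4d) GQ sg Q (R₁/T^(4d)) (R₂/T^(4d))| ≤ C (absNorm J · 3 y)^A T^(4d) T^(-η)`.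
(2) For `f ∈ F` put `g' f = (frf f).elim 0 (fun x => g x.1)`. `NZ f`, so there is a frame (`recov`) and `frf f = some x` with `Lv f x.2`. If `x.1.F` is not Galois over `K`: `H f = g x.1 = g' f` (`Wt.eq`). If it is Galois: `g' f = 0` (`Wt.gal`) and `|H f| ≤ 1`. So `|∑_F H f - ∑_F g' f| ≤ ∑_F (frf f).elim 0 (fun x => γ x.1)` with `γ c = if IsGalois K c.F then 1 else 0`
(invariant under isomorphisms: `IsGalois.of_algEquiv`), and by `fld_up` 3 times this is `≤ C T^(4d) ∑_{c Galois, R₁ < c.D ≤ R₂} 1/c.D ≤ C T^(4d) (2/R₂) C R₂^(2/3)` (`cyc_cnt`) `= C T^(4d) R₂^(-1/3)`.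
(3) `fld_side`: `|3 ∑_F g' f - piQ cF T^(4d) BB g R₁ R₂| ≤ C nQ^A T^(4d) y^(-η)`.
Add `3 (1) + 3 (2) + (3)` and divide by `T^(4d)`; take the largest of the constants and exponents `A`, the smallest of the `η`, `≤ 1/3`. (`y ≥ 1`, `T ≥ 1`, `R₂ ≥ 1`, so the errors are monotone in the exponents.)
`bb_bd`: `|BB g R₁ R₂| ≤ #{c : c.D ≤ R₂} / R₁ ≤ C R₂/R₁ ≤ 2 C` (`cb_fin`), `|g| ≤ 1`.
`eqn_pos`: `H, g ≥ 0`: by (1), (2) and `fld_up` for `g`: `3 m GQ sg Q (R₁/T^(4d)) (R₂/T^(4d)) ≤ C BB g R₁ R₂ + C (absNorm J)^A (T^(4d)/R₂)^A T^(-η) + C R₂^(-1/3)`.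
-/

set_option autoImplicit false

open scoped NumberField Classical
open IsDedekindDomain NumberField H38.ML H63.MA H67.SX H77.MF H97.SXM

noncomputable section

namespace H12.SQM

/-- a sum over a window whose support lies in a finite set -/
private theorem win_le {K : IntermediateField ℚ QBar} [NumberField K] {g : Cb K → ℝ}
    (hg : ∀ c, |g c| ≤ 1) {R₁ R₂ : ℝ} (h0 : 0 < R₁) {s : Set (Cb K)} (hs : s.Finite)
    (hsub : ∀ c, c.D ≤ R₂ → g c ≠ 0 → c ∈ s) : |H97.SXM.BB g R₁ R₂| ≤ (s.ncard : ℝ) / R₁ := by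
  set t : Finset (Cb K) := hs.toFinset.filter (fun c => R₁ < c.D ∧ c.D ≤ R₂) with ht
  have e : H97.SXM.BB g R₁ R₂ = ∑ c ∈ t, g c / c.D := by
    unfold H97.SXM.BB
    apply finsum_mem_eq_sum_of_inter_support_eq
    ext c
    simp only [Set.mem_inter_iff, Set.mem_ofPred_eq, Function.mem_support, ht, Finset.coe_filter,
      Set.Finite.mem_toFinset]
    constructor
    · rintro ⟨h1, h2⟩
      refine ⟨⟨hsub c h1.2 ?_, h1⟩, h2⟩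
      intro h3
      exact h2 (by rw [h3, zero_div])
    · rintro ⟨⟨_, h1⟩, h2⟩
      exact ⟨h1, h2⟩
  rw [e]
  have h1 : |∑ c ∈ t, g c / c.D| ≤ ∑ c ∈ t, 1 / R₁ := by
    refine le_trans (Finset.abs_sum_le_sum_abs _ _) (Finset.sum_le_sum fun c hc => ?_)
    rw [ht, Finset.mem_filter] at hc
    have hD : 0 < c.D := lt_trans h0 hc.2.1
    rw [abs_div, abs_of_pos hD]
    exact div_le_div₀ zero_le_one (hg c) h0 hc.2.1.le
  refine le_trans h1 ?_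
  rw [Finset.sum_const, nsmul_eq_mul, mul_one_div]
  have h2 : (t.card : ℝ) ≤ s.ncard := by
    rw [Set.ncard_eq_toFinset_card _ hs]
    exact_mod_cast Finset.card_filter_le _ _
  exact div_le_div_of_nonneg_right h2 h0.le

theorem bb_bd (K : IntermediateField ℚ QBar) [NumberField K] {κ : ℝ} (hR : RFS K κ)
    (hO : OCS K κ) : ∃ C : ℝ, 1 ≤ C ∧ ∀ (g : Cb K → ℝ) (R₁ R₂ : ℝ), (∀ c, |g c| ≤ 1) → 1 ≤ R₂ →
    R₁ ≤ R₂ → R₂ ≤ 2 * R₁ → |H97.SXM.BB g R₁ R₂| ≤ C := by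
  obtain ⟨C, hC, h⟩ := cb_fin K hR hO
  refine ⟨2 * C, by linarith, fun g R₁ R₂ hg h2 h12 h21 => ?_⟩
  have h0 : 0 < R₁ := by linarith
  obtain ⟨hf, hc⟩ := h R₂ h2
  refine le_trans (win_le hg h0 hf (fun c hc _ => hc)) ?_
  rw [div_le_iff₀ h0]
  nlinarith

/-- the indicator of the Galois fields -/
private def gm {K : IntermediateField ℚ QBar} [NumberField K] (c : Cb K) : ℝ :=
  if IsGalois K c.F then 1 else 0

private theorem gm_inv {K : IntermediateField ℚ QBar} [NumberField K] (c c' : Cb K)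
    (h : Nonempty (c.F ≃ₐ[K] c'.F)) : gm c = gm c' := by
  obtain ⟨σ⟩ := h
  unfold gm
  by_cases h1 : IsGalois K c.F
  · have h2 : IsGalois K c'.F := IsGalois.of_algEquiv σ
    rw [if_pos h1, if_pos h2]
  · have h2 : ¬ IsGalois K c'.F := fun h3 => h1 (IsGalois.of_algEquiv σ.symm)
    rw [if_neg h1, if_neg h2]

/-- comparison of the two weights -/
private theorem cmp {K : IntermediateField ℚ QBar} [NumberField K] {sg : InfinitePlace K → Bool}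
    {Q : Finset (Pl K)} {J : Ideal (𝓞 K)} {H : (Fin 4 → K) → ℝ} {g : Cb K → ℝ} {m : ℝ}
    (hW : Wt sg Q J H g m) {T R₁ R₂ : ℝ} (hT : 1 ≤ T) (h0 : 0 < R₁) (h12 : R₁ ≤ R₂) :
    |(∑ᶠ f ∈ FT sg Q T R₁ R₂, H f) -
        ∑ᶠ f ∈ FT sg Q T R₁ R₂, (frf f).elim 0 (fun x => g x.1)| ≤
      ∑ᶠ f ∈ FT sg Q T R₁ R₂, (frf f).elim 0 (fun x => gm x.1) := by
  have hfin := ft_fin K (sg := sg) (Q := Q) hT h0 h12
  rw [finsum_mem_eq_finite_toFinset_sum _ hfin, finsum_mem_eq_finite_toFinset_sum _ hfin,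
    finsum_mem_eq_finite_toFinset_sum _ hfin, ← Finset.sum_sub_distrib]
  refine le_trans (Finset.abs_sum_le_sum_abs _ _) (Finset.sum_le_sum fun f hf => ?_)
  rw [Set.Finite.mem_toFinset] at hf
  obtain ⟨hN, -, hSg, hL, -⟩ := hf
  have h3 := (recov hN).1
  have hx : ∃ x : Fr K, Lv f x.2 := by
    have h4 : {x : (c : Cb K) × (Fin 2 → c.F) | Lv f x.2}.Nonempty := by
      rw [Set.nonempty_iff_ne_empty]
      intro h5
      rw [h5, Set.ncard_empty] at h3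
      omega
    exact h4
  have e : frf f = some hx.choose := by
    unfold frf
    rw [dif_pos hx]
  rw [e]
  simp only [Option.elim_some]
  by_cases h5 : IsGalois K hx.choose.1.F
  · rw [hW.gal _ h5, sub_zero]
    unfold gm
    rw [if_pos h5]
    exact hW.bd f
  · rw [hW.eq f hx.choose hx.choose_spec h5 hL hSg, sub_self, abs_zero]
    unfold gm
    rw [if_neg h5]

/-- the sum over the Galois fields -/
private theorem gsum (K : IntermediateField ℚ QBar) [NumberField K]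
    (sg : InfinitePlace K → Bool) {κ : ℝ} (hκ : 1 ≤ κ) (hR : RFS K κ) (hO : OCS K κ) :
    ∃ C : ℝ, 1 ≤ C ∧ ∀ (Q : Finset (Pl K)) (T R₁ R₂ : ℝ), 1 ≤ T → 1 ≤ R₂ → R₁ ≤ R₂ →
      R₂ ≤ 2 * R₁ →
      3 * (∑ᶠ f ∈ FT sg Q T R₁ R₂, (frf f).elim 0 (fun x => gm x.1)) ≤
        C * T ^ (4 * Module.finrank ℚ K) * R₂ ^ (-(1 / 3) : ℝ) := by
  obtain ⟨C₁, h1, hu⟩ := fld_up K sg hκ hR hO
  obtain ⟨C₂, h2, hc⟩ := cyc_all K
  refine ⟨2 * (C₁ * C₂), by nlinarith, fun Q T R₁ R₂ hT hR2 h12 h21 => ?_⟩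
  have h0 : 0 < R₁ := by linarith
  have hg : ∀ c : Cb K, |gm c| ≤ 1 := fun c => by
    unfold gm
    split_ifs <;> simp
  have h3 := hu Q gm T R₁ R₂ gm_inv (fun c => by unfold gm; split_ifs <;> norm_num)
    (fun c => le_trans (le_abs_self _) (hg c)) hT h0 h12
  refine le_trans h3 ?_
  obtain ⟨hf, hn⟩ := hc R₂ hR2
  have h4 : |H97.SXM.BB (gm (K := K)) R₁ R₂| ≤ _ := win_le hg h0 hf (fun c hc hne => by
    refine ⟨?_, hc⟩
    by_contra h5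
    exact hne (if_neg h5))
  have h5 : H97.SXM.BB (gm (K := K)) R₁ R₂ ≤ 2 * C₂ * R₂ ^ (-(1 / 3) : ℝ) := by
    refine le_trans (le_abs_self _) (le_trans h4 ?_)
    rw [div_le_iff₀ h0]
    have hp : R₂ ^ (2 / 3 : ℝ) = R₂ ^ (-(1 / 3) : ℝ) * R₂ := by
      rw [← Real.rpow_add_one (by linarith : R₂ ≠ 0)]
      norm_num
    rw [hp] at hn
    have h6 : 0 < R₂ ^ (-(1 / 3) : ℝ) := Real.rpow_pos_of_pos (by linarith) _
    have h7 : C₂ * (R₂ ^ (-(1 / 3) : ℝ) * R₂) ≤ C₂ * (R₂ ^ (-(1 / 3) : ℝ) * (2 * R₁)) :=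
      mul_le_mul_of_nonneg_left (mul_le_mul_of_nonneg_left h21 h6.le) (by linarith)
    linarith
  have h8 : 0 ≤ C₁ * T ^ (4 * Module.finrank ℚ K) := by positivity
  have h9 := mul_le_mul_of_nonneg_left h5 h8
  have e : C₁ * T ^ (4 * Module.finrank ℚ K) * (2 * C₂ * R₂ ^ (-(1 / 3) : ℝ)) =
      2 * (C₁ * C₂) * T ^ (4 * Module.finrank ℚ K) * R₂ ^ (-(1 / 3) : ℝ) := by ring
  rw [← e]
  exact h9

private theorem nQ_one {K : Type} [Field K] [NumberField K] (Q : Finset (Pl K)) : 1 ≤ nQ Q := by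
  unfold nQ
  have h : ∏ l ∈ Q, (1 : ℝ) ≤ ∏ l ∈ Q, (nm l : ℝ) := by
    refine Finset.prod_le_prod (fun _ _ => zero_le_one) fun l _ => ?_
    have h : nm l ≠ 0 := by
      unfold nm
      exact fun h => l.ne_bot (Ideal.absNorm_eq_zero_iff.1 h)
    exact_mod_cast Nat.one_le_iff_ne_zero.2 h
  rwa [Finset.prod_const_one] at h

private theorem rp_anti {x a b : ℝ} (hx : 1 ≤ x) (h : a ≤ b) : x ^ (-b) ≤ x ^ (-a) :=
  Real.rpow_le_rpow_of_exponent_le hx (by linarith)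

theorem eqn (K : IntermediateField ℚ QBar) [NumberField K]
    (sg : InfinitePlace K → Bool) {κ : ℝ} (hκ : 1 ≤ κ) (hR : RFS K κ) (hO : OCS K κ) :
    ∃ (C : ℝ) (A : ℕ) (η : ℝ), 1 ≤ C ∧ 0 < η ∧ η ≤ 1 ∧
    ∀ (Q : Finset (Pl K)) (J : Ideal (𝓞 K)) (H : (Fin 4 → K) → ℝ) (g : Cb K → ℝ)
      (m T R₁ R₂ : ℝ), Wt sg Q J H g m → 1 ≤ T → 1 ≤ R₂ → R₁ ≤ R₂ → R₂ ≤ 2 * R₁ →
    R₂ ≤ T ^ (4 * Module.finrank ℚ K) →
    |3 * m * GQ sg Q (R₁ / T ^ (4 * Module.finrank ℚ K)) (R₂ / T ^ (4 * Module.finrank ℚ K)) -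
        piQ Q * cF K sg * H97.SXM.BB g R₁ R₂| ≤
      C * (nQ Q * Ideal.absNorm J) ^ A * ((T ^ (4 * Module.finrank ℚ K) / R₂) ^ A * T ^ (-η) +
        (T ^ (4 * Module.finrank ℚ K) / R₂) ^ (-η) + R₂ ^ (-η)) := by
  obtain ⟨C₁, A₁, η₁, hC₁, hη₁, hη₁', hF⟩ := form_side K sg hκ hR hO
  obtain ⟨C₂, hC₂, hG⟩ := gsum K sg hκ hR hO
  obtain ⟨C₃, A₃, η₃, hC₃, hη₃, hη₃', hS⟩ := fld_side K sg hκ hR hO
  refine ⟨3 * C₁ * 3 ^ A₁ + C₂ + C₃, A₁ + A₃, min (min η₁ η₃) (1 / 3), ?_, ?_, ?_, ?_⟩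
  · have : (0 : ℝ) ≤ 3 * C₁ * 3 ^ A₁ := by positivity
    linarith
  · exact lt_min (lt_min hη₁ hη₃) (by norm_num)
  · exact le_trans (min_le_right _ _) (by norm_num)
  intro Q J H g m T R₁ R₂ hW hT hR2 h12 h21 hR2T
  set d := Module.finrank ℚ K with hd
  set P : ℝ := T ^ (4 * d) with hP
  set η : ℝ := min (min η₁ η₃) (1 / 3) with hη
  have h0 : 0 < R₁ := by linarith
  have hR0 : 0 < R₂ := by linarith
  have hP0 : 0 < P := by positivity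
  have hT0 : 0 < T := by linarith
  have hy1 : 1 ≤ P / R₂ := by rw [one_le_div hR0]; exact hR2T
  have hJ1 : (1 : ℝ) ≤ Ideal.absNorm J := by
    have : Ideal.absNorm J ≠ 0 := fun h => hW.ne (Ideal.absNorm_eq_zero_iff.1 h)
    exact_mod_cast Nat.one_le_iff_ne_zero.2 this
  have hQ1 : 1 ≤ nQ Q := nQ_one Q
  have a1 := hF Q J H m T R₁ R₂ hW.ne hW.sub hW.per hW.bd hW.zero hW.mn hT hR2 h12 h21
  have a2 := hG Q T R₁ R₂ hT hR2 h12 h21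
  have a3 := hS Q g T R₁ R₂ hW.inv hW.gbd hW.sgn hT hR2 h12 h21 hR2T
  have a4 := cmp hW hT h0 h12
  change |_ - m * (P * GQ sg Q (R₁ / P) (R₂ / P))| ≤ C₁ * (_ * (1 + P / R₁)) ^ A₁ * (P * _) at a1
  change |_ - piQ Q * cF K sg * (P * H97.SXM.BB g R₁ R₂)| ≤ C₃ * nQ Q ^ A₃ * (P * (P / R₂) ^ (-η₃)) at a3
  change _ ≤ C₂ * P * _ at a2
  set y : ℝ := P / R₂ with hy
  -- the three errors
  have hyy : 1 + P / R₁ ≤ 3 * y := by
    have : P / R₁ ≤ 2 * y := by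
      rw [hy, div_le_iff₀ h0]
      have : 2 * (P / R₂) * R₁ = P * (2 * R₁) / R₂ := by ring
      rw [this, le_div_iff₀ hR0]
      exact mul_le_mul_of_nonneg_left h21 hP0.le
    linarith
  have hPR : 0 < P / R₁ := div_pos hP0 h0
  have b1 : ((Ideal.absNorm J : ℝ) * (1 + P / R₁)) ^ A₁ ≤
      3 ^ A₁ * ((nQ Q * Ideal.absNorm J) ^ (A₁ + A₃) * y ^ (A₁ + A₃)) := by
    have c1 : ((Ideal.absNorm J : ℝ) * (1 + P / R₁)) ^ A₁ ≤
        ((Ideal.absNorm J : ℝ) * (3 * y)) ^ A₁ :=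
      pow_le_pow_left₀ (by positivity) (mul_le_mul_of_nonneg_left hyy (by linarith)) _
    have c2 : ((Ideal.absNorm J : ℝ) * (3 * y)) ^ A₁ = 3 ^ A₁ * ((Ideal.absNorm J : ℝ) * y) ^ A₁ := by
      rw [← mul_pow]
      ring
    have c3 : ((Ideal.absNorm J : ℝ) * y) ^ A₁ ≤
        (nQ Q * Ideal.absNorm J * y) ^ (A₁ + A₃) := by
      refine le_trans (pow_le_pow_right₀ ?_ (Nat.le_add_right A₁ A₃))
        (pow_le_pow_left₀ (by positivity) ?_ _)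
      · exact one_le_mul_of_one_le_of_one_le hJ1 hy1
      · have : (Ideal.absNorm J : ℝ) * y * 1 ≤ (Ideal.absNorm J : ℝ) * y * nQ Q :=
          mul_le_mul_of_nonneg_left hQ1 (by positivity)
        linarith
    rw [mul_pow (nQ Q * (Ideal.absNorm J : ℝ)) y] at c3
    rw [c2] at c1
    exact le_trans c1 (mul_le_mul_of_nonneg_left c3 (by positivity))
  have b2 : T ^ (-η₁) ≤ T ^ (-η) :=
    rp_anti hT (le_trans (min_le_left _ _) (min_le_left _ _))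
  have b3 : y ^ (-η₃) ≤ y ^ (-η) :=
    rp_anti hy1 (le_trans (min_le_left _ _) (min_le_right _ _))
  have b4 : R₂ ^ (-(1 / 3) : ℝ) ≤ R₂ ^ (-η) :=
    rp_anti hR2 (min_le_right _ _)
  have hN1 : 1 ≤ (nQ Q * Ideal.absNorm J) ^ (A₁ + A₃) :=
    one_le_pow₀ (one_le_mul_of_one_le_of_one_le hQ1 hJ1)
  have b5 : nQ Q ^ A₃ ≤ (nQ Q * Ideal.absNorm J) ^ (A₁ + A₃) := by
    refine le_trans (pow_le_pow_right₀ hQ1 (Nat.le_add_left A₃ A₁))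
      (pow_le_pow_left₀ (by positivity) ?_ _)
    exact le_mul_of_one_le_right (by linarith) hJ1
  set N : ℝ := (nQ Q * Ideal.absNorm J) ^ (A₁ + A₃) with hN
  have p1 : 0 < T ^ (-η) := Real.rpow_pos_of_pos hT0 _
  have p2 : 0 < y ^ (-η) := Real.rpow_pos_of_pos (by linarith) _
  have p3 : 0 < R₂ ^ (-η) := Real.rpow_pos_of_pos hR0 _
  have p4 : 0 < y ^ (A₁ + A₃) := by positivity
  have e1 : C₁ * ((Ideal.absNorm J : ℝ) * (1 + P / R₁)) ^ A₁ * (P * T ^ (-η₁)) ≤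
      C₁ * 3 ^ A₁ * (N * y ^ (A₁ + A₃) * T ^ (-η)) * P := by
    have c1 : ((Ideal.absNorm J : ℝ) * (1 + P / R₁)) ^ A₁ * T ^ (-η₁) ≤
        3 ^ A₁ * (N * y ^ (A₁ + A₃)) * T ^ (-η) :=
      mul_le_mul b1 b2 (Real.rpow_pos_of_pos hT0 _).le (by positivity)
    have c2 := mul_le_mul_of_nonneg_left c1 (by positivity : (0 : ℝ) ≤ C₁ * P)
    calc _ = C₁ * P * (((Ideal.absNorm J : ℝ) * (1 + P / R₁)) ^ A₁ * T ^ (-η₁)) := by ring
      _ ≤ _ := c2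
      _ = _ := by ring
  have e2 : C₂ * P * R₂ ^ (-(1 / 3) : ℝ) ≤ C₂ * (N * R₂ ^ (-η)) * P := by
    have c1 : R₂ ^ (-(1 / 3) : ℝ) ≤ N * R₂ ^ (-η) :=
      le_trans b4 (le_mul_of_one_le_left p3.le hN1)
    have c2 := mul_le_mul_of_nonneg_left c1 (by positivity : (0 : ℝ) ≤ C₂ * P)
    calc _ ≤ _ := c2
      _ = _ := by ring
  have e3 : C₃ * nQ Q ^ A₃ * (P * y ^ (-η₃)) ≤ C₃ * (N * y ^ (-η)) * P := by
    have c1 : nQ Q ^ A₃ * y ^ (-η₃) ≤ N * y ^ (-η) :=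
      mul_le_mul b5 b3 (Real.rpow_pos_of_pos (by linarith) _).le (by positivity)
    have c2 := mul_le_mul_of_nonneg_left c1 (by positivity : (0 : ℝ) ≤ C₃ * P)
    calc _ = C₃ * P * (nQ Q ^ A₃ * y ^ (-η₃)) := by ring
      _ ≤ _ := c2
      _ = _ := by ring
  have key : |3 * m * GQ sg Q (R₁ / P) (R₂ / P) - piQ Q * cF K sg * H97.SXM.BB g R₁ R₂| * P ≤
      3 * (C₁ * ((Ideal.absNorm J : ℝ) * (1 + P / R₁)) ^ A₁ * (P * T ^ (-η₁))) +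
      C₂ * P * R₂ ^ (-(1 / 3) : ℝ) + C₃ * nQ Q ^ A₃ * (P * y ^ (-η₃)) := by
    rw [← abs_of_pos hP0, ← abs_mul, abs_of_pos hP0]
    rw [abs_le] at a1 a3 a4 ⊢
    constructor <;> linarith [a1.1, a1.2, a3.1, a3.2, a4.1, a4.2, a2]
  refine le_of_mul_le_mul_right (le_trans key ?_) hP0
  have q1 : 0 ≤ N * (y ^ (A₁ + A₃) * T ^ (-η)) := by positivity
  have q2 : 0 ≤ N * y ^ (-η) := by positivity
  have q3 : 0 ≤ N * R₂ ^ (-η) := by positivity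
  have q4 : 0 ≤ C₁ * 3 ^ A₁ := by positivity
  have fin : 3 * (C₁ * 3 ^ A₁ * (N * y ^ (A₁ + A₃) * T ^ (-η))) + C₂ * (N * R₂ ^ (-η)) +
      C₃ * (N * y ^ (-η)) ≤ (3 * C₁ * 3 ^ A₁ + C₂ + C₃) * N *
        (y ^ (A₁ + A₃) * T ^ (-η) + y ^ (-η) + R₂ ^ (-η)) := by
    have r1 : 0 ≤ (C₂ + C₃) * (N * (y ^ (A₁ + A₃) * T ^ (-η))) := by positivity
    have r2 : 0 ≤ (3 * (C₁ * 3 ^ A₁) + C₂) * (N * y ^ (-η)) := by positivity
    have r3 : 0 ≤ (3 * (C₁ * 3 ^ A₁) + C₃) * (N * R₂ ^ (-η)) := by positivity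
    nlinarith [r1, r2, r3]
  have fin2 := mul_le_mul_of_nonneg_right fin hP0.le
  refine le_trans ?_ fin2
  linarith [e1, e2, e3]

theorem eqn_pos (K : IntermediateField ℚ QBar) [NumberField K]
    (sg : InfinitePlace K → Bool) {κ : ℝ} (hκ : 1 ≤ κ) (hR : RFS K κ) (hO : OCS K κ) :
    ∃ (C : ℝ) (A : ℕ) (η : ℝ), 1 ≤ C ∧ 0 < η ∧ η ≤ 1 ∧
    ∀ (Q : Finset (Pl K)) (J : Ideal (𝓞 K)) (H : (Fin 4 → K) → ℝ) (g : Cb K → ℝ)
      (m T R₁ R₂ : ℝ), Wt sg Q J H g m → (∀ c, 0 ≤ g c) → 1 ≤ T → 1 ≤ R₂ → R₁ ≤ R₂ → R₂ ≤ 2 * R₁ →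
    R₂ ≤ T ^ (4 * Module.finrank ℚ K) →
    3 * m * GQ sg Q (R₁ / T ^ (4 * Module.finrank ℚ K)) (R₂ / T ^ (4 * Module.finrank ℚ K)) ≤
      C * H97.SXM.BB g R₁ R₂ + C * (Ideal.absNorm J : ℝ) ^ A *
        ((T ^ (4 * Module.finrank ℚ K) / R₂) ^ A * T ^ (-η) + R₂ ^ (-η)) := by
  obtain ⟨C₁, A₁, η₁, hC₁, hη₁, hη₁', hF⟩ := form_side K sg hκ hR hO
  obtain ⟨C₂, hC₂, hG⟩ := gsum K sg hκ hR hO
  obtain ⟨C₃, hC₃, hS⟩ := fld_up K sg hκ hR hO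
  refine ⟨3 * C₁ * 3 ^ A₁ + C₂ + C₃, A₁, min η₁ (1 / 3), ?_, ?_, ?_, ?_⟩
  · have : (0 : ℝ) ≤ 3 * C₁ * 3 ^ A₁ := by positivity
    linarith
  · exact lt_min hη₁ (by norm_num)
  · exact le_trans (min_le_right _ _) (by norm_num)
  intro Q J H g m T R₁ R₂ hW hg0 hT hR2 h12 h21 hR2T
  set d := Module.finrank ℚ K with hd
  set P : ℝ := T ^ (4 * d) with hP
  set η : ℝ := min η₁ (1 / 3) with hη
  have h0 : 0 < R₁ := by linarith
  have hR0 : 0 < R₂ := by linarith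
  have hP0 : 0 < P := by positivity
  have hT0 : 0 < T := by linarith
  have hy1 : 1 ≤ P / R₂ := by rw [one_le_div hR0]; exact hR2T
  have hJ1 : (1 : ℝ) ≤ Ideal.absNorm J := by
    have : Ideal.absNorm J ≠ 0 := fun h => hW.ne (Ideal.absNorm_eq_zero_iff.1 h)
    exact_mod_cast Nat.one_le_iff_ne_zero.2 this
  have a1 := hF Q J H m T R₁ R₂ hW.ne hW.sub hW.per hW.bd hW.zero hW.mn hT hR2 h12 h21
  have a2 := hG Q T R₁ R₂ hT hR2 h12 h21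
  have a3 := hS Q g T R₁ R₂ hW.inv hg0 (fun c => le_trans (le_abs_self _) (hW.gbd c)) hT h0 h12
  have a4 := cmp hW hT h0 h12
  change |_ - m * (P * GQ sg Q (R₁ / P) (R₂ / P))| ≤ C₁ * (_ * (1 + P / R₁)) ^ A₁ * (P * _) at a1
  change _ ≤ C₃ * P * H97.SXM.BB g R₁ R₂ at a3
  change _ ≤ C₂ * P * _ at a2
  set y : ℝ := P / R₂ with hy
  have hyy : 1 + P / R₁ ≤ 3 * y := by
    have : P / R₁ ≤ 2 * y := by
      rw [hy, div_le_iff₀ h0]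
      have : 2 * (P / R₂) * R₁ = P * (2 * R₁) / R₂ := by ring
      rw [this, le_div_iff₀ hR0]
      exact mul_le_mul_of_nonneg_left h21 hP0.le
    linarith
  have hPR : 0 < P / R₁ := div_pos hP0 h0
  have b1 : ((Ideal.absNorm J : ℝ) * (1 + P / R₁)) ^ A₁ ≤
      3 ^ A₁ * ((Ideal.absNorm J : ℝ) ^ A₁ * y ^ A₁) := by
    have c1 : ((Ideal.absNorm J : ℝ) * (1 + P / R₁)) ^ A₁ ≤
        ((Ideal.absNorm J : ℝ) * (3 * y)) ^ A₁ :=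
      pow_le_pow_left₀ (by positivity) (mul_le_mul_of_nonneg_left hyy (by linarith)) _
    have c2 : ((Ideal.absNorm J : ℝ) * (3 * y)) ^ A₁ =
        3 ^ A₁ * ((Ideal.absNorm J : ℝ) ^ A₁ * y ^ A₁) := by
      rw [← mul_pow, ← mul_pow]
      ring
    rw [c2] at c1
    exact c1
  have b2 : T ^ (-η₁) ≤ T ^ (-η) := rp_anti hT (min_le_left _ _)
  have b4 : R₂ ^ (-(1 / 3) : ℝ) ≤ R₂ ^ (-η) := rp_anti hR2 (min_le_right _ _)
  have hN1 : 1 ≤ (Ideal.absNorm J : ℝ) ^ A₁ := one_le_pow₀ hJ1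
  set N : ℝ := (Ideal.absNorm J : ℝ) ^ A₁ with hN
  have p1 : 0 < T ^ (-η) := Real.rpow_pos_of_pos hT0 _
  have p3 : 0 < R₂ ^ (-η) := Real.rpow_pos_of_pos hR0 _
  have p4 : 0 < y ^ A₁ := by positivity
  have hB : 0 ≤ H97.SXM.BB g R₁ R₂ := by
    unfold H97.SXM.BB
    exact finsum_nonneg fun c => finsum_nonneg fun hc =>
      div_nonneg (hg0 c) (lt_trans h0 hc.1).le
  have e1 : C₁ * ((Ideal.absNorm J : ℝ) * (1 + P / R₁)) ^ A₁ * (P * T ^ (-η₁)) ≤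
      C₁ * 3 ^ A₁ * (N * y ^ A₁ * T ^ (-η)) * P := by
    have c1 : ((Ideal.absNorm J : ℝ) * (1 + P / R₁)) ^ A₁ * T ^ (-η₁) ≤
        3 ^ A₁ * (N * y ^ A₁) * T ^ (-η) :=
      mul_le_mul b1 b2 (Real.rpow_pos_of_pos hT0 _).le (by positivity)
    have c2 := mul_le_mul_of_nonneg_left c1 (by positivity : (0 : ℝ) ≤ C₁ * P)
    calc _ = C₁ * P * (((Ideal.absNorm J : ℝ) * (1 + P / R₁)) ^ A₁ * T ^ (-η₁)) := by ring
      _ ≤ _ := c2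
      _ = _ := by ring
  have e2 : C₂ * P * R₂ ^ (-(1 / 3) : ℝ) ≤ C₂ * (N * R₂ ^ (-η)) * P := by
    have c1 : R₂ ^ (-(1 / 3) : ℝ) ≤ N * R₂ ^ (-η) :=
      le_trans b4 (le_mul_of_one_le_left p3.le hN1)
    have c2 := mul_le_mul_of_nonneg_left c1 (by positivity : (0 : ℝ) ≤ C₂ * P)
    calc _ ≤ _ := c2
      _ = _ := by ring
  have key : 3 * m * GQ sg Q (R₁ / P) (R₂ / P) * P ≤ C₃ * P * H97.SXM.BB g R₁ R₂ +
      3 * (C₁ * ((Ideal.absNorm J : ℝ) * (1 + P / R₁)) ^ A₁ * (P * T ^ (-η₁))) +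
      C₂ * P * R₂ ^ (-(1 / 3) : ℝ) := by
    rw [abs_le] at a1 a4
    linarith [a1.1, a1.2, a4.1, a4.2, a2, a3]
  refine le_of_mul_le_mul_right (le_trans key ?_) hP0
  have fin : C₃ * H97.SXM.BB g R₁ R₂ + 3 * (C₁ * 3 ^ A₁ * (N * y ^ A₁ * T ^ (-η))) +
      C₂ * (N * R₂ ^ (-η)) ≤ (3 * C₁ * 3 ^ A₁ + C₂ + C₃) * H97.SXM.BB g R₁ R₂ +
        (3 * C₁ * 3 ^ A₁ + C₂ + C₃) * N * (y ^ A₁ * T ^ (-η) + R₂ ^ (-η)) := by
    have r1 : 0 ≤ (3 * (C₁ * 3 ^ A₁) + C₂) * H97.SXM.BB g R₁ R₂ := by positivity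
    have r2 : 0 ≤ (C₂ + C₃) * (N * (y ^ A₁ * T ^ (-η))) := by positivity
    have r3 : 0 ≤ (3 * (C₁ * 3 ^ A₁) + C₃) * (N * R₂ ^ (-η)) := by positivity
    nlinarith [r1, r2, r3]
  have fin2 := mul_le_mul_of_nonneg_right fin hP0.le
  refine le_trans ?_ fin2
  linarith [e1, e2]

end H12.SQM
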