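import Pool.Agent.H12.SQM.Defs
import Pool.Agent.H77.MF.Exp

/-!
# [SQ SGN] The sign of the discriminant of a frame form and the infinite places of the field, 120-200 lines. File Pool/Agent/H12/SQM/Sgn.lean

Let `F = c.F`, `v` an infinite place of `K` with embedding `σ = v.embedding : K → ℂ`.
`ni_cases`. The infinite places `w` of `F` over `v` (`w.comap (algebraMap K F) = v`) correspond to the embeddings `τ : F → ℂ` with `τ ∘ algebraMap = σ` or `= conj σ`, modulo conjugation. If `v` is complex: every such place has exactly one embedding over `σ`: `3 = [F : K]` places. If `v` is real: the three embeddings over `σ` are permuted by conjugation;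
`niF = #(real ones) + #(conjugate pairs)`: 3 (all real) or 2 (one real, one pair); the number of the real ones is odd, because 3 is odd. (Mathlib: `NumberField.InfinitePlace.mk_eq_iff`, `InfinitePlace.comap`, `comap_mk`; number of the extensions: `Field.Embeddings`, `AlgHom.card`, for `F →ₐ[K] ℂ` with the algebra structure given by `σ` (`σ.toAlgebra`), `[F:K] = 3`.)
`disc_sq`: for a frame `(f, u)` (`Lv f u`) and `σ`, with `τ₁, τ₂, τ₃` the three embeddings over `σ`: `σ (disc f) = Δ²`, `Δ = det (1, τ_i (u 0), τ_i (u 1))`. PROOF: the form `f` has over `ℂ` the factorization ..; direct: the trace form: `disc f = det (Tr(e_i e_j))` for the basis `e = (1, u 0, u 1)` (from the multiplication table `Lv`: `Tr 1 = 3`, `Tr (u 0) = -b`, `Tr (u 1) = c`, ..: the matrix is explicit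
and its determinant is `disc f` by `ring`), and `Algebra.discr_eq_det_embeddingsMatrixReindex_pow_two` (Mathlib: `discr = det² `). There may be a lemma in `H77/MF` (search `discr`, `trace`, `FrA`, `Lf`, `Ds1`: `disc_ix` uses such a formula), reuse it.
`sc_iff`. `v` real. If the three embeddings over `σ` are real: `Δ` is real and `≠ 0`, `disc > 0`. If `τ₁` is real and `τ₃ = conj τ₂`: conjugation exchanges two rows of the matrix, so `conj Δ = -Δ`: `Δ` is purely imaginary, `Δ² < 0`. So `0 < (disc (emb f v)).re ↔ niF = 3` (`emb f v = fun i => σ (f i)`, `disc` commutes with `σ`; `disc f ≠ 0` because `F` is a separable field extension).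
`sc_iso`: an isomorphism `s : c.F ≃ₐ[K] c'.F` gives a bijection of the infinite places over `v` (`InfinitePlace.comap` with `s`).
-/

set_option autoImplicit false

open scoped NumberField Classical
open IsDedekindDomain NumberField H38.ML H63.MA H67.SX H77.MF H97.SXM

noncomputable section

namespace H12.SQM

section gen

variable {K F : Type} [Field K] [Field F] [Algebra K F]

private theorem three [CharZero K] (hd : Module.finrank K F = 3) (σ : K →+* ℂ) :
    ∃ τ : Fin 3 → (F →+* ℂ), Function.Injective τ ∧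
      (∀ i, (τ i).comp (algebraMap K F) = σ) ∧
      ∀ ρ : F →+* ℂ, ρ.comp (algebraMap K F) = σ → ∃ i, τ i = ρ := by
  let _ : Algebra K ℂ := σ.toAlgebra
  have hf : FiniteDimensional K F := FiniteDimensional.of_finrank_pos (by rw [hd]; norm_num)
  have hcard : Fintype.card (F →ₐ[K] ℂ) = 3 := by rw [AlgHom.card K F ℂ, hd]
  let e : Fin 3 ≃ (F →ₐ[K] ℂ) := (Fintype.equivFinOfCardEq hcard).symm
  refine ⟨fun i => (e i : F →+* ℂ), ?_, ?_, ?_⟩
  · intro i j hij
    exact e.injective (AlgHom.coe_ringHom_injective hij)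
  · intro i
    ext x
    exact (e i).commutes x
  · intro ρ hρ
    refine ⟨e.symm ⟨ρ, fun x => RingHom.congr_fun hρ x⟩, ?_⟩
    ext x
    simp

private theorem disc_sq [CharZero K] (hd : Module.finrank K F = 3) {σ : K →+* ℂ}
    {τ : Fin 3 → (F →+* ℂ)} (hi : Function.Injective τ)
    (hτ : ∀ i, (τ i).comp (algebraMap K F) = σ) {f : Fin 4 → K} {u : Fin 2 → F} (h : Lv f u) :
    σ (disc f) = ((τ 1 (u 0) - τ 0 (u 0)) * (τ 2 (u 1) - τ 0 (u 1)) -
        (τ 2 (u 0) - τ 0 (u 0)) * (τ 1 (u 1) - τ 0 (u 1))) ^ 2 := by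
  let _ : Algebra K ℂ := σ.toAlgebra
  have h1 := (lv_emb hd (Ω := ℂ) h
    (τ := fun i => (⟨τ i, fun x => RingHom.congr_fun (hτ i) x⟩ : F →ₐ[K] ℂ)) (by
      intro i j hij
      apply hi
      have h2 := congrArg (fun g : F →ₐ[K] ℂ => (g : F →+* ℂ)) hij
      exact h2)).2.2.1
  exact h1

private theorem per3 : ∀ g : Fin 3 → Fin 3, (∀ i, g (g i) = i) → ∃ s : Fin 3 → Fin 3,
    Function.Injective s ∧ Function.Surjective s ∧
      ((∀ i, g (s i) = s i) ∨ (g (s 0) = s 0 ∧ g (s 1) = s 2 ∧ g (s 2) = s 1)) := by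
  decide

private theorem surj (v : InfinitePlace K) (w : InfinitePlace F)
    (hw : w.comap (algebraMap K F) = v) : ∃ τ : F →+* ℂ,
    τ.comp (algebraMap K F) = v.embedding ∧ InfinitePlace.mk τ = w := by
  have h1 : InfinitePlace.mk (w.embedding.comp (algebraMap K F)) = InfinitePlace.mk v.embedding := by
    rw [← InfinitePlace.comap_mk, InfinitePlace.mk_embedding, hw, InfinitePlace.mk_embedding]
  rcases InfinitePlace.mk_eq_iff.1 h1 with h2 | h2
  · exact ⟨w.embedding, h2, InfinitePlace.mk_embedding w⟩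
  · refine ⟨ComplexEmbedding.conjugate w.embedding, ?_, ?_⟩
    · rw [← h2]
      rfl
    · rw [InfinitePlace.mk_conjugate_eq, InfinitePlace.mk_embedding]

private theorem set_eq (v : InfinitePlace K) {τ : Fin 3 → (F →+* ℂ)}
    (h1 : ∀ i, (τ i).comp (algebraMap K F) = v.embedding)
    (h2 : ∀ ρ : F →+* ℂ, ρ.comp (algebraMap K F) = v.embedding → ∃ i, τ i = ρ) :
    {w : InfinitePlace F | w.comap (algebraMap K F) = v} =
      Set.range fun i => InfinitePlace.mk (τ i) := by
  ext w
  rw [Set.mem_ofPred_eq, Set.mem_range]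
  constructor
  · intro hw
    obtain ⟨ρ, h3, h4⟩ := surj v w hw
    obtain ⟨i, hi⟩ := h2 ρ h3
    exact ⟨i, by rw [hi, h4]⟩
  · rintro ⟨i, rfl⟩
    rw [InfinitePlace.comap_mk, h1, InfinitePlace.mk_embedding]

private theorem ncard_range {α : Type} {g : Fin 3 → α} (hg : Function.Injective g) :
    (Set.range g).ncard = 3 := by
  rw [← Set.image_univ, Set.ncard_image_of_injective _ hg, Set.ncard_univ, Nat.card_fin]

/-- complex places -/
private theorem ni_cplx [CharZero K] (hd : Module.finrank K F = 3) (v : InfinitePlace K)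
    (hv : ¬ v.IsReal) : niF K F v = 3 := by
  obtain ⟨τ, hi, h1, h2⟩ := three hd v.embedding
  unfold niF
  rw [set_eq v h1 h2]
  refine ncard_range fun i j hij => ?_
  rcases InfinitePlace.mk_eq_iff.1 hij with h3 | h3
  · exact hi h3
  · refine absurd ?_ hv
    rw [InfinitePlace.isReal_iff, ComplexEmbedding.isReal_iff]
    conv_lhs => rw [← h1 i]
    rw [← h1 j, ← h3]
    rfl

/-- real places: three real embeddings or one real and one pair -/
private theorem ni_real [CharZero K] (hd : Module.finrank K F = 3) (v : InfinitePlace K)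
    (hv : v.IsReal) : ∃ τ : Fin 3 → (F →+* ℂ), Function.Injective τ ∧
      (∀ i, (τ i).comp (algebraMap K F) = v.embedding) ∧
      (((∀ i, ComplexEmbedding.conjugate (τ i) = τ i) ∧ niF K F v = 3) ∨
        (ComplexEmbedding.conjugate (τ 0) = τ 0 ∧ ComplexEmbedding.conjugate (τ 1) = τ 2 ∧
          niF K F v = 2)) := by
  obtain ⟨τ, hi, h1, h2⟩ := three hd v.embedding
  have hc : ComplexEmbedding.conjugate v.embedding = v.embedding :=
    InfinitePlace.conjugate_embedding_eq_of_isReal hv
  have h3 : ∀ i, ∃ j, τ j = ComplexEmbedding.conjugate (τ i) := by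
    intro i
    refine h2 _ ?_
    conv_rhs => rw [← hc, ← h1 i]
    rfl
  choose g hg using h3
  have hgg : ∀ i, g (g i) = i := by
    intro i
    apply hi
    rw [hg, hg]
    exact ComplexEmbedding.involutive_conjugate F (τ i)
  obtain ⟨s, hs, hsu, hs2⟩ := per3 g hgg
  have hi' : Function.Injective fun i => τ (s i) := hi.comp hs
  have h2' : ∀ ρ : F →+* ℂ, ρ.comp (algebraMap K F) = v.embedding → ∃ i, τ (s i) = ρ := by
    intro ρ hρ
    obtain ⟨i, h4⟩ := h2 ρ hρ
    obtain ⟨j, rfl⟩ := hsu i
    exact ⟨j, h4⟩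
  refine ⟨fun i => τ (s i), hi', fun i => h1 _, ?_⟩
  have hset := set_eq v (τ := fun i => τ (s i)) (fun i => h1 _) h2'
  rcases hs2 with h4 | ⟨h4, h5, h6⟩
  · left
    have h7 : ∀ i, ComplexEmbedding.conjugate (τ (s i)) = τ (s i) := by
      intro i
      rw [← hg, h4]
    refine ⟨h7, ?_⟩
    unfold niF
    rw [hset]
    refine ncard_range fun i j hij => ?_
    rcases InfinitePlace.mk_eq_iff.1 hij with h8 | h8
    · exact hi' h8
    · rw [h7] at h8
      exact hi' h8
  · right
    have h7 : ComplexEmbedding.conjugate (τ (s 0)) = τ (s 0) := by rw [← hg, h4]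
    have h8 : ComplexEmbedding.conjugate (τ (s 1)) = τ (s 2) := by rw [← hg, h5]
    refine ⟨h7, h8, ?_⟩
    unfold niF
    have h9 : (Set.range fun i => InfinitePlace.mk (τ (s i))) =
        {InfinitePlace.mk (τ (s 0)), InfinitePlace.mk (τ (s 1))} := by
      ext w
      rw [Set.mem_range, Set.mem_insert_iff, Set.mem_singleton_iff]
      constructor
      · rintro ⟨i, rfl⟩
        fin_cases i
        · exact Or.inl rfl
        · exact Or.inr rfl
        · right
          change InfinitePlace.mk (τ (s 2)) = _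
          rw [← h8, InfinitePlace.mk_conjugate_eq]
      · rintro (rfl | rfl)
        · exact ⟨0, rfl⟩
        · exact ⟨1, rfl⟩
    rw [hset, h9, Set.ncard_pair]
    intro h10
    rcases InfinitePlace.mk_eq_iff.1 h10 with h11 | h11
    · exact absurd (hi' h11) (by decide)
    · rw [h7] at h11
      exact absurd (hi' h11) (by decide)

private theorem re_pos {z : ℂ} (hz : (starRingEnd ℂ) z = z) (h0 : z ≠ 0) : 0 < (z ^ 2).re := by
  obtain ⟨r, rfl⟩ := Complex.conj_eq_iff_real.1 hz
  have h1 : r ≠ 0 := by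
    intro h
    apply h0
    rw [h, Complex.ofReal_zero]
  rw [← Complex.ofReal_pow, Complex.ofReal_re]
  positivity

private theorem re_neg {z : ℂ} (hz : (starRingEnd ℂ) z = -z) : ¬ 0 < (z ^ 2).re := by
  have h1 : z.re = 0 := by
    have h2 := congrArg Complex.re hz
    rw [Complex.conj_re, Complex.neg_re] at h2
    linarith
  rw [pow_two, Complex.mul_re, h1]
  nlinarith [mul_self_nonneg z.im]

private theorem sg_gen [CharZero K] (hd : Module.finrank K F = 3) {f : Fin 4 → K} {u : Fin 2 → F}
    (h : Lv f u) (v : InfinitePlace K) (hv : v.IsReal) :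
    0 < (v.embedding (disc f)).re ↔ niF K F v = 3 := by
  obtain ⟨τ, hi, h1, h2⟩ := ni_real (F := F) hd v hv
  have h3 := disc_sq hd hi h1 h
  have h4 : v.embedding (disc f) ≠ 0 := (map_ne_zero _).2 (lv_disc hd h).2
  rw [h3] at h4 ⊢
  rcases h2 with ⟨h5, h6⟩ | ⟨h5, h6, h7⟩
  · rw [h6]
    refine iff_of_true (re_pos ?_ (fun h0 => h4 (by rw [h0]; simp))) rfl
    have hr : ∀ i x, (starRingEnd ℂ) (τ i x) = τ i x := fun i x => by
      conv_rhs => rw [← h5 i]
      rfl
    simp only [map_sub, map_mul, hr]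
  · rw [h7]
    refine iff_of_false (re_neg ?_) (by norm_num)
    have h0 : ∀ x, (starRingEnd ℂ) (τ 0 x) = τ 0 x := fun x => by
      conv_rhs => rw [← h5]
      rfl
    have h12 : ∀ x, (starRingEnd ℂ) (τ 1 x) = τ 2 x := fun x => by
      rw [← h6]
      rfl
    have h21 : ∀ x, (starRingEnd ℂ) (τ 2 x) = τ 1 x := fun x => by
      rw [← h12, Complex.conj_conj]
    simp only [map_sub, map_mul, h0, h12, h21]
    ring

end gen

variable {K : IntermediateField ℚ QBar} [NumberField K]

theorem ni_cases (c : Cb K) (v : InfinitePlace K) : (¬ v.IsReal → niF K c.F v = 3) ∧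
    (v.IsReal → niF K c.F v = 3 ∨ niF K c.F v = 2) := by
  refine ⟨fun hv => ni_cplx c.deg v hv, fun hv => ?_⟩
  obtain ⟨τ, -, -, h | h⟩ := ni_real (F := c.F) c.deg v hv
  · exact Or.inl h.2
  · exact Or.inr h.2.2

theorem sg_iff (c : Cb K) {f : Fin 4 → K} {u : Fin 2 → c.F} (h : Lv f u) (v : InfinitePlace K)
    (hv : v.IsReal) : 0 < (disc (emb f v)).re ↔ niF K c.F v = 3 := by
  have h1 : disc (emb f v) = v.embedding (disc f) := by
    unfold disc emb
    simp only [map_add, map_sub, map_mul, map_pow, map_ofNat]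
  rw [h1]
  exact sg_gen c.deg h v hv

theorem sc_iff (c : Cb K) {f : Fin 4 → K} {u : Fin 2 → c.F} (h : Lv f u)
    (sg : InfinitePlace K → Bool) : Sg sg (emb f) ↔ Sc sg c := by
  constructor
  · intro h1 w hw
    rw [h1 w hw, sg_iff c h w hw]
  · intro h1 w hw
    rw [h1 w hw, ← sg_iff c h w hw]

theorem ni_iso {c c' : Cb K} (h : Nonempty (c.F ≃ₐ[K] c'.F)) (v : InfinitePlace K) :
    niF K c.F v = niF K c'.F v := by
  obtain ⟨s⟩ := h
  unfold niF
  have h1 : ∀ {F F' : Type} [Field F] [Field F'] [Algebra K F] [Algebra K F'] (s : F ≃ₐ[K] F'),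
      ((s : F →ₐ[K] F') : F →+* F').comp (algebraMap K F) = algebraMap K F' := by
    intro F F' _ _ _ _ s
    exact (s : F →ₐ[K] F').comp_algebraMap
  refine Set.ncard_congr (fun w _ => w.comap ((s.symm : c'.F →ₐ[K] c.F) : c'.F →+* c.F)) ?_ ?_ ?_
  · intro w hw
    rw [Set.mem_ofPred_eq] at hw ⊢
    rw [← InfinitePlace.comap_comp, h1, hw]
  · intro w w' _ _ hww
    have h2 := congrArg (fun y : InfinitePlace c'.F => y.comap ((s : c.F →ₐ[K] c'.F) : c.F →+* c'.F)) hww
    simp only [← InfinitePlace.comap_comp] at h2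
    have h3 : (((s.symm : c'.F →ₐ[K] c.F) : c'.F →+* c.F).comp
        ((s : c.F →ₐ[K] c'.F) : c.F →+* c'.F)) = RingHom.id _ := by
      ext x
      simp
    rw [h3, InfinitePlace.comap_id, InfinitePlace.comap_id] at h2
    exact h2
  · intro w hw
    rw [Set.mem_ofPred_eq] at hw
    refine ⟨w.comap ((s : c.F →ₐ[K] c'.F) : c.F →+* c'.F), ?_, ?_⟩
    · rw [Set.mem_ofPred_eq, ← InfinitePlace.comap_comp, h1, hw]
    · rw [← InfinitePlace.comap_comp]
      have h3 : (((s : c.F →ₐ[K] c'.F) : c.F →+* c'.F).comp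
          ((s.symm : c'.F →ₐ[K] c.F) : c'.F →+* c.F)) = RingHom.id _ := by
        ext x
        simp
      rw [h3, InfinitePlace.comap_id]

theorem sc_iso {c c' : Cb K} (h : Nonempty (c.F ≃ₐ[K] c'.F)) (sg : InfinitePlace K → Bool) :
    Sc sg c ↔ Sc sg c' := by
  unfold Sc
  simp only [ni_iso h]

theorem sc_sgc (c c' : Cb K) : Sc (sgc c) c' ↔ ∀ v, niF K c.F v = niF K c'.F v := by
  constructor
  · intro h v
    by_cases hv : v.IsReal
    · have h1 := h v hv
      rw [sgc, decide_eq_true_iff] at h1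
      rcases (ni_cases c v).2 hv with h2 | h2 <;> rcases (ni_cases c' v).2 hv with h3 | h3
      · rw [h2, h3]
      · rw [h3] at h1
        exact absurd (h1.1 h2) (by norm_num)
      · rw [h2] at h1
        exact absurd (h1.2 h3) (by norm_num)
      · rw [h2, h3]
    · rw [(ni_cases c v).1 hv, (ni_cases c' v).1 hv]
  · intro h v _
    rw [sgc, decide_eq_true_iff, h v]

end H12.SQM
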