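import Pool.Agent.H12.SQM.VecV
import Pool.Agent.H12.SQM.Lat

/-!
# [SQ VECC] Vectors of a class `v + n 𝓞²` in the region of a reduced form, for every number field (port of H97/SXM/VecC.lean)

`Sg sg (emb f)`, the class `v` has real coordinates at the real places, the constant is `∏ w, c1 w (sg w)` and `C` does not depend on `sg`.
-/

set_option autoImplicit false

open scoped NumberField Classical
open IsDedekindDomain NumberField MeasureTheory H38.ML H63.MA H67.SX H77.MF H97.SXM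

noncomputable section

namespace H12.SQM

private theorem bern (x : ℝ) (hx : 0 ≤ x) (m : ℕ) : (1 + x) ^ m ≤ 1 + m * x * (1 + x) ^ m := by
  induction m with
  | zero => simp
  | succ m ih =>
    have h1 : (1 : ℝ) ≤ 1 + x := by linarith
    have h2 : (0 : ℝ) ≤ (1 + x) ^ m := by positivity
    have h3 : (1 + x) ^ m ≤ (1 + x) ^ (m + 1) := pow_le_pow_right₀ h1 (by omega)
    have h4 : (1 + x) ^ (m + 1) = (1 + x) ^ m + x * (1 + x) ^ m := by ring
    have h5 : ((m + 1 : ℕ) : ℝ) * x * (1 + x) ^ m ≤ ((m + 1 : ℕ) : ℝ) * x * (1 + x) ^ (m + 1) :=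
      mul_le_mul_of_nonneg_left h3 (by positivity)
    push_cast at h5 ⊢
    nlinarith

private theorem vec_cnt1 (K : Type) [Field K] [NumberField K] {κ : ℝ} (hκ : 1 ≤ κ)
    (sg : InfinitePlace K → Bool) :
    ∃ C : ℝ, 1 ≤ C ∧ ∀ (n : ℕ) (T T₁ T₂ : ℝ) (f : Fin 4 → K) (v : En K 2), 1 ≤ n → 0 < T →
    Red κ T₁ T₂ f → n * T₂ ≤ T → Rl v → Sg sg (emb f) →
    {z : Fin 2 → 𝓞 K | v + (n : ℝ) • emb (fun i => (z i : K)) ∈ Vg K f T}.Finite ∧
    |({z : Fin 2 → 𝓞 K | v + (n : ℝ) • emb (fun i => (z i : K)) ∈ Vg K f T}.ncard : ℝ) *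
        ((n : ℝ) ^ (2 * Module.finrank ℚ K) * cv K 2) -
      (∏ w : InfinitePlace K, c1 w (sg w)) * T ^ (2 * Module.finrank ℚ K) / Real.sqrt (nd f)| ≤
      C * (n * T₂ / T) * (T ^ (2 * Module.finrank ℚ K) / Real.sqrt (nd f)) := by
  obtain ⟨C₁, hC₁, hpert⟩ := v1_pert hκ
  obtain ⟨ρ, hρ, hlat⟩ := lat K 2
  obtain ⟨d, hd⟩ : ∃ d, d = Module.finrank ℚ K := ⟨_, rfl⟩
  obtain ⟨c, hc⟩ : ∃ c, c = ∏ w : InfinitePlace K, c1 w (sg w) := ⟨_, rfl⟩
  obtain ⟨a, ha⟩ : ∃ a, a = C₁ * ρ := ⟨_, rfl⟩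
  have hc0 : 0 < c := by
    rw [hc]
    exact Finset.prod_pos fun w _ => c1_pos w _
  have ha1 : 1 ≤ a := by
    rw [ha]
    exact one_le_mul_of_one_le_of_one_le hC₁ hρ
  have ha0 : 0 < a := by linarith
  have hρ0 : 0 < ρ := by linarith
  have hC0 : 0 < C₁ := by linarith
  rw [← hd, ← hc]
  rw [← hd] at hlat
  obtain ⟨E1, hE1⟩ : ∃ E1, E1 = c * (((2 * d : ℕ) : ℝ) * a * (1 + a) ^ (2 * d)) := ⟨_, rfl⟩
  obtain ⟨E2, hE2⟩ : ∃ E2, E2 = c * (ρ * (ρ * (1 + C₁)) ^ (2 * d)) := ⟨_, rfl⟩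
  obtain ⟨E3, hE3⟩ : ∃ E3, E3 = c * (((2 * d : ℕ) : ℝ) * a) := ⟨_, rfl⟩
  obtain ⟨E4, hE4⟩ : ∃ E4, E4 = c * (2 * a) := ⟨_, rfl⟩
  have h10 : 0 ≤ E1 := by rw [hE1]; positivity
  have h20 : 0 ≤ E2 := by rw [hE2]; positivity
  have h30 : 0 ≤ E3 := by rw [hE3]; positivity
  have h40 : 0 ≤ E4 := by rw [hE4]; positivity
  refine ⟨1 + (E1 + E2 + E3 + E4), by linarith, ?_⟩
  intro n T T₁ T₂ f v hn hT hred hnT hRv hSg
  have hT₂ : 1 ≤ T₂ := hred.one.trans hred.le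
  have hT₂0 : 0 < T₂ := by linarith
  have hn1 : (1 : ℝ) ≤ n := by exact_mod_cast hn
  have hn0 : (0 : ℝ) < n := by linarith
  have hdisc : disc f ≠ 0 := by
    intro h0
    obtain ⟨σ⟩ : Nonempty (K →+* ℂ) := inferInstance
    have h1 := hred.lo σ
    rw [h0, map_zero, norm_zero, mul_zero] at h1
    have h2 : 0 < (T₁ * T₂) ^ 2 := by
      have := hred.one
      positivity
    linarith
  obtain ⟨Y, hY⟩ : ∃ Y, Y = T ^ (2 * d) / Real.sqrt (nd f) := ⟨_, rfl⟩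
  have hY0 : 0 ≤ Y := by
    rw [hY]
    positivity
  obtain ⟨q, hq⟩ : ∃ q, q = n * T₂ / T := ⟨_, rfl⟩
  have hq0 : 0 < q := by
    rw [hq]
    positivity
  have hq1 : q ≤ 1 := by
    rw [hq, div_le_one hT]
    exact hnT
  have hnq : n * T₂ = q * T := by
    rw [hq, div_mul_cancel₀ _ hT.ne']
  have hvol : ∀ s : ℝ, 0 < s → nu K 2 (Vg K f (T * s)) ≠ ⊤ ∧
      (nu K 2 (Vg K f (T * s))).toReal = c * s ^ (2 * d) * Y := by
    intro s hs
    have h1 := vg_vol K hdisc hSg (mul_pos hT hs)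
    refine ⟨h1.1, ?_⟩
    rw [h1.2, ← hd, ← hc, hY, mul_pow]
    ring
  have hmono : ∀ S S' : ℝ, 0 < S → S ≤ S' → Vg K f S ⊆ Vg K f S' := fun S S' hS hSS v hv w =>
    ⟨(hv w).1.trans (pow_le_pow_left₀ hS.le hSS 2), (hv w).2.trans (pow_le_pow_left₀ hS.le hSS 6)⟩
  have hincl : ∀ s s' : ℝ, 0 < s → ρ * q ≤ s → s' = s + a * q → ∀ x ∈ Vg K f (T * s), Rl x →
      ∀ y : En K 2, Rl y → ‖y‖ ≤ ρ * n → x + y ∈ Vg K f (T * s') := by
    intro s s' hs hqs hs' x hx _ y _ hy w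
    have hTs : 0 < T * s := mul_pos hT hs
    have h0 : ρ * n * T₂ ≤ T * s := by
      rw [mul_assoc, hnq, ← mul_assoc, mul_comm T]
      exact mul_le_mul_of_nonneg_right hqs hT.le
    have h1 := hpert T₁ T₂ (T * s) (ρ * n) (emb f w) (x w) (y w) (red_rd1 hred w) (by positivity) h0 hTs (hx w)
      (fun i => (norm_le_pi_norm (y w) i).trans ((norm_le_pi_norm y w).trans hy))
    have h2 : T * s * (1 + C₁ * (ρ * n * T₂ / (T * s))) = T * s' := by
      rw [mul_assoc ρ, hnq, hs', ha]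
      field_simp
    rw [h2] at h1
    exact h1
  obtain ⟨hup, hlo⟩ := hlat n hn v hRv (Vg K f T)
  have hT1 : Vg K f T = Vg K f (T * 1) := by rw [mul_one]
  have hA1 := hup (Vg K f (T * (ρ + a * q))) (hvol _ (by positivity)).1 (fun x hx => by
    refine hincl ρ _ hρ0 ?_ rfl x (hmono _ _ hT ?_ hx)
    · nlinarith
    · nlinarith)
  obtain ⟨hfin, hA1⟩ := hA1
  refine ⟨hfin, ?_⟩
  rw [(hvol _ (by positivity)).2] at hA1
  obtain ⟨N, hN⟩ : ∃ N : ℝ, N = ({z : Fin 2 → 𝓞 K | v + (n : ℝ) • emb (fun i => (z i : K)) ∈ Vg K f T}.ncard : ℝ) *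
      ((n : ℝ) ^ (2 * d) * cv K 2) := ⟨_, rfl⟩
  have hN0 : 0 ≤ N := by
    rw [hN]
    have := cv_pos K 2
    positivity
  rw [← hN] at hA1 ⊢
  rw [mul_div_assoc, ← hY, ← hq]
  have hqY : 0 ≤ q * Y := by positivity
  rw [abs_le]
  have g1 : 0 ≤ E1 * (q * Y) := by positivity
  have g2 : 0 ≤ E2 * (q * Y) := by positivity
  have g3 : 0 ≤ E3 * (q * Y) := by positivity
  have g4 : 0 ≤ E4 * (q * Y) := by positivity
  have hgoal : (1 + (E1 + E2 + E3 + E4)) * q * Y = q * Y + E1 * (q * Y) + E2 * (q * Y) + E3 * (q * Y) +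
      E4 * (q * Y) := by ring
  rw [hgoal]
  constructor
  · -- lower bound
    by_cases hcase : a * q ≤ 1 / 2
    · have hs : 0 < 1 - a * q := by linarith
      have h1 := hlo (Vg K f (T * (1 - a * q))) (hvol _ hs).1 (fun x hx hrx y hry hy => by
        rw [hT1]
        refine hincl (1 - a * q) 1 hs ?_ (by ring) x hx hrx y hry hy
        have h2 : ρ * q ≤ a * q := by
          refine mul_le_mul_of_nonneg_right ?_ hq0.le
          rw [ha]
          nlinarith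
        linarith) hfin
      rw [(hvol _ hs).2, ← hN] at h1
      have h2 : 1 + ((2 * d : ℕ) : ℝ) * (-(a * q)) ≤ (1 + -(a * q)) ^ (2 * d) :=
        one_add_mul_le_pow (by linarith) _
      have h3 : c * (1 + ((2 * d : ℕ) : ℝ) * (-(a * q))) * Y ≤ c * (1 - a * q) ^ (2 * d) * Y := by
        refine mul_le_mul_of_nonneg_right (mul_le_mul_of_nonneg_left ?_ hc0.le) hY0
        rw [sub_eq_add_neg]
        exact h2
      have h4 : c * (1 + ((2 * d : ℕ) : ℝ) * (-(a * q))) * Y = c * Y - E3 * (q * Y) := by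
        rw [hE3]
        ring
      linarith
    · push Not at hcase
      have h1 : c * Y ≤ E4 * (q * Y) := by
        rw [hE4]
        have h2 : c * Y * 1 ≤ c * Y * (2 * (a * q)) :=
          mul_le_mul_of_nonneg_left (by linarith) (by positivity)
        linarith
      linarith
  · -- upper bound
    by_cases hcase : ρ * q ≤ 1
    · have h1 := (hup (Vg K f (T * (1 + a * q))) (hvol _ (by positivity)).1 (fun x hx => by
        rw [hT1] at hx
        exact hincl 1 _ one_pos hcase rfl x hx)).2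
      rw [(hvol _ (by positivity)).2, ← hN] at h1
      have h2 := bern (a * q) (by positivity) (2 * d)
      have h3 : (1 + a * q) ^ (2 * d) ≤ (1 + a) ^ (2 * d) :=
        pow_le_pow_left₀ (by positivity) (by nlinarith) _
      have h4 : (1 + a * q) ^ (2 * d) ≤ 1 + ((2 * d : ℕ) : ℝ) * (a * q) * (1 + a) ^ (2 * d) :=
        h2.trans (by gcongr)
      have h5 : c * (1 + a * q) ^ (2 * d) * Y ≤ c * (1 + ((2 * d : ℕ) : ℝ) * (a * q) * (1 + a) ^ (2 * d)) * Y :=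
        mul_le_mul_of_nonneg_right (mul_le_mul_of_nonneg_left h4 hc0.le) hY0
      have h6 : c * (1 + ((2 * d : ℕ) : ℝ) * (a * q) * (1 + a) ^ (2 * d)) * Y = c * Y + E1 * (q * Y) := by
        rw [hE1]
        ring
      linarith
    · push Not at hcase
      have h3 : (ρ + a * q) ^ (2 * d) ≤ (ρ * (1 + C₁)) ^ (2 * d) := by
        refine pow_le_pow_left₀ (by positivity) ?_ _
        rw [ha]
        nlinarith [mul_pos hC0 hρ0]
      have h4 : c * (ρ + a * q) ^ (2 * d) * Y ≤ c * (ρ * (1 + C₁)) ^ (2 * d) * Y :=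
        mul_le_mul_of_nonneg_right (mul_le_mul_of_nonneg_left h3 hc0.le) hY0
      have h5 : c * (ρ * (1 + C₁)) ^ (2 * d) * Y * 1 ≤ c * (ρ * (1 + C₁)) ^ (2 * d) * Y * (ρ * q) :=
        mul_le_mul_of_nonneg_left hcase.le (by positivity)
      have h6 : c * (ρ * (1 + C₁)) ^ (2 * d) * Y * (ρ * q) = E2 * (q * Y) := by
        rw [hE2]
        ring
      have h7 : 0 ≤ c * Y := by positivity
      linarith

theorem vec_cnt (K : Type) [Field K] [NumberField K] {κ : ℝ} (hκ : 1 ≤ κ) :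
    ∃ C : ℝ, 1 ≤ C ∧ ∀ (sg : InfinitePlace K → Bool) (n : ℕ) (T T₁ T₂ : ℝ) (f : Fin 4 → K)
    (v : En K 2), 1 ≤ n → 0 < T → Red κ T₁ T₂ f → n * T₂ ≤ T → Rl v → Sg sg (emb f) →
    {z : Fin 2 → 𝓞 K | v + (n : ℝ) • emb (fun i => (z i : K)) ∈ Vg K f T}.Finite ∧
    |({z : Fin 2 → 𝓞 K | v + (n : ℝ) • emb (fun i => (z i : K)) ∈ Vg K f T}.ncard : ℝ) *
        ((n : ℝ) ^ (2 * Module.finrank ℚ K) * cv K 2) -
      (∏ w : InfinitePlace K, c1 w (sg w)) * T ^ (2 * Module.finrank ℚ K) / Real.sqrt (nd f)| ≤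
      C * (n * T₂ / T) * (T ^ (2 * Module.finrank ℚ K) / Real.sqrt (nd f)) := by
  choose C hC h using fun sg => vec_cnt1 K hκ sg
  have hle : ∀ sg, C sg ≤ ∑ s, C s := fun sg =>
    Finset.single_le_sum (f := C) (fun s _ => zero_le_one.trans (hC s)) (Finset.mem_univ sg)
  refine ⟨∑ s, C s, (hC fun _ => true).trans (hle _), ?_⟩
  intro sg n T T₁ T₂ f v hn hT hred hnT hRv hSg
  obtain ⟨h1, h2⟩ := h sg n T T₁ T₂ f v hn hT hred hnT hRv hSg
  refine ⟨h1, h2.trans ?_⟩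
  have h3 : 0 < T₂ := zero_lt_one.trans_le (hred.one.trans hred.le)
  have h4 : 0 ≤ n * T₂ / T := by positivity
  refine mul_le_mul_of_nonneg_right (mul_le_mul_of_nonneg_right (hle sg) h4) (by positivity)

end H12.SQM
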