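import Pool.Agent.H12.SQM.Nu
import Pool.Agent.H97.SXM.Reg

/-!
# [SQM VOL] The volumes `vD`, every number field (complete)

As `H97/SXM/Vol.lean`, with the measure `nu K 4`, the factor `‖disc‖ ^ mult` of every place and the sign pattern `sg`.
-/

set_option autoImplicit false

open scoped NumberField Classical Pointwise
open NumberField MeasureTheory H77.MF H97.SXM

noncomputable section

namespace H12.SQM

variable (K : Type) [Field K] [NumberField K] (sg : InfinitePlace K → Bool)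

/-- the product of the squares of the discriminants -/
private def Nd (x : En K 4) : ℝ := ∏ w : InfinitePlace K, ‖disc (x w)‖ ^ w.mult

private theorem fk : ∑ w : InfinitePlace K, w.mult = Module.finrank ℚ K :=
  InfinitePlace.sum_mult_eq

private theorem fpos : 0 < Module.finrank ℚ K := Module.finrank_pos

private theorem disc_smul (t : ℝ) (x : Fin 4 → ℂ) : disc (t • x) = (t : ℂ) ^ 4 * disc x := by
  simp only [disc, Pi.smul_apply, Complex.real_smul]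
  ring

private theorem hA_smul (t : ℝ) (x : Fin 4 → ℂ) : hA (t • x) = (t : ℂ) ^ 2 * hA x := by
  simp only [hA, Pi.smul_apply, Complex.real_smul]
  ring

private theorem hC_smul (t : ℝ) (x : Fin 4 → ℂ) : hC (t • x) = (t : ℂ) ^ 2 * hC x := by
  simp only [hC, Pi.smul_apply, Complex.real_smul]
  ring

private theorem nrm_t {t : ℝ} (ht : 0 ≤ t) : ‖(t : ℂ)‖ = t := by
  rw [Complex.norm_real, Real.norm_of_nonneg ht]

private theorem nd_smul {t : ℝ} (ht : 0 ≤ t) (x : En K 4) :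
    Nd K (t • x) = t ^ (4 * Module.finrank ℚ K) * Nd K x := by
  unfold Nd
  have h : ∀ w : InfinitePlace K, ‖disc ((t • x) w)‖ ^ w.mult =
      (t ^ 4) ^ w.mult * ‖disc (x w)‖ ^ w.mult := by
    intro w
    rw [Pi.smul_apply, disc_smul, norm_mul, norm_pow, nrm_t ht, mul_pow]
  rw [Finset.prod_congr rfl fun w _ => h w, Finset.prod_mul_distrib, Finset.prod_pow_eq_pow_sum,
    fk K, ← pow_mul]

private theorem d1_smul {T t : ℝ} (ht : 0 < t) (x : Fin 4 → ℂ) : D1 (t * T) (t • x) ↔ D1 T x := by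
  unfold D1
  have h2 : 0 < t ^ 2 := by positivity
  have h6 : 0 < t ^ 6 := by positivity
  have e1 : ‖hA (t • x)‖ = t ^ 2 * ‖hA x‖ := by rw [hA_smul, norm_mul, norm_pow, nrm_t ht.le]
  have e2 : ‖hC (t • x)‖ = t ^ 2 * ‖hC x‖ := by rw [hC_smul, norm_mul, norm_pow, nrm_t ht.le]
  have e3 : ∀ i, ‖(t • x) i ^ 2 * disc (t • x)‖ = t ^ 6 * ‖x i ^ 2 * disc x‖ := by
    intro i
    rw [disc_smul, Pi.smul_apply, Complex.real_smul]
    have : ((t : ℂ) * x i) ^ 2 * ((t : ℂ) ^ 4 * disc x) = (t : ℂ) ^ 6 * (x i ^ 2 * disc x) := by ring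
    rw [this, norm_mul, norm_pow, nrm_t ht.le]
  rw [e1, e2, e3, e3, mul_pow, mul_pow, mul_le_mul_iff_right₀ h2, mul_le_mul_iff_right₀ h2,
    mul_le_mul_iff_right₀ h6, mul_le_mul_iff_right₀ h6]

private theorem d1_mono {T T' : ℝ} (h0 : 0 ≤ T) (h : T ≤ T') {x : Fin 4 → ℂ} (hx : D1 T x) :
    D1 T' x := by
  have h2 : T ^ 2 ≤ T' ^ 2 := pow_le_pow_left₀ h0 h 2
  have h6 : T ^ 6 ≤ T' ^ 6 := pow_le_pow_left₀ h0 h 6
  exact ⟨hx.1.trans h2, hx.2.1.trans h2, hx.2.2.1.trans h6, hx.2.2.2.trans h6⟩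

private theorem mem_dg {T R₁ R₂ : ℝ} {x : En K 4} : x ∈ Dg K sg T R₁ R₂ ↔
    (∀ w, D1 T (x w)) ∧ Sg sg x ∧ R₁ < Nd K x ∧ Nd K x ≤ R₂ := Iff.rfl

private theorem sg_smul {t : ℝ} (ht : 0 < t) (x : En K 4) : Sg sg (t • x) ↔ Sg sg x := by
  unfold Sg
  refine forall_congr' fun w => forall_congr' fun _ => iff_congr Iff.rfl ?_
  rw [Pi.smul_apply, disc_smul, ← Complex.ofReal_pow, Complex.re_ofReal_mul]
  exact mul_pos_iff_of_pos_left (by positivity)

private theorem smul_mem_dg {T t R₁ R₂ : ℝ} (ht : 0 < t) (x : En K 4) :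
    t • x ∈ Dg K sg (t * T) (t ^ (4 * Module.finrank ℚ K) * R₁) (t ^ (4 * Module.finrank ℚ K) * R₂) ↔
      x ∈ Dg K sg T R₁ R₂ := by
  have h := pow_pos ht (4 * Module.finrank ℚ K)
  rw [mem_dg, mem_dg, nd_smul K ht.le, mul_lt_mul_iff_right₀ h, mul_le_mul_iff_right₀ h,
    sg_smul K sg ht]
  refine and_congr (forall_congr' fun w => ?_) Iff.rfl
  rw [Pi.smul_apply, d1_smul ht]

private theorem dg_smul {T t : ℝ} (ht : 0 < t) (R₁ R₂ : ℝ) : t • Dg K sg T R₁ R₂ =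
    Dg K sg (t * T) (t ^ (4 * Module.finrank ℚ K) * R₁) (t ^ (4 * Module.finrank ℚ K) * R₂) := by
  ext x
  rw [Set.mem_smul_set_iff_inv_smul_mem₀ ht.ne', ← smul_mem_dg K sg ht, smul_smul,
    mul_inv_cancel₀ ht.ne', one_smul]

private theorem cont_disc (w : InfinitePlace K) : Continuous fun x : En K 4 => disc (x w) := by
  unfold disc
  fun_prop

private theorem cont_A (w : InfinitePlace K) : Continuous fun x : En K 4 => hA (x w) := by
  unfold hA
  fun_prop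

private theorem cont_C (w : InfinitePlace K) : Continuous fun x : En K 4 => hC (x w) := by
  unfold hC
  fun_prop

private theorem cont_E (w : InfinitePlace K) (i : Fin 4) :
    Continuous fun x : En K 4 => x w i ^ 2 * disc (x w) := by
  have := cont_disc K w
  fun_prop

private theorem cont_nd : Continuous (Nd K) := by
  unfold Nd
  refine continuous_finsetProd _ fun w _ => ?_
  exact (cont_disc K w).norm.pow _

theorem dg_meas (T R₁ R₂ : ℝ) : MeasurableSet (Dg K sg T R₁ R₂) := by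
  have h1 : ∀ w : InfinitePlace K, MeasurableSet {x : En K 4 | D1 T (x w)} := by
    intro w
    have a1 : IsClosed {x : En K 4 | ‖hA (x w)‖ ≤ T ^ 2} :=
      isClosed_le (cont_A K w).norm continuous_const
    have a2 : IsClosed {x : En K 4 | ‖hC (x w)‖ ≤ T ^ 2} :=
      isClosed_le (cont_C K w).norm continuous_const
    have a3 : ∀ i, IsClosed {x : En K 4 | ‖x w i ^ 2 * disc (x w)‖ ≤ T ^ 6} := fun i =>
      isClosed_le (cont_E K w i).norm continuous_const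
    exact (a1.inter (a2.inter ((a3 0).inter (a3 3)))).measurableSet
  have h2 : MeasurableSet {x : En K 4 | R₁ < Nd K x} :=
    (isOpen_lt continuous_const (cont_nd K)).measurableSet
  have h3 : MeasurableSet {x : En K 4 | Nd K x ≤ R₂} :=
    (isClosed_le (cont_nd K) continuous_const).measurableSet
  have h5 : ∀ w : InfinitePlace K,
      MeasurableSet {x : En K 4 | w.IsReal → (sg w = true ↔ 0 < (disc (x w)).re)} := by
    intro w
    have h6 : MeasurableSet {x : En K 4 | 0 < (disc (x w)).re} :=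
      (isOpen_lt continuous_const (Complex.continuous_re.comp (cont_disc K w))).measurableSet
    by_cases hw : w.IsReal
    · by_cases hs : sg w = true
      · simpa [hw, hs] using h6
      · have h7 : {x : En K 4 | w.IsReal → (sg w = true ↔ 0 < (disc (x w)).re)} =
            {x : En K 4 | 0 < (disc (x w)).re}ᶜ := by
          ext x
          simp [hw, hs]
        rw [h7]
        exact h6.compl
    · simp [hw]
  have h4 : Dg K sg T R₁ R₂ = (⋂ w, {x : En K 4 | D1 T (x w)}) ∩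
      ((⋂ w : InfinitePlace K, {x : En K 4 | w.IsReal → (sg w = true ↔ 0 < (disc (x w)).re)}) ∩
      ({x : En K 4 | R₁ < Nd K x} ∩ {x : En K 4 | Nd K x ≤ R₂})) := by
    ext x
    rw [mem_dg, Set.mem_inter_iff, Set.mem_inter_iff, Set.mem_iInter, Set.mem_iInter]
    rfl
  rw [h4]
  exact (MeasurableSet.iInter h1).inter ((MeasurableSet.iInter h5).inter (h2.inter h3))

theorem dg_low : ∃ C : ℝ, 1 ≤ C ∧ ∀ T R₁ R₂ : ℝ, 0 < T → 0 < R₁ → ∀ x ∈ Dg K sg T R₁ R₂,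
    (∀ w, T ^ 4 / (C * (1 + T ^ (4 * Module.finrank ℚ K) / R₁)) ≤ ‖disc (x w)‖) ∧
    (∀ w i, ‖x w i‖ ^ 2 ≤ C * (1 + T ^ (4 * Module.finrank ℚ K) / R₁) * T ^ 2) ∧
    R₁ ≤ C * T ^ (4 * Module.finrank ℚ K) := by
  obtain ⟨d, hd⟩ : ∃ d : ℕ, d = Module.finrank ℚ K := ⟨_, rfl⟩
  have hfk := fk K
  rw [← hd] at hfk ⊢
  refine ⟨200 ^ (d + 1), one_le_pow₀ (by norm_num), fun T R₁ R₂ hT hR x hx => ?_⟩
  obtain ⟨hx1, -, hx2, hx3⟩ := hx
  have hb : ∀ w, ‖disc (x w)‖ ≤ 200 * T ^ 4 := fun w => (reg_bd hT (hx1 w)).1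
  have hTp : 0 < T ^ (4 * d) := by positivity
  obtain ⟨y, hy⟩ : ∃ y : ℝ, y = 1 + T ^ (4 * d) / R₁ := ⟨_, rfl⟩
  have hy1 : 1 ≤ y := by
    rw [hy]
    have : 0 ≤ T ^ (4 * d) / R₁ := by positivity
    linarith
  have hyR : T ^ (4 * d) ≤ y * R₁ := by
    rw [hy, add_mul, div_mul_cancel₀ _ hR.ne']
    linarith
  rw [← hy]
  have hT4 : 0 < 200 * T ^ 4 := by positivity
  have key : ∀ w, T ^ 4 ≤ y * ‖disc (x w)‖ * 200 ^ d := by
    intro w
    obtain ⟨q, hq⟩ : ∃ q : ℝ, q = ‖disc (x w)‖ / (200 * T ^ 4) := ⟨_, rfl⟩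
    have hq0 : 0 ≤ q := by
      rw [hq]
      positivity
    have hq1 : q ≤ 1 := by
      rw [hq, div_le_one hT4]
      exact hb w
    have hqe : ‖disc (x w)‖ = q * (200 * T ^ 4) := by
      rw [hq, div_mul_cancel₀ _ hT4.ne']
    have h1 : ∏ v : InfinitePlace K, ‖disc (x v)‖ ^ v.mult ≤ q * (200 * T ^ 4) ^ d := by
      calc ∏ v : InfinitePlace K, ‖disc (x v)‖ ^ v.mult
          = ‖disc (x w)‖ ^ w.mult * ∏ v ∈ Finset.univ.erase w, ‖disc (x v)‖ ^ v.mult :=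
            (Finset.mul_prod_erase Finset.univ _ (Finset.mem_univ w)).symm
        _ ≤ (q * (200 * T ^ 4) ^ w.mult) * ∏ v ∈ Finset.univ.erase w, (200 * T ^ 4) ^ v.mult := by
            refine mul_le_mul ?_ (Finset.prod_le_prod (fun v _ => by positivity) fun v _ =>
              pow_le_pow_left₀ (norm_nonneg _) (hb v) _)
              (Finset.prod_nonneg fun v _ => by positivity) (by positivity)
            rw [hqe, mul_pow]
            refine mul_le_mul_of_nonneg_right ?_ (by positivity)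
            exact pow_le_of_le_one hq0 hq1 w.mult_pos.ne'
        _ = q * ∏ v : InfinitePlace K, (200 * T ^ 4) ^ v.mult := by
            rw [mul_assoc, Finset.mul_prod_erase Finset.univ
              (fun v : InfinitePlace K => (200 * T ^ 4) ^ v.mult) (Finset.mem_univ w)]
        _ = _ := by rw [Finset.prod_pow_eq_pow_sum, hfk]
    have h2 : T ^ (4 * d) * 1 ≤ T ^ (4 * d) * (y * q * 200 ^ d) := by
      calc T ^ (4 * d) * 1 ≤ y * R₁ := by rw [mul_one]; exact hyR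
        _ ≤ y * (q * (200 * T ^ 4) ^ d) := mul_le_mul_of_nonneg_left (hx2.le.trans h1) (by linarith)
        _ = _ := by
            rw [mul_pow, ← pow_mul]
            ring
    have h3 := le_of_mul_le_mul_left h2 hTp
    calc T ^ 4 = T ^ 4 * 1 := by ring
      _ ≤ T ^ 4 * (y * q * 200 ^ d) := mul_le_mul_of_nonneg_left h3 (by positivity)
      _ ≤ 200 * (T ^ 4 * (y * q * 200 ^ d)) := by
          have : 0 ≤ T ^ 4 * (y * q * 200 ^ d) := by positivity
          linarith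
      _ = _ := by
          rw [hqe]
          ring
  refine ⟨fun w => ?_, fun w i => ?_, ?_⟩
  · have h1 := key w
    rw [div_le_iff₀ (by positivity)]
    calc T ^ 4 ≤ y * ‖disc (x w)‖ * 200 ^ d := h1
      _ ≤ y * ‖disc (x w)‖ * 200 ^ (d + 1) :=
          mul_le_mul_of_nonneg_left (pow_le_pow_right₀ (by norm_num) (by omega)) (by positivity)
      _ = _ := by ring
  · have h1 := key w
    have h3 := (reg_bd hT (hx1 w)).2 i
    have h4 : T ^ 4 * ‖x w i‖ ^ 2 ≤ T ^ 4 * (200 ^ (d + 1) * y * T ^ 2) := by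
      calc T ^ 4 * ‖x w i‖ ^ 2 ≤ (y * ‖disc (x w)‖ * 200 ^ d) * ‖x w i‖ ^ 2 :=
            mul_le_mul_of_nonneg_right h1 (by positivity)
        _ = y * 200 ^ d * (‖x w i‖ ^ 2 * ‖disc (x w)‖) := by ring
        _ ≤ y * 200 ^ d * (200 * T ^ 6) := mul_le_mul_of_nonneg_left h3 (by positivity)
        _ = _ := by ring
    exact le_of_mul_le_mul_left h4 (by positivity)
  · calc R₁ ≤ ∏ v : InfinitePlace K, ‖disc (x v)‖ ^ v.mult := hx2.le
      _ ≤ ∏ v : InfinitePlace K, (200 * T ^ 4) ^ v.mult :=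
          Finset.prod_le_prod (fun v _ => by positivity) fun v _ =>
            pow_le_pow_left₀ (norm_nonneg _) (hb v) _
      _ = 200 ^ d * T ^ (4 * d) := by
          rw [Finset.prod_pow_eq_pow_sum, hfk, mul_pow, ← pow_mul]
      _ ≤ _ := mul_le_mul_of_nonneg_right (pow_le_pow_right₀ (by norm_num) (by omega)) hTp.le

private theorem dg_ball : ∃ C : ℝ, 1 ≤ C ∧ ∀ T R₁ R₂ : ℝ, 0 < T → 0 < R₁ →
    Dg K sg T R₁ R₂ ⊆ Metric.closedBall 0 (C * (1 + T ^ (4 * Module.finrank ℚ K) / R₁) * T) := by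
  obtain ⟨C, hC, h⟩ := dg_low K sg
  refine ⟨C, hC, fun T R₁ R₂ hT hR x hx => ?_⟩
  have hy : (1 : ℝ) ≤ 1 + T ^ (4 * Module.finrank ℚ K) / R₁ := by
    have : 0 ≤ T ^ (4 * Module.finrank ℚ K) / R₁ := by positivity
    linarith
  have hρ : 1 ≤ C * (1 + T ^ (4 * Module.finrank ℚ K) / R₁) :=
    one_le_mul_of_one_le_of_one_le hC hy
  have h0 : 0 ≤ C * (1 + T ^ (4 * Module.finrank ℚ K) / R₁) * T := by positivity
  rw [mem_closedBall_zero_iff, pi_norm_le_iff_of_nonneg h0]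
  intro w
  rw [pi_norm_le_iff_of_nonneg h0]
  intro i
  refine (pow_le_pow_iff_left₀ (norm_nonneg _) h0 two_ne_zero).1 ?_
  refine ((h T R₁ R₂ hT hR x hx).2.1 w i).trans ?_
  rw [mul_pow]
  refine mul_le_mul_of_nonneg_right ?_ (by positivity)
  nlinarith

theorem dg_fin {T R₁ R₂ : ℝ} (hT : 0 < T) (hR : 0 < R₁) : nu K 4 (Dg K sg T R₁ R₂) ≠ ⊤ := by
  obtain ⟨C, _, h⟩ := dg_ball K sg
  exact ne_top_of_le_ne_top (nu_ball_fin _) (measure_mono (h T R₁ R₂ hT hR))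

theorem vd_scale {T R₁ R₂ : ℝ} (hT : 0 < T) (_hR : 0 < R₁) : (nu K 4 (Dg K sg T R₁ R₂)).toReal =
    T ^ (4 * Module.finrank ℚ K) * vD K sg (R₁ / T ^ (4 * Module.finrank ℚ K))
      (R₂ / T ^ (4 * Module.finrank ℚ K)) := by
  have h : Dg K sg T R₁ R₂ = T • Dg K sg 1 (R₁ / T ^ (4 * Module.finrank ℚ K))
      (R₂ / T ^ (4 * Module.finrank ℚ K)) := by
    have h0 : T ^ (4 * Module.finrank ℚ K) ≠ 0 := (pow_pos hT _).ne'
    rw [dg_smul K sg hT, mul_one, mul_div_cancel₀ _ h0, mul_div_cancel₀ _ h0]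
  rw [h, nu_smul hT, ENNReal.toReal_mul, ENNReal.toReal_ofReal (pow_pos hT _).le]
  rfl

theorem vd_bd : ∃ (C : ℝ) (A : ℕ), 1 ≤ C ∧ ∀ R₁ R₂ : ℝ, 0 < R₁ →
    0 ≤ vD K sg R₁ R₂ ∧ vD K sg R₁ R₂ ≤ C * (1 + 1 / R₁) ^ A := by
  obtain ⟨C, hC, h⟩ := dg_ball K sg
  obtain ⟨B, hB, hvol⟩ := nu_ball_bd K 4
  refine ⟨B * C ^ (4 * Module.finrank ℚ K), 4 * Module.finrank ℚ K,
    one_le_mul_of_one_le_of_one_le hB (one_le_pow₀ hC), fun R₁ R₂ hR => ⟨ENNReal.toReal_nonneg, ?_⟩⟩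
  have h1 := h 1 R₁ R₂ one_pos hR
  rw [one_pow, mul_one] at h1
  have h2 : (nu K 4 (Dg K sg 1 R₁ R₂)).toReal ≤
      (nu K 4 (Metric.closedBall (0 : En K 4) (C * (1 + 1 / R₁)))).toReal :=
    ENNReal.toReal_mono (nu_ball_fin _) (measure_mono h1)
  have h3 := h2.trans (hvol _ (by positivity))
  rw [mul_pow, ← mul_assoc] at h3
  exact h3

theorem vd_shell : ∃ (C : ℝ) (A : ℕ), 1 ≤ C ∧ ∀ z ε : ℝ, 0 < z → 0 < ε → ε ≤ 1 / 4 →
    vD K sg (z * (1 - ε)) (z * (1 + ε)) ≤ C * ε * (1 + 1 / z) ^ A := by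
  obtain ⟨C, hC, h⟩ := dg_ball K sg
  obtain ⟨B, hB, hvol⟩ := nu_ball_bd K 4
  have hd := fpos K
  obtain ⟨m, hm⟩ : ∃ m : ℕ, m = 4 * Module.finrank ℚ K := ⟨_, rfl⟩
  have hm1 : 1 ≤ m := by omega
  refine ⟨4 * (B * (6 * C) ^ m), m, ?_, fun z ε hz hε hε4 => ?_⟩
  · have h1 : 1 ≤ B * (6 * C) ^ m :=
      one_le_mul_of_one_le_of_one_le hB (one_le_pow₀ (by linarith))
    linarith
  obtain ⟨S, hS⟩ : ∃ S : Set (En K 4), S = Dg K sg 1 (z * (1 - ε)) (z * (1 + ε)) := ⟨_, rfl⟩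
  obtain ⟨J, hJ⟩ : ∃ J : ℕ, J = ⌊1 / (4 * ε)⌋₊ := ⟨_, rfl⟩
  have hq : (1 : ℝ) ≤ 1 + 4 * ε := by linarith
  have hz1 : 0 < z * (1 - ε) := mul_pos hz (by linarith)
  have hc1 : ∀ j : ℕ, (1 : ℝ) ≤ (1 + 4 * ε) ^ j := fun j => one_le_pow₀ hq
  have hc0 : ∀ j : ℕ, (0 : ℝ) < (1 + 4 * ε) ^ j := fun j => by positivity
  have hc3 : ∀ j : ℕ, j < J + 1 → (1 + 4 * ε) ^ j ≤ 3 := by
    intro j hj
    have h1 : (j : ℝ) ≤ 1 / (4 * ε) := by
      have h2 : (j : ℝ) ≤ J := by exact_mod_cast Nat.lt_succ_iff.1 hj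
      refine h2.trans ?_
      rw [hJ]
      exact Nat.floor_le (by positivity)
    have h2 : (1 + 4 * ε) ^ j ≤ Real.exp (4 * ε) ^ j := by
      refine pow_le_pow_left₀ (by positivity) ?_ j
      have := Real.add_one_le_exp (4 * ε)
      linarith
    have h3 : Real.exp (4 * ε) ^ j ≤ Real.exp 1 := by
      rw [← Real.exp_nat_mul]
      apply Real.exp_le_exp.2
      rw [le_div_iff₀ (by positivity)] at h1
      linarith
    have h4 := Real.exp_one_lt_d9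
    linarith
  have hmeas : ∀ j : ℕ, MeasurableSet (((1 + 4 * ε) ^ j : ℝ) • S) := by
    intro j
    rw [hS]
    exact (dg_meas K sg _ _ _).const_smul_of_ne_zero (hc0 j).ne'
  have hnd : ∀ (j : ℕ) (x : En K 4), x ∈ ((1 + 4 * ε) ^ j : ℝ) • S →
      ((1 + 4 * ε) ^ j) ^ m * (z * (1 - ε)) < Nd K x ∧
      Nd K x ≤ ((1 + 4 * ε) ^ j) ^ m * (z * (1 + ε)) := by
    intro j x hx
    rw [hS, dg_smul K sg (hc0 j), ← hm] at hx
    exact ⟨hx.2.2.1, hx.2.2.2⟩
  have hdis : ∀ i j : ℕ, i < j → Disjoint (((1 + 4 * ε) ^ i : ℝ) • S) (((1 + 4 * ε) ^ j : ℝ) • S) := by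
    intro i j hij
    rw [Set.disjoint_left]
    intro x hx hx'
    have h1 := (hnd i x hx).2
    have h2 := (hnd j x hx').1
    have h3 : (1 + 4 * ε) ^ i * (1 + 4 * ε) ≤ (1 + 4 * ε) ^ j := by
      rw [← pow_succ]
      exact pow_le_pow_right₀ hq hij
    have h4 : ((1 + 4 * ε) ^ i) ^ m * (1 + 4 * ε) ≤ ((1 + 4 * ε) ^ j) ^ m := by
      calc ((1 + 4 * ε) ^ i) ^ m * (1 + 4 * ε) ≤ ((1 + 4 * ε) ^ i) ^ m * (1 + 4 * ε) ^ m :=
            mul_le_mul_of_nonneg_left (le_self_pow₀ hq (by omega)) (by positivity)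
        _ = ((1 + 4 * ε) ^ i * (1 + 4 * ε)) ^ m := by rw [mul_pow]
        _ ≤ _ := pow_le_pow_left₀ (by positivity) h3 m
    have h5 : (1 + ε) ≤ (1 + 4 * ε) * (1 - ε) := by nlinarith
    have h6 : 0 < ((1 + 4 * ε) ^ i) ^ m := by positivity
    have h7 : ((1 + 4 * ε) ^ i) ^ m * (z * (1 + ε)) ≤ ((1 + 4 * ε) ^ j) ^ m * (z * (1 - ε)) := by
      calc ((1 + 4 * ε) ^ i) ^ m * (z * (1 + ε)) ≤
            ((1 + 4 * ε) ^ i) ^ m * (z * ((1 + 4 * ε) * (1 - ε))) :=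
            mul_le_mul_of_nonneg_left (mul_le_mul_of_nonneg_left h5 hz.le) h6.le
        _ = (((1 + 4 * ε) ^ i) ^ m * (1 + 4 * ε)) * (z * (1 - ε)) := by ring
        _ ≤ _ := mul_le_mul_of_nonneg_right h4 hz1.le
    linarith
  have hpair : ((Finset.range (J + 1) : Finset ℕ) : Set ℕ).PairwiseDisjoint
      fun j => (((1 + 4 * ε) ^ j : ℝ) • S) := by
    intro i _ j _ hij
    rcases lt_or_gt_of_ne hij with h1 | h1
    · exact hdis i j h1
    · exact (hdis j i h1).symm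
  have hsub : (⋃ j ∈ Finset.range (J + 1), (((1 + 4 * ε) ^ j : ℝ) • S)) ⊆
      Metric.closedBall (0 : En K 4) (6 * C * (1 + 1 / z)) := by
    refine Set.iUnion₂_subset fun j hj => ?_
    rintro x ⟨y, hy, rfl⟩
    rw [hS] at hy
    have h1 := h 1 _ _ one_pos hz1 hy
    rw [mem_closedBall_zero_iff, one_pow, mul_one] at h1
    have h2 : 1 / (z * (1 - ε)) ≤ 2 * (1 / z) := by
      rw [div_le_iff₀ hz1]
      have h3 : 2 * (1 / z) * (z * (1 - ε)) = 2 * (1 - ε) := by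
        field_simp
      rw [h3]
      linarith
    have h3 : 0 < 1 / z := by positivity
    have h4 : ‖y‖ ≤ C * (2 * (1 + 1 / z)) :=
      h1.trans (mul_le_mul_of_nonneg_left (by linarith) (by linarith))
    have h5 := hc3 j (Finset.mem_range.1 hj)
    rw [mem_closedBall_zero_iff]
    change ‖((1 + 4 * ε) ^ j : ℝ) • y‖ ≤ _
    rw [norm_smul, Real.norm_of_nonneg (hc0 j).le]
    calc (1 + 4 * ε) ^ j * ‖y‖ ≤ 3 * (C * (2 * (1 + 1 / z))) :=
          mul_le_mul h5 h4 (norm_nonneg _) (by norm_num)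
      _ = _ := by ring
  have hsum := measure_biUnion_finset (μ := nu K 4) hpair (fun j _ => hmeas j)
  have hge : ∀ j : ℕ, nu K 4 S ≤ nu K 4 (((1 + 4 * ε) ^ j : ℝ) • S) := by
    intro j
    rw [nu_smul (hc0 j)]
    refine le_mul_of_one_le_left' ?_
    rw [ENNReal.one_le_ofReal]
    exact one_le_pow₀ (hc1 j)
  have hfin : nu K 4 S ≠ ⊤ := by
    rw [hS]
    exact dg_fin K sg one_pos hz1
  have hmain : ((J + 1 : ℕ) : ENNReal) * nu K 4 S ≤
      nu K 4 (Metric.closedBall (0 : En K 4) (6 * C * (1 + 1 / z))) := by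
    calc ((J + 1 : ℕ) : ENNReal) * nu K 4 S = ∑ j ∈ Finset.range (J + 1), nu K 4 S := by
          rw [Finset.sum_const, Finset.card_range, nsmul_eq_mul]
      _ ≤ ∑ j ∈ Finset.range (J + 1), nu K 4 (((1 + 4 * ε) ^ j : ℝ) • S) :=
          Finset.sum_le_sum fun j _ => hge j
      _ = _ := hsum.symm
      _ ≤ _ := measure_mono hsub
  have hreal := ENNReal.toReal_mono (nu_ball_fin _) hmain
  rw [ENNReal.toReal_mul, ENNReal.toReal_natCast] at hreal
  have hreal2 := hreal.trans (hvol _ (by positivity))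
  rw [← hm, mul_pow] at hreal2
  have hJ1 : 1 ≤ 4 * ε * ((J + 1 : ℕ) : ℝ) := by
    have h1 := Nat.lt_floor_add_one (1 / (4 * ε))
    rw [← hJ, div_lt_iff₀ (by positivity)] at h1
    push_cast
    linarith
  have hv0 : 0 ≤ (nu K 4 S).toReal := ENNReal.toReal_nonneg
  have hgoal : (nu K 4 S).toReal ≤ 4 * ε * (B * ((6 * C) ^ m * (1 + 1 / z) ^ m)) := by
    calc (nu K 4 S).toReal ≤ (4 * ε * ((J + 1 : ℕ) : ℝ)) * (nu K 4 S).toReal :=
          le_mul_of_one_le_left hv0 hJ1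
      _ = 4 * ε * (((J + 1 : ℕ) : ℝ) * (nu K 4 S).toReal) := by ring
      _ ≤ _ := mul_le_mul_of_nonneg_left hreal2 (by positivity)
  rw [hS] at hgoal
  unfold vD
  calc (nu K 4 (Dg K sg 1 (z * (1 - ε)) (z * (1 + ε)))).toReal ≤ _ := hgoal
    _ = _ := by ring

theorem vd_cont : ∃ (C : ℝ) (A : ℕ), 1 ≤ C ∧ ∀ z₁ z₂ ε : ℝ, 0 < z₁ → z₁ ≤ z₂ → 0 ≤ ε →
    ε ≤ 1 / 4 → vD K sg (z₁ * (1 - ε)) (z₂ * (1 + ε)) ≤
      vD K sg (z₁ * (1 + ε)) (z₂ * (1 - ε)) + C * ε * (1 + 1 / z₁) ^ A := by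
  obtain ⟨C, A, hC, h⟩ := vd_shell K sg
  refine ⟨2 * C, A, by linarith, fun z₁ z₂ ε hz₁ hz hε hε4 => ?_⟩
  have hz₂ : 0 < z₂ := by linarith
  rcases hε.eq_or_lt with h0 | h0
  · rw [← h0]
    simp
  have p1 : 0 < z₁ * (1 - ε) := mul_pos hz₁ (by linarith)
  have p2 : 0 < z₁ * (1 + ε) := mul_pos hz₁ (by linarith)
  have p3 : 0 < z₂ * (1 - ε) := mul_pos hz₂ (by linarith)
  have hsub : Dg K sg 1 (z₁ * (1 - ε)) (z₂ * (1 + ε)) ⊆ (Dg K sg 1 (z₁ * (1 + ε)) (z₂ * (1 - ε)) ∪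
      Dg K sg 1 (z₁ * (1 - ε)) (z₁ * (1 + ε))) ∪ Dg K sg 1 (z₂ * (1 - ε)) (z₂ * (1 + ε)) := by
    intro x hx
    rw [mem_dg] at hx
    rcases le_or_gt (Nd K x) (z₁ * (1 + ε)) with h1 | h1
    · exact Or.inl (Or.inr ⟨hx.1, hx.2.1, hx.2.2.1, h1⟩)
    · rcases le_or_gt (Nd K x) (z₂ * (1 - ε)) with h2 | h2
      · exact Or.inl (Or.inl ⟨hx.1, hx.2.1, h1, h2⟩)
      · exact Or.inr ⟨hx.1, hx.2.1, h2, hx.2.2.2⟩
  have f1 := dg_fin K sg (R₂ := z₂ * (1 - ε)) one_pos p2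
  have f2 := dg_fin K sg (R₂ := z₁ * (1 + ε)) one_pos p1
  have f3 := dg_fin K sg (R₂ := z₂ * (1 + ε)) one_pos p3
  have h1 : vD K sg (z₁ * (1 - ε)) (z₂ * (1 + ε)) ≤ vD K sg (z₁ * (1 + ε)) (z₂ * (1 - ε)) +
      vD K sg (z₁ * (1 - ε)) (z₁ * (1 + ε)) + vD K sg (z₂ * (1 - ε)) (z₂ * (1 + ε)) := by
    unfold vD
    rw [← ENNReal.toReal_add f1 f2, ← ENNReal.toReal_add (ENNReal.add_ne_top.2 ⟨f1, f2⟩) f3]
    refine ENNReal.toReal_mono (ENNReal.add_ne_top.2 ⟨ENNReal.add_ne_top.2 ⟨f1, f2⟩, f3⟩) ?_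
    refine (measure_mono hsub).trans ((measure_union_le _ _).trans ?_)
    gcongr
    exact measure_union_le _ _
  have h2 := h z₁ ε hz₁ h0 hε4
  have h3 := h z₂ ε hz₂ h0 hε4
  have h4 : C * ε * (1 + 1 / z₂) ^ A ≤ C * ε * (1 + 1 / z₁) ^ A := by
    have h5 : 1 / z₂ ≤ 1 / z₁ := one_div_le_one_div_of_le hz₁ hz
    have h6 : 0 < 1 / z₂ := by positivity
    exact mul_le_mul_of_nonneg_left (pow_le_pow_left₀ (by linarith) (by linarith) A) (by positivity)
  calc _ ≤ _ := h1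
    _ ≤ vD K sg (z₁ * (1 + ε)) (z₂ * (1 - ε)) + C * ε * (1 + 1 / z₁) ^ A +
        C * ε * (1 + 1 / z₁) ^ A := by linarith
    _ = _ := by ring

theorem vd_mono {R₁ R₂ R₁' R₂' : ℝ} (h0 : 0 < R₁) (h1 : R₁ ≤ R₁') (h2 : R₂' ≤ R₂) :
    vD K sg R₁' R₂' ≤ vD K sg R₁ R₂ := by
  unfold vD
  refine ENNReal.toReal_mono (dg_fin K sg one_pos h0) (measure_mono ?_)
  intro x hx
  exact ⟨hx.1, hx.2.1, h1.trans_lt hx.2.2.1, hx.2.2.2.trans h2⟩

theorem vd_low : ∃ (c z₀ : ℝ), 0 < c ∧ 0 < z₀ ∧ ∀ z : ℝ, 0 < z → z ≤ z₀ →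
    c * z ≤ vD K sg (z / 2) z := by
  have hd := fpos K
  obtain ⟨m, hm⟩ : ∃ m : ℕ, m = 4 * Module.finrank ℚ K := ⟨_, rfl⟩
  have hm0 : m ≠ 0 := by omega
  let x₀ : InfinitePlace K → Fin 4 → ℂ := fun w =>
    if sg w = true then ![0, 1 / 4, 1 / 4, 0] else ![1 / 4, 0, 0, 1 / 4]
  have e5 : ∀ w, ‖hA (x₀ w)‖ < 1 ∧ ‖hC (x₀ w)‖ < 1 ∧ ‖x₀ w 0 ^ 2 * disc (x₀ w)‖ < 1 ∧
      ‖x₀ w 3 ^ 2 * disc (x₀ w)‖ < 1 ∧ 0 < ‖disc (x₀ w)‖ ∧
      (sg w = true → 0 < (disc (x₀ w)).re) ∧ (sg w ≠ true → (disc (x₀ w)).re < 0) := by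
    intro w
    by_cases hs : sg w = true
    · have e0 : x₀ w = ![0, 1 / 4, 1 / 4, 0] := if_pos hs
      have eA : hA (x₀ w) = ((1 / 16 : ℝ) : ℂ) := by
        rw [e0]
        simp [hA]
        norm_num
      have eC : hC (x₀ w) = ((1 / 16 : ℝ) : ℂ) := by
        rw [e0]
        simp [hC]
        norm_num
      have eD : disc (x₀ w) = ((1 / 256 : ℝ) : ℂ) := by
        rw [e0]
        simp [disc]
        norm_num
      have f0 : x₀ w 0 = 0 := by rw [e0]; rfl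
      have f3 : x₀ w 3 = 0 := by rw [e0]; rfl
      rw [eA, eC, eD, f0, f3, Complex.norm_real, Complex.norm_real, Complex.ofReal_re]
      refine ⟨by norm_num, by norm_num, by norm_num, by norm_num, by norm_num, fun _ => by norm_num,
        fun h => absurd hs h⟩
    · have e0 : x₀ w = ![1 / 4, 0, 0, 1 / 4] := if_neg hs
      have eA : hA (x₀ w) = 0 := by
        rw [e0]
        simp [hA]
      have eC : hC (x₀ w) = 0 := by
        rw [e0]
        simp [hC]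
      have eD : disc (x₀ w) = ((-(27 / 256) : ℝ) : ℂ) := by
        rw [e0]
        simp [disc]
        norm_num
      have f0 : x₀ w 0 = ((1 / 4 : ℝ) : ℂ) := by rw [e0]; simp
      have f3 : x₀ w 3 = ((1 / 4 : ℝ) : ℂ) := by rw [e0]; simp
      rw [eA, eC, eD, f0, f3, norm_mul, norm_pow, Complex.norm_real, Complex.norm_real,
        Complex.ofReal_re]
      refine ⟨by norm_num, by norm_num, ?_, ?_, by norm_num, fun h => absurd h hs,
        fun _ => by norm_num⟩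
      · rw [Real.norm_eq_abs, Real.norm_eq_abs, abs_of_pos (by norm_num), abs_of_neg (by norm_num)]
        norm_num
      · rw [Real.norm_eq_abs, Real.norm_eq_abs, abs_of_pos (by norm_num), abs_of_neg (by norm_num)]
        norm_num
  have hrl : Rl (K := K) x₀ := by
    intro w _ i
    change ((if sg w = true then ![0, 1 / 4, 1 / 4, 0] else ![1 / 4, 0, 0, 1 / 4] : Fin 4 → ℂ) i).im = 0
    split_ifs
    · fin_cases i <;> simp
    · fin_cases i <;> simp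
  obtain ⟨N₀, hN₀⟩ : ∃ N₀ : ℝ, N₀ = Nd K x₀ := ⟨_, rfl⟩
  have hN : 0 < N₀ := by
    rw [hN₀]
    unfold Nd
    exact Finset.prod_pos fun w _ => pow_pos (e5 w).2.2.2.2.1 _
  let U : Set (En K 4) := (⋂ w, ({x : En K 4 | ‖hA (x w)‖ < 1} ∩ ({x : En K 4 | ‖hC (x w)‖ < 1} ∩
    ({x : En K 4 | ‖x w 0 ^ 2 * disc (x w)‖ < 1} ∩ {x : En K 4 | ‖x w 3 ^ 2 * disc (x w)‖ < 1})))) ∩
    ((⋂ w, {x : En K 4 | if sg w = true then 0 < (disc (x w)).re else (disc (x w)).re < 0}) ∩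
    ({x : En K 4 | 3 / 4 * N₀ < Nd K x} ∩ {x : En K 4 | Nd K x < 5 / 4 * N₀}))
  have hUo : IsOpen U := by
    refine IsOpen.inter (isOpen_iInter_of_finite fun w => ?_)
      (IsOpen.inter (isOpen_iInter_of_finite fun w => ?_) (IsOpen.inter ?_ ?_))
    · exact (isOpen_lt (cont_A K w).norm continuous_const).inter
        ((isOpen_lt (cont_C K w).norm continuous_const).inter
          ((isOpen_lt (cont_E K w 0).norm continuous_const).inter
            (isOpen_lt (cont_E K w 3).norm continuous_const)))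
    · by_cases hs : sg w = true
      · simp only [hs, if_true]
        exact isOpen_lt continuous_const (Complex.continuous_re.comp (cont_disc K w))
      · simp only [hs]
        exact isOpen_lt (Complex.continuous_re.comp (cont_disc K w)) continuous_const
    · exact isOpen_lt continuous_const (cont_nd K)
    · exact isOpen_lt (cont_nd K) continuous_const
  have hUn : (x₀ : En K 4) ∈ U := by
    refine ⟨Set.mem_iInter.2 fun w => ⟨(e5 w).1, (e5 w).2.1, (e5 w).2.2.1, (e5 w).2.2.2.1⟩,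
      Set.mem_iInter.2 fun w => ?_, ?_, ?_⟩
    · change if sg w = true then 0 < (disc (x₀ w)).re else (disc (x₀ w)).re < 0
      split_ifs with hs
      · exact (e5 w).2.2.2.2.2.1 hs
      · exact (e5 w).2.2.2.2.2.2 hs
    · change 3 / 4 * N₀ < Nd K x₀
      rw [← hN₀]
      linarith
    · change Nd K x₀ < 5 / 4 * N₀
      rw [← hN₀]
      linarith
  have hUD : U ⊆ Dg K sg 1 (3 / 4 * N₀) (5 / 4 * N₀) := by
    rintro x ⟨h1, h0, h2, h3⟩
    refine ⟨fun w => ?_, fun w _ => ?_, h2, le_of_lt h3⟩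
    · obtain ⟨a1, a2, a3, a4⟩ := Set.mem_iInter.1 h1 w
      refine ⟨?_, ?_, ?_, ?_⟩
      · rw [one_pow]
        exact le_of_lt a1
      · rw [one_pow]
        exact le_of_lt a2
      · rw [one_pow]
        exact le_of_lt a3
      · rw [one_pow]
        exact le_of_lt a4
    · have h4 := Set.mem_iInter.1 h0 w
      rw [Set.mem_ofPred_eq] at h4
      split_ifs at h4 with hs
      · exact ⟨fun _ => h4, fun _ => hs⟩
      · exact ⟨fun h => absurd h hs, fun h => absurd h (not_lt.2 h4.le)⟩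
  have hUf : nu K 4 U ≠ ⊤ :=
    ne_top_of_le_ne_top (dg_fin K sg one_pos (by positivity)) (measure_mono hUD)
  have hUp : 0 < (nu K 4 U).toReal := ENNReal.toReal_pos (nu_pos hUo hUn hrl).ne' hUf
  refine ⟨3 / (4 * N₀) * (nu K 4 U).toReal, N₀, by positivity, hN, fun z hz hzN => ?_⟩
  obtain ⟨t, ht⟩ : ∃ t : ℝ, t = 3 * z / (4 * N₀) := ⟨_, rfl⟩
  have ht0 : 0 < t := by
    rw [ht]
    positivity
  have ht1 : t ≤ 1 := by
    rw [ht, div_le_one (by positivity)]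
    linarith
  obtain ⟨l, hl⟩ : ∃ l : ℝ, l = t ^ ((m : ℝ)⁻¹) := ⟨_, rfl⟩
  have hl0 : 0 < l := by
    rw [hl]
    exact Real.rpow_pos_of_pos ht0 _
  have hl1 : l ≤ 1 := by
    rw [hl]
    exact Real.rpow_le_one ht0.le ht1 (by positivity)
  have hlm : l ^ m = t := by
    rw [hl]
    exact Real.rpow_inv_natCast_pow ht0.le hm0
  have hsub : l • U ⊆ Dg K sg 1 (z / 2) z := by
    rintro x ⟨y, hy, rfl⟩
    have h1 := hUD hy
    have h2 := (smul_mem_dg K sg hl0 y).2 h1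
    rw [← hm, hlm, mul_one, mem_dg] at h2
    refine ⟨fun w => d1_mono hl0.le hl1 (h2.1 w), h2.2.1, ?_, ?_⟩
    · refine lt_of_lt_of_le ?_ h2.2.2.1.le
      rw [ht]
      have : 3 * z / (4 * N₀) * (3 / 4 * N₀) = 9 / 16 * z := by
        field_simp
        norm_num
      rw [this]
      linarith
    · refine h2.2.2.2.trans ?_
      rw [ht]
      have : 3 * z / (4 * N₀) * (5 / 4 * N₀) = 15 / 16 * z := by
        field_simp
        norm_num
      rw [this]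
      linarith
  have hfin := dg_fin K sg (R₂ := z) one_pos (half_pos hz)
  have h1 := ENNReal.toReal_mono hfin (measure_mono hsub)
  rw [nu_smul hl0, ENNReal.toReal_mul, ENNReal.toReal_ofReal (pow_pos hl0 _).le, ← hm,
    hlm] at h1
  calc 3 / (4 * N₀) * (nu K 4 U).toReal * z = t * (nu K 4 U).toReal := by
        rw [ht]
        ring
    _ ≤ _ := h1

end H12.SQM
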