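import Pool.Agent.H97.SXM.Nmx
import Pool.Agent.H12.SQM.Pai
import Pool.Agent.H12.SQM.Vol

/-!
# [SQ TAIL] The forms which are not maximal at a large prime, for every number field and every sign pattern (port of H97/SXM/Tail.lean)
-/

set_option autoImplicit false

open scoped NumberField Classical
open IsDedekindDomain NumberField H38.ML H63.MA H67.SX H77.MF H97.SXM

noncomputable section

namespace H12.SQM

section fr

variable {K F : Type} [Field K] [NumberField K] [Field F] [Algebra K F]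

private theorem tl_lin0 (w : Fin 2 → F) : lin w (![1, 0] : Fin 2 → K) = w 0 := by
  simp [lin]

private theorem tl_lin1 (w : Fin 2 → F) : lin w (![0, 1] : Fin 2 → K) = w 1 := by
  simp [lin]

private theorem tl_oo0 : (![1, 0] : Fin 2 → K) ∈ OO K 2 := by
  intro i
  fin_cases i
  · exact ⟨1, by simp⟩
  · exact ⟨0, by simp⟩

private theorem tl_oo1 : (![0, 1] : Fin 2 → K) ∈ OO K 2 := by
  intro i
  fin_cases i
  · exact ⟨0, by simp⟩
  · exact ⟨1, by simp⟩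

/-- coordinates of an element in a frame -/
private theorem tl_coord (hd : Module.finrank K F = 3) {g : Fin 4 → K} {w : Fin 2 → F}
    (h : Lv g w) (x : F) : ∃ (v : Fin 2 → K) (k : K), x = lin w v + algebraMap K F k := by
  have hli := lv_ind hd h
  have hfin : FiniteDimensional K F := Module.finite_of_finrank_pos (by rw [hd]; norm_num)
  have hsp := hli.span_eq_top_of_card_eq_finrank' (by rw [Fintype.card_fin, hd])
  have hx : x ∈ Submodule.span K (Set.range ![(1 : F), w 0, w 1]) := by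
    rw [hsp]
    trivial
  rw [Submodule.mem_span_range_iff_exists_fun] at hx
  obtain ⟨c, hc⟩ := hx
  refine ⟨![c 1, c 2], c 0, ?_⟩
  rw [← hc, Fin.sum_univ_three]
  simp only [lin, Algebra.smul_def, Matrix.cons_val_zero, Matrix.cons_val_one, Matrix.cons_val]
  ring

private theorem tl_dt (hd : Module.finrank K F = 3) {f : Fin 4 → K} {u w : Fin 2 → F}
    (h : Lv f u) {v v' : Fin 2 → K} {k k' : K} (h₀ : u 0 = lin w v + algebraMap K F k)
    (h₁ : u 1 = lin w v' + algebraMap K F k') : dt v v' ≠ 0 := by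
  intro hdt
  have hli := lv_ind hd h
  rw [Fintype.linearIndependent_iff] at hli
  have hdt' : v 0 * v' 1 - v 1 * v' 0 = 0 := hdt
  have e1 : algebraMap K F (v 0) * algebraMap K F (v' 1) -
      algebraMap K F (v 1) * algebraMap K F (v' 0) = 0 := by
    rw [← map_mul, ← map_mul, ← map_sub, hdt', map_zero]
  have r1 := hli ![-(v' 1 * k - v 1 * k'), v' 1, -v 1] (by
    rw [Fin.sum_univ_three]
    simp only [Algebra.smul_def, Matrix.cons_val_zero, Matrix.cons_val_one, Matrix.cons_val,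
      h₀, h₁, lin, map_neg, map_sub, map_mul]
    linear_combination (w 0) * e1)
  have r2 := hli ![-(v' 0 * k - v 0 * k'), v' 0, -v 0] (by
    rw [Fin.sum_univ_three]
    simp only [Algebra.smul_def, Matrix.cons_val_zero, Matrix.cons_val_one, Matrix.cons_val,
      h₀, h₁, lin, map_neg, map_sub, map_mul]
    linear_combination (-(w 1)) * e1)
  have a1 : v 1 = 0 := by
    have := r1 2
    simpa using this
  have a2 : v 0 = 0 := by
    have := r2 2
    simpa using this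
  apply h.non
  refine ⟨k, ?_⟩
  rw [h₀, lin, a1, a2, map_zero, zero_mul, zero_mul, zero_add, zero_add]

end fr

variable {K : IntermediateField ℚ QBar} [NumberField K]

/-- the order of a form on a lattice -/
private theorem tl_order {Λ : Submodule (𝓞 K) (Fin 2 → K)} (hL : Lt Λ) (hO : OO K 2 ≤ Λ)
    {f : Fin 4 → K} (hf : f ∈ VL Λ) (hz : NZ f) :
    ∃ (o : Od K) (u : Fin 2 → o.c.F), Lv f u ∧ (∀ i, u i ∈ o.M) ∧ pre u o.M = Λ := by
  have h3 := (recov hz).1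
  have hne : {x : (c : Cb K) × (Fin 2 → c.F) | Lv f x.2}.Nonempty := by
    rw [← Set.ncard_pos (Set.finite_of_ncard_ne_zero (by rw [h3]; norm_num)), h3]
    norm_num
  obtain ⟨⟨c, u⟩, hu⟩ := hne
  have hu' : Lv f u := hu
  obtain ⟨M, hM, hK, hp⟩ := mm_pre c.deg hu' Λ
  have hmem : ∀ v : Fin 2 → K, v ∈ Λ → lin u v ∈ M := by
    intro v hv
    rw [← hp] at hv
    exact hv
  refine ⟨⟨c, M, hK, ⟨f, u, hu', ?_, ?_⟩⟩, u, hu', ?_, hp⟩
  · rw [hp]
    exact hL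
  · rw [hp]
    exact hf
  · intro i
    fin_cases i
    · have h1 := hmem _ (hO tl_oo0)
      rw [tl_lin0] at h1
      exact h1
    · have h1 := hmem _ (hO tl_oo1)
      rw [tl_lin1] at h1
      exact h1

/-- the change to another frame of the order -/
private theorem tl_change (o : Od K) {f g : Fin 4 → K} {u w : Fin 2 → o.c.F} (hu : Lv f u)
    (hw : Lv g w) (hm : ∀ i, u i ∈ o.M) :
    ∃ v v' : Fin 2 → K, v ∈ pre w o.M ∧ v' ∈ pre w o.M ∧ dt v v' ≠ 0 ∧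
      f = (dt v v')⁻¹ • pull g v v' ∧ ∀ y, y ∈ pre u o.M ↔ cb v v' y ∈ pre w o.M := by
  obtain ⟨v, k, h₀⟩ := tl_coord o.c.deg hw (u 0)
  obtain ⟨v', k', h₁⟩ := tl_coord o.c.deg hw (u 1)
  have hdt : dt v v' ≠ 0 := tl_dt o.c.deg hu h₀ h₁
  have hmm : ∀ (a : Fin 2 → K) (b : K) (x : o.c.F), x ∈ o.M → x = lin w a + algebraMap K o.c.F b →
      a ∈ pre w o.M := by
    intro a b x hx he
    show lin w a ∈ o.M
    have h1 : lin w a = x - algebraMap K o.c.F b := by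
      rw [he]
      ring
    rw [h1]
    exact o.M.sub_mem hx (o.hK b)
  refine ⟨v, v', hmm v k _ (hm 0) h₀, hmm v' k' _ (hm 1) h₁, hdt, ?_, ?_⟩
  · obtain ⟨u', hu', kk, h2, h3⟩ := lv_pull o.c.deg hw hdt
    have h4 := lv_uniq o.c.deg hu hu' (k := ![kk 0 - k, kk 1 - k']) (by
      intro i
      fin_cases i
      · show u' 0 = u 0 + algebraMap K o.c.F (kk 0 - k)
        rw [h2, h₀, map_sub]
        ring
      · show u' 1 = u 1 + algebraMap K o.c.F (kk 1 - k')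
        rw [h3, h₁, map_sub]
        ring)
    exact h4.1.symm
  · intro y
    exact pre_change (k := ![k, k']) o.hK h₀ h₁ y

theorem tail (K : IntermediateField ℚ QBar) [NumberField K] (sg : InfinitePlace K → Bool) {κ : ℝ} (hκ : 1 ≤ κ)
    (hR : RFS K κ) (hO : OCS K κ) : ∃ C : ℝ, 1 ≤ C ∧ ∀ (Q : Finset (Pl K)) (z T R₁ R₂ : ℝ), 1 ≤ z →
    1 ≤ T → 1 ≤ R₂ → R₁ ≤ R₂ → R₂ ≤ 2 * R₁ →
    (∀ Λ ∈ LQ Q, (Ft sg Q z T R₁ R₂ Λ).Finite) ∧ {Λ | Λ ∈ LQ Q ∧ (Ft sg Q z T R₁ R₂ Λ).Nonempty}.Finite ∧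
    ∑ᶠ Λ ∈ LQ Q, ((Ft sg Q z T R₁ R₂ Λ).ncard : ℝ) ≤ C * T ^ (4 * Module.finrank ℚ K) / z := by
  obtain ⟨C₁, hC₁, hpu⟩ := pair_up K hκ
  obtain ⟨C₂, hC₂, hnm⟩ := nmx_cnt K hR hO
  obtain ⟨C₃, hC₃, hall⟩ := od_all K hR hO
  choose T₁ T₂ g w hrf using hR
  refine ⟨2 * C₁ * C₂, by nlinarith, ?_⟩
  intro Q z T R₁ R₂ hz hT hR₂ hRR hR2
  have hR1 : 0 < R₁ := by linarith
  have hLt : ∀ o : Od K, Lt (pre (w o) o.M) := fun o => (od_any o (hrf o).lv).1
  have hdi := fun o : Od K => od_disc o (hrf o).lv (hrf o).mem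
  have hnp := fun o : Od K => hpu (pre (w o) o.M) (g o) T (T₁ o) (T₂ o) (hLt o) (hdi o).1
    (hrf o).ix (hrf o).red hT
  obtain ⟨O, hOd⟩ : ∃ O : Set (Od K), O = {o | (R₁ < o.D ∧ o.D ≤ R₂) ∧
    ∃ l : Pl K, z < nm l ∧ o.Nmx l} := ⟨_, rfl⟩
  have hOm : ∀ o, o ∈ O ↔ (R₁ < o.D ∧ o.D ≤ R₂) ∧ ∃ l : Pl K, z < nm l ∧ o.Nmx l := by
    intro o
    rw [hOd]
    rfl
  have hOf : O.Finite := (hall R₂ hR₂).1.subset (fun o ho => ((hOm o).1 ho).1.2)
  have hOc : (O.ncard : ℝ) ≤ C₂ * R₂ / z := by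
    refine le_trans ?_ (hnm R₂ z hR₂ hz)
    have h1 : O ⊆ {o : Od K | o.D ≤ R₂ ∧ ∃ l : Pl K, z < nm l ∧ o.Nmx l} :=
      fun o ho => ⟨((hOm o).1 ho).1.2, ((hOm o).1 ho).2⟩
    exact_mod_cast Set.ncard_le_ncard h1 ((hall R₂ hR₂).1.subset fun o ho => ho.1)
  obtain ⟨W, hWd⟩ : ∃ W : Finset ((_ : Od K) × ((Fin 2 → K) × (Fin 2 → K))),
    W = hOf.toFinset.sigma fun o => (hnp o).1.toFinset := ⟨_, rfl⟩
  have hWm : ∀ y, y ∈ W ↔ y.1 ∈ O ∧ y.2 ∈ NP (pre (w y.1) y.1.M) (g y.1) ∅ T := by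
    intro y
    rw [hWd, Finset.mem_sigma, Set.Finite.mem_toFinset, Set.Finite.mem_toFinset]
  have hTp : 0 < T ^ (4 * Module.finrank ℚ K) := pow_pos (by linarith) _
  have hWc : (W.card : ℝ) ≤ 2 * C₁ * C₂ * T ^ (4 * Module.finrank ℚ K) / z := by
    rw [hWd, Finset.card_sigma, Nat.cast_sum]
    have h1 : ∀ o ∈ hOf.toFinset, (((hnp o).1.toFinset.card : ℕ) : ℝ) ≤
        C₁ * T ^ (4 * Module.finrank ℚ K) * (2 / R₂) := by
      intro o ho
      rw [Set.Finite.mem_toFinset, hOm] at ho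
      rw [← Set.ncard_eq_toFinset_card _ (hnp o).1]
      refine (hnp o).2.1.trans ?_
      have hix : (1 : ℝ) ≤ ix (pre (w o) o.M) := by exact_mod_cast ix_pos (hLt o) (hdi o).1
      have hD : R₁ < o.D := ho.1.1
      have hD0 : 0 < o.D := by linarith
      rw [(hdi o).2, mul_assoc]
      refine mul_le_mul_of_nonneg_left ?_ (by linarith)
      rw [mul_div_mul_right _ _ (by positivity)]
      rw [div_eq_mul_one_div]
      refine mul_le_mul_of_nonneg_left ?_ hTp.le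
      rw [div_le_div_iff₀ hD0 (by linarith)]
      linarith
    refine (Finset.sum_le_card_nsmul _ _ _ h1).trans ?_
    rw [nsmul_eq_mul, ← Set.ncard_eq_toFinset_card _ hOf]
    have hR0 : 0 < R₂ := by linarith
    calc (O.ncard : ℝ) * (C₁ * T ^ (4 * Module.finrank ℚ K) * (2 / R₂))
        ≤ (C₂ * R₂ / z) * (C₁ * T ^ (4 * Module.finrank ℚ K) * (2 / R₂)) :=
          mul_le_mul_of_nonneg_right hOc (by positivity)
      _ = 2 * C₁ * C₂ * T ^ (4 * Module.finrank ℚ K) / z := by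
          field_simp
  obtain ⟨P, hPd⟩ : ∃ P : Set (Submodule (𝓞 K) (Fin 2 → K) × (Fin 4 → K)),
    P = {x | x.1 ∈ LQ Q ∧ x.2 ∈ Ft sg Q z T R₁ R₂ x.1} := ⟨_, rfl⟩
  have hPm : ∀ x, x ∈ P ↔ x.1 ∈ LQ Q ∧ x.2 ∈ Ft sg Q z T R₁ R₂ x.1 := by
    intro x
    rw [hPd]
    rfl
  have hP : ∀ x, x ∈ P → ∃ y : (_ : Od K) × ((Fin 2 → K) × (Fin 2 → K)), y ∈ W ∧
      x.2 = (dt y.2.1 y.2.2)⁻¹ • pull (g y.1) y.2.1 y.2.2 ∧
      ∀ t, t ∈ x.1 ↔ cb y.2.1 y.2.2 t ∈ pre (w y.1) y.1.M := by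
    rintro ⟨Λ, f⟩ hx
    rw [hPm] at hx
    obtain ⟨⟨hL, hOO, -⟩, hf, hfD, hfz, l, -, hzl, hnml⟩ := hx
    dsimp only at hL hOO hf hfD hfz hnml
    obtain ⟨o, u, hu, hm, hp⟩ := tl_order hL hOO hf hfz
    obtain ⟨v, v', hv, hv', hdt, hfe, hch⟩ := tl_change o hu (hrf o).lv hm
    refine ⟨⟨o, (v, v')⟩, ?_, hfe, ?_⟩
    · rw [hWm, hOm]
      refine ⟨⟨?_, l, hzl, f, u, hu, ?_⟩, hv, hv', hdt, ?_, ?_, fun l hl => absurd hl (Finset.notMem_empty l)⟩
      · have h1 := (od_disc o hu hm).2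
        rw [hp, nd_eq K f] at h1
        have hix : (1 : ℝ) ≤ ix Λ := by exact_mod_cast ix_pos hL hOO
        have hix2 : (0 : ℝ) < (ix Λ : ℝ) ^ 2 := by positivity
        have h2 := hfD.2.2.1
        have h3 := hfD.2.2.2
        rw [h1] at h2 h3
        exact ⟨lt_of_mul_lt_mul_right h2 hix2.le, le_of_mul_le_mul_right h3 hix2⟩
      · rw [hp]
        exact hnml
      · intro p
        exact ((d1_iff hdt hfe T p).1 (hfD.1 p)).1
      · intro p
        exact ((d1_iff hdt hfe T p).1 (hfD.1 p)).2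
    · intro t
      rw [← hch, hp]
  choose φ hφW hφ1 hφ2 using fun x : P => hP x.1 x.2
  obtain ⟨φ', hφ'⟩ : ∃ φ' : P → W, ∀ x, ((φ' x : W) : (_ : Od K) × ((Fin 2 → K) × (Fin 2 → K))) = φ x :=
    ⟨fun x => ⟨φ x, hφW x⟩, fun x => rfl⟩
  have hinj : Function.Injective φ' := by
    intro x x' h
    have h0 : φ x = φ x' := by
      rw [← hφ', ← hφ', h]
    refine Subtype.ext (Prod.ext (Submodule.ext fun t => ?_) ?_)
    · rw [hφ2 x, hφ2 x', h0]
    · rw [hφ1 x, hφ1 x', h0]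
  have hfinP : Finite P := Finite.of_injective φ' hinj
  have hPf : P.Finite := Set.toFinite P
  have hPc : P.ncard ≤ W.card := by
    have h1 := Nat.card_le_card_of_injective φ' hinj
    rwa [Nat.card_coe_set_eq, Nat.card_eq_fintype_card, Fintype.card_coe] at h1
  refine ⟨fun Λ hΛ => ?_, ?_, ?_⟩
  · exact (hPf.image Prod.snd).subset fun f hf => ⟨(Λ, f), (hPm _).2 ⟨hΛ, hf⟩, rfl⟩
  · exact (hPf.image Prod.fst).subset fun Λ hΛ => by
      obtain ⟨f, hf⟩ := hΛ.2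
      exact ⟨(Λ, f), (hPm _).2 ⟨hΛ.1, hf⟩, rfl⟩
  · have h1 : ∑ᶠ Λ ∈ LQ Q, ((Ft sg Q z T R₁ R₂ Λ).ncard : ℝ) =
        ∑ Λ ∈ hPf.toFinset.image Prod.fst, ((Ft sg Q z T R₁ R₂ Λ).ncard : ℝ) := by
      refine finsum_mem_eq_sum_of_inter_support_eq _ ?_
      ext Λ
      simp only [Set.mem_inter_iff, Function.mem_support, Finset.coe_image, Set.mem_image,
        Set.Finite.coe_toFinset]
      constructor
      · rintro ⟨h2, h3⟩
        refine ⟨?_, h3⟩
        have h4 : (Ft sg Q z T R₁ R₂ Λ).Nonempty := by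
          rw [Set.nonempty_iff_ne_empty]
          intro h5
          rw [h5, Set.ncard_empty, Nat.cast_zero] at h3
          exact h3 rfl
        obtain ⟨f, hf⟩ := h4
        exact ⟨(Λ, f), (hPm _).2 ⟨h2, hf⟩, rfl⟩
      · rintro ⟨⟨x, hx, rfl⟩, h3⟩
        exact ⟨((hPm x).1 hx).1, h3⟩
    rw [h1, ← Nat.cast_sum]
    refine le_trans ?_ hWc
    have h2 : ∑ Λ ∈ hPf.toFinset.image Prod.fst, (Ft sg Q z T R₁ R₂ Λ).ncard ≤ P.ncard := by
      rw [Set.ncard_eq_toFinset_card P hPf, Finset.card_eq_sum_card_image Prod.fst]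
      refine Finset.sum_le_sum fun Λ hΛ => ?_
      have hΛ' : Λ ∈ LQ Q := by
        obtain ⟨x, hx, rfl⟩ := Finset.mem_image.1 hΛ
        exact ((hPm x).1 (hPf.mem_toFinset.1 hx)).1
      rw [← Set.ncard_coe_finset]
      refine Set.ncard_le_ncard_of_injOn (fun f => (Λ, f)) ?_ ?_ (Finset.finite_toSet _)
      · intro f hf
        rw [Finset.mem_coe, Finset.mem_filter, Set.Finite.mem_toFinset]
        exact ⟨(hPm _).2 ⟨hΛ', hf⟩, rfl⟩
      · intro f _ f' _ h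
        exact congrArg Prod.snd h
    exact_mod_cast h2.trans hPc

end H12.SQM
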