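import Pool.Agent.H97.SXM.Hs
import Pool.Agent.H12.SQM.Sgn

/-!
# [SQ HS] The weights with the signs at the real places. File Pool/Agent/H12/SQM/Hs.lean (complete)

`gI S Qd c₀ q c = gM S Qd c₀ q c` if the field `c` has the sign pattern of `c₀` at the real places, and `0` otherwise. The weights on the forms are those of `H97/SXM/Hs.lean` (`wts`): on the frame forms with the
sign pattern `sgc c₀` they are equal to `gI`.
-/

set_option autoImplicit false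

open scoped NumberField Classical
open IsDedekindDomain NumberField H38.ML H63.MA H67.SX H77.MF H97.SXM

noncomputable section

namespace H12.SQM

variable {K : IntermediateField ℚ QBar} [NumberField K]

/-- the weight on the fields, with the infinite places -/
def gI (S : Finset (Pl K)) (Qd : DP K QBar) (c₀ : Cu K) (q : Finset (Pl K)) (c : Cb K) : ℝ :=
  if Sc (sgc (toCb c₀)) c then gM S Qd c₀ q c else 0

theorem gI_facts (S : Finset (Pl K)) (Qd : DP K QBar) (c₀ : Cu K) (q : Finset (Pl K)) :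
    (∀ c, |gI S Qd c₀ q c| ≤ gI S Qd c₀ ∅ c) ∧ (∀ c, 0 ≤ gI S Qd c₀ ∅ c) ∧
    (∀ c, gI S Qd c₀ ∅ c ≤ 1) ∧
    (∀ c c' : Cb K, Nonempty (c.F ≃ₐ[K] c'.F) → gI S Qd c₀ q c = gI S Qd c₀ q c') ∧
    (∀ c : Cb K, IsGalois K c.F → gI S Qd c₀ q c = 0) ∧
    ∀ c : Cb K, ¬ Sc (sgc (toCb c₀)) c → gI S Qd c₀ q c = 0 := by
  obtain ⟨h1, h2, h3, h4, h5⟩ := gM_facts S Qd c₀ q
  refine ⟨fun c => ?_, fun c => ?_, fun c => ?_, fun c c' h => ?_, fun c h => ?_, fun c h => ?_⟩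
  · unfold gI
    split_ifs
    · exact h1 c
    · rw [abs_zero]
  · unfold gI
    split_ifs
    · exact h2 c
    · exact le_rfl
  · unfold gI
    split_ifs
    · exact h3 c
    · exact zero_le_one
  · unfold gI
    have h6 := sc_iso h (sgc (toCb c₀))
    by_cases h7 : Sc (sgc (toCb c₀)) c
    · rw [if_pos h7, if_pos (h6.1 h7), h4 c c' h]
    · rw [if_neg h7, if_neg fun h8 => h7 (h6.2 h8)]
  · unfold gI
    rw [h5 c h, ite_self]
  · exact if_neg h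

/-- the weight of the field side: the local type with the infinite places -/
theorem gI_eq (S : Finset (Pl K)) (Qd : DP K QBar) (c₀ c : Cu K) (q : Finset (Pl K)) :
    gI S Qd c₀ q (toCb c) = if H12.SQ.LEI S Qd c₀ c then ∏ l ∈ q, (c.mu l / 2) else 0 := by
  have h1 : Sc (sgc (toCb c₀)) (toCb c) ↔ ∀ v, H12.SQ.ni c₀ v = H12.SQ.ni c v :=
    sc_sgc (toCb c₀) (toCb c)
  have h2 : gM S Qd c₀ q (toCb c) = if LEq S Qd c₀ c then ∏ l ∈ q, (c.mu l / 2) else 0 := by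
    unfold gM
    exact dif_pos c.non
  unfold gI H12.SQ.LEI
  rw [h2]
  by_cases h3 : Sc (sgc (toCb c₀)) (toCb c)
  · rw [if_pos h3]
    by_cases h4 : LEq S Qd c₀ c
    · rw [if_pos h4, if_pos ⟨h4, h1.1 h3⟩]
    · rw [if_neg h4, if_neg fun h5 => h4 h5.1]
  · rw [if_neg h3, if_neg fun h5 => h3 (h1.2 h5.2)]

theorem wt_of {S : Finset (Pl K)} {Qd : DP K QBar} {c₀ : Cu K} {q q' : Finset (Pl K)}
    {J : Ideal (𝓞 K)} {H : (Fin 4 → K) → ℝ} {m : ℝ}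
    (h : H97.SXM.Wt q J H (gM S Qd c₀ q') m) :
    Wt (sgc (toCb c₀)) q J H (gI S Qd c₀ q') m := by
  obtain ⟨g1, g2, g3, g4, g5, g6⟩ := gI_facts S Qd c₀ q'
  refine ⟨h.ne, h.sub, h.per, h.bd, h.zero, h.mn, g4, fun c => (g1 c).trans (g3 c), g5, g6, ?_⟩
  intro f x hx hg hL hs
  rw [h.eq f x hx hg hL, gI, if_pos ((sc_iff x.1 hx _).1 hs)]

theorem wtsI (S : Finset (Pl K)) (h6 : ∀ l : Pl K, (6 : 𝓞 K) ∈ l.asIdeal → l ∈ S)
    (Qd : DP K QBar) (c₀ : Cu K) : ∃ (k : Pl K → ℕ) (mS : ℝ), 0 < mS ∧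
    ∀ q : Finset (Pl K), (∀ l ∈ q, l ∉ S) →
    (∃ H, Wt (sgc (toCb c₀)) (S ∪ q) (JS S k * JQ q ^ 3) H (gI S Qd c₀ q)
      (mS * ∏ l ∈ q, (M1 l / 2))) ∧
    ∃ H, Wt (sgc (toCb c₀)) (S ∪ q) (JS S k * JQ q ^ 3) H (gI S Qd c₀ ∅)
      (mS * ∏ l ∈ q, M0 l) := by
  obtain ⟨k, mS, h1, h2⟩ := wts S h6 Qd c₀
  refine ⟨k, mS, h1, fun q hq => ?_⟩
  obtain ⟨⟨H, hH⟩, H', hH'⟩ := h2 q hq
  exact ⟨⟨H, wt_of hH⟩, H', wt_of hH'⟩

end H12.SQM
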