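import Pool.Agent.H12.SQM.Per
import Pool.Agent.H57.LI.PrK

/-!
# [SQM LCN] The lattices `Λ` and the sum `GQ`, 80-130 lines. File Pool/Agent/H97/SXM/Lcn.lean

`Dg K sg T (R₁ ix²) (R₂ ix²) ≠ ∅` implies `R₁ ix² ≤ C T^(4d)` (`dg_low`), so `ix ≤ C y`, `y = 1 + T^(4d)/R₁`; `lat_count` (`H77/MF/Exp.lean`): finitely many `Λ`, at most `(C y)^A`. `kp` is between 0 and 1: `0 ≤ dn ≤ 1` (mean of an indicator), the infimum over all finite sets `B` of numbers in `[0, 1]` (`B = ∅` gives 1).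
`kp_le`: for every finite `B`: `kp Q Λ ≤ ∏_{l ∈ B \ Q} (1 - dn l Λ) ≤ kp Q Λ + ∑_{l ∈ B' \ B} ..`: for every `B' ⊇ B` `∏_{B \ Q} - ∏_{B' \ Q} ≤ ∑_{l ∈ B' \ B, l ∉ Q} dn l Λ` (all factors in `[0,1]`); if `B` contains all primes with `nm l ≤ z` outside `Q`, this is `≤ ∑_{nm l > z} 3/(nm l)² ≤ C / z` (`nm_dens`; at most `d x` primes of norm `≤ x`).
`kp_pos`: for `Λ ∈ LQ Q'` arbitrary: `1 - dn l Λ ≥ 1/4` for all `l`? Only needed for `Λ = 𝓞²`: `dn l 𝓞² = 1 - M0 l ≤ 3/4` (`nm_iff`: `NM l 𝓞² = {NML l}` on `𝓞⁴`, `VL 𝓞² = 𝓞⁴` (`vl_loc`, `loc_all`), `M0_bd`), and the product over `nm l > z` is `≥ 1 - C/z ≥ 1/2`: so `kp Q 𝓞² ≥ c > 0`, `c` depending only on `K`.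
`gq_bd`: `|GQ Q z₁ z₂| ≤ C (1 + 1/z₁)^A` from `dl_bd`, `vd_bd` and the number of `Λ`. `gq_nonneg`. `gq_low`: the term `Λ = 𝓞²` of `GQ Q (z/2) z` is `≥ c z` (`vd_low`, `ix 𝓞² = 1`, `dl 𝓞² > 0`), the others are `≥ 0`.
-/

set_option autoImplicit false

open scoped NumberField Classical
open IsDedekindDomain NumberField H38.ML H63.MA H77.MF H97.SXM

noncomputable section

namespace H12.SQM

variable (K : Type) [Field K] [NumberField K]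

omit [NumberField K] in
private theorem lcn_mean {m : ℕ} (V : Submodule (𝓞 K) (Fin m → K)) (J : Ideal (𝓞 K))
    (h : (Fin m → K) → ℝ) (h0 : ∀ f, 0 ≤ h f) (h1 : ∀ f, h f ≤ 1) : 0 ≤ mean V J h ∧ mean V J h ≤ 1 := by
  unfold mean
  by_cases hfin : Finite (V ⧸ (J • ⊤ : Submodule (𝓞 K) V))
  · have : Fintype (V ⧸ (J • ⊤ : Submodule (𝓞 K) V)) := Fintype.ofFinite _
    rw [finsum_eq_sum_of_fintype, Nat.card_eq_fintype_card]
    have h5 : (0 : ℝ) < (Fintype.card (V ⧸ (J • ⊤ : Submodule (𝓞 K) V)) : ℝ) := by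
      exact_mod_cast Fintype.card_pos
    refine ⟨div_nonneg (Finset.sum_nonneg fun c _ => h0 _) h5.le, ?_⟩
    rw [div_le_one h5]
    refine (Finset.sum_le_sum fun c _ => h1 _).trans ?_
    simp
  · have : Infinite (V ⧸ (J • ⊤ : Submodule (𝓞 K) V)) := not_finite_iff_infinite.1 hfin
    rw [Nat.card_eq_zero_of_infinite]
    simp

omit [NumberField K] in
private theorem lcn_mean_compl {m : ℕ} (V : Submodule (𝓞 K) (Fin m → K)) (J : Ideal (𝓞 K))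
    (h g : (Fin m → K) → ℝ) (hhg : ∀ f ∈ V, h f + g f = 1) : mean V J h + mean V J g ≤ 1 := by
  unfold mean
  by_cases hfin : Finite (V ⧸ (J • ⊤ : Submodule (𝓞 K) V))
  · have : Fintype (V ⧸ (J • ⊤ : Submodule (𝓞 K) V)) := Fintype.ofFinite _
    rw [finsum_eq_sum_of_fintype, finsum_eq_sum_of_fintype, Nat.card_eq_fintype_card, ← add_div,
      ← Finset.sum_add_distrib]
    have h5 : (0 : ℝ) < (Fintype.card (V ⧸ (J • ⊤ : Submodule (𝓞 K) V)) : ℝ) := by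
      exact_mod_cast Fintype.card_pos
    rw [div_le_one h5]
    refine (Finset.sum_le_sum (g := fun _ => (1 : ℝ)) fun c _ => ?_).trans (by simp)
    exact (hhg _ (Quotient.out c : V).2).le
  · have : Infinite (V ⧸ (J • ⊤ : Submodule (𝓞 K) V)) := not_finite_iff_infinite.1 hfin
    rw [Nat.card_eq_zero_of_infinite]
    simp

private theorem lcn_two (l : Pl K) : 2 ≤ nm l := by
  have h1 : nm l ≠ 0 := by
    unfold nm
    rw [Ne, Ideal.absNorm_eq_zero_iff]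
    exact l.ne_bot
  have h2 : nm l ≠ 1 := by
    unfold nm
    rw [Ne, Ideal.absNorm_eq_one_iff]
    exact l.isPrime.ne_top
  omega

private theorem lcn_fin (x : ℝ) : {l : Pl K | (nm l : ℝ) ≤ x}.Finite := by
  have h := Ideal.finite_setOfPred_absNorm_le (S := 𝓞 K) ⌊x⌋₊
  have h2 : Set.InjOn (fun l : Pl K => l.asIdeal) ((fun l : Pl K => l.asIdeal) ⁻¹' {I | Ideal.absNorm I ≤ ⌊x⌋₊}) :=
    fun a _ b _ hab => IsDedekindDomain.HeightOneSpectrum.ext hab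
  refine (h.preimage h2).subset ?_
  intro l hl
  exact Nat.le_floor hl

/-- the sum over the large primes -/
private theorem lcn_sum (z : ℝ) (hz : 1 ≤ z) (F : Finset (Pl K)) (hF : ∀ l ∈ F, z < (nm l : ℝ)) :
    ∑ l ∈ F, 3 / (nm l : ℝ) ^ 2 ≤ 6 * Module.finrank ℚ K / z := by
  obtain ⟨p, hN, hn⟩ := H57.LI.prk_exists K
  have hmaps : ∀ l ∈ F, nm l ∈ F.image nm := fun l hl => Finset.mem_image_of_mem _ hl
  rw [← Finset.sum_fiberwise_of_maps_to hmaps]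
  have hfib : ∀ m ∈ F.image nm, ∑ l ∈ F.filter (fun l => nm l = m), 3 / (nm l : ℝ) ^ 2 ≤
      3 * Module.finrank ℚ K * ((m : ℝ) ^ 2)⁻¹ := by
    intro m _
    have h1 : ∑ l ∈ F.filter (fun l => nm l = m), 3 / (nm l : ℝ) ^ 2 =
        ∑ l ∈ F.filter (fun l => nm l = m), 3 / (m : ℝ) ^ 2 := by
      refine Finset.sum_congr rfl fun l hl => ?_
      rw [(Finset.mem_filter.1 hl).2]
    rw [h1, Finset.sum_const, nsmul_eq_mul]
    have h2 : (F.filter (fun l => nm l = m)).card ≤ Module.finrank ℚ K := by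
      rw [← hn, ← Set.ncard_coe_finset]
      refine (Set.ncard_le_ncard ?_ (p.fin m)).trans (p.mul m)
      intro l hl
      change p.N l = m
      rw [hN]
      exact (Finset.mem_filter.1 (Finset.mem_coe.1 hl)).2
    have h3 : ((F.filter (fun l => nm l = m)).card : ℝ) ≤ Module.finrank ℚ K := by exact_mod_cast h2
    calc ((F.filter (fun l => nm l = m)).card : ℝ) * (3 / (m : ℝ) ^ 2)
        ≤ Module.finrank ℚ K * (3 / (m : ℝ) ^ 2) := by gcongr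
      _ = 3 * Module.finrank ℚ K * ((m : ℝ) ^ 2)⁻¹ := by ring
  refine (Finset.sum_le_sum hfib).trans ?_
  rw [← Finset.mul_sum]
  have h4 : ∑ m ∈ F.image nm, ((m : ℝ) ^ 2)⁻¹ ≤ 2 / (⌊z⌋₊ + 1) := by
    refine (Finset.sum_le_sum_of_subset_of_nonneg (t := Finset.Ioo ⌊z⌋₊ (F.sup nm + 1)) ?_ ?_).trans
      (sum_Ioo_inv_sq_le _ _)
    · intro m hm
      obtain ⟨l, hl, rfl⟩ := Finset.mem_image.1 hm
      rw [Finset.mem_Ioo]
      refine ⟨(Nat.floor_lt (by linarith)).2 (hF l hl), Nat.lt_succ_of_le (Finset.le_sup (f := nm) hl)⟩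
    · intro m _ _
      positivity
  have h5 : z ≤ (⌊z⌋₊ : ℝ) + 1 := (Nat.lt_floor_add_one z).le
  calc 3 * (Module.finrank ℚ K : ℝ) * ∑ m ∈ F.image nm, ((m : ℝ) ^ 2)⁻¹
      ≤ 3 * (Module.finrank ℚ K : ℝ) * (2 / (⌊z⌋₊ + 1)) := by gcongr
    _ ≤ 3 * (Module.finrank ℚ K : ℝ) * (2 / z) := by gcongr
    _ = 6 * Module.finrank ℚ K / z := by ring

private theorem lcn_weier {ι : Type} (a : ι → ℝ) (h0 : ∀ l, 0 ≤ a l) (h1 : ∀ l, a l ≤ 1) (D : Finset ι) :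
    1 - ∑ l ∈ D, (1 - a l) ≤ ∏ l ∈ D, a l := by
  induction D using Finset.induction_on with
  | empty => simp
  | insert l D hl ih =>
    rw [Finset.sum_insert hl, Finset.prod_insert hl]
    have h2 : ∏ l ∈ D, a l ≤ 1 := Finset.prod_le_one (fun l _ => h0 l) fun l _ => h1 l
    have h3 := h0 l
    have h4 := h1 l
    nlinarith

private theorem lcn_mono {ι : Type} (a : ι → ℝ) (h0 : ∀ l, 0 ≤ a l) (h1 : ∀ l, a l ≤ 1) (A B : Finset ι)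
    (hAB : A ⊆ B) : ∏ l ∈ B, a l ≤ ∏ l ∈ A, a l := by
  rw [← Finset.prod_sdiff hAB]
  exact mul_le_of_le_one_left (Finset.prod_nonneg fun l _ => h0 l)
    (Finset.prod_le_one (fun l _ => h0 l) fun l _ => h1 l)

theorem dn_bd {Λ : Submodule (𝓞 K) (Fin 2 → K)} (hL : Lt Λ) (l : Pl K) :
    0 ≤ dn l Λ ∧ dn l Λ ≤ 1 ∧ dn l Λ ≤ 3 / (nm l : ℝ) ^ 2 := by
  have h := lcn_mean K (VL Λ) (l.asIdeal ^ 3) (fun f => if f ∈ NM l Λ then 1 else 0)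
    (fun f => by split_ifs <;> norm_num) (fun f => by split_ifs <;> norm_num)
  exact ⟨h.1, h.2, nm_dens hL l⟩

private theorem lcn_fac {Λ : Submodule (𝓞 K) (Fin 2 → K)} (hL : Lt Λ) :
    (∀ l : Pl K, 0 ≤ 1 - dn l Λ) ∧ ∀ l : Pl K, 1 - dn l Λ ≤ 1 :=
  ⟨fun l => by linarith [(dn_bd K hL l).2.1], fun l => by linarith [(dn_bd K hL l).1]⟩

private theorem lcn_bdd {Λ : Submodule (𝓞 K) (Fin 2 → K)} (hL : Lt Λ) (Q : Finset (Pl K)) :
    BddBelow (Set.range fun B : Finset (Pl K) => ∏ l ∈ B \ Q, (1 - dn l Λ)) := by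
  refine ⟨0, ?_⟩
  rintro _ ⟨B, rfl⟩
  exact Finset.prod_nonneg fun l _ => (lcn_fac K hL).1 l

theorem kp_bd {Λ : Submodule (𝓞 K) (Fin 2 → K)} (hL : Lt Λ) (Q : Finset (Pl K)) :
    0 ≤ kp Q Λ ∧ kp Q Λ ≤ 1 := by
  constructor
  · exact Real.iInf_nonneg fun B => Finset.prod_nonneg fun l _ => (lcn_fac K hL).1 l
  · have h := ciInf_le (lcn_bdd K hL Q) ∅
    rw [Finset.empty_sdiff, Finset.prod_empty] at h
    exact h

theorem kp_near : ∃ C : ℝ, 1 ≤ C ∧ ∀ (Λ : Submodule (𝓞 K) (Fin 2 → K)) (Q B : Finset (Pl K)) (z : ℝ),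
    Lt Λ → 1 ≤ z → (∀ l : Pl K, (nm l : ℝ) ≤ z → l ∉ Q → l ∈ B) →
    kp Q Λ ≤ ∏ l ∈ B \ Q, (1 - dn l Λ) ∧ ∏ l ∈ B \ Q, (1 - dn l Λ) ≤ kp Q Λ + C / z := by
  have hd : 1 ≤ Module.finrank ℚ K := Module.finrank_pos
  have hdR : (1 : ℝ) ≤ Module.finrank ℚ K := by exact_mod_cast hd
  refine ⟨6 * Module.finrank ℚ K, by linarith, ?_⟩
  intro Λ Q B z hL hz hB
  obtain ⟨f0, f1⟩ := lcn_fac K hL
  refine ⟨ciInf_le (lcn_bdd K hL Q) B, ?_⟩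
  rw [← sub_le_iff_le_add]
  refine le_ciInf fun B' => ?_
  set A := B \ Q with hA
  set D := (B' \ Q) \ (B \ Q) with hD
  have hsub : B' \ Q ⊆ A ∪ D := by
    intro l hl
    rw [Finset.mem_union]
    by_cases h : l ∈ B \ Q
    · exact Or.inl h
    · exact Or.inr (Finset.mem_sdiff.2 ⟨hl, h⟩)
  have hdis : Disjoint A D := Finset.disjoint_sdiff
  refine le_trans ?_ (lcn_mono (fun l => 1 - dn l Λ) f0 f1 _ _ hsub)
  rw [Finset.prod_union hdis]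
  have h1 : ∏ l ∈ A, (1 - dn l Λ) ≤ 1 := Finset.prod_le_one (fun l _ => f0 l) fun l _ => f1 l
  have h0 : 0 ≤ ∏ l ∈ A, (1 - dn l Λ) := Finset.prod_nonneg fun l _ => f0 l
  have h2 := lcn_weier (fun l => 1 - dn l Λ) f0 f1 D
  have h3 : ∑ l ∈ D, (1 - (1 - dn l Λ)) ≤ 6 * Module.finrank ℚ K / z := by
    refine le_trans (Finset.sum_le_sum fun l _ => ?_) (lcn_sum K z hz D ?_)
    · rw [sub_sub_cancel]
      exact (dn_bd K hL l).2.2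
    · intro l hl
      by_contra h
      push Not at h
      rw [hD, Finset.mem_sdiff, Finset.mem_sdiff] at hl
      exact hl.2 (Finset.mem_sdiff.2 ⟨hB l h hl.1.2, hl.1.2⟩)
  have h4 : 0 ≤ ∑ l ∈ D, (1 - (1 - dn l Λ)) := Finset.sum_nonneg fun l _ => by
    rw [sub_sub_cancel]
    exact (dn_bd K hL l).1
  calc ∏ l ∈ A, (1 - dn l Λ) - 6 * Module.finrank ℚ K / z
      ≤ ∏ l ∈ A, (1 - dn l Λ) * 1 - 1 * ∑ l ∈ D, (1 - (1 - dn l Λ)) := by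
        simp only [mul_one, one_mul]
        linarith
    _ ≤ (∏ l ∈ A, (1 - dn l Λ)) * (1 - ∑ l ∈ D, (1 - (1 - dn l Λ))) := by
        simp only [mul_one, one_mul]
        nlinarith
    _ ≤ (∏ l ∈ A, (1 - dn l Λ)) * ∏ l ∈ D, (1 - dn l Λ) := mul_le_mul_of_nonneg_left h2 h0

/-! ### the lattice `𝓞²` -/

private theorem lcn_lt : Lt (OO K 2) := by
  constructor
  · let φ : (Fin 2 → 𝓞 K) →ₗ[𝓞 K] (Fin 2 → K) :=
      { toFun := fun a i => (a i : K)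
        map_add' := fun a b => by
          funext i
          simp
        map_smul' := fun r a => by
          funext i
          simp only [Pi.smul_apply, smul_eq_mul, RingHom.id_apply, Algebra.smul_def]
          simp }
    have h : OO K 2 = Submodule.map φ ⊤ := by
      ext v
      rw [Submodule.map_top, LinearMap.mem_range]
      constructor
      · intro hv
        choose a ha using hv
        exact ⟨a, funext fun i => ha i⟩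
      · rintro ⟨a, rfl⟩ i
        exact ⟨a i, rfl⟩
    rw [h]
    exact Submodule.FG.map φ (Module.finite_def.1 inferInstance)
  · refine ⟨![1, 0], ?_, ![0, 1], ?_, ?_⟩
    · intro i
      fin_cases i
      · exact ⟨1, by simp⟩
      · exact ⟨0, by simp⟩
    · intro i
      fin_cases i
      · exact ⟨0, by simp⟩
      · exact ⟨1, by simp⟩
    · simp [H77.MF.dt]

private theorem lcn_vl : VL (OO K 2) = OO K 4 :=
  loc_all fun _ => vl_loc (lcn_lt K) fun _ => Iff.rfl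

private theorem lcn_quarter (l : Pl K) : 1 / 4 ≤ 1 - dn l (OO K 2) := by
  have h1 : dn l (OO K 2) = mean (OO K 4) (l.asIdeal ^ 3) (fun f => if f ∈ NM l (OO K 2) then 1 else 0) := by
    unfold dn
    rw [lcn_vl]
  have h2 := lcn_mean_compl K (OO K 4) (l.asIdeal ^ 3) (fun f => if f ∈ NM l (OO K 2) then 1 else 0)
    (fun f => if NML l f then 0 else 1) (by
      intro f hf
      have h3 := nm_iff (lcn_lt K) (l := l) (fun _ => Iff.rfl) (f := f) (by rw [lcn_vl]; exact hf)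
      simp only [h3]
      split_ifs <;> norm_num)
  have h3 := (M0_bd l).1
  unfold M0 at h3
  rw [h1]
  linarith

private theorem lcn_kp : ∃ c : ℝ, 0 < c ∧ ∀ Q : Finset (Pl K), c ≤ kp Q (OO K 2) := by
  have hd : 1 ≤ Module.finrank ℚ K := Module.finrank_pos
  have hdR : (1 : ℝ) ≤ Module.finrank ℚ K := by exact_mod_cast hd
  obtain ⟨f0, f1⟩ := lcn_fac K (lcn_lt K)
  set z : ℝ := 12 * Module.finrank ℚ K with hz
  set P := (lcn_fin K z).toFinset with hP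
  refine ⟨(1 / 4) ^ P.card * (1 / 2), by positivity, fun Q => le_ciInf fun B => ?_⟩
  rw [← Finset.prod_filter_mul_prod_filter_not (B \ Q) (fun l => l ∈ P)]
  refine mul_le_mul ?_ ?_ (by norm_num) (Finset.prod_nonneg fun l _ => f0 l)
  · calc (1 / 4 : ℝ) ^ P.card ≤ (1 / 4 : ℝ) ^ ((B \ Q).filter (fun l => l ∈ P)).card := by
          refine pow_le_pow_of_le_one (by norm_num) (by norm_num) (Finset.card_le_card ?_)
          intro l hl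
          exact (Finset.mem_filter.1 hl).2
      _ = ∏ _l ∈ (B \ Q).filter (fun l => l ∈ P), (1 / 4 : ℝ) := by rw [Finset.prod_const]
      _ ≤ ∏ l ∈ (B \ Q).filter (fun l => l ∈ P), (1 - dn l (OO K 2)) :=
          Finset.prod_le_prod (fun _ _ => by norm_num) fun l _ => lcn_quarter K l
  · refine le_trans ?_ (lcn_weier (fun l => 1 - dn l (OO K 2)) f0 f1 _)
    have h3 : ∑ l ∈ (B \ Q).filter (fun l => ¬ l ∈ P), (1 - (1 - dn l (OO K 2))) ≤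
        6 * Module.finrank ℚ K / z := by
      refine le_trans (Finset.sum_le_sum fun l _ => ?_)
        (lcn_sum K z (by rw [hz]; linarith) ((B \ Q).filter (fun l => ¬ l ∈ P)) ?_)
      · rw [sub_sub_cancel]
        exact (dn_bd K (lcn_lt K) l).2.2
      · intro l hl
        have h4 := (Finset.mem_filter.1 hl).2
        rw [hP, Set.Finite.mem_toFinset, Set.mem_ofPred_eq, not_le] at h4
        exact h4
    have h4 : 6 * (Module.finrank ℚ K : ℝ) / z = 1 / 2 := by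
      rw [hz]
      field_simp
      norm_num
    linarith

variable (sg : InfinitePlace K → Bool)

theorem lam_fin : ∃ (C : ℝ) (A : ℕ), 1 ≤ C ∧ ∀ (Q : Finset (Pl K)) (T R₁ R₂ : ℝ), 0 < T → 0 < R₁ →
    ∃ Ls : Finset (Submodule (𝓞 K) (Fin 2 → K)), (∀ Λ ∈ Ls, Λ ∈ LQ Q ∧
        (ix Λ : ℝ) ≤ C * (1 + T ^ (4 * Module.finrank ℚ K) / R₁)) ∧
      (Ls.card : ℝ) ≤ C * (1 + T ^ (4 * Module.finrank ℚ K) / R₁) ^ A ∧
      ∀ Λ ∈ LQ Q, Λ ∉ Ls → Dg K sg T (R₁ * (ix Λ : ℝ) ^ 2) (R₂ * (ix Λ : ℝ) ^ 2) = ∅ ∧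
        vD K sg ((ix Λ : ℝ) ^ 2 * (R₁ / T ^ (4 * Module.finrank ℚ K)))
          ((ix Λ : ℝ) ^ 2 * (R₂ / T ^ (4 * Module.finrank ℚ K))) = 0 := by
  obtain ⟨C, hC, hlow⟩ := dg_low K sg
  obtain ⟨A, hA⟩ := lat_count K
  obtain ⟨D, hD⟩ : ∃ D : ℕ, D = 4 * Module.finrank ℚ K := ⟨_, rfl⟩
  rw [← hD] at hlow
  rw [← hD]
  refine ⟨C ^ (A + 1), A, one_le_pow₀ hC, ?_⟩
  intro Q T R₁ R₂ hT hR
  set y : ℝ := 1 + T ^ D / R₁ with hy
  have hy0 : 0 ≤ T ^ D / R₁ := by positivity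
  have hy1 : 1 ≤ y := by linarith
  have hCy : 1 ≤ C * y := one_le_mul_of_one_le_of_one_le hC hy1
  have hN1 : 1 ≤ ⌊C * y⌋₊ := Nat.le_floor (by exact_mod_cast hCy)
  have hNle : (⌊C * y⌋₊ : ℝ) ≤ C * y := Nat.floor_le (by linarith)
  obtain ⟨hfin, hcard⟩ := hA ⌊C * y⌋₊ hN1
  have hsub : {Λ : Submodule (𝓞 K) (Fin 2 → K) | Λ ∈ LQ Q ∧ ix Λ ≤ ⌊C * y⌋₊} ⊆
      {Λ : Submodule (𝓞 K) (Fin 2 → K) | Lt Λ ∧ OO K 2 ≤ Λ ∧ ix Λ ≤ ⌊C * y⌋₊} :=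
    fun Λ h => ⟨h.1.1, h.1.2.1, h.2⟩
  have hfin' := hfin.subset hsub
  refine ⟨hfin'.toFinset, ?_, ?_, ?_⟩
  · intro Λ hΛ
    rw [Set.Finite.mem_toFinset] at hΛ
    refine ⟨hΛ.1, ?_⟩
    have h1 : (ix Λ : ℝ) ≤ (⌊C * y⌋₊ : ℝ) := by exact_mod_cast hΛ.2
    refine (h1.trans hNle).trans ?_
    have h2 : C ≤ C ^ (A + 1) := le_self_pow₀ hC (by omega)
    gcongr
  · have h1 : hfin'.toFinset.card ≤ ⌊C * y⌋₊ ^ A := by
      rw [← Set.ncard_eq_toFinset_card _ hfin']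
      exact (Set.ncard_le_ncard hsub hfin).trans hcard
    have h2 : (hfin'.toFinset.card : ℝ) ≤ (⌊C * y⌋₊ : ℝ) ^ A := by exact_mod_cast h1
    refine h2.trans ?_
    calc (⌊C * y⌋₊ : ℝ) ^ A ≤ (C * y) ^ A := by gcongr
      _ = C ^ A * y ^ A := mul_pow _ _ _
      _ ≤ C ^ (A + 1) * y ^ A := by
          have : C ^ A ≤ C ^ (A + 1) := pow_le_pow_right₀ hC (by omega)
          gcongr
  · intro Λ hΛ hn
    rw [Set.Finite.mem_toFinset] at hn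
    have hgt : ⌊C * y⌋₊ < ix Λ := by
      by_contra h
      push Not at h
      exact hn ⟨hΛ, h⟩
    have hgt' : C * y < (ix Λ : ℝ) := (Nat.floor_lt (by linarith)).1 hgt
    have hix1 : (1 : ℝ) ≤ ix Λ := hCy.trans hgt'.le
    have hsq : C * y < (ix Λ : ℝ) ^ 2 := hgt'.trans_le (le_self_pow₀ hix1 (by norm_num))
    have hkey : C * T ^ D < R₁ * (ix Λ : ℝ) ^ 2 := by
      have h1 : C * (T ^ D / R₁) < (ix Λ : ℝ) ^ 2 := by
        refine lt_of_le_of_lt ?_ hsq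
        have : T ^ D / R₁ ≤ y := by linarith
        gcongr
      calc C * T ^ D = R₁ * (C * (T ^ D / R₁)) := by field_simp
        _ < R₁ * (ix Λ : ℝ) ^ 2 := mul_lt_mul_of_pos_left h1 hR
    have hTD : 0 < T ^ D := by positivity
    constructor
    · rw [Set.eq_empty_iff_forall_notMem]
      intro x hx
      have h1 := (hlow T _ _ hT (by positivity) x hx).2.2
      linarith
    · have hemp : Dg K sg 1 ((ix Λ : ℝ) ^ 2 * (R₁ / T ^ D)) ((ix Λ : ℝ) ^ 2 * (R₂ / T ^ D)) = ∅ := by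
        rw [Set.eq_empty_iff_forall_notMem]
        intro x hx
        have h1 := (hlow 1 _ _ one_pos (by positivity) x hx).2.2
        rw [one_pow, mul_one] at h1
        have h2 : C < (ix Λ : ℝ) ^ 2 * (R₁ / T ^ D) := by
          rw [← mul_div_assoc, lt_div_iff₀ hTD]
          linarith
        linarith
      unfold vD
      rw [hemp, MeasureTheory.measure_empty, ENNReal.toReal_zero]

/-- `GQ` as a finite sum -/
private theorem lcn_gq : ∃ (C : ℝ) (A : ℕ), 1 ≤ C ∧ ∀ (Q : Finset (Pl K)) (z₁ z₂ : ℝ), 0 < z₁ →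
    ∃ Ls : Finset (Submodule (𝓞 K) (Fin 2 → K)), (∀ Λ ∈ Ls, Λ ∈ LQ Q ∧ (ix Λ : ℝ) ≤ C * (1 + 1 / z₁)) ∧
      (Ls.card : ℝ) ≤ C * (1 + 1 / z₁) ^ A ∧
      GQ sg Q z₁ z₂ = ∑ Λ ∈ Ls, dl Λ * kp Q Λ * vD K sg ((ix Λ : ℝ) ^ 2 * z₁) ((ix Λ : ℝ) ^ 2 * z₂) ∧
      ∀ Λ ∈ LQ Q, Λ ∉ Ls → vD K sg ((ix Λ : ℝ) ^ 2 * z₁) ((ix Λ : ℝ) ^ 2 * z₂) = 0 := by
  obtain ⟨C, A, hC, h⟩ := lam_fin K sg
  refine ⟨C, A, hC, ?_⟩
  intro Q z₁ z₂ hz
  obtain ⟨Ls, h1, h2, h3⟩ := h Q 1 z₁ z₂ one_pos hz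
  simp only [one_pow, div_one] at h1 h2 h3
  refine ⟨Ls, h1, h2, ?_, fun Λ hΛ hn => (h3 Λ hΛ hn).2⟩
  unfold GQ
  rw [finsum_mem_eq_sum_of_inter_support_eq]
  ext Λ
  simp only [Set.mem_inter_iff, Finset.mem_coe, Function.mem_support, and_congr_left_iff]
  intro hne
  constructor
  · intro hΛ
    by_contra hn
    exact hne (by rw [(h3 Λ hΛ hn).2, mul_zero])
  · intro hΛ
    exact (h1 Λ hΛ).1

theorem gq_bd : ∃ (C : ℝ) (A : ℕ), 1 ≤ C ∧ ∀ (Q : Finset (Pl K)) (z₁ z₂ : ℝ), 0 < z₁ →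
    0 ≤ GQ sg Q z₁ z₂ ∧ GQ sg Q z₁ z₂ ≤ C * (1 + 1 / z₁) ^ A := by
  obtain ⟨C, A, hC, h⟩ := lcn_gq K sg
  obtain ⟨C₂, A₂, hC₂, hdl⟩ := dl_bd K
  obtain ⟨C₃, A₃, hC₃, hvd⟩ := vd_bd K sg
  refine ⟨C * (C₂ * C ^ A₂ * C₃), A + (A₂ + A₃), ?_, ?_⟩
  · have h1 : 1 ≤ C₂ * C ^ A₂ := one_le_mul_of_one_le_of_one_le hC₂ (one_le_pow₀ hC)
    exact one_le_mul_of_one_le_of_one_le hC (one_le_mul_of_one_le_of_one_le h1 hC₃)
  intro Q z₁ z₂ hz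
  obtain ⟨Ls, h1, h2, h3, -⟩ := h Q z₁ z₂ hz
  set y : ℝ := 1 + 1 / z₁ with hy
  have hy0 : 0 < 1 / z₁ := by positivity
  have hy1 : 1 ≤ y := by linarith
  have hterm : ∀ Λ ∈ Ls, 0 ≤ dl Λ * kp Q Λ * vD K sg ((ix Λ : ℝ) ^ 2 * z₁) ((ix Λ : ℝ) ^ 2 * z₂) ∧
      dl Λ * kp Q Λ * vD K sg ((ix Λ : ℝ) ^ 2 * z₁) ((ix Λ : ℝ) ^ 2 * z₂) ≤ C₂ * C ^ A₂ * C₃ * y ^ (A₂ + A₃) := by
    intro Λ hΛ
    obtain ⟨⟨hL, hO, -⟩, hix⟩ := h1 Λ hΛ
    have hN : 1 ≤ ix Λ := ix_pos hL hO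
    have hNR : (1 : ℝ) ≤ ix Λ := by exact_mod_cast hN
    obtain ⟨d0, d1⟩ := hdl Λ hL hO
    obtain ⟨k0, k1⟩ := kp_bd K hL Q
    have hN2 : (1 : ℝ) ≤ (ix Λ : ℝ) ^ 2 := one_le_pow₀ hNR
    obtain ⟨v0, v1⟩ := hvd ((ix Λ : ℝ) ^ 2 * z₁) ((ix Λ : ℝ) ^ 2 * z₂) (by positivity)
    refine ⟨by positivity, ?_⟩
    have hd' : dl Λ ≤ C₂ * (C * y) ^ A₂ := d1.trans (by gcongr)
    have hv' : vD K sg ((ix Λ : ℝ) ^ 2 * z₁) ((ix Λ : ℝ) ^ 2 * z₂) ≤ C₃ * y ^ A₃ := by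
      refine v1.trans ?_
      have h7 : 1 + 1 / ((ix Λ : ℝ) ^ 2 * z₁) ≤ y := by
        rw [hy]
        exact add_le_add le_rfl (one_div_le_one_div_of_le hz (le_mul_of_one_le_left hz.le hN2))
      gcongr
    calc dl Λ * kp Q Λ * vD K sg ((ix Λ : ℝ) ^ 2 * z₁) ((ix Λ : ℝ) ^ 2 * z₂)
        ≤ C₂ * (C * y) ^ A₂ * 1 * (C₃ * y ^ A₃) := by gcongr
      _ = C₂ * C ^ A₂ * C₃ * y ^ (A₂ + A₃) := by rw [mul_pow, pow_add]; ring
  rw [h3]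
  refine ⟨Finset.sum_nonneg fun Λ hΛ => (hterm Λ hΛ).1, ?_⟩
  refine (Finset.sum_le_sum fun Λ hΛ => (hterm Λ hΛ).2).trans ?_
  rw [Finset.sum_const, nsmul_eq_mul]
  calc (Ls.card : ℝ) * (C₂ * C ^ A₂ * C₃ * y ^ (A₂ + A₃))
      ≤ C * y ^ A * (C₂ * C ^ A₂ * C₃ * y ^ (A₂ + A₃)) := by gcongr
    _ = C * (C₂ * C ^ A₂ * C₃) * y ^ (A + (A₂ + A₃)) := by rw [pow_add y A]; ring

theorem gq_low : ∃ c z₀ : ℝ, 0 < c ∧ 0 < z₀ ∧ ∀ (Q : Finset (Pl K)) (z : ℝ), 0 < z → z ≤ z₀ →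
    c * z ≤ GQ sg Q (z / 2) z := by
  obtain ⟨C, A, hC, h⟩ := lcn_gq K sg
  obtain ⟨C₂, A₂, hC₂, hdl⟩ := dl_bd K
  obtain ⟨C₃, A₃, hC₃, hvd⟩ := vd_bd K sg
  obtain ⟨c₁, z₀, hc₁, hz₀, hlow⟩ := vd_low K sg
  obtain ⟨c₂, hc₂, hkp⟩ := lcn_kp K
  have hdl0 : 0 < dl (OO K 2) := (hdl (OO K 2) (lcn_lt K) le_rfl).1
  refine ⟨dl (OO K 2) * c₂ * c₁, z₀, by positivity, hz₀, ?_⟩
  intro Q z hz hzz
  obtain ⟨Ls, h1, -, h3, h4⟩ := h Q (z / 2) z (by positivity)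
  have hmem : OO K 2 ∈ LQ Q := ⟨lcn_lt K, le_rfl, fun _ _ _ => Iff.rfl⟩
  have hix : ix (OO K 2) = 1 := by
    unfold ix
    exact AddSubgroup.relIndex_self _
  have hnn : ∀ Λ ∈ Ls, 0 ≤ dl Λ * kp Q Λ * vD K sg ((ix Λ : ℝ) ^ 2 * (z / 2)) ((ix Λ : ℝ) ^ 2 * z) := by
    intro Λ hΛ
    obtain ⟨⟨hL, hO, -⟩, -⟩ := h1 Λ hΛ
    have hN : 1 ≤ ix Λ := ix_pos hL hO
    have hNR : (1 : ℝ) ≤ ix Λ := by exact_mod_cast hN
    have d0 := (hdl Λ hL hO).1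
    have k0 := (kp_bd K hL Q).1
    have v0 := (hvd ((ix Λ : ℝ) ^ 2 * (z / 2)) ((ix Λ : ℝ) ^ 2 * z) (by positivity)).1
    positivity
  have hv : c₁ * z ≤ vD K sg ((ix (OO K 2) : ℝ) ^ 2 * (z / 2)) ((ix (OO K 2) : ℝ) ^ 2 * z) := by
    rw [hix, Nat.cast_one, one_pow, one_mul, one_mul]
    exact hlow z hz hzz
  have hin : OO K 2 ∈ Ls := by
    by_contra hn
    have h5 := h4 (OO K 2) hmem hn
    rw [h5] at hv
    have : 0 < c₁ * z := by positivity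
    linarith
  rw [h3]
  calc dl (OO K 2) * c₂ * c₁ * z = dl (OO K 2) * c₂ * (c₁ * z) := by ring
    _ ≤ dl (OO K 2) * kp Q (OO K 2) *
        vD K sg ((ix (OO K 2) : ℝ) ^ 2 * (z / 2)) ((ix (OO K 2) : ℝ) ^ 2 * z) := by
        have h6 := hkp Q
        have h7 : 0 ≤ dl (OO K 2) * kp Q (OO K 2) := mul_nonneg hdl0.le (hc₂.le.trans h6)
        gcongr
    _ ≤ ∑ Λ ∈ Ls, dl Λ * kp Q Λ * vD K sg ((ix Λ : ℝ) ^ 2 * (z / 2)) ((ix Λ : ℝ) ^ 2 * z) :=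
        Finset.single_le_sum (f := fun Λ => dl Λ * kp Q Λ *
          vD K sg ((ix Λ : ℝ) ^ 2 * (z / 2)) ((ix Λ : ℝ) ^ 2 * z)) hnn hin

end H12.SQM
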