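import Pool.Agent.H12.SQM.Mst
import Pool.Agent.H88.SO.Main

/-!
# SQM: chapter M for every number field, final form (complete)
-/

set_option autoImplicit false

open scoped NumberField Classical
open IsDedekindDomain NumberField H38.ML H63.MA H67.SX H77.MF H97.SXM

noncomputable section

namespace H12.SQM

/-- CHAPTER M of SQ: every number field `K` -/
theorem mstI (K : IntermediateField ℚ QBar) [NumberField K] (S : Finset (Pl K))
    (h6 : ∀ l : Pl K, (6 : 𝓞 K) ∈ l.asIdeal → l ∈ S) (Qd : DP K QBar) : H12.SQ.MStI K S Qd := by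
  obtain ⟨κ, hκ, hf⟩ := H88.SO.red_frame K
  have hR : RFS K κ := hf
  obtain ⟨C, hC, hc⟩ := H88.SO.od_cnt K κ hκ
  have hO : OCS K κ := ⟨C, hC, fun Y Z hY hZ => ⟨H88.SO.od_finite K Y, fun O h => hc Y Z hY hZ O h⟩⟩
  exact mst K hκ hR hO S h6 Qd

end H12.SQM
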