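import Pool.Agent.H12.SQM.Defs

/-!
# [SQM NU] The measure `nu K n` (complete)

`cx : (K ⊗ ℝ)^n → En K n` is a real linear closed embedding with image `{x | Rl x}`; `nu K n A = volume (cx⁻¹ A)` for all sets `A`.
Translations by vectors of `Rl`, scaling, balls, open sets.
-/

set_option autoImplicit false

open scoped NumberField Classical Pointwise
open IsDedekindDomain NumberField MeasureTheory H38.ML H63.MA H67.SX H77.MF H97.SXM

noncomputable section

namespace H12.SQM

variable {K : Type} [Field K] [NumberField K] {n : ℕ}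

theorem cx_add (x y : Em K n) : cx (x + y) = cx x + cx y := by
  funext w i
  by_cases h : w.IsReal <;> simp [cx, h]

theorem cx_neg (x : Em K n) : cx (-x) = -cx x := by
  funext w i
  by_cases h : w.IsReal <;> simp [cx, h]

theorem cx_smul (c : ℝ) (x : Em K n) : cx (c • x) = c • cx x := by
  funext w i
  by_cases h : w.IsReal <;> simp [cx, h]

theorem cx_inj : Function.Injective (cx (K := K) (n := n)) := by
  intro x y h
  funext i
  ext w
  · have h1 := congrFun (congrFun h w.1) i
    simp only [cx, w.2, dif_pos] at h1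
    exact_mod_cast h1
  · have h1 := congrFun (congrFun h w.1) i
    have h2 : ¬ w.1.IsReal := InfinitePlace.not_isReal_iff_isComplex.2 w.2
    simp only [cx, h2, dif_neg, not_false_eq_true] at h1
    exact h1

/-- the linear map -/
def cxl (K : Type) [Field K] [NumberField K] (n : ℕ) : Em K n →ₗ[ℝ] En K n where
  toFun := cx
  map_add' := cx_add
  map_smul' := cx_smul

theorem cx_ce : Topology.IsClosedEmbedding (cx (K := K) (n := n)) :=
  LinearMap.isClosedEmbedding_of_injective (f := cxl K n) (LinearMap.ker_eq_bot.2 cx_inj)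

theorem cx_me : MeasurableEmbedding (cx (K := K) (n := n)) := cx_ce.measurableEmbedding

theorem nu_apply (A : Set (En K n)) : nu K n A = volume (cx ⁻¹' A) := by
  unfold nu
  exact cx_me.map_apply volume A

theorem rl_cx (y : Em K n) : Rl (cx y) := by
  intro w hw i
  simp [cx, hw]

theorem cx_of {x : En K n} (hx : Rl x) : ∃ y : Em K n, cx y = x := by
  refine ⟨fun i => (fun w => (x w.1 i).re, fun w => x w.1 i), ?_⟩
  funext w i
  by_cases h : w.IsReal
  · simp only [cx, h, dif_pos]
    exact Complex.ext (by simp) (by simp [hx w h i])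
  · simp [cx, h]

theorem rl_emb (x : Fin n → K) : Rl (emb x) := by
  intro w hw i
  change (w.embedding (x i)).im = 0
  rw [← InfinitePlace.embedding_of_isReal_apply hw (x i), Complex.ofReal_im]

theorem Rl.add {x y : En K n} (hx : Rl x) (hy : Rl y) : Rl (x + y) := by
  intro w hw i
  simp [hx w hw i, hy w hw i]

theorem Rl.neg {x : En K n} (hx : Rl x) : Rl (-x) := by
  intro w hw i
  simp [hx w hw i]

theorem Rl.smul {x : En K n} (c : ℝ) (hx : Rl x) : Rl (c • x) := by
  intro w hw i
  simp [hx w hw i]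

theorem emb_cx (x : Fin n → K) : emb x = cx (fun i => mixedEmbedding K (x i)) := by
  funext w i
  by_cases h : w.IsReal
  · simp only [cx, h, dif_pos, emb, mixedEmbedding.mixedEmbedding_apply_isReal]
    exact (InfinitePlace.embedding_of_isReal_apply h (x i)).symm
  · simp only [cx, h, dif_neg, not_false_eq_true, emb, mixedEmbedding.mixedEmbedding_apply_isComplex]

instance iB : BorelSpace (Em K n) := Pi.borelSpace

private theorem haarAux (E : Type) [NormedAddCommGroup E] [NormedSpace ℝ E] [MeasureSpace E]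
    [BorelSpace E] [SecondCountableTopology E] [(volume : Measure E).IsAddHaarMeasure]
    [SigmaFinite (volume : Measure E)] :
    (volume : Measure (Fin n → E)).IsAddHaarMeasure := Measure.pi.isAddHaarMeasure _

instance iH : (volume : Measure (Em K n)).IsAddHaarMeasure :=
  haarAux (mixedEmbedding.mixedSpace K)

theorem fr_em (K : Type) [Field K] [NumberField K] (n : ℕ) :
    Module.finrank ℝ (Em K n) = n * Module.finrank ℚ K := by
  rw [Module.finrank_pi_fintype, Finset.sum_const, Finset.card_univ, Fintype.card_fin,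
    mixedEmbedding.finrank, smul_eq_mul]

theorem nu_mono {A B : Set (En K n)} (h : ∀ x, Rl x → x ∈ A → x ∈ B) : nu K n A ≤ nu K n B := by
  rw [nu_apply, nu_apply]
  exact measure_mono fun y hy => h _ (rl_cx y) hy

theorem nu_congr {A B : Set (En K n)} (h : ∀ x, Rl x → (x ∈ A ↔ x ∈ B)) : nu K n A = nu K n B :=
  le_antisymm (nu_mono fun x hx => (h x hx).1) (nu_mono fun x hx => (h x hx).2)

theorem nu_add {v : En K n} (hv : Rl v) (A : Set (En K n)) :
    nu K n {x | v + x ∈ A} = nu K n A := by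
  obtain ⟨u, hu⟩ := cx_of hv
  rw [nu_apply, nu_apply]
  have h : cx ⁻¹' {x : En K n | v + x ∈ A} = (fun y => u + y) ⁻¹' (cx ⁻¹' A) := by
    ext y
    simp only [Set.mem_preimage, Set.mem_ofPred_eq, cx_add, hu]
  rw [h, measure_preimage_add]

theorem nu_smul {c : ℝ} (hc : 0 < c) (A : Set (En K n)) :
    nu K n (c • A) = ENNReal.ofReal (c ^ (n * Module.finrank ℚ K)) * nu K n A := by
  rw [nu_apply, nu_apply]
  have h : cx ⁻¹' (c • A) = c • (cx (K := K) (n := n) ⁻¹' A) := by
    ext y
    rw [Set.mem_preimage, Set.mem_smul_set_iff_inv_smul_mem₀ hc.ne',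
      Set.mem_smul_set_iff_inv_smul_mem₀ hc.ne', Set.mem_preimage, cx_smul]
  rw [h, Measure.addHaar_smul, fr_em, abs_of_nonneg (by positivity)]

theorem nu_pre {c : ℝ} (hc : 0 < c) {v : En K n} (hv : Rl v) (A : Set (En K n)) :
    nu K n {x | v + c • x ∈ A} =
      ENNReal.ofReal ((c ^ (n * Module.finrank ℚ K))⁻¹) * nu K n A := by
  obtain ⟨u, hu⟩ := cx_of hv
  rw [nu_apply, nu_apply]
  have h : cx ⁻¹' {x : En K n | v + c • x ∈ A} = (c • ·) ⁻¹' ((fun y => u + y) ⁻¹' (cx ⁻¹' A)) := by
    ext y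
    simp only [Set.mem_preimage, Set.mem_ofPred_eq, cx_add, cx_smul, hu]
  rw [h, Measure.addHaar_preimage_smul volume hc.ne', measure_preimage_add, fr_em,
    abs_of_nonneg (by positivity)]

theorem cx_norm (y : Em K n) : ‖cx y‖ ≤ ‖y‖ := by
  rw [pi_norm_le_iff_of_nonneg (norm_nonneg _)]
  intro w
  rw [pi_norm_le_iff_of_nonneg (norm_nonneg _)]
  intro i
  have h1 : ‖y i‖ ≤ ‖y‖ := norm_le_pi_norm y i
  by_cases h : w.IsReal
  · simp only [cx, h, dif_pos, Complex.norm_real]
    exact ((norm_le_pi_norm (y i).1 ⟨w, h⟩).trans (norm_fst_le _)).trans h1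
  · simp only [cx, h, dif_neg, not_false_eq_true]
    exact ((norm_le_pi_norm (y i).2 ⟨w, InfinitePlace.not_isReal_iff_isComplex.1 h⟩).trans
      (norm_snd_le _)).trans h1

theorem norm_cx (y : Em K n) : ‖y‖ ≤ ‖cx y‖ := by
  rw [pi_norm_le_iff_of_nonneg (norm_nonneg _)]
  intro i
  have h0 : ∀ w : InfinitePlace K, ‖cx y w i‖ ≤ ‖cx y‖ := fun w =>
    (norm_le_pi_norm (cx y w) i).trans (norm_le_pi_norm (cx y) w)
  rw [Prod.norm_def, max_le_iff]
  constructor
  · rw [pi_norm_le_iff_of_nonneg (norm_nonneg _)]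
    intro w
    have h1 := h0 w.1
    simp only [cx, w.2, dif_pos, Complex.norm_real] at h1
    exact h1
  · rw [pi_norm_le_iff_of_nonneg (norm_nonneg _)]
    intro w
    have h1 := h0 w.1
    have h2 : ¬ w.1.IsReal := InfinitePlace.not_isReal_iff_isComplex.2 w.2
    simp only [cx, h2, dif_neg, not_false_eq_true] at h1
    exact h1

theorem nu_closedBall (ρ : ℝ) : nu K n (Metric.closedBall 0 ρ) = volume (Metric.closedBall (0 : Em K n) ρ) := by
  rw [nu_apply]
  congr 1
  ext y
  simp only [Set.mem_preimage, Metric.mem_closedBall, dist_zero_right]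
  rw [le_antisymm (cx_norm y) (norm_cx y)]

theorem nu_ball_fin (ρ : ℝ) : nu K n (Metric.closedBall 0 ρ) ≠ ⊤ := by
  rw [nu_closedBall]
  exact measure_closedBall_lt_top.ne

theorem nu_fin {A : Set (En K n)} {ρ : ℝ} (h : ∀ x ∈ A, Rl x → ‖x‖ ≤ ρ) : nu K n A ≠ ⊤ :=
  ne_top_of_le_ne_top (nu_ball_fin ρ) (nu_mono fun x hx hA => by
    rw [Metric.mem_closedBall, dist_zero_right]
    exact h x hA hx)

theorem nu_ball_bd (K : Type) [Field K] [NumberField K] (n : ℕ) : ∃ B : ℝ, 1 ≤ B ∧ ∀ ρ : ℝ, 0 ≤ ρ →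
    (nu K n (Metric.closedBall 0 ρ)).toReal ≤ B * ρ ^ (n * Module.finrank ℚ K) := by
  refine ⟨max 1 (volume (Metric.ball (0 : Em K n) 1)).toReal, le_max_left _ _, fun ρ hρ => ?_⟩
  rw [nu_closedBall, Measure.addHaar_closedBall volume 0 hρ, ENNReal.toReal_mul,
    ENNReal.toReal_ofReal (by positivity), fr_em, mul_comm]
  exact mul_le_mul_of_nonneg_right (le_max_right _ _) (by positivity)

theorem nu_pos {U : Set (En K n)} (hU : IsOpen U) {x : En K n} (hx : x ∈ U) (hr : Rl x) :
    0 < nu K n U := by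
  obtain ⟨y, hy⟩ := cx_of hr
  rw [nu_apply]
  exact (hU.preimage cx_ce.continuous).measure_pos volume ⟨y, by rw [Set.mem_preimage, hy]; exact hx⟩

/-- additivity for disjoint families -/
theorem nu_biUnion {ι : Type} (s : Finset ι) (f : ι → Set (En K n))
    (hd : ∀ i ∈ s, ∀ j ∈ s, i ≠ j → Disjoint (f i) (f j)) (hm : ∀ i ∈ s, MeasurableSet (f i)) :
    nu K n (⋃ i ∈ s, f i) = ∑ i ∈ s, nu K n (f i) :=
  measure_biUnion_finset (fun i hi j hj hne => hd i hi j hj hne) hm

end H12.SQM
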