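import Pool.Agent.H12.SQM.Nu

/-!
# [SQ NUP] `nu K 2` of a product of regions, one for each infinite place, 60-120 lines. File Pool/Agent/H12/SQM/NuP.lean

`nu_apply`: `nu K 2 A = volume (cx⁻¹ A)` on `Em K 2 = Fin 2 → mixedSpace K`, `mixedSpace K = ({w // w.IsReal} → ℝ) × ({w // w.IsComplex} → ℂ)`. The preimage of `{x | ∀ w, x w ∈ V w}` is
`{y | (∀ w real, (fun i => ((y i).1 w : ℂ)) ∈ V w) ∧ (∀ w complex, (fun i => (y i).2 w) ∈ V w)}`. The map `Φ : Em K 2 → ({w // w.IsReal} → Fin 2 → ℝ) × ({w // w.IsComplex} → Fin 2 → ℂ)`, `y ↦ (fun w i => (y i).1 w, fun w i => (y i).2 w)` preserves the volume (a linear isomorphism which permutes the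
coordinates: `Measure.isAddLeftInvariant_eq_smul` and one box, exactly as `swap_mp` in `H97/SXM/Lat.lean`; or compose `MeasureTheory.volume_preserving_arrowProdEquivProdArrow`-like maps with two `swap`s), and the preimage is `Φ⁻¹ (Set.pi univ A ×ˢ Set.pi univ B)`: `Measure.prod_prod`, `volume_pi_pi`. Finally
`∏ w : InfinitePlace K, .. = (∏ w : {w // w.IsReal}, ..) * ∏ w : {w // w.IsComplex}, ..` (`Fintype.prod_subtype_mul_prod_subtype` with `p w = w.IsReal`, `¬ IsReal ↔ IsComplex`: `InfinitePlace.not_isReal_iff_isComplex`; or `InfinitePlace.prod_eq_prod_mul_prod`).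
-/

set_option autoImplicit false

open scoped NumberField Classical Pointwise
open IsDedekindDomain NumberField MeasureTheory H38.ML H63.MA H67.SX H77.MF H97.SXM

noncomputable section

namespace H12.SQM

private theorem nup_swap (E : Type) [NormedAddCommGroup E] [NormedSpace ℝ E] [ProperSpace E]
    [SecondCountableTopology E] [FiniteDimensional ℝ E] [MeasureSpace E] [BorelSpace E]
    [(volume : Measure E).IsAddHaarMeasure] [SigmaFinite (volume : Measure E)] (α β : Type)
    [Fintype α] [Fintype β] :
    MeasurePreserving (fun (x : α → β → E) (b : β) (a : α) => x a b) volume volume := by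
  let L : (α → β → E) ≃ₗ[ℝ] (β → α → E) :=
    { toFun := fun x b a => x a b
      invFun := fun x a b => x b a
      map_add' := fun _ _ => rfl
      map_smul' := fun _ _ => rfl
      left_inv := fun _ => rfl
      right_inv := fun _ => rfl }
  let L' := L.toContinuousLinearEquiv
  have hL : Measurable L' := L'.continuous.measurable
  have hv0 : (volume : Measure (β → E)).IsAddHaarMeasure := Measure.pi.isAddHaarMeasure _
  have hv0' : (volume : Measure (α → E)).IsAddHaarMeasure := Measure.pi.isAddHaarMeasure _
  have hv1 : (volume : Measure (α → β → E)).IsAddHaarMeasure := Measure.pi.isAddHaarMeasure _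
  have hv2 : (volume : Measure (β → α → E)).IsAddHaarMeasure := Measure.pi.isAddHaarMeasure _
  have hH : (Measure.map L' volume).IsAddHaarMeasure := L'.isAddHaarMeasure_map volume
  have h := Measure.isAddLeftInvariant_eq_smul (Measure.map L' (volume : Measure (α → β → E))) volume
  set c := Measure.addHaarScalarFactor (Measure.map L' (volume : Measure (α → β → E))) volume with hcd
  have hb0 : (volume (Metric.ball (0 : E) 1)) ≠ 0 := (Metric.measure_ball_pos volume 0 one_pos).ne'
  have hbt : (volume (Metric.ball (0 : E) 1)) ≠ ⊤ := measure_ball_lt_top.ne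
  let S : Set (β → α → E) := Set.univ.pi fun _ => Set.univ.pi fun _ => Metric.ball (0 : E) 1
  have hSm : MeasurableSet S :=
    MeasurableSet.univ_pi fun _ => MeasurableSet.univ_pi fun _ => measurableSet_ball
  have hS : volume S = (volume (Metric.ball (0 : E) 1)) ^ (Fintype.card α * Fintype.card β) := by
    simp only [S]
    rw [volume_pi_pi]
    rw [Finset.prod_congr rfl fun b _ => volume_pi_pi _]
    simp only [Finset.prod_const, Finset.card_univ]
    rw [← pow_mul]
  have hpre : L' ⁻¹' S = Set.univ.pi fun _ => Set.univ.pi fun _ => Metric.ball (0 : E) 1 := by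
    ext x
    simp only [S, Set.mem_preimage, Set.mem_pi, Set.mem_univ, forall_true_left]
    exact ⟨fun h a b => h b a, fun h b a => h a b⟩
  have hS' : (Measure.map L' (volume : Measure (α → β → E))) S =
      (volume (Metric.ball (0 : E) 1)) ^ (Fintype.card α * Fintype.card β) := by
    rw [Measure.map_apply hL hSm, hpre, volume_pi_pi]
    rw [Finset.prod_congr rfl fun b _ => volume_pi_pi _]
    simp only [Finset.prod_const, Finset.card_univ]
    rw [← pow_mul, mul_comm (Fintype.card β)]
  have hc : c = 1 := by
    have h1 : (Measure.map L' (volume : Measure (α → β → E))) S =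
        (c • (volume : Measure (β → α → E))) S := by
      rw [← h]
    rw [hS', Measure.smul_apply, hS] at h1
    have h2 : (volume (Metric.ball (0 : E) 1)) ^ (Fintype.card α * Fintype.card β) ≠ 0 := pow_ne_zero _ hb0
    have h3 : (volume (Metric.ball (0 : E) 1)) ^ (Fintype.card α * Fintype.card β) ≠ ⊤ := ENNReal.pow_ne_top hbt
    have h4 : (1 : ENNReal) * (volume (Metric.ball (0 : E) 1)) ^ (Fintype.card α * Fintype.card β) =
        (c : ENNReal) * (volume (Metric.ball (0 : E) 1)) ^ (Fintype.card α * Fintype.card β) := by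
      rw [one_mul]
      exact h1
    have h5 := (ENNReal.mul_left_inj h2 h3).1 h4
    exact_mod_cast h5.symm
  refine ⟨hL, ?_⟩
  have h6 : Measure.map L' (volume : Measure (α → β → E)) = volume := by
    rw [h, hc, one_smul]
  exact h6

private theorem nup_mp (α β : Type) [Fintype α] [Fintype β] :
    MeasurePreserving (fun (y : Fin 2 → ((α → ℝ) × (β → ℂ))) =>
      ((fun (w : α) (i : Fin 2) => (y i).1 w, fun (w : β) (i : Fin 2) => (y i).2 w) :
        (α → Fin 2 → ℝ) × (β → Fin 2 → ℂ))) volume volume := by
  have h1 := volume_measurePreserving_arrowProdEquivProdArrow (α → ℝ) (β → ℂ) (Fin 2)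
  have h2 := (nup_swap ℝ (Fin 2) α).prod (nup_swap ℂ (Fin 2) β)
  exact h2.comp h1

theorem nu_prod (K : Type) [Field K] [NumberField K] (V : InfinitePlace K → Set (Fin 2 → ℂ))
    (hV : ∀ w, MeasurableSet (V w)) : nu K 2 {x | ∀ w, x w ∈ V w} =
      ∏ w : InfinitePlace K, if w.IsReal then volume {v : Fin 2 → ℝ | (fun i => (v i : ℂ)) ∈ V w}
        else volume (V w) := by
  rw [nu_apply]
  set A : {w : InfinitePlace K // w.IsReal} → Set (Fin 2 → ℝ) := fun w =>
    {v : Fin 2 → ℝ | (fun i => (v i : ℂ)) ∈ V w.1} with hA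
  set B : {w : InfinitePlace K // w.IsComplex} → Set (Fin 2 → ℂ) := fun w => V w.1 with hB
  have hAm : ∀ w, MeasurableSet (A w) := by
    intro w
    have hm : Measurable (fun (v : Fin 2 → ℝ) (i : Fin 2) => (v i : ℂ)) :=
      measurable_pi_lambda _ fun i => Complex.measurable_ofReal.comp (measurable_pi_apply i)
    exact hm (hV w.1)
  have hpre : cx (K := K) (n := 2) ⁻¹' {x | ∀ w, x w ∈ V w} =
      (fun (y : Fin 2 → (({w : InfinitePlace K // w.IsReal} → ℝ) ×
        ({w : InfinitePlace K // w.IsComplex} → ℂ))) =>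
      ((fun w (i : Fin 2) => (y i).1 w, fun w (i : Fin 2) => (y i).2 w) :
        ({w : InfinitePlace K // w.IsReal} → Fin 2 → ℝ) ×
          ({w : InfinitePlace K // w.IsComplex} → Fin 2 → ℂ))) ⁻¹'
      ((Set.univ.pi A) ×ˢ (Set.univ.pi B)) := by
    ext y
    simp only [Set.mem_preimage, Set.mem_ofPred_eq, Set.mem_prod, Set.mem_pi, Set.mem_univ,
      forall_true_left]
    constructor
    · intro h
      refine ⟨fun w => ?_, fun w => ?_⟩
      · have h1 := h w.1
        have h2 : (cx y w.1) = fun i => (((y i).1 w : ℝ) : ℂ) := by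
          funext i
          simp only [cx, w.2, dif_pos]
        rw [h2] at h1
        exact h1
      · have h1 := h w.1
        have h2 : (cx y w.1) = fun i => (y i).2 w := by
          funext i
          simp only [cx, InfinitePlace.not_isReal_iff_isComplex.2 w.2, dif_neg, not_false_eq_true]
        rw [h2] at h1
        exact h1
    · rintro ⟨h1, h2⟩ w
      by_cases hw : w.IsReal
      · have h3 : (cx y w) = fun i => (((y i).1 ⟨w, hw⟩ : ℝ) : ℂ) := by
          funext i
          simp only [cx, hw, dif_pos]
        rw [h3]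
        exact h1 ⟨w, hw⟩
      · have h3 : (cx y w) = fun i => (y i).2 ⟨w, InfinitePlace.not_isReal_iff_isComplex.1 hw⟩ := by
          funext i
          simp only [cx, hw, dif_neg, not_false_eq_true]
        rw [h3]
        exact h2 ⟨w, InfinitePlace.not_isReal_iff_isComplex.1 hw⟩
  have hms : MeasurableSet ((Set.univ.pi A) ×ˢ (Set.univ.pi B)) :=
    (MeasurableSet.univ_pi hAm).prod (MeasurableSet.univ_pi fun w => hV w.1)
  have hv := (nup_mp {w : InfinitePlace K // w.IsReal}
    {w : InfinitePlace K // w.IsComplex}).measure_preimage hms.nullMeasurableSet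
  rw [hpre]
  refine hv.trans ?_
  rw [Measure.volume_eq_prod, Measure.prod_prod, volume_pi_pi, volume_pi_pi,
    InfinitePlace.prod_eq_prod_mul_prod]
  congr 1
  · refine Finset.prod_congr rfl fun w _ => ?_
    rw [if_pos w.2]
  · refine Finset.prod_congr rfl fun w _ => ?_
    rw [if_neg (InfinitePlace.not_isReal_iff_isComplex.2 w.2)]

end H12.SQM
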