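import Pool.Agent.H12.SQM.Defs
import Pool.Agent.H38.SQM.VecR

/-!
# [SQ VRV] The volume of the region of one real place, 60-120 lines. File Pool/Agent/H12/SQM/VrV.lean

`VR T f = {v : Fin 2 → ℝ | ‖hes f v‖ ≤ T², ‖f(v)² disc f‖ ≤ T⁶}` (`Defs.lean`; the complex forms of real vectors: first rewrite as `|hes f v| ≤ T²`, `|ev f v ^ 2 * disc f| ≤ T⁶` over `ℝ` with `Complex.ofReal` casts). `VR T fp`, `VR T fm` are closed, contain a ball around 0, and bounded: for `fp`: `|x²+xy+y²| ≤ T²` so `x², y² ≤ (4/3) T²`; for `fm`: `9|xy| ≤ T²`,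
`27 (x³+y³)² ≤ T⁶`, so `x⁶ + y⁶ ≤ T⁶/27 + 2|xy|³ ≤ T⁶ (1/27 + 2/729)`. So the volumes for `T = 1` are positive and finite: `cR_pos`. Scaling: `VR T g = T • VR 1 g` for `0 < T` (`hes` has degree 2, `ev` degree 3 in `v`), `volume = T²` times (`Measure.addHaar_smul`, dimension 2).
`v1_pos`, `v1_neg`: `VR T f = L⁻¹ (VR T g)` with the linear map `L v = (ℓ₁(v), ℓ₂(v))` of determinant `δ = dt l m ≠ 0`: volume `= |δ|⁻¹ volume (VR T g)` (`MeasureTheory.Measure.addHaar_preimage_linearMap`, `LinearMap.det` of `Matrix.toLin'`). `|δ| = √|disc f|` resp. `√(|disc f| / 27)`. So `vol (VR T f) = cR (sign) T² / √|disc f|`.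
-/

set_option autoImplicit false

open scoped NumberField Classical Pointwise
open IsDedekindDomain NumberField MeasureTheory H38.ML H63.MA H67.SX H77.MF H97.SXM

noncomputable section

namespace H12.SQM

private theorem vr_eq {f : Fin 4 → ℝ} (hf : disc f ≠ 0) {T : ℝ} (hT : 0 < T) :
    volume (VR T f) =
      ENNReal.ofReal (T ^ 2 * H38.SQM.cR (decide (0 < disc f)) / Real.sqrt |disc f|) :=
  H38.SQM.v1_volR hf hT

private theorem vr_nn (T : ℝ) (b : Bool) (x : ℝ) :
    0 ≤ T ^ 2 * H38.SQM.cR b / Real.sqrt x :=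
  div_nonneg (mul_nonneg (sq_nonneg _) (H38.SQM.cR_pos b).le) (Real.sqrt_nonneg _)

private theorem cR_eq (b : Bool) : cR b = H38.SQM.cR b := by
  have hp : disc fp = 1 := by
    simp [disc, fp]
  have hm : disc fm = -27 := by
    simp [disc, fm]
  cases b
  · have h := vr_eq (f := fm) (by rw [hm]; norm_num) one_pos
    unfold cR
    rw [if_neg (by decide), h, ENNReal.toReal_ofReal (vr_nn _ _ _), hm,
      decide_eq_false (by norm_num), one_pow, one_mul, abs_neg, abs_of_pos (by norm_num)]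
    have h1 : (0 : ℝ) < Real.sqrt 27 := Real.sqrt_pos.2 (by norm_num)
    field_simp
  · have h := vr_eq (f := fp) (by rw [hp]; norm_num) one_pos
    unfold cR
    rw [if_pos rfl, h, ENNReal.toReal_ofReal (vr_nn _ _ _), hp, decide_eq_true one_pos, one_pow,
      one_mul, abs_one, Real.sqrt_one, div_one]

theorem cR_pos (b : Bool) : 0 < cR b := by
  rw [cR_eq]
  exact H38.SQM.cR_pos b

theorem vr_vol {f : Fin 4 → ℝ} (hf : disc f ≠ 0) {T : ℝ} (hT : 0 < T) :
    MeasurableSet (VR T f) ∧ volume (VR T f) ≠ ⊤ ∧ (volume (VR T f)).toReal =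
      cR (decide (0 < disc f)) * T ^ 2 / Real.sqrt |disc f| := by
  refine ⟨?_, ?_, ?_⟩
  · have h1 : IsClosed {v : Fin 2 → ℝ |
        ‖hes (fun i => (f i : ℂ)) (fun i => (v i : ℂ))‖ ≤ T ^ 2} := by
      refine isClosed_le ?_ continuous_const
      unfold hes
      fun_prop
    have h2 : IsClosed {v : Fin 2 → ℝ |
        ‖ev (fun i => (f i : ℂ)) (fun i => (v i : ℂ)) ^ 2 * disc (fun i => (f i : ℂ))‖ ≤
          T ^ 6} := by
      refine isClosed_le ?_ continuous_const
      unfold ev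
      fun_prop
    exact (h1.inter h2).measurableSet
  · rw [vr_eq hf hT]
    exact ENNReal.ofReal_ne_top
  · rw [vr_eq hf hT, ENNReal.toReal_ofReal (vr_nn _ _ _), cR_eq]
    ring

end H12.SQM
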