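import Pool.Agent.H12.SQM.NuP
import Pool.Agent.H12.SQM.VrV
import Pool.Agent.H12.SQM.Lat
import Pool.Agent.H97.SXM.VecA

/-!
# [SQ VECV] The volume of the region of the vectors, every number field, 100-180 lines. File Pool/Agent/H12/SQM/VecV.lean

MODEL `H97/SXM/VecV.lean`. `nd_eq`: `|N_{K/ℚ} x| = ∏_w ‖x‖_w^(mult w)` (`NumberField.InfinitePlace.prod_eq_abs_norm`). `sum_mult`: `NumberField.InfinitePlace.sum_mult_eq`. `cV_pos` is `H97.SXM.cV_pos` (its file needs `IsTotallyComplex` only in the later theorems; import `H97.SXM.VecV` or copy). `c1_pos` from `cR_pos`.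
`vg_vol`: `Vg K f T = {v | ∀ w, v w ∈ {v | V1 T (emb f w) v}}`, `nu_prod`. Complex place: `volume = T⁴ cV / ‖disc (emb f w)‖` (copy the private lemmas of the model: `fac`, real determinant `|δ|²`). Real place: `emb f w` has real coefficients (`rl_emb`), `emb f w = fun i => (g i : ℂ)` with `g i = (emb f w i).re : ℝ`, so the set is `VR T g`, `disc (emb f w) = (disc g : ℂ)`,
`vr_vol`: `cR (decide (0 < disc g)) T² / √|disc g|`, and `sg w = decide (0 < disc g)` by the hypothesis `Sg sg (emb f)`. So the factor at `w` is `c1 w (sg w) T^(2 mult w) / √(‖disc (emb f w)‖^(mult w))` in both cases; product over `w`: `∑ mult w = d`.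
-/

set_option autoImplicit false

open scoped NumberField Classical Pointwise
open IsDedekindDomain NumberField MeasureTheory H38.ML H63.MA H67.SX H77.MF H97.SXM

noncomputable section

namespace H12.SQM

/-- the standard region -/
private def V0 : Set (Fin 2 → ℂ) := {v : Fin 2 → ℂ | ‖v 0 ^ 2 + v 0 * v 1 + v 1 ^ 2‖ ≤ 1 ∧
  ‖v 0 * v 1 * (v 0 + v 1)‖ ≤ 1}

private theorem v0_bd1 (x y : ℂ) (h1 : ‖x ^ 2 + x * y + y ^ 2‖ ≤ 1) (h2 : ‖x * y * (x + y)‖ ≤ 1) : ‖x‖ ≤ 2 := by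
  have h3 : x ^ 3 = (x ^ 2 + x * y + y ^ 2) * x - x * y * (x + y) := by ring
  have h4 : ‖x‖ ^ 3 ≤ ‖x‖ + 1 := by
    rw [← norm_pow, h3]
    refine (norm_sub_le _ _).trans ?_
    rw [norm_mul]
    have h5 : ‖x ^ 2 + x * y + y ^ 2‖ * ‖x‖ ≤ 1 * ‖x‖ := mul_le_mul_of_nonneg_right h1 (norm_nonneg _)
    linarith
  by_contra h5
  push Not at h5
  have h6 : 0 < ‖x‖ := by linarith
  nlinarith [mul_pos h6 h6, mul_pos (mul_pos h6 h6) h6]

private theorem v0_bdd : Bornology.IsBounded V0 := by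
  refine (Metric.isBounded_closedBall (x := (0 : Fin 2 → ℂ)) (r := 2)).subset fun v hv => ?_
  rw [mem_closedBall_zero_iff, pi_norm_le_iff_of_nonneg (by norm_num)]
  obtain ⟨h1, h2⟩ := hv
  intro i
  fin_cases i
  · exact v0_bd1 _ _ h1 h2
  · refine v0_bd1 (v 1) (v 0) ?_ ?_
    · rw [show v 1 ^ 2 + v 1 * v 0 + v 0 ^ 2 = v 0 ^ 2 + v 0 * v 1 + v 1 ^ 2 by ring]
      exact h1
    · rw [show v 1 * v 0 * (v 1 + v 0) = v 0 * v 1 * (v 0 + v 1) by ring]
      exact h2

private theorem v0_fin : volume V0 ≠ ⊤ := v0_bdd.measure_lt_top.ne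

private theorem v0_nhds : V0 ∈ nhds (0 : Fin 2 → ℂ) := by
  have c1 : Continuous fun v : Fin 2 → ℂ => ‖v 0 ^ 2 + v 0 * v 1 + v 1 ^ 2‖ := by fun_prop
  have c2 : Continuous fun v : Fin 2 → ℂ => ‖v 0 * v 1 * (v 0 + v 1)‖ := by fun_prop
  have h1 : ∀ᶠ v in nhds (0 : Fin 2 → ℂ), ‖v 0 ^ 2 + v 0 * v 1 + v 1 ^ 2‖ < 1 :=
    c1.continuousAt.eventually_lt continuousAt_const (by simp)
  have h2 : ∀ᶠ v in nhds (0 : Fin 2 → ℂ), ‖v 0 * v 1 * (v 0 + v 1)‖ < 1 :=
    c2.continuousAt.eventually_lt continuousAt_const (by simp)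
  filter_upwards [h1, h2] with v h3 h4
  exact ⟨h3.le, h4.le⟩

private theorem cV_eq : cV = (volume V0).toReal := rfl

private theorem cV_pos : 0 < cV := by
  rw [cV_eq]
  refine ENNReal.toReal_pos ?_ v0_fin
  exact (Measure.measure_pos_of_mem_nhds volume v0_nhds).ne'

/-- the volume at one place -/
private theorem v1_vol {g : Fin 4 → ℂ} (hg : disc g ≠ 0) {T : ℝ} (hT : 0 < T) :
    volume {v : Fin 2 → ℂ | V1 T g v} = ENNReal.ofReal (T ^ 4 / ‖disc g‖) * volume V0 := by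
  obtain ⟨l, m, h1, h2, h3⟩ := fac hg
  have hTc : (T : ℂ) ≠ 0 := by exact_mod_cast hT.ne'
  obtain ⟨M, hM⟩ : ∃ M : Matrix (Fin 2) (Fin 2) ℂ, M = !![l 0 / T, l 1 / T; m 0 / T, m 1 / T] := ⟨_, rfl⟩
  obtain ⟨L, hL⟩ : ∃ L : (Fin 2 → ℂ) →ₗ[ℝ] (Fin 2 → ℂ), L = (Matrix.toLin' M).restrictScalars ℝ := ⟨_, rfl⟩
  have hL0 : ∀ v, L v 0 = (l 0 * v 0 + l 1 * v 1) / T := by
    intro v
    rw [hL, LinearMap.restrictScalars_apply, Matrix.toLin'_apply, hM]
    simp [Matrix.mulVec, dotProduct, Fin.sum_univ_two]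
    ring
  have hL1 : ∀ v, L v 1 = (m 0 * v 0 + m 1 * v 1) / T := by
    intro v
    rw [hL, LinearMap.restrictScalars_apply, Matrix.toLin'_apply, hM]
    simp [Matrix.mulVec, dotProduct, Fin.sum_univ_two]
    ring
  have hdet : LinearMap.det L = ‖disc g‖ / T ^ 4 := by
    rw [hL, LinearMap.det_restrictScalars, LinearMap.det_toLin', Algebra.norm_complex_apply,
      Complex.normSq_eq_norm_sq, hM, Matrix.det_fin_two_of, h1]
    have h4 : l 0 / (T : ℂ) * (m 1 / T) - l 1 / T * (m 0 / T) = H77.MF.dt l m / (T : ℂ) ^ 2 := by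
      unfold H77.MF.dt
      field_simp
    rw [h4, norm_div, norm_pow, norm_pow, Complex.norm_real, Real.norm_of_nonneg hT.le, div_pow]
    ring
  have hdg : 0 < ‖disc g‖ := norm_pos_iff.2 hg
  have hdet0 : LinearMap.det L ≠ 0 := by
    rw [hdet]
    positivity
  have hpre : {v : Fin 2 → ℂ | V1 T g v} = L ⁻¹' V0 := by
    ext v
    obtain ⟨a, ha⟩ : ∃ a : ℂ, a = L v 0 := ⟨_, rfl⟩
    obtain ⟨b, hb⟩ : ∃ b : ℂ, b = L v 1 := ⟨_, rfl⟩
    have ha' : l 0 * v 0 + l 1 * v 1 = T * a := by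
      rw [ha, hL0]
      field_simp
    have hb' : m 0 * v 0 + m 1 * v 1 = T * b := by
      rw [hb, hL1]
      field_simp
    have e1 : ‖hes g v‖ ≤ T ^ 2 ↔ ‖a ^ 2 + a * b + b ^ 2‖ ≤ 1 := by
      rw [h3, ha', hb', show (T * a) ^ 2 + T * a * (T * b) + (T * b) ^ 2 =
        (T : ℂ) ^ 2 * (a ^ 2 + a * b + b ^ 2) by ring, norm_mul, norm_pow, Complex.norm_real,
        Real.norm_of_nonneg hT.le]
      have hT2 : 0 < T ^ 2 := by positivity
      constructor
      · intro h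
        have h5 : T ^ 2 * ‖a ^ 2 + a * b + b ^ 2‖ ≤ T ^ 2 * 1 := by rwa [mul_one]
        exact le_of_mul_le_mul_left h5 hT2
      · intro h
        calc T ^ 2 * ‖a ^ 2 + a * b + b ^ 2‖ ≤ T ^ 2 * 1 := mul_le_mul_of_nonneg_left h hT2.le
          _ = T ^ 2 := mul_one _
    have e2 : ‖ev g v ^ 2 * disc g‖ ≤ T ^ 6 ↔ ‖a * b * (a + b)‖ ≤ 1 := by
      have h5 : ev g v ^ 2 * disc g = ((T : ℂ) ^ 3 * (a * b * (a + b))) ^ 2 := by
        rw [h1]
        have h6 := h2 v
        rw [ha', hb'] at h6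
        have h7 : ev g v ^ 2 * H77.MF.dt l m ^ 2 = (ev g v * H77.MF.dt l m) ^ 2 := by ring
        rw [h7, h6]
        ring
      rw [h5, norm_pow, norm_mul, norm_pow, Complex.norm_real, Real.norm_of_nonneg hT.le]
      have hT3 : 0 < T ^ 3 := by positivity
      have h8 : T ^ 6 = (T ^ 3) ^ 2 := by ring
      rw [h8, pow_le_pow_iff_left₀ (by positivity) hT3.le two_ne_zero]
      constructor
      · intro h
        have h5 : T ^ 3 * ‖a * b * (a + b)‖ ≤ T ^ 3 * 1 := by rwa [mul_one]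
        exact le_of_mul_le_mul_left h5 hT3
      · intro h
        calc T ^ 3 * ‖a * b * (a + b)‖ ≤ T ^ 3 * 1 := mul_le_mul_of_nonneg_left h hT3.le
          _ = T ^ 3 := mul_one _
    show (‖hes g v‖ ≤ T ^ 2 ∧ ‖ev g v ^ 2 * disc g‖ ≤ T ^ 6) ↔ (‖L v 0 ^ 2 + L v 0 * L v 1 + L v 1 ^ 2‖ ≤ 1 ∧
      ‖L v 0 * L v 1 * (L v 0 + L v 1)‖ ≤ 1)
    rw [← ha, ← hb, e1, e2]
  rw [hpre, Measure.addHaar_preimage_linearMap volume hdet0, hdet, inv_div, abs_of_nonneg (by positivity)]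

variable (K : Type) [Field K] [NumberField K]

variable {K} in
theorem c1_pos (w : InfinitePlace K) (b : Bool) : 0 < c1 w b := by
  unfold c1
  split_ifs
  · exact cR_pos b
  · exact cV_pos

variable {K} in
private theorem disc_emb (f : Fin 4 → K) (w : InfinitePlace K) :
    disc (emb f w) = w.embedding (disc f) := by
  unfold disc emb
  simp only [map_add, map_sub, map_mul, map_pow, map_ofNat]

theorem cF_pos (sg : InfinitePlace K → Bool) : 0 < cF K sg := by
  unfold cF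
  have h1 : 0 < ∏ w : InfinitePlace K, c1 w (sg w) := Finset.prod_pos fun w _ => c1_pos w _
  have h2 := cv_pos K 2
  positivity

theorem nd_eq (f : Fin 4 → K) : nd f = ∏ w : InfinitePlace K, ‖disc (emb f w)‖ ^ w.mult := by
  unfold nd
  have h := InfinitePlace.prod_eq_abs_norm (disc f)
  have h2 : |((Algebra.norm ℚ (disc f) : ℚ) : ℝ)| = ((|Algebra.norm ℚ (disc f)| : ℚ) : ℝ) := by
    rw [Rat.cast_abs]
  rw [h2, ← h]
  refine Finset.prod_congr rfl fun w _ => ?_
  rw [disc_emb, InfinitePlace.norm_embedding_eq]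

theorem sum_mult : ∑ w : InfinitePlace K, w.mult = Module.finrank ℚ K := by
  exact InfinitePlace.sum_mult_eq

private theorem v1_meas (g : Fin 4 → ℂ) (T : ℝ) : MeasurableSet {v : Fin 2 → ℂ | V1 T g v} := by
  have h1 : {v : Fin 2 → ℂ | V1 T g v} =
      {v : Fin 2 → ℂ | ‖hes g v‖ ≤ T ^ 2} ∩ {v : Fin 2 → ℂ | ‖ev g v ^ 2 * disc g‖ ≤ T ^ 6} := rfl
  rw [h1]
  refine IsClosed.measurableSet (IsClosed.inter ?_ ?_)
  · refine isClosed_le ?_ continuous_const
    unfold hes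
    fun_prop
  · refine isClosed_le ?_ continuous_const
    unfold ev
    fun_prop

/-- the factor of one place -/
private theorem fct {f : Fin 4 → K} (hf : disc f ≠ 0) {sg : InfinitePlace K → Bool}
    (hs : Sg sg (emb f)) {T : ℝ} (hT : 0 < T) (w : InfinitePlace K) :
    (if w.IsReal then volume {v : Fin 2 → ℝ | (fun i => (v i : ℂ)) ∈
        {v : Fin 2 → ℂ | V1 T (emb f w) v}}
      else volume {v : Fin 2 → ℂ | V1 T (emb f w) v}) ≠ ⊤ ∧
    (if w.IsReal then volume {v : Fin 2 → ℝ | (fun i => (v i : ℂ)) ∈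
        {v : Fin 2 → ℂ | V1 T (emb f w) v}}
      else volume {v : Fin 2 → ℂ | V1 T (emb f w) v}).toReal =
      c1 w (sg w) * T ^ (2 * w.mult) / Real.sqrt (‖disc (emb f w)‖ ^ w.mult) := by
  have hdf : disc (emb f w) ≠ 0 := by
    rw [disc_emb]
    exact (map_ne_zero _).2 hf
  by_cases hw : w.IsReal
  · rw [if_pos hw]
    obtain ⟨g, hg⟩ : ∃ g : Fin 4 → ℝ, emb f w = fun i => (g i : ℂ) := by
      refine ⟨fun i => (emb f w i).re, ?_⟩
      funext i
      apply Complex.ext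
      · rw [Complex.ofReal_re]
      · rw [Complex.ofReal_im]
        exact rl_emb f w hw i
    have hd : disc (emb f w) = ((disc g : ℝ) : ℂ) := by
      rw [hg]
      unfold disc
      push_cast
      ring
    have hdg : disc g ≠ 0 := by
      intro h0
      apply hdf
      rw [hd, h0, Complex.ofReal_zero]
    have hset : {v : Fin 2 → ℝ | (fun i => (v i : ℂ)) ∈ {v : Fin 2 → ℂ | V1 T (emb f w) v}} =
        VR T g := by
      unfold VR
      rw [hg]
      rfl
    obtain ⟨-, h2, h3⟩ := vr_vol hdg hT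
    have hb : decide (0 < disc g) = sg w := by
      have h4 := hs w hw
      rw [hd, Complex.ofReal_re] at h4
      rcases hsw : sg w with _ | _
      · rw [hsw] at h4
        rw [decide_eq_false_iff_not]
        intro h5
        exact absurd (h4.2 h5) (by decide)
      · rw [hsw] at h4
        rw [decide_eq_true_iff]
        exact h4.1 rfl
    rw [hset]
    refine ⟨h2, ?_⟩
    rw [h3, hb, c1, if_pos hw, InfinitePlace.mult, if_pos hw, hd, Complex.norm_real,
      Real.norm_eq_abs, pow_one, mul_one]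
  · rw [if_neg hw, v1_vol hdf hT]
    refine ⟨ENNReal.mul_ne_top ENNReal.ofReal_ne_top v0_fin, ?_⟩
    rw [ENNReal.toReal_mul, ENNReal.toReal_ofReal (by positivity), ← cV_eq, c1, if_neg hw,
      InfinitePlace.mult, if_neg hw, Real.sqrt_sq (norm_nonneg _)]
    ring

theorem vg_vol {f : Fin 4 → K} (hf : disc f ≠ 0) {sg : InfinitePlace K → Bool}
    (hs : Sg sg (emb f)) {T : ℝ} (hT : 0 < T) : nu K 2 (Vg K f T) ≠ ⊤ ∧
    (nu K 2 (Vg K f T)).toReal = (∏ w : InfinitePlace K, c1 w (sg w)) *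
      T ^ (2 * Module.finrank ℚ K) / Real.sqrt (nd f) := by
  have h1 : Vg K f T = {x | ∀ w, x w ∈ {v : Fin 2 → ℂ | V1 T (emb f w) v}} := rfl
  have h2 := nu_prod K (fun w => {v : Fin 2 → ℂ | V1 T (emb f w) v}) (fun w => v1_meas _ _)
  rw [h1, h2]
  refine ⟨ENNReal.prod_ne_top fun w _ => (fct K hf hs hT w).1, ?_⟩
  rw [ENNReal.toReal_prod, Finset.prod_congr rfl fun w _ => (fct K hf hs hT w).2,
    Finset.prod_div_distrib, Finset.prod_mul_distrib, Finset.prod_pow_eq_pow_sum, ← Finset.mul_sum,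
    sum_mult, nd_eq, Real.sqrt_prod _ fun w _ => by positivity]

/-- the sign pattern of a form -/
def sgf (f : Fin 4 → K) (w : InfinitePlace K) : Bool := decide (0 < (disc (emb f w)).re)

variable {K} in
theorem sg_sgf (f : Fin 4 → K) : Sg (sgf K f) (emb f) := by
  intro w _
  simp [sgf]

end H12.SQM
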