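import Pool.Agent.H12.SQM.Lcn
import Pool.Agent.H12.SQM.Rdc
import Pool.Agent.H12.SQM.VecV
import Pool.Agent.H97.SXM.NmP
import Pool.Agent.H57.LI.PrK

/-!
# [SQ ONEL] The forms which are maximal on one lattice, for every number field and every sign pattern (port of H97/SXM/OneL.lean)
-/

set_option autoImplicit false

open scoped NumberField Classical
open IsDedekindDomain NumberField H38.ML H63.MA H67.SX H77.MF H97.SXM

noncomputable section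

namespace H12.SQM

section core

variable {α ι : Type}

/-- a product which is large has a divisor of the right size -/
private theorem greedy (s : ι → ℝ) (t r : ℝ) (hr : 1 ≤ r) (B : Finset ι) (hs : ∀ l ∈ B, 1 ≤ s l ∧ s l ≤ t)
    (h : r < ∏ l ∈ B, s l) : ∃ m ⊆ B, r < ∏ l ∈ m, s l ∧ ∏ l ∈ m, s l ≤ r * t := by
  induction B using Finset.induction_on with
  | empty =>
    rw [Finset.prod_empty] at h
    linarith
  | insert l B hl ih =>
    by_cases h1 : r < ∏ l ∈ B, s l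
    · obtain ⟨m, hm, h2⟩ := ih (fun l' hl' => hs l' (Finset.mem_insert_of_mem hl')) h1
      exact ⟨m, hm.trans (Finset.subset_insert _ _), h2⟩
    · push Not at h1
      refine ⟨insert l B, subset_rfl, h, ?_⟩
      rw [Finset.prod_insert hl, mul_comm]
      have h2 := hs l (Finset.mem_insert_self _ _)
      have h3 : 0 ≤ ∏ l ∈ B, s l := Finset.prod_nonneg fun l' hl' =>
        zero_le_one.trans (hs l' (Finset.mem_insert_of_mem hl')).1
      exact mul_le_mul h1 h2.2 (by linarith) (by linarith)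

private theorem one_le_pr (s : ι → ℝ) (m : Finset ι) (hs : ∀ l ∈ m, 1 ≤ s l) : 1 ≤ ∏ l ∈ m, s l := by
  induction m using Finset.induction_on with
  | empty => rw [Finset.prod_empty]
  | insert l B hl ih =>
    rw [Finset.prod_insert hl]
    exact one_le_mul_of_one_le_of_one_le (hs l (Finset.mem_insert_self _ _))
      (ih fun l' hl' => hs l' (Finset.mem_insert_of_mem hl'))

private theorem pr_mono (s : ι → ℝ) (m B : Finset ι) (hm : m ⊆ B) (hs : ∀ l ∈ B, 1 ≤ s l) :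
    ∏ l ∈ m, s l ≤ ∏ l ∈ B, s l := by
  rw [← Finset.prod_sdiff hm]
  refine le_mul_of_one_le_left ?_ (one_le_pr s _ fun l hl => hs l (Finset.mem_sdiff.1 hl).1)
  exact zero_le_one.trans (one_le_pr s m fun l hl => hs l (hm hl))

private theorem prod01 (χ : ι → ℝ) (hχ : ∀ l, χ l = 0 ∨ χ l = 1) (m : Finset ι) :
    (∏ l ∈ m, χ l) = if ∀ l ∈ m, χ l = 1 then 1 else 0 := by
  split_ifs with h
  · exact Finset.prod_eq_one h
  · push Not at h
    obtain ⟨l, hl, h1⟩ := h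
    exact Finset.prod_eq_zero hl ((hχ l).resolve_right h1)

/-- the truncated inclusion-exclusion for one element -/
private theorem tail_one (s : ι → ℝ) (t : ℝ) (ht : 1 ≤ t) (P : Finset ι) (hs : ∀ l ∈ P, 1 ≤ s l ∧ s l ≤ t)
    (χ : ι → ℝ) (hχ : ∀ l, χ l = 0 ∨ χ l = 1) (G : ℝ)
    (hG : (2 : ℝ) ^ (P.filter fun l => χ l = 1).card ≤ G) :
    ∑ m ∈ P.powerset.filter (fun m => t ^ 2 < ∏ l ∈ m, s l), ∏ l ∈ m, χ l ≤
      G * ∑ m ∈ P.powerset.filter (fun m => t ^ 2 < ∏ l ∈ m, s l ∧ ∏ l ∈ m, s l ≤ t ^ 3), ∏ l ∈ m, χ l := by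
  set B := P.filter fun l => χ l = 1 with hB
  have hχ0 : ∀ m : Finset ι, 0 ≤ ∏ l ∈ m, χ l := fun m => Finset.prod_nonneg fun l _ => by
    rcases hχ l with h | h
    · rw [h]
    · rw [h]
      exact zero_le_one
  have hsub : ∀ m ∈ P.powerset, (∏ l ∈ m, χ l) ≠ 0 → m ⊆ B := by
    intro m hm h l hl
    rw [hB, Finset.mem_filter]
    refine ⟨Finset.mem_powerset.1 hm hl, ?_⟩
    by_contra h1
    exact h (Finset.prod_eq_zero hl ((hχ l).resolve_right h1))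
  have hBP : B ⊆ P := Finset.filter_subset _ _
  have hle1 : ∀ m : Finset ι, ∏ l ∈ m, χ l ≤ 1 := by
    intro m
    rw [prod01 χ hχ]
    split_ifs <;> norm_num
  have h1 : ∑ m ∈ P.powerset.filter (fun m => t ^ 2 < ∏ l ∈ m, s l), ∏ l ∈ m, χ l ≤
      ∑ m ∈ B.powerset.filter (fun m => t ^ 2 < ∏ l ∈ m, s l), (1 : ℝ) := by
    rw [← Finset.sum_filter_add_sum_filter_not (P.powerset.filter (fun m => t ^ 2 < ∏ l ∈ m, s l)) (fun m => m ⊆ B)]
    have h2 : ∑ m ∈ (P.powerset.filter (fun m => t ^ 2 < ∏ l ∈ m, s l)).filter (fun m => ¬ m ⊆ B), ∏ l ∈ m, χ l = 0 := by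
      refine Finset.sum_eq_zero fun m hm => ?_
      obtain ⟨h3, h4⟩ := Finset.mem_filter.1 hm
      by_contra h5
      exact h4 (hsub m (Finset.mem_filter.1 h3).1 h5)
    rw [h2, add_zero]
    refine (Finset.sum_le_sum fun m _ => hle1 m).trans ?_
    refine Finset.sum_le_sum_of_subset_of_nonneg ?_ fun _ _ _ => zero_le_one
    intro m hm
    obtain ⟨h3, h4⟩ := Finset.mem_filter.1 hm
    exact Finset.mem_filter.2 ⟨Finset.mem_powerset.2 h4, (Finset.mem_filter.1 h3).2⟩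
  refine h1.trans ?_
  have hS0 : 0 ≤ ∑ m ∈ P.powerset.filter (fun m => t ^ 2 < ∏ l ∈ m, s l ∧ ∏ l ∈ m, s l ≤ t ^ 3), ∏ l ∈ m, χ l :=
    Finset.sum_nonneg fun m _ => hχ0 m
  have hG0 : 0 ≤ G := le_trans (by positivity) hG
  by_cases h5 : t ^ 2 < ∏ l ∈ B, s l
  · obtain ⟨m, hm, h6, h7⟩ := greedy s t (t ^ 2) (one_le_pow₀ ht) B (fun l hl => hs l (hBP hl)) h5
    have h8 : 1 ≤ ∑ m ∈ P.powerset.filter (fun m => t ^ 2 < ∏ l ∈ m, s l ∧ ∏ l ∈ m, s l ≤ t ^ 3), ∏ l ∈ m, χ l := by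
      have h9 : ∏ l ∈ m, χ l = 1 := Finset.prod_eq_one fun l hl => (Finset.mem_filter.1 (hm hl)).2
      rw [← h9]
      refine Finset.single_le_sum (f := fun m => ∏ l ∈ m, χ l) (fun m _ => hχ0 m) ?_
      refine Finset.mem_filter.2 ⟨Finset.mem_powerset.2 (hm.trans hBP), h6, h7.trans (le_of_eq (by ring))⟩
    have h9 : ∑ m ∈ B.powerset.filter (fun m => t ^ 2 < ∏ l ∈ m, s l), (1 : ℝ) ≤ G := by
      rw [Finset.sum_const, nsmul_eq_mul, mul_one]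
      have h10 : ((B.powerset.filter (fun m => t ^ 2 < ∏ l ∈ m, s l)).card : ℝ) ≤ (B.powerset.card : ℝ) := by
        exact_mod_cast Finset.card_filter_le _ _
      rw [Finset.card_powerset] at h10
      push_cast at h10
      exact h10.trans hG
    calc _ ≤ G := h9
      _ = G * 1 := (mul_one G).symm
      _ ≤ _ := mul_le_mul_of_nonneg_left h8 hG0
  · have h6 : B.powerset.filter (fun m => t ^ 2 < ∏ l ∈ m, s l) = ∅ := by
      rw [Finset.filter_eq_empty_iff]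
      intro m hm h7
      apply h5
      refine h7.trans_le ?_
      exact pr_mono s m B (Finset.mem_powerset.1 hm) fun l hl => (hs l (hBP hl)).1
    rw [h6, Finset.sum_empty]
    exact mul_nonneg hG0 hS0

/-- weights -/
private theorem wt_card (s : ι → ℝ) (P : Finset ι) (hs : ∀ l ∈ P, 1 ≤ s l) (Cs : ℝ)
    (hCs : ∑ m ∈ P.powerset, ∏ l ∈ m, (3 / s l ^ 3) ≤ Cs) (r : ℝ) (hr : 0 ≤ r) (L : Finset (Finset ι))
    (hL : L ⊆ P.powerset) (h : ∀ m ∈ L, ∏ l ∈ m, s l ≤ r) : (L.card : ℝ) ≤ r ^ 3 * Cs := by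
  have h1 : ∀ m ∈ L, (1 : ℝ) ≤ r ^ 3 * ∏ l ∈ m, (3 / s l ^ 3) := by
    intro m hm
    have hmP := Finset.mem_powerset.1 (hL hm)
    have h2 : (1 : ℝ) ≤ ∏ l ∈ m, (s l ^ 3 * (3 / s l ^ 3)) := by
      refine one_le_pr _ m fun l hl => ?_
      have := hs l (hmP hl)
      have h3 : s l ^ 3 * (3 / s l ^ 3) = 3 := by
        have : s l ≠ 0 := by linarith
        field_simp
      rw [h3]
      norm_num
    refine h2.trans ?_
    rw [Finset.prod_mul_distrib, Finset.prod_pow]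
    refine mul_le_mul_of_nonneg_right ?_ ?_
    · refine pow_le_pow_left₀ ?_ (h m hm) 3
      exact zero_le_one.trans (one_le_pr s m fun l hl => hs l (hmP hl))
    · refine Finset.prod_nonneg fun l hl => ?_
      have := hs l (hmP hl)
      positivity
  have h2 : (L.card : ℝ) = ∑ m ∈ L, (1 : ℝ) := by
    rw [Finset.sum_const, nsmul_eq_mul, mul_one]
  rw [h2]
  refine (Finset.sum_le_sum h1).trans ?_
  rw [← Finset.mul_sum]
  refine mul_le_mul_of_nonneg_left ?_ (by positivity)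
  refine le_trans (Finset.sum_le_sum_of_subset_of_nonneg hL fun m hm _ => ?_) hCs
  refine Finset.prod_nonneg fun l hl => ?_
  have := hs l (Finset.mem_powerset.1 hm hl)
  positivity

private theorem wt_tail (s : ι → ℝ) (P : Finset ι) (hs : ∀ l ∈ P, 1 ≤ s l) (Cs : ℝ)
    (hCs : ∑ m ∈ P.powerset, ∏ l ∈ m, (3 / s l ^ 3) ≤ Cs) (t : ℝ) (ht : 1 ≤ t) (dn : ι → ℝ)
    (hdn : ∀ l ∈ P, 0 ≤ dn l ∧ dn l ≤ 3 / s l ^ 4) (L : Finset (Finset ι))
    (hL : L ⊆ P.powerset) (h : ∀ m ∈ L, t ^ 2 < ∏ l ∈ m, s l) : ∑ m ∈ L, ∏ l ∈ m, dn l ≤ Cs / t ^ 2 := by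
  have h1 : ∀ m ∈ L, ∏ l ∈ m, dn l ≤ (1 / t ^ 2) * ∏ l ∈ m, (3 / s l ^ 3) := by
    intro m hm
    have hmP := Finset.mem_powerset.1 (hL hm)
    have h2 : ∏ l ∈ m, dn l ≤ ∏ l ∈ m, ((1 / s l) * (3 / s l ^ 3)) := by
      refine Finset.prod_le_prod (fun l hl => (hdn l (hmP hl)).1) fun l hl => ?_
      refine (hdn l (hmP hl)).2.trans (le_of_eq ?_)
      have := hs l (hmP hl)
      have h3 : s l ≠ 0 := by linarith
      field_simp
    refine h2.trans ?_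
    rw [Finset.prod_mul_distrib]
    refine mul_le_mul_of_nonneg_right ?_ ?_
    · have h4 : ∏ l ∈ m, (1 / s l) = 1 / ∏ l ∈ m, s l := by
        simp only [one_div]
        rw [Finset.prod_inv_distrib]
      rw [h4]
      exact one_div_le_one_div_of_le (by positivity) (h m hm).le
    · refine Finset.prod_nonneg fun l hl => ?_
      have := hs l (hmP hl)
      positivity
  refine (Finset.sum_le_sum h1).trans ?_
  have h5 : Cs / t ^ 2 = (1 / t ^ 2) * Cs := by ring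
  rw [h5, ← Finset.mul_sum]
  refine mul_le_mul_of_nonneg_left ?_ (by positivity)
  refine le_trans (Finset.sum_le_sum_of_subset_of_nonneg hL fun m hm _ => ?_) hCs
  refine Finset.prod_nonneg fun l hl => ?_
  have := hs l (Finset.mem_powerset.1 hm hl)
  positivity

/-- the sieve of Eratosthenes with truncation -/
private theorem siv (Vf : Finset α) (P : Finset ι) (NZ : α → Prop) (χ : ι → α → ℝ)
    (hχ : ∀ l f, χ l f = 0 ∨ χ l f = 1) (H : α → ℝ) (hH : ∀ f, |H f| ≤ 1) (s : ι → ℝ) (t : ℝ) (ht : 1 ≤ t)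
    (hs : ∀ l ∈ P, 1 ≤ s l ∧ s l ≤ t) (dn : ι → ℝ) (hdn : ∀ l ∈ P, 0 ≤ dn l ∧ dn l ≤ 3 / s l ^ 4)
    (a a' E R G Cs : ℝ) (κ : ℕ) (ha' : 0 ≤ a') (hE : 0 ≤ E) (hG0 : 0 ≤ G)
    (h1 : ∀ m ⊆ P, |(∑ f ∈ Vf, H f * ∏ l ∈ m, χ l f) - a * ∏ l ∈ m, dn l| ≤ E * (∏ l ∈ m, s l) ^ κ)
    (h2 : ∀ m ⊆ P, ∑ f ∈ Vf, ∏ l ∈ m, χ l f ≤ a' * ∏ l ∈ m, dn l + E * (∏ l ∈ m, s l) ^ κ)
    (hR : ((Vf.filter fun f => ¬ NZ f).card : ℝ) ≤ R)
    (hG : ∀ f ∈ Vf, NZ f → (2 : ℝ) ^ (P.filter fun l => χ l f = 1).card ≤ G)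
    (hCs : ∑ m ∈ P.powerset, ∏ l ∈ m, (3 / s l ^ 3) ≤ Cs) :
    |(∑ f ∈ Vf.filter NZ, H f * ∏ l ∈ P, (1 - χ l f)) - a * ∏ l ∈ P, (1 - dn l)| ≤
      G * (a' * (Cs / t ^ 2) + t ^ 9 * Cs * (E * (t ^ 3) ^ κ)) + R * (t ^ 6 * Cs) +
        t ^ 6 * Cs * (E * (t ^ 2) ^ κ) + |a| * (Cs / t ^ 2) := by
  set L := P.powerset.filter (fun m => ∏ l ∈ m, s l ≤ t ^ 2) with hL
  set U := P.powerset.filter (fun m => t ^ 2 < ∏ l ∈ m, s l) with hU
  set L' := P.powerset.filter (fun m => t ^ 2 < ∏ l ∈ m, s l ∧ ∏ l ∈ m, s l ≤ t ^ 3) with hL'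
  have hs1 : ∀ l ∈ P, 1 ≤ s l := fun l hl => (hs l hl).1
  have hLc : (L.card : ℝ) ≤ t ^ 6 * Cs := by
    have h := wt_card s P hs1 Cs hCs (t ^ 2) (by positivity) L (Finset.filter_subset _ _)
      fun m hm => (Finset.mem_filter.1 hm).2
    rwa [← pow_mul] at h
  have hL'c : (L'.card : ℝ) ≤ t ^ 9 * Cs := by
    have h := wt_card s P hs1 Cs hCs (t ^ 3) (by positivity) L' (Finset.filter_subset _ _)
      fun m hm => (Finset.mem_filter.1 hm).2.2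
    rwa [← pow_mul] at h
  have hUd := wt_tail s P hs1 Cs hCs t ht dn hdn U (Finset.filter_subset _ _)
    fun m hm => (Finset.mem_filter.1 hm).2
  have hL'd := wt_tail s P hs1 Cs hCs t ht dn hdn L' (Finset.filter_subset _ _)
    fun m hm => (Finset.mem_filter.1 hm).2.1
  have hCs0 : 0 ≤ Cs := by
    refine le_trans (Finset.sum_nonneg fun m hm => Finset.prod_nonneg fun l hl => ?_) hCs
    have := hs1 l (Finset.mem_powerset.1 hm hl)
    positivity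
  -- inclusion-exclusion
  have hie : ∀ g : ι → ℝ, ∏ l ∈ P, (1 - g l) =
      ∑ m ∈ L, (-1) ^ m.card * ∏ l ∈ m, g l + ∑ m ∈ U, (-1) ^ m.card * ∏ l ∈ m, g l := by
    intro g
    have e1 : ∏ l ∈ P, (1 - g l) = ∑ m ∈ P.powerset, (-1) ^ m.card * ∏ l ∈ m, g l := by
      have e2 : ∏ l ∈ P, (1 - g l) = ∏ l ∈ P, (1 + (-g l)) := Finset.prod_congr rfl fun l _ => by ring
      rw [e2, Finset.prod_one_add]
      refine Finset.sum_congr rfl fun m _ => ?_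
      rw [Finset.prod_neg]
    rw [e1, ← Finset.sum_filter_add_sum_filter_not P.powerset (fun m => ∏ l ∈ m, s l ≤ t ^ 2)]
    congr 1
    refine Finset.sum_congr ?_ fun _ _ => rfl
    rw [hU]
    exact Finset.filter_congr fun m _ => not_le
  have hX0 : ∀ (m : Finset ι) (f : α), 0 ≤ ∏ l ∈ m, χ l f ∧ ∏ l ∈ m, χ l f ≤ 1 := by
    intro m f
    rw [prod01 (fun l => χ l f) (fun l => hχ l f) m]
    split_ifs <;> norm_num
  have hsgn : ∀ m : Finset ι, |(-1 : ℝ) ^ m.card| = 1 := fun m => by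
    rw [abs_pow, abs_neg, abs_one, one_pow]
  -- the four parts
  obtain ⟨S1, hS1⟩ : ∃ S1 : ℝ, S1 = ∑ m ∈ L, (-1) ^ m.card * ((∑ f ∈ Vf, H f * ∏ l ∈ m, χ l f) - a * ∏ l ∈ m, dn l) := ⟨_, rfl⟩
  obtain ⟨S2, hS2⟩ : ∃ S2 : ℝ, S2 = ∑ f ∈ Vf.filter (fun f => ¬ NZ f), H f * ∑ m ∈ L, (-1) ^ m.card * ∏ l ∈ m, χ l f := ⟨_, rfl⟩
  obtain ⟨S3, hS3⟩ : ∃ S3 : ℝ, S3 = ∑ f ∈ Vf.filter NZ, H f * ∑ m ∈ U, (-1) ^ m.card * ∏ l ∈ m, χ l f := ⟨_, rfl⟩
  obtain ⟨S4, hS4⟩ : ∃ S4 : ℝ, S4 = a * ∑ m ∈ U, (-1) ^ m.card * ∏ l ∈ m, dn l := ⟨_, rfl⟩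
  have hid : (∑ f ∈ Vf.filter NZ, H f * ∏ l ∈ P, (1 - χ l f)) - a * ∏ l ∈ P, (1 - dn l) =
      S1 - S2 + S3 - S4 := by
    have e1 : (∑ f ∈ Vf.filter NZ, H f * ∏ l ∈ P, (1 - χ l f)) =
        ∑ f ∈ Vf.filter NZ, H f * ∑ m ∈ L, (-1) ^ m.card * ∏ l ∈ m, χ l f + S3 := by
      rw [hS3, ← Finset.sum_add_distrib]
      refine Finset.sum_congr rfl fun f _ => ?_
      rw [hie (fun l => χ l f)]
      ring
    have e2 : ∑ f ∈ Vf, H f * ∑ m ∈ L, (-1) ^ m.card * ∏ l ∈ m, χ l f =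
        ∑ f ∈ Vf.filter NZ, H f * ∑ m ∈ L, (-1) ^ m.card * ∏ l ∈ m, χ l f + S2 := by
      rw [hS2]
      exact (Finset.sum_filter_add_sum_filter_not _ _ _).symm
    have e3 : S1 = ∑ f ∈ Vf, H f * ∑ m ∈ L, (-1) ^ m.card * ∏ l ∈ m, χ l f -
        a * ∑ m ∈ L, (-1) ^ m.card * ∏ l ∈ m, dn l := by
      rw [hS1]
      simp only [mul_sub, Finset.sum_sub_distrib]
      congr 1
      · simp only [Finset.mul_sum]
        rw [Finset.sum_comm]
        refine Finset.sum_congr rfl fun f _ => Finset.sum_congr rfl fun m _ => ?_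
        ring
      · rw [Finset.mul_sum]
        refine Finset.sum_congr rfl fun m _ => ?_
        ring
    rw [e1, e3, e2, hie dn, hS4]
    ring
  have hb1 : |S1| ≤ t ^ 6 * Cs * (E * (t ^ 2) ^ κ) := by
    rw [hS1]
    refine (Finset.abs_sum_le_sum_abs _ _).trans ?_
    have e1 : ∀ m ∈ L, |(-1) ^ m.card * ((∑ f ∈ Vf, H f * ∏ l ∈ m, χ l f) - a * ∏ l ∈ m, dn l)| ≤
        E * (t ^ 2) ^ κ := by
      intro m hm
      obtain ⟨hm1, hm2⟩ := Finset.mem_filter.1 hm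
      have hmP := Finset.mem_powerset.1 hm1
      rw [abs_mul, hsgn, one_mul]
      refine (h1 m hmP).trans (mul_le_mul_of_nonneg_left ?_ hE)
      exact pow_le_pow_left₀ (zero_le_one.trans (one_le_pr s m fun l hl => hs1 l (hmP hl))) hm2 κ
    refine (Finset.sum_le_sum e1).trans ?_
    rw [Finset.sum_const, nsmul_eq_mul]
    exact mul_le_mul_of_nonneg_right hLc (by positivity)
  have hb2 : |S2| ≤ R * (t ^ 6 * Cs) := by
    rw [hS2]
    refine (Finset.abs_sum_le_sum_abs _ _).trans ?_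
    have e1 : ∀ f ∈ Vf.filter (fun f => ¬ NZ f), |H f * ∑ m ∈ L, (-1) ^ m.card * ∏ l ∈ m, χ l f| ≤ t ^ 6 * Cs := by
      intro f _
      rw [abs_mul]
      have e2 : |∑ m ∈ L, (-1) ^ m.card * ∏ l ∈ m, χ l f| ≤ t ^ 6 * Cs := by
        refine (Finset.abs_sum_le_sum_abs _ _).trans (le_trans ?_ hLc)
        have e3 : (L.card : ℝ) = ∑ m ∈ L, (1 : ℝ) := by
          rw [Finset.sum_const, nsmul_eq_mul, mul_one]
        rw [e3]
        refine Finset.sum_le_sum fun m _ => ?_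
        rw [abs_mul, hsgn, one_mul, abs_of_nonneg (hX0 m f).1]
        exact (hX0 m f).2
      calc _ ≤ 1 * (t ^ 6 * Cs) := mul_le_mul (hH f) e2 (abs_nonneg _) zero_le_one
        _ = _ := one_mul _
    refine (Finset.sum_le_sum e1).trans ?_
    rw [Finset.sum_const, nsmul_eq_mul]
    exact mul_le_mul_of_nonneg_right hR (by positivity)
  have hb3 : |S3| ≤ G * (a' * (Cs / t ^ 2) + t ^ 9 * Cs * (E * (t ^ 3) ^ κ)) := by
    rw [hS3]
    refine (Finset.abs_sum_le_sum_abs _ _).trans ?_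
    have e1 : ∀ f ∈ Vf.filter NZ, |H f * ∑ m ∈ U, (-1) ^ m.card * ∏ l ∈ m, χ l f| ≤
        G * ∑ m ∈ L', ∏ l ∈ m, χ l f := by
      intro f hf
      obtain ⟨hf1, hf2⟩ := Finset.mem_filter.1 hf
      rw [abs_mul]
      have e2 : |∑ m ∈ U, (-1) ^ m.card * ∏ l ∈ m, χ l f| ≤ G * ∑ m ∈ L', ∏ l ∈ m, χ l f := by
        refine (Finset.abs_sum_le_sum_abs _ _).trans ?_
        have e3 : ∑ m ∈ U, |(-1) ^ m.card * ∏ l ∈ m, χ l f| = ∑ m ∈ U, ∏ l ∈ m, χ l f := by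
          refine Finset.sum_congr rfl fun m _ => ?_
          rw [abs_mul, hsgn, one_mul, abs_of_nonneg (hX0 m f).1]
        rw [e3]
        exact tail_one s t ht P hs (fun l => χ l f) (fun l => hχ l f) G (hG f hf1 hf2)
      calc _ ≤ 1 * (G * ∑ m ∈ L', ∏ l ∈ m, χ l f) := mul_le_mul (hH f) e2 (abs_nonneg _) zero_le_one
        _ = _ := one_mul _
    refine (Finset.sum_le_sum e1).trans ?_
    rw [← Finset.mul_sum]
    refine mul_le_mul_of_nonneg_left ?_ hG0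
    have e4 : ∑ f ∈ Vf.filter NZ, ∑ m ∈ L', ∏ l ∈ m, χ l f ≤ ∑ f ∈ Vf, ∑ m ∈ L', ∏ l ∈ m, χ l f :=
      Finset.sum_le_sum_of_subset_of_nonneg (Finset.filter_subset _ _)
        fun f _ _ => Finset.sum_nonneg fun m _ => (hX0 m f).1
    refine e4.trans ?_
    rw [Finset.sum_comm]
    have e5 : ∀ m ∈ L', ∑ f ∈ Vf, ∏ l ∈ m, χ l f ≤ a' * ∏ l ∈ m, dn l + E * (t ^ 3) ^ κ := by
      intro m hm
      obtain ⟨hm1, -, hm2⟩ := Finset.mem_filter.1 hm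
      have hmP := Finset.mem_powerset.1 hm1
      refine (h2 m hmP).trans (add_le_add le_rfl (mul_le_mul_of_nonneg_left ?_ hE))
      exact pow_le_pow_left₀ (zero_le_one.trans (one_le_pr s m fun l hl => hs1 l (hmP hl))) hm2 κ
    refine (Finset.sum_le_sum e5).trans ?_
    rw [Finset.sum_add_distrib, ← Finset.mul_sum, Finset.sum_const, nsmul_eq_mul]
    exact add_le_add (mul_le_mul_of_nonneg_left hL'd ha') (mul_le_mul_of_nonneg_right hL'c (by positivity))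
  have hb4 : |S4| ≤ |a| * (Cs / t ^ 2) := by
    rw [hS4, abs_mul]
    refine mul_le_mul_of_nonneg_left ?_ (abs_nonneg _)
    refine (Finset.abs_sum_le_sum_abs _ _).trans (le_trans (le_of_eq ?_) hUd)
    refine Finset.sum_congr rfl fun m hm => ?_
    have hmP := Finset.mem_powerset.1 (Finset.mem_filter.1 hm).1
    rw [abs_mul, hsgn, one_mul, abs_of_nonneg (Finset.prod_nonneg fun l hl => (hdn l (hmP hl)).1)]
  rw [hid]
  have e1 : |S1 - S2 + S3 - S4| ≤ |S1| + |S2| + |S3| + |S4| := by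
    refine (abs_sub _ _).trans (add_le_add ?_ le_rfl)
    refine (abs_add_le _ _).trans (add_le_add ?_ le_rfl)
    exact abs_sub _ _
  linarith

end core

/-! ### the primes -/

section pr

variable (K : Type) [Field K] [NumberField K]

/-- the square root of the norm -/
private def sq (l : Pl K) : ℝ := Real.sqrt (nm l)

variable {K} in
private theorem sq_sq (l : Pl K) : sq K l ^ 2 = (nm l : ℝ) := Real.sq_sqrt (Nat.cast_nonneg _)

variable {K} in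
private theorem nm_one (l : Pl K) : (1 : ℝ) ≤ nm l := by
  have h := H57.LI.prk_two l
  exact_mod_cast (by omega : 1 ≤ nm l)

variable {K} in
private theorem sq_one (l : Pl K) : 1 ≤ sq K l := by
  unfold sq
  rw [Real.one_le_sqrt]
  exact nm_one l

private theorem sum_pr : ∃ C : ℝ, ∀ P : Finset (Pl K), ∑ l ∈ P, 1 / sq K l ^ 3 ≤ C := by
  have hsum : Summable fun n : ℕ => 1 / (n : ℝ) ^ (3 / 2 : ℝ) :=
    Real.summable_one_div_nat_rpow.2 (by norm_num)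
  refine ⟨Module.finrank ℚ K * ∑' n : ℕ, 1 / (n : ℝ) ^ (3 / 2 : ℝ), fun P => ?_⟩
  have h1 : ∀ l ∈ P, 1 / sq K l ^ 3 = 1 / ((nm l : ℕ) : ℝ) ^ (3 / 2 : ℝ) := by
    intro l _
    unfold sq
    rw [Real.sqrt_eq_rpow, ← Real.rpow_natCast, ← Real.rpow_mul (Nat.cast_nonneg _)]
    norm_num
  rw [Finset.sum_congr rfl h1, Finset.sum_comp (fun n : ℕ => 1 / (n : ℝ) ^ (3 / 2 : ℝ)) nm]
  have h2 : ∀ n ∈ P.image nm, (P.filter fun l => nm l = n).card • (1 / (n : ℝ) ^ (3 / 2 : ℝ)) ≤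
      Module.finrank ℚ K * (1 / (n : ℝ) ^ (3 / 2 : ℝ)) := by
    intro n _
    rw [nsmul_eq_mul]
    refine mul_le_mul_of_nonneg_right ?_ (by positivity)
    obtain ⟨hf, hc⟩ := H57.LI.prk_set (K := K) n
    have h3 : (P.filter fun l => nm l = n).card ≤ {v : Pl K | nm v = n}.ncard := by
      rw [← Set.ncard_coe_finset]
      exact Set.ncard_le_ncard (fun l hl => (Finset.mem_filter.1 hl).2) hf
    exact_mod_cast h3.trans hc
  refine (Finset.sum_le_sum h2).trans ?_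
  rw [← Finset.mul_sum]
  refine mul_le_mul_of_nonneg_left ?_ (Nat.cast_nonneg _)
  exact hsum.sum_le_tsum _ fun n _ => by positivity

private theorem wt_pr : ∃ C : ℝ, 0 ≤ C ∧ ∀ P : Finset (Pl K),
    ∑ m ∈ P.powerset, ∏ l ∈ m, (3 / sq K l ^ 3) ≤ C := by
  obtain ⟨C, hC⟩ := sum_pr K
  refine ⟨Real.exp (3 * C), (Real.exp_pos _).le, fun P => ?_⟩
  rw [← Finset.prod_one_add]
  have h1 : ∏ l ∈ P, (1 + 3 / sq K l ^ 3) ≤ ∏ l ∈ P, Real.exp (3 / sq K l ^ 3) := by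
    refine Finset.prod_le_prod (fun l _ => ?_) fun l _ => ?_
    · have := sq_one l
      positivity
    · rw [add_comm]
      exact Real.add_one_le_exp _
  refine h1.trans ?_
  rw [← Real.exp_sum]
  refine Real.exp_le_exp.2 ?_
  have h2 : ∑ l ∈ P, 3 / sq K l ^ 3 = 3 * ∑ l ∈ P, 1 / sq K l ^ 3 := by
    rw [Finset.mul_sum]
    exact Finset.sum_congr rfl fun l _ => by ring
  rw [h2]
  have := hC P
  linarith

private theorem pr_fin (t : ℝ) : {l : Pl K | (nm l : ℝ) ≤ t}.Finite := by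
  have h1 : {l : Pl K | (nm l : ℝ) ≤ t} ⊆ ⋃ n ∈ Finset.range (⌊t⌋₊ + 1), {v : Pl K | nm v = n} := by
    intro l hl
    have hl' : (nm l : ℝ) ≤ t := hl
    simp only [Set.mem_iUnion]
    refine ⟨nm l, ?_, rfl⟩
    rw [Finset.mem_range]
    exact Nat.lt_succ_of_le (Nat.le_floor hl')
  exact (Set.Finite.biUnion (Finset.finite_toSet _) fun n _ => (H57.LI.prk_set (K := K) n).1).subset h1

/-! ### periodic functions -/

variable {K}

omit [NumberField K] in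
private theorem mean_le' {m : ℕ} (V : Submodule (𝓞 K) (Fin m → K)) (J : Ideal (𝓞 K))
    (h : (Fin m → K) → ℝ) (hh : ∀ f, |h f| ≤ 1) : |mean V J h| ≤ 1 := by
  unfold mean
  by_cases hfin : Finite (V ⧸ (J • ⊤ : Submodule (𝓞 K) V))
  · have : Fintype (V ⧸ (J • ⊤ : Submodule (𝓞 K) V)) := Fintype.ofFinite _
    rw [finsum_eq_sum_of_fintype, Nat.card_eq_fintype_card, abs_div, Nat.abs_cast]
    have h5 : (0 : ℝ) < (Fintype.card (V ⧸ (J • ⊤ : Submodule (𝓞 K) V)) : ℝ) := by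
      exact_mod_cast Fintype.card_pos
    rw [div_le_one h5]
    refine (Finset.abs_sum_le_sum_abs _ _).trans ?_
    refine (Finset.sum_le_sum fun c _ => hh _).trans ?_
    simp
  · have : Infinite (V ⧸ (J • ⊤ : Submodule (𝓞 K) V)) := not_finite_iff_infinite.1 hfin
    rw [Nat.card_eq_zero_of_infinite]
    simp

omit [NumberField K] in
private theorem smul_le' {n : ℕ} (V : Submodule (𝓞 K) (Fin n → K)) {J I : Ideal (𝓞 K)} (h : I ≤ J)
    {g : Fin n → K} (hg : g ∈ I • V) : g ∈ J • V := by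
  have h1 : I • V ≤ J • V := Submodule.smul_mono_left h
  exact h1 hg

omit [NumberField K] in
private theorem per_mul' {n : ℕ} {V : Submodule (𝓞 K) (Fin n → K)} {J₁ J₂ : Ideal (𝓞 K)}
    {φ ψ : (Fin n → K) → ℝ} (h1 : Per V J₁ φ) (h2 : Per V J₂ ψ) :
    Per V (J₁ * J₂) (fun f => φ f * ψ f) := by
  intro f hf g hg
  have i1 : J₁ * J₂ ≤ J₁ := Ideal.mul_le_left
  have i2 : J₁ * J₂ ≤ J₂ := Ideal.mul_le_right
  have e1 : g ∈ J₁ • V := smul_le' V i1 hg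
  have e2 : g ∈ J₂ • V := smul_le' V i2 hg
  show φ (f + g) * ψ (f + g) = φ f * ψ f
  rw [h1 f hf g e1, h2 f hf g e2]

/-- the indicator of the forms which are not maximal at `l` -/
private def ind (Λ : Submodule (𝓞 K) (Fin 2 → K)) (l : Pl K) (f : Fin 4 → K) : ℝ :=
  if f ∈ NM l Λ then 1 else 0

private theorem ind01 (Λ : Submodule (𝓞 K) (Fin 2 → K)) (l : Pl K) (f : Fin 4 → K) :
    ind Λ l f = 0 ∨ ind Λ l f = 1 := by
  unfold ind
  split_ifs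
  · right; rfl
  · left; rfl

/-- the modulus -/
private def mdl (J : Ideal (𝓞 K)) (m : Finset (Pl K)) : Ideal (𝓞 K) := J * ∏ l ∈ m, l.asIdeal ^ 3

private theorem mdl_ne {J : Ideal (𝓞 K)} (hJ : J ≠ ⊥) (m : Finset (Pl K)) : mdl J m ≠ ⊥ := by
  unfold mdl
  rw [← Ideal.zero_eq_bot] at hJ ⊢
  refine mul_ne_zero hJ (Finset.prod_ne_zero_iff.2 fun l _ => pow_ne_zero 3 ?_)
  rw [Ideal.zero_eq_bot]
  exact l.ne_bot

private theorem mdl_norm (J : Ideal (𝓞 K)) (m : Finset (Pl K)) :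
    (Ideal.absNorm (mdl J m) : ℝ) = Ideal.absNorm J * (∏ l ∈ m, sq K l) ^ 6 := by
  unfold mdl
  rw [map_mul, map_prod]
  push_cast
  congr 1
  rw [← Finset.prod_pow]
  refine Finset.prod_congr rfl fun l _ => ?_
  rw [map_pow]
  push_cast
  have h : (Ideal.absNorm l.asIdeal : ℝ) = sq K l ^ 2 := (sq_sq l).symm
  rw [h]
  ring

private theorem mdl_mean {Λ : Submodule (𝓞 K) (Fin 2 → K)} (hL : Lt Λ) {J : Ideal (𝓞 K)} (hJ : J ≠ ⊥)
    {H : (Fin 4 → K) → ℝ} (hH : Per (VL Λ) J H) (m : Finset (Pl K)) (hm : ∀ l ∈ m, ¬ J ≤ l.asIdeal) :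
    Per (VL Λ) (mdl J m) (fun f => H f * ∏ l ∈ m, ind Λ l f) ∧
      mean (VL Λ) (mdl J m) (fun f => H f * ∏ l ∈ m, ind Λ l f) =
        mean (VL Λ) J H * ∏ l ∈ m, dn l Λ := by
  induction m using Finset.induction_on with
  | empty =>
    have e1 : mdl J (∅ : Finset (Pl K)) = J := by
      unfold mdl
      rw [Finset.prod_empty, mul_one]
    have e2 : (fun f => H f * ∏ l ∈ (∅ : Finset (Pl K)), ind Λ l f) = H := by
      funext f
      rw [Finset.prod_empty, mul_one]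
    rw [e1, e2, Finset.prod_empty, mul_one]
    exact ⟨hH, rfl⟩
  | insert l m hl ih =>
    obtain ⟨i1, i2⟩ := ih fun l' hl' => hm l' (Finset.mem_insert_of_mem hl')
    have e1 : mdl J (insert l m) = mdl J m * l.asIdeal ^ 3 := by
      unfold mdl
      rw [Finset.prod_insert hl]
      ring
    have e2 : (fun f => H f * ∏ l' ∈ insert l m, ind Λ l' f) =
        fun f => (H f * ∏ l' ∈ m, ind Λ l' f) * ind Λ l f := by
      funext f
      rw [Finset.prod_insert hl]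
      ring
    have e3 : Per (VL Λ) (l.asIdeal ^ 3) (fun f => ind Λ l f) := nm_per hL l
    have hl0 : (l.asIdeal ^ 3 : Ideal (𝓞 K)) ≠ ⊥ := by
      rw [← Ideal.zero_eq_bot]
      refine pow_ne_zero 3 ?_
      rw [Ideal.zero_eq_bot]
      exact l.ne_bot
    have hmax : l.asIdeal.IsMaximal := l.isMaximal
    have hco : IsCoprime (mdl J m) (l.asIdeal ^ 3) := by
      refine IsCoprime.pow_right ?_
      unfold mdl
      refine IsCoprime.mul_left ?_ (IsCoprime.prod_left fun l' hl' => IsCoprime.pow_left ?_)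
      · rw [Ideal.isCoprime_iff_sup_eq]
        have h1 := hm l (Finset.mem_insert_self _ _)
        refine hmax.out.2 _ ?_
        rw [sup_comm]
        exact lt_of_le_of_ne le_sup_left fun h2 => h1 (by rw [h2]; exact le_sup_right)
      · have hmax' : l'.asIdeal.IsMaximal := l'.isMaximal
        refine Ideal.isCoprime_of_isMaximal fun h2 => ?_
        have h3 : l' = l := HeightOneSpectrum.ext h2
        rw [h3] at hl'
        exact hl hl'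
    rw [e1, e2]
    refine ⟨per_mul' i1 e3, ?_⟩
    rw [mean_mul (vl_fg hL) (mdl_ne hJ m) hl0 hco i1 e3, i2, Finset.prod_insert hl]
    have e4 : mean (VL Λ) (l.asIdeal ^ 3) (fun f => ind Λ l f) = dn l Λ := rfl
    rw [e4]
    ring

end pr

/-! ### the numbers -/

private theorem tpow {T η u : ℝ} (hT : 1 ≤ T) (n : ℕ) (h : η * n ≤ u) : (T ^ η) ^ n ≤ T ^ u := by
  rw [← Real.rpow_natCast, ← Real.rpow_mul (by linarith)]
  exact Real.rpow_le_rpow_of_exponent_le hT h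

private theorem fin_num {X TD T t C₁ C₂ Ca C₅ Cs CG a a' E R G Tm : ℝ} {A₁ A₂ A₃ A : ℕ} (hX : 1 ≤ X)
    (ht : 1 ≤ t) (hTD : 0 ≤ TD) (hT : 1 ≤ T) (hTm : 0 ≤ Tm) (hC₁ : 0 ≤ C₁) (hC₂ : 0 ≤ C₂) (hCa : 0 ≤ Ca)
    (hC₅ : 0 ≤ C₅) (hCs : 0 ≤ Cs) (hCG : 0 ≤ CG) (hE : E = C₁ * X ^ A₁ * (TD / T))
    (hR : R = C₂ * X ^ A₂ * (TD * Tm)) (ha' : a' ≤ Ca * X ^ A₃ * TD) (ha : |a| ≤ a') (hG : G = CG * t)
    (hA₁ : A₁ ≤ A) (hA₂ : A₂ ≤ A) (hA₃ : A₃ ≤ A) (hp1 : t ^ (11 + 18 * A₁) ≤ T) (hp2 : t ^ 7 * Tm ≤ 1) :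
    G * (a' * (Cs / t ^ 2) + t ^ 9 * Cs * (E * (t ^ 3) ^ (6 * A₁))) + R * (t ^ 6 * Cs) +
        t ^ 6 * Cs * (E * (t ^ 2) ^ (6 * A₁)) + |a| * (Cs / t ^ 2) + |a| * (C₅ / t) ≤
      (CG * Ca * Cs + CG * Cs * C₁ + C₂ * Cs + Cs * C₁ + Ca * Cs + Ca * C₅) * X ^ A * (TD * t⁻¹) := by
  have ht0 : 0 < t := by linarith
  have hT0 : 0 < T := by linarith
  have x1 : X ^ A₁ ≤ X ^ A := pow_le_pow_right₀ hX hA₁
  have x2 : X ^ A₂ ≤ X ^ A := pow_le_pow_right₀ hX hA₂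
  have x3 : X ^ A₃ ≤ X ^ A := pow_le_pow_right₀ hX hA₃
  have hXA : 0 ≤ X ^ A := by positivity
  have ht1 : t⁻¹ ≤ 1 := inv_le_one_of_one_le₀ ht
  have hti : 0 < t⁻¹ := inv_pos.2 ht0
  have hY0 : 0 ≤ X ^ A * TD := mul_nonneg hXA hTD
  have hYa : a' ≤ Ca * (X ^ A * TD) := by
    refine ha'.trans ?_
    calc Ca * X ^ A₃ * TD = Ca * TD * X ^ A₃ := by ring
      _ ≤ Ca * TD * X ^ A := mul_le_mul_of_nonneg_left x3 (by positivity)
      _ = _ := by ring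
  have ha0 : 0 ≤ a' := (abs_nonneg a).trans ha
  -- the powers of `t`
  have q1 : t ^ (10 + 18 * A₁) / T ≤ t⁻¹ := by
    rw [div_le_iff₀ hT0]
    have e : t ^ (10 + 18 * A₁) = t⁻¹ * t ^ (11 + 18 * A₁) := by
      have e1 : 11 + 18 * A₁ = (10 + 18 * A₁) + 1 := by ring
      rw [e1, pow_succ]
      field_simp
    rw [e]
    exact mul_le_mul_of_nonneg_left hp1 hti.le
  have q2 : t ^ 6 * Tm ≤ t⁻¹ := by
    have e : t ^ 6 * Tm = t⁻¹ * (t ^ 7 * Tm) := by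
      field_simp
    rw [e]
    calc t⁻¹ * (t ^ 7 * Tm) ≤ t⁻¹ * 1 := mul_le_mul_of_nonneg_left hp2 hti.le
      _ = t⁻¹ := mul_one _
  have q3 : t ^ (6 + 12 * A₁) / T ≤ t⁻¹ := by
    refine le_trans ?_ q1
    exact div_le_div_of_nonneg_right (pow_le_pow_right₀ ht (by omega)) hT0.le
  -- the six parts
  have p1 : G * (a' * (Cs / t ^ 2)) ≤ CG * Ca * Cs * (X ^ A * TD * t⁻¹) := by
    have e : G * (a' * (Cs / t ^ 2)) = CG * Cs * t⁻¹ * a' := by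
      rw [hG]
      field_simp
    rw [e]
    calc CG * Cs * t⁻¹ * a' ≤ CG * Cs * t⁻¹ * (Ca * (X ^ A * TD)) :=
          mul_le_mul_of_nonneg_left hYa (by positivity)
      _ = _ := by ring
  have p2 : G * (t ^ 9 * Cs * (E * (t ^ 3) ^ (6 * A₁))) ≤ CG * Cs * C₁ * (X ^ A * TD * t⁻¹) := by
    have e : G * (t ^ 9 * Cs * (E * (t ^ 3) ^ (6 * A₁))) =
        CG * Cs * C₁ * TD * (X ^ A₁ * (t ^ (10 + 18 * A₁) / T)) := by
      rw [hG, hE, ← pow_mul, pow_add]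
      have e1 : 3 * (6 * A₁) = 18 * A₁ := by ring
      rw [e1]
      ring
    rw [e]
    calc CG * Cs * C₁ * TD * (X ^ A₁ * (t ^ (10 + 18 * A₁) / T))
        ≤ CG * Cs * C₁ * TD * (X ^ A * t⁻¹) :=
          mul_le_mul_of_nonneg_left (mul_le_mul x1 q1 (by positivity) hXA) (by positivity)
      _ = _ := by ring
  have p3 : R * (t ^ 6 * Cs) ≤ C₂ * Cs * (X ^ A * TD * t⁻¹) := by
    have e : R * (t ^ 6 * Cs) = C₂ * Cs * TD * (X ^ A₂ * (t ^ 6 * Tm)) := by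
      rw [hR]
      ring
    rw [e]
    calc C₂ * Cs * TD * (X ^ A₂ * (t ^ 6 * Tm)) ≤ C₂ * Cs * TD * (X ^ A * t⁻¹) :=
          mul_le_mul_of_nonneg_left (mul_le_mul x2 q2 (by positivity) hXA) (by positivity)
      _ = _ := by ring
  have p4 : t ^ 6 * Cs * (E * (t ^ 2) ^ (6 * A₁)) ≤ Cs * C₁ * (X ^ A * TD * t⁻¹) := by
    have e : t ^ 6 * Cs * (E * (t ^ 2) ^ (6 * A₁)) = Cs * C₁ * TD * (X ^ A₁ * (t ^ (6 + 12 * A₁) / T)) := by
      rw [hE, ← pow_mul, pow_add]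
      have e1 : 2 * (6 * A₁) = 12 * A₁ := by ring
      rw [e1]
      ring
    rw [e]
    calc Cs * C₁ * TD * (X ^ A₁ * (t ^ (6 + 12 * A₁) / T)) ≤ Cs * C₁ * TD * (X ^ A * t⁻¹) :=
          mul_le_mul_of_nonneg_left (mul_le_mul x1 q3 (by positivity) hXA) (by positivity)
      _ = _ := by ring
  have p5 : |a| * (Cs / t ^ 2) ≤ Ca * Cs * (X ^ A * TD * t⁻¹) := by
    have e2 : Cs / t ^ 2 ≤ Cs * t⁻¹ := by
      have e3 : Cs / t ^ 2 = Cs * (t⁻¹ * t⁻¹) := by field_simp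
      rw [e3]
      refine mul_le_mul_of_nonneg_left ?_ hCs
      calc t⁻¹ * t⁻¹ ≤ t⁻¹ * 1 := mul_le_mul_of_nonneg_left ht1 hti.le
        _ = t⁻¹ := mul_one _
    calc |a| * (Cs / t ^ 2) ≤ (Ca * (X ^ A * TD)) * (Cs * t⁻¹) :=
          mul_le_mul (ha.trans hYa) e2 (by positivity) (by positivity)
      _ = _ := by ring
  have p6 : |a| * (C₅ / t) ≤ Ca * C₅ * (X ^ A * TD * t⁻¹) := by
    calc |a| * (C₅ / t) ≤ (Ca * (X ^ A * TD)) * (C₅ / t) :=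
          mul_le_mul_of_nonneg_right (ha.trans hYa) (by positivity)
      _ = _ := by
          rw [div_eq_mul_inv]
          ring
  have e : (CG * Ca * Cs + CG * Cs * C₁ + C₂ * Cs + Cs * C₁ + Ca * Cs + Ca * C₅) * X ^ A * (TD * t⁻¹) =
      CG * Ca * Cs * (X ^ A * TD * t⁻¹) + CG * Cs * C₁ * (X ^ A * TD * t⁻¹) + C₂ * Cs * (X ^ A * TD * t⁻¹) +
        Cs * C₁ * (X ^ A * TD * t⁻¹) + Ca * Cs * (X ^ A * TD * t⁻¹) + Ca * C₅ * (X ^ A * TD * t⁻¹) := by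
    ring
  rw [e, mul_add]
  linarith

theorem one_lat (K : IntermediateField ℚ QBar) [NumberField K] (sg : InfinitePlace K → Bool) :
    ∃ (C : ℝ) (A : ℕ) (η : ℝ), 1 ≤ C ∧ 0 < η ∧ η ≤ 1 ∧
    ∀ (Q : Finset (Pl K)) (Λ : Submodule (𝓞 K) (Fin 2 → K)) (J : Ideal (𝓞 K))
      (H : (Fin 4 → K) → ℝ) (T R₁ R₂ : ℝ), Λ ∈ LQ Q → J ≠ ⊥ → (∀ l : Pl K, J ≤ l.asIdeal → l ∈ Q) →
    Per (VL Λ) J H → (∀ f, |H f| ≤ 1) → (∀ l ∈ Q, ∀ f ∈ NM l Λ, H f = 0) → 1 ≤ T → 0 < R₁ → R₁ ≤ R₂ →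
    (Fs sg T R₁ R₂ Λ).Finite ∧
    |(∑ᶠ f ∈ Fs sg T R₁ R₂ Λ, H f) - mean (VL Λ) J H * (T ^ (4 * Module.finrank ℚ K) *
        (dl Λ * kp Q Λ * vD K sg ((ix Λ : ℝ) ^ 2 * (R₁ / T ^ (4 * Module.finrank ℚ K)))
          ((ix Λ : ℝ) ^ 2 * (R₂ / T ^ (4 * Module.finrank ℚ K)))))| ≤
      C * ((ix Λ : ℝ) * Ideal.absNorm J * (1 + T ^ (4 * Module.finrank ℚ K) / R₁)) ^ A *
        (T ^ (4 * Module.finrank ℚ K) * T ^ (-η)) + ((Ft sg Q (T ^ η) T R₁ R₂ Λ).ncard : ℝ) := by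
  obtain ⟨C₁, A₁, hC₁, hper⟩ := per_cnt K sg
  obtain ⟨C₂, A₂, hC₂, hred⟩ := red_cnt K sg
  obtain ⟨C₃, A₃, hC₃, hdl⟩ := dl_bd K
  obtain ⟨C₄, A₄, hC₄, hvd⟩ := vd_bd K sg
  obtain ⟨C₅, hC₅, hkp⟩ := kp_near K
  obtain ⟨Cs, hCs0, hCs⟩ := wt_pr K
  obtain ⟨d, hd⟩ : ∃ d, d = Module.finrank ℚ K := ⟨_, rfl⟩
  have hd0 : 0 < d := by
    rw [hd]
    exact Module.finrank_pos
  have hdR : (0 : ℝ) < d := by exact_mod_cast hd0
  obtain ⟨η, hη⟩ : ∃ η : ℝ, η = 1 / (36 * ((A₁ : ℝ) + 1)) := ⟨_, rfl⟩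
  have hA₁0 : (0 : ℝ) ≤ A₁ := Nat.cast_nonneg _
  have hη0 : 0 < η := by
    rw [hη]
    positivity
  have hηA : η * (36 * ((A₁ : ℝ) + 1)) = 1 := by
    rw [hη]
    field_simp
  have hη1 : η ≤ 1 := by nlinarith
  obtain ⟨ε, hε⟩ : ∃ ε : ℝ, ε = η / (2 * d) := ⟨_, rfl⟩
  have hε0 : 0 < ε := by
    rw [hε]
    positivity
  obtain ⟨C₆, hC₆, h2p⟩ := two_pow K hε0
  obtain ⟨CG, hCG⟩ : ∃ CG : ℝ, CG = C₆ * ((200 : ℝ) ^ d) ^ (ε / 2) := ⟨_, rfl⟩
  have hCG0 : 0 ≤ CG := by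
    rw [hCG]
    have : (0 : ℝ) ≤ ((200 : ℝ) ^ d) ^ (ε / 2) := Real.rpow_nonneg (by positivity) _
    positivity
  have hC34 : 1 ≤ C₃ * C₄ := one_le_mul_of_one_le_of_one_le hC₃ hC₄
  refine ⟨CG * (C₃ * C₄) * Cs + CG * Cs * C₁ + C₂ * Cs + Cs * C₁ + (C₃ * C₄) * Cs + (C₃ * C₄) * C₅,
    A₁ + A₂ + (A₃ + A₄), η, ?_, hη0, hη1, ?_⟩
  · have h1 : 1 ≤ (C₃ * C₄) * C₅ := one_le_mul_of_one_le_of_one_le hC34 hC₅
    have h2 : 0 ≤ CG * (C₃ * C₄) * Cs + CG * Cs * C₁ + C₂ * Cs + Cs * C₁ + (C₃ * C₄) * Cs := by positivity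
    linarith
  intro Q Λ J H T R₁ R₂ hΛ hJ hJQ hPer hH1 hHQ hT hR₁ hR₁₂
  have hL : Lt Λ := hΛ.1
  have hO : OO K 2 ≤ Λ := hΛ.2.1
  rw [← hd] at hper hred ⊢
  have hT0 : 0 < T := by linarith
  obtain ⟨N, hN⟩ : ∃ N : ℝ, N = (ix Λ : ℝ) := ⟨_, rfl⟩
  have hN1 : 1 ≤ N := by
    rw [hN]
    exact_mod_cast ix_pos hL hO
  obtain ⟨q, hq⟩ : ∃ q : ℝ, q = (Ideal.absNorm J : ℝ) := ⟨_, rfl⟩
  have hq1 : 1 ≤ q := by
    rw [hq]
    have h1 : Ideal.absNorm J ≠ 0 := by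
      rw [Ne, Ideal.absNorm_eq_zero_iff]
      exact hJ
    exact_mod_cast Nat.pos_of_ne_zero h1
  obtain ⟨TD, hTD⟩ : ∃ TD : ℝ, TD = T ^ (4 * d) := ⟨_, rfl⟩
  have hTD1 : 1 ≤ TD := by
    rw [hTD]
    exact one_le_pow₀ hT
  obtain ⟨y, hy⟩ : ∃ y : ℝ, y = 1 + TD / R₁ := ⟨_, rfl⟩
  have hy1 : 1 ≤ y := by
    rw [hy]
    have : 0 ≤ TD / R₁ := by positivity
    linarith
  have hN2 : 1 ≤ N ^ 2 := one_le_pow₀ hN1
  have hyN : 1 + TD / (R₁ * N ^ 2) ≤ y := by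
    rw [hy]
    have h1 : TD / (R₁ * N ^ 2) ≤ TD / R₁ := by
      refine div_le_div_of_nonneg_left (by positivity) hR₁ ?_
      exact le_mul_of_one_le_right hR₁.le hN2
    linarith
  have hyN0 : 0 ≤ 1 + TD / (R₁ * N ^ 2) := by positivity
  obtain ⟨X, hX⟩ : ∃ X : ℝ, X = N * q * y := ⟨_, rfl⟩
  have hX1 : 1 ≤ X := by
    rw [hX]
    exact one_le_mul_of_one_le_of_one_le (one_le_mul_of_one_le_of_one_le hN1 hq1) hy1
  have hNX : N ≤ X := by
    rw [hX]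
    calc N = N * 1 * 1 := by ring
      _ ≤ N * q * y := by gcongr
  have hyX : y ≤ X := by
    rw [hX]
    calc y = 1 * 1 * y := by ring
      _ ≤ N * q * y := by gcongr
  have hNyX : N * y ≤ X := by
    rw [hX]
    calc N * y = N * 1 * y := by ring
      _ ≤ N * q * y := by gcongr
  obtain ⟨t, htd⟩ : ∃ t : ℝ, t = T ^ η := ⟨_, rfl⟩
  have ht : 1 ≤ t := by
    rw [htd]
    exact Real.one_le_rpow hT hη0.le
  have hR₁' : 0 < R₁ * N ^ 2 := by positivity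
  have hR₁₂' : R₁ * N ^ 2 ≤ R₂ * N ^ 2 := mul_le_mul_of_nonneg_right hR₁₂ (by positivity)
  -- the set of the forms
  obtain ⟨V, hVd⟩ : ∃ V : Set (Fin 4 → K), V = {f | f ∈ VL Λ ∧ emb f ∈ Dg K sg T (R₁ * N ^ 2) (R₂ * N ^ 2)} := ⟨_, rfl⟩
  obtain ⟨W, hW⟩ : ∃ W : ℝ, W = TD * vD K sg (N ^ 2 * (R₁ / TD)) (N ^ 2 * (R₂ / TD)) := ⟨_, rfl⟩
  have hWe : TD * vD K sg (R₁ * N ^ 2 / TD) (R₂ * N ^ 2 / TD) = W := by
    rw [hW]
    congr 2
    · ring
    · ring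
  have hV : V.Finite := by
    rw [hVd]
    exact (hper Λ J H T (R₁ * N ^ 2) (R₂ * N ^ 2) hL hO hJ hPer hH1 hT hR₁' hR₁₂').1
  set Vf := hV.toFinset with hVf
  have hmV : ∀ f, f ∈ Vf ↔ f ∈ VL Λ ∧ emb f ∈ Dg K sg T (R₁ * N ^ 2) (R₂ * N ^ 2) := by
    intro f
    rw [hVf, Set.Finite.mem_toFinset, hVd]
    rfl
  obtain ⟨E, hE⟩ : ∃ E : ℝ, E = C₁ * X ^ A₁ * (TD / T) := ⟨_, rfl⟩
  have hE0 : 0 ≤ E := by
    rw [hE]
    positivity
  -- the count for one modulus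
  have hcm : ∀ (J' : Ideal (𝓞 K)) (H' : (Fin 4 → K) → ℝ), J' ≠ ⊥ → Per (VL Λ) J' H' → (∀ f, |H' f| ≤ 1) →
      (Ideal.absNorm J' : ℝ) ≤ q → ∀ m : Finset (Pl K), (∀ l ∈ m, ¬ J' ≤ l.asIdeal) →
      |(∑ f ∈ Vf, H' f * ∏ l ∈ m, ind Λ l f) - dl Λ * mean (VL Λ) J' H' * W * ∏ l ∈ m, dn l Λ| ≤
        E * (∏ l ∈ m, sq K l) ^ (6 * A₁) := by
    intro J' H' hJ' hP' hH' hq' m hm
    obtain ⟨i1, i2⟩ := mdl_mean hL hJ' hP' m hm
    have hb : ∀ f, |H' f * ∏ l ∈ m, ind Λ l f| ≤ 1 := by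
      intro f
      rw [abs_mul]
      have h1 : |∏ l ∈ m, ind Λ l f| ≤ 1 := by
        rw [prod01 (fun l => ind Λ l f) (fun l => ind01 Λ l f) m]
        split_ifs
        · rw [abs_one]
        · rw [abs_zero]
          exact zero_le_one
      calc |H' f| * |∏ l ∈ m, ind Λ l f| ≤ 1 * 1 := mul_le_mul (hH' f) h1 (abs_nonneg _) zero_le_one
        _ = 1 := one_mul 1
    obtain ⟨-, h2⟩ := hper Λ (mdl J' m) (fun f => H' f * ∏ l ∈ m, ind Λ l f) T (R₁ * N ^ 2) (R₂ * N ^ 2)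
      hL hO (mdl_ne hJ' m) i1 hb hT hR₁' hR₁₂'
    rw [← hVd, finsum_mem_eq_finite_toFinset_sum _ hV, i2, ← hTD, hWe, mdl_norm, ← hN, ← hVf] at h2
    have e1 : dl Λ * (mean (VL Λ) J' H' * ∏ l ∈ m, dn l Λ) * W =
        dl Λ * mean (VL Λ) J' H' * W * ∏ l ∈ m, dn l Λ := by ring
    rw [e1] at h2
    refine h2.trans ?_
    have hp0 : 0 ≤ ∏ l ∈ m, sq K l := zero_le_one.trans (one_le_pr _ m fun l _ => sq_one l)
    have e2 : N * ((Ideal.absNorm J' : ℝ) * (∏ l ∈ m, sq K l) ^ 6) * (1 + TD / (R₁ * N ^ 2)) ≤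
        X * (∏ l ∈ m, sq K l) ^ 6 := by
      have e3 : N * ((Ideal.absNorm J' : ℝ) * (∏ l ∈ m, sq K l) ^ 6) * (1 + TD / (R₁ * N ^ 2)) =
          N * (Ideal.absNorm J' : ℝ) * (1 + TD / (R₁ * N ^ 2)) * (∏ l ∈ m, sq K l) ^ 6 := by ring
      rw [e3, hX]
      refine mul_le_mul_of_nonneg_right ?_ (by positivity)
      exact mul_le_mul (mul_le_mul_of_nonneg_left hq' (by positivity)) hyN hyN0 (by positivity)
    have e4 : (N * ((Ideal.absNorm J' : ℝ) * (∏ l ∈ m, sq K l) ^ 6) * (1 + TD / (R₁ * N ^ 2))) ^ A₁ ≤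
        X ^ A₁ * (∏ l ∈ m, sq K l) ^ (6 * A₁) := by
      rw [pow_mul, ← mul_pow]
      exact pow_le_pow_left₀ (by positivity) e2 A₁
    calc C₁ * (N * ((Ideal.absNorm J' : ℝ) * (∏ l ∈ m, sq K l) ^ 6) * (1 + TD / (R₁ * N ^ 2))) ^ A₁ * (TD / T)
        ≤ C₁ * (X ^ A₁ * (∏ l ∈ m, sq K l) ^ (6 * A₁)) * (TD / T) := by gcongr
      _ = _ := by
          rw [hE]
          ring
  -- sizes
  obtain ⟨hdl0, hdl1⟩ := hdl Λ hL hO
  rw [← hN] at hdl1
  have hvv : 0 < N ^ 2 * (R₁ / TD) := by positivity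
  obtain ⟨hv0, hv1⟩ := hvd (N ^ 2 * (R₁ / TD)) (N ^ 2 * (R₂ / TD)) hvv
  have hW0 : 0 ≤ W := by
    rw [hW]
    exact mul_nonneg (by linarith) hv0
  have hW1 : W ≤ C₄ * y ^ A₄ * TD := by
    rw [hW]
    have e1 : 1 + 1 / (N ^ 2 * (R₁ / TD)) ≤ y := by
      refine le_trans (le_of_eq ?_) hyN
      field_simp
    have e2 : vD K sg (N ^ 2 * (R₁ / TD)) (N ^ 2 * (R₂ / TD)) ≤ C₄ * y ^ A₄ := by
      refine hv1.trans ?_
      refine mul_le_mul_of_nonneg_left (pow_le_pow_left₀ (by positivity) e1 A₄) (by linarith)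
    calc TD * vD K sg (N ^ 2 * (R₁ / TD)) (N ^ 2 * (R₂ / TD)) ≤ TD * (C₄ * y ^ A₄) :=
          mul_le_mul_of_nonneg_left e2 (by linarith)
      _ = _ := by ring
  obtain ⟨a, ha⟩ : ∃ a : ℝ, a = dl Λ * mean (VL Λ) J H * W := ⟨_, rfl⟩
  obtain ⟨a', ha'⟩ : ∃ a' : ℝ, a' = dl Λ * W := ⟨_, rfl⟩
  have ha'0 : 0 ≤ a' := by
    rw [ha']
    exact mul_nonneg hdl0.le hW0
  have haa : |a| ≤ a' := by
    rw [ha, ha', abs_mul, abs_mul, abs_of_pos hdl0, abs_of_nonneg hW0]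
    have h1 := mean_le' (VL Λ) J H hH1
    calc dl Λ * |mean (VL Λ) J H| * W ≤ dl Λ * 1 * W := by gcongr
      _ = _ := by ring
  have ha'1 : a' ≤ (C₃ * C₄) * X ^ (A₃ + A₄) * TD := by
    rw [ha']
    have e1 : N ^ A₃ ≤ X ^ A₃ := pow_le_pow_left₀ (by linarith) hNX A₃
    have e2 : y ^ A₄ ≤ X ^ A₄ := pow_le_pow_left₀ (by linarith) hyX A₄
    calc dl Λ * W ≤ (C₃ * N ^ A₃) * (C₄ * y ^ A₄ * TD) := mul_le_mul hdl1 hW1 hW0 (by positivity)
      _ ≤ (C₃ * X ^ A₃) * (C₄ * X ^ A₄ * TD) := by gcongr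
      _ = _ := by
          rw [pow_add]
          ring
  -- the primes
  obtain ⟨P, hPd⟩ : ∃ P : Finset (Pl K), P = (pr_fin K t).toFinset.filter fun l => l ∉ Q := ⟨_, rfl⟩
  have hmP : ∀ l, l ∈ P ↔ (nm l : ℝ) ≤ t ∧ l ∉ Q := by
    intro l
    rw [hPd, Finset.mem_filter, Set.Finite.mem_toFinset]
    rfl
  have hsP : ∀ l ∈ P, 1 ≤ sq K l ∧ sq K l ≤ t := by
    intro l hl
    have h1 := sq_one l
    refine ⟨h1, le_trans ?_ ((hmP l).1 hl).1⟩
    rw [← sq_sq l, pow_two]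
    exact le_mul_of_one_le_left (by linarith) h1
  have hdnP : ∀ l ∈ P, 0 ≤ dn l Λ ∧ dn l Λ ≤ 3 / sq K l ^ 4 := by
    intro l _
    obtain ⟨h1, -, h3⟩ := dn_bd K hL l
    refine ⟨h1, h3.trans (le_of_eq ?_)⟩
    rw [← sq_sq l]
    ring
  have hJP : ∀ m ⊆ P, ∀ l ∈ m, ¬ J ≤ l.asIdeal := fun m hm l hl h => ((hmP l).1 (hm hl)).2 (hJQ l h)
  -- the forms with a zero
  obtain ⟨R, hR⟩ : ∃ R : ℝ, R = C₂ * X ^ A₂ * (TD * T ^ (-(1 / 2) : ℝ)) := ⟨_, rfl⟩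
  have hRc : ((Vf.filter fun f => ¬ NZ f).card : ℝ) ≤ R := by
    have h1 := hred Λ T (R₁ * N ^ 2) (R₂ * N ^ 2) hL hO hT hR₁'
    have h2 : {f | f ∈ VL Λ ∧ emb f ∈ Dg K sg T (R₁ * N ^ 2) (R₂ * N ^ 2) ∧ ∃ v : Fin 2 → K, v ≠ 0 ∧ ev f v = 0} =
        ((Vf.filter fun f => ¬ NZ f : Finset (Fin 4 → K)) : Set (Fin 4 → K)) := by
      ext f
      rw [Finset.mem_coe, Finset.mem_filter, hmV]
      unfold NZ
      push Not
      exact ⟨fun h => ⟨⟨h.1, h.2.1⟩, h.2.2⟩, fun h => ⟨h.1.1, h.1.2, h.2⟩⟩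
    rw [h2, Set.ncard_coe_finset, ← hTD, ← hN] at h1
    refine h1.trans ?_
    have h3 : (N * (1 + TD / (R₁ * N ^ 2))) ^ A₂ ≤ X ^ A₂ := by
      refine pow_le_pow_left₀ (by positivity) (le_trans ?_ hNyX) A₂
      exact mul_le_mul_of_nonneg_left hyN (by linarith)
    rw [hR]
    have h4 : (0 : ℝ) ≤ T ^ (-(1 / 2) : ℝ) := Real.rpow_nonneg hT0.le _
    gcongr
  -- the number of the subsets
  have hGb : ∀ f ∈ Vf, NZ f → (2 : ℝ) ^ (P.filter fun l => ind Λ l f = 1).card ≤ CG * t := by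
    intro f hf hnz
    obtain ⟨hf1, hf2⟩ := (hmV f).1 hf
    have hB : ∀ l ∈ P.filter (fun l => ind Λ l f = 1), f ∈ NM l Λ := by
      intro l hl
      by_contra hcon
      have h1 := (Finset.mem_filter.1 hl).2
      unfold ind at h1
      rw [if_neg hcon] at h1
      exact zero_ne_one h1
    set B := P.filter fun l => ind Λ l f = 1 with hBd
    have h1 := nm_prod K hL hO hnz hf1 B hB
    rw [← hN] at h1
    have hn1 : 0 ≤ nQ B := Finset.prod_nonneg fun l _ => Nat.cast_nonneg _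
    have h2 : nQ B ^ 2 ≤ nd f := by
      refine le_trans ?_ h1
      exact le_mul_of_one_le_right (by positivity) hN2
    have h3 : nd f ≤ (200 : ℝ) ^ d * TD := by
      rw [nd_eq]
      have h4 : ∏ w : InfinitePlace K, ‖disc (emb f w)‖ ^ w.mult ≤ ∏ w : InfinitePlace K, (200 * T ^ 4) ^ w.mult :=
        Finset.prod_le_prod (fun w _ => by positivity) fun w _ =>
          pow_le_pow_left₀ (norm_nonneg _) (reg_bd hT0 (hf2.1 w)).1 _
      refine h4.trans (le_of_eq ?_)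
      rw [Finset.prod_pow_eq_pow_sum, InfinitePlace.sum_mult_eq, ← hd, mul_pow, ← pow_mul, hTD]
    have h5 : nQ B ^ ε ≤ ((200 : ℝ) ^ d) ^ (ε / 2) * t := by
      have h6 : nQ B ^ ε = (nQ B ^ 2) ^ (ε / 2) := by
        rw [← Real.rpow_natCast, ← Real.rpow_mul hn1]
        congr 1
        push_cast
        ring
      rw [h6]
      refine (Real.rpow_le_rpow (by positivity) (h2.trans h3) (by positivity)).trans (le_of_eq ?_)
      rw [Real.mul_rpow (by positivity) (by linarith)]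
      congr 1
      have he : ((4 * d : ℕ) : ℝ) * (ε / 2) = η := by
        rw [hε]
        push_cast
        field_simp
        norm_num
      rw [hTD, htd, ← Real.rpow_natCast, ← Real.rpow_mul hT0.le, he]
    refine (h2p B).trans ?_
    rw [hCG]
    calc C₆ * nQ B ^ ε ≤ C₆ * (((200 : ℝ) ^ d) ^ (ε / 2) * t) := mul_le_mul_of_nonneg_left h5 (by linarith)
      _ = _ := by ring
  -- the sieve
  have hsiv := siv Vf P NZ (fun l f => ind Λ l f) (fun l f => ind01 Λ l f) H hH1 (sq K) t ht hsP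
    (fun l => dn l Λ) hdnP a a' E R (CG * t) Cs (6 * A₁) ha'0 hE0 (by positivity)
    (fun m hm => by
      rw [ha]
      exact hcm J H hJ hPer hH1 hq.ge m (hJP m hm))
    (fun m hm => by
      have hone : Per (VL Λ) (⊤ : Ideal (𝓞 K)) (fun _ => (1 : ℝ)) := fun f _ g _ => rfl
      have h1 := hcm ⊤ (fun _ => 1) top_ne_bot hone (fun f => by rw [abs_one])
        (by
          rw [Ideal.absNorm_top, Nat.cast_one]
          exact hq1) m
        (fun l hl h => l.isPrime.ne_top (top_le_iff.1 h))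
      have h2 := mean_le' (VL Λ) (⊤ : Ideal (𝓞 K)) (fun _ => (1 : ℝ)) (fun f => by rw [abs_one])
      have h3 := (abs_le.1 h1).2
      simp only [one_mul] at h3
      have h4 : dl Λ * mean (VL Λ) (⊤ : Ideal (𝓞 K)) (fun _ => (1 : ℝ)) * W * ∏ l ∈ m, dn l Λ ≤
          a' * ∏ l ∈ m, dn l Λ := by
        refine mul_le_mul_of_nonneg_right ?_ (Finset.prod_nonneg fun l hl => (hdnP l (hm hl)).1)
        rw [ha']
        calc dl Λ * mean (VL Λ) (⊤ : Ideal (𝓞 K)) (fun _ => (1 : ℝ)) * W ≤ dl Λ * 1 * W := by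
              gcongr
              exact (abs_le.1 h2).2
          _ = _ := by ring
      linarith)
    hRc hGb (hCs P)
  -- comparison with `Fs`
  have hFsub : Fs sg T R₁ R₂ Λ ⊆ V := by
    intro f hf
    rw [hVd]
    have h1 := hf.2.1
    rw [← hN] at h1
    exact ⟨hf.1, h1⟩
  have hFtsub : Ft sg Q (T ^ η) T R₁ R₂ Λ ⊆ V := by
    intro f hf
    rw [hVd]
    have h1 := hf.2.1
    rw [← hN] at h1
    exact ⟨hf.1, h1⟩
  have hFs : (Fs sg T R₁ R₂ Λ).Finite := hV.subset hFsub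
  have hFt : (Ft sg Q (T ^ η) T R₁ R₂ Λ).Finite := hV.subset hFtsub
  refine ⟨hFs, ?_⟩
  have hcomp : |(∑ᶠ f ∈ Fs sg T R₁ R₂ Λ, H f) - ∑ f ∈ Vf.filter NZ, H f * ∏ l ∈ P, (1 - ind Λ l f)| ≤
      ((Ft sg Q (T ^ η) T R₁ R₂ Λ).ncard : ℝ) := by
    have e1 : (∑ᶠ f ∈ Fs sg T R₁ R₂ Λ, H f) = ∑ f ∈ Vf.filter NZ, if f ∈ Fs sg T R₁ R₂ Λ then H f else 0 := by
      rw [finsum_mem_eq_finite_toFinset_sum _ hFs, ← Finset.sum_filter]
      refine Finset.sum_congr ?_ fun _ _ => rfl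
      ext f
      rw [Set.Finite.mem_toFinset, Finset.mem_filter, Finset.mem_filter]
      refine ⟨fun h => ⟨⟨?_, h.2.2.1⟩, h⟩, fun h => h.2⟩
      rw [hVf, Set.Finite.mem_toFinset]
      exact hFsub h
    rw [e1, ← Finset.sum_sub_distrib]
    refine (Finset.abs_sum_le_sum_abs _ _).trans ?_
    have e2 : ∀ f ∈ Vf.filter NZ, |(if f ∈ Fs sg T R₁ R₂ Λ then H f else 0) - H f * ∏ l ∈ P, (1 - ind Λ l f)| ≤
        if f ∈ Ft sg Q (T ^ η) T R₁ R₂ Λ then 1 else 0 := by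
      intro f hf
      obtain ⟨hf0, hnz⟩ := Finset.mem_filter.1 hf
      obtain ⟨hf1, hf2⟩ := (hmV f).1 hf0
      have h01 : (0 : ℝ) ≤ if f ∈ Ft sg Q (T ^ η) T R₁ R₂ Λ then 1 else 0 := by
        split_ifs
        · exact zero_le_one
        · exact le_rfl
      by_cases h1 : f ∈ Fs sg T R₁ R₂ Λ
      · have h2 : ∏ l ∈ P, (1 - ind Λ l f) = 1 := by
          refine Finset.prod_eq_one fun l _ => ?_
          unfold ind
          rw [if_neg (h1.2.2.2 l), sub_zero]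
        rw [if_pos h1, h2, mul_one, sub_self, abs_zero]
        exact h01
      · rw [if_neg h1, zero_sub, abs_neg]
        have h2 : ∃ l : Pl K, f ∈ NM l Λ := by
          by_contra hcon
          push Not at hcon
          apply h1
          refine ⟨hf1, ?_, hnz, hcon⟩
          rw [← hN]
          exact hf2
        obtain ⟨l, hl⟩ := h2
        by_cases hlQ : l ∈ Q
        · rw [hHQ l hlQ f hl, zero_mul, abs_zero]
          exact h01
        · by_cases hlt : (nm l : ℝ) ≤ t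
          · have h3 : ∏ l ∈ P, (1 - ind Λ l f) = 0 := by
              refine Finset.prod_eq_zero ((hmP l).2 ⟨hlt, hlQ⟩) ?_
              unfold ind
              rw [if_pos hl, sub_self]
            rw [h3, mul_zero, abs_zero]
            exact h01
          · push Not at hlt
            have h3 : f ∈ Ft sg Q (T ^ η) T R₁ R₂ Λ := by
              refine ⟨hf1, ?_, hnz, l, hlQ, ?_, hl⟩
              · rw [← hN]
                exact hf2
              · rw [← htd]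
                exact hlt
            rw [if_pos h3, abs_mul]
            have h4 : |∏ l ∈ P, (1 - ind Λ l f)| ≤ 1 := by
              rw [Finset.abs_prod]
              refine Finset.prod_le_one (fun l _ => abs_nonneg _) fun l _ => ?_
              rcases ind01 Λ l f with h5 | h5
              · rw [h5, sub_zero, abs_one]
              · rw [h5, sub_self, abs_zero]
                exact zero_le_one
            calc |H f| * |∏ l ∈ P, (1 - ind Λ l f)| ≤ 1 * 1 :=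
                  mul_le_mul (hH1 f) h4 (abs_nonneg _) zero_le_one
              _ = 1 := one_mul 1
    refine (Finset.sum_le_sum e2).trans ?_
    rw [← Finset.sum_filter, Finset.sum_const, nsmul_eq_mul, mul_one]
    have h1 : ((Vf.filter NZ).filter fun f => f ∈ Ft sg Q (T ^ η) T R₁ R₂ Λ).card ≤
        (Ft sg Q (T ^ η) T R₁ R₂ Λ).ncard := by
      rw [← Set.ncard_coe_finset]
      exact Set.ncard_le_ncard (fun f hf => (Finset.mem_filter.1 hf).2) hFt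
    exact_mod_cast h1
  -- the density
  have hkpP : |∏ l ∈ P, (1 - dn l Λ) - kp Q Λ| ≤ C₅ / t := by
    obtain ⟨h1, h2⟩ := hkp Λ Q P t hL ht fun l hl hlQ => (hmP l).2 ⟨hl, hlQ⟩
    have h3 : P \ Q = P := Finset.sdiff_eq_self_of_disjoint
      (Finset.disjoint_left.2 fun l hl hlQ => ((hmP l).1 hl).2 hlQ)
    rw [h3] at h1 h2
    rw [abs_le]
    have : 0 ≤ C₅ / t := by positivity
    constructor <;> linarith
  have hmain : |a * ∏ l ∈ P, (1 - dn l Λ) - a * kp Q Λ| ≤ |a| * (C₅ / t) := by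
    rw [← mul_sub, abs_mul]
    exact mul_le_mul_of_nonneg_left hkpP (abs_nonneg _)
  have htgt : mean (VL Λ) J H * (T ^ (4 * d) * (dl Λ * kp Q Λ * vD K sg ((ix Λ : ℝ) ^ 2 * (R₁ / T ^ (4 * d)))
      ((ix Λ : ℝ) ^ 2 * (R₂ / T ^ (4 * d))))) = a * kp Q Λ := by
    rw [ha, hW, ← hN, ← hTD]
    ring
  rw [htgt]
  have htinv : T ^ (-η) = t⁻¹ := by
    rw [htd, Real.rpow_neg hT0.le]
  rw [htinv, ← hTD, ← hN, ← hq, ← hy, ← hX]
  -- the numbers
  have hp1 : t ^ (11 + 18 * A₁) ≤ T := by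
    have h1 := tpow (η := η) (u := 1) hT (11 + 18 * A₁) (by
      push_cast
      nlinarith)
    rw [Real.rpow_one, ← htd] at h1
    exact h1
  have hp2 : t ^ 7 * T ^ (-(1 / 2) : ℝ) ≤ 1 := by
    have h1 := tpow (η := η) (u := 1 / 2) hT 7 (by
      push_cast
      nlinarith)
    rw [← htd] at h1
    calc t ^ 7 * T ^ (-(1 / 2) : ℝ) ≤ T ^ (1 / 2 : ℝ) * T ^ (-(1 / 2) : ℝ) :=
          mul_le_mul_of_nonneg_right h1 (Real.rpow_nonneg hT0.le _)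
      _ = 1 := by
          rw [← Real.rpow_add hT0, add_neg_cancel, Real.rpow_zero]
  have hnum := fin_num (A := A₁ + A₂ + (A₃ + A₄)) hX1 ht (by linarith : 0 ≤ TD) hT
    (Real.rpow_nonneg hT0.le (-(1 / 2) : ℝ)) (by linarith) (by linarith) (by linarith : 0 ≤ C₃ * C₄)
    (by linarith : 0 ≤ C₅) hCs0 hCG0 hE hR ha'1 haa rfl (by omega) (by omega) (by omega) hp1 hp2
  have hfin : |(∑ᶠ f ∈ Fs sg T R₁ R₂ Λ, H f) - a * kp Q Λ| ≤
      |(∑ᶠ f ∈ Fs sg T R₁ R₂ Λ, H f) - ∑ f ∈ Vf.filter NZ, H f * ∏ l ∈ P, (1 - ind Λ l f)| +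
      |(∑ f ∈ Vf.filter NZ, H f * ∏ l ∈ P, (1 - ind Λ l f)) - a * ∏ l ∈ P, (1 - dn l Λ)| +
      |a * ∏ l ∈ P, (1 - dn l Λ) - a * kp Q Λ| := by
    refine le_trans (le_of_eq ?_) ((abs_add_le _ _).trans (add_le_add (abs_add_le _ _) le_rfl))
    congr 1
    ring
  linarith

end H12.SQM
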