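import Pool.Agent.H12.SQM.Cnt

/-!
# [SQM PER] Periodic functions on the lattice of the forms, 120-200 lines. File Pool/Agent/H97/SXM/Per.lean

`N = ix Λ`, `q = absNorm J`, `n = N³ q`, `V = VL Λ`, `nO K n 4 = n 𝓞⁴`. `N³ 𝓞⁴ ≤ V` (`vl_lo`), `V ≤ N⁻² 𝓞⁴` (`vl_hi`), `q ∈ J` (`Ideal.absNorm_mem`), so `n 𝓞⁴ ≤ J • V ≤ V`, all of finite index. `1 ≤ N` (`H77.MF.ix_pos`).
`dl_bd`: `[V : N³ 𝓞⁴] ≤ [N⁻² 𝓞⁴ : N³ 𝓞⁴] = N^(20 d)` (multiplication by `N²` and `[𝓞⁴ : m 𝓞⁴] = m^(4d)`), so `0 ≤ dl Λ ≤ N^(8d) / cv`; `dl Λ > 0`.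
`per_cnt`, CASE `n ≤ T`. The set `V ∩ Dg` is the disjoint union over the classes `c ∈ V / J V` of the sets `c ∩ Dg`, and every class `c` is the disjoint union of `M' = [J V : n 𝓞⁴]` classes `v + n 𝓞⁴`, each of which has by `form_cnt` `W / (n^(4d) cv) + err` elements in `Dg`, `W = T^(4d) vD ..`,
`|err| ≤ C y^A (n/T) T^(4d) / (n^(4d) cv)`. `h` is constant on `c`. So the sum is `∑_c h(c) M' (W / (n^(4d) cv) + err_c)`, `∑_c h(c) = mean · #(V/JV)` and `#(V/JV) M' / (n^(4d) cv) = [V : n 𝓞⁴] / (n^(4d) cv) = [V : N³ 𝓞⁴] q^(4d) / (n^(4d) cv) = dl Λ`. The error is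
`≤ dl Λ C y^A n T^(4d-1)`.
CASE `n > T`. `|sum| ≤ #(V ∩ Dg) ≤ #{g ∈ 𝓞⁴ : N⁻² g ∈ Dg} ≤ C (N² y T)^(4d)` (the coordinates of the elements of `Dg` are `≤ C y T` (`dg_low`); `lat` with `n = 1` for the ball of radius `C N² y T`), `|main term| ≤ dl Λ T^(4d) C y^A`; both are `≤ C (N q y)^A T^(4d) ≤ C (N q y)^A (N³ q) T^(4d) / T`.
-/

set_option autoImplicit false

open scoped NumberField Classical
open NumberField MeasureTheory H38.ML H77.MF H97.SXM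

noncomputable section

namespace H12.SQM

variable (K : Type) [Field K] [NumberField K]

variable {K} in
private theorem mem_OO {m : ℕ} (x : Fin m → K) :
    x ∈ OO K m ↔ ∃ z : Fin m → 𝓞 K, x = fun i => (z i : K) := by
  constructor
  · intro h
    choose z hz using h
    exact ⟨z, funext fun i => (hz i).symm⟩
  · rintro ⟨z, rfl⟩ i
    exact ⟨z i, rfl⟩

variable {K} in
private theorem osmul {m : ℕ} (r : 𝓞 K) (x : Fin m → K) : r • x = fun i => (r : K) * x i := by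
  funext i
  rw [Pi.smul_apply, Algebra.smul_def]

variable {K} in
private theorem mem_nO {n m : ℕ} (x : Fin m → K) :
    x ∈ nO K n m ↔ ∃ z : Fin m → 𝓞 K, x = fun i => (n : K) * (z i : K) := by
  unfold nO
  rw [Submodule.ideal_span_singleton_smul, Submodule.mem_smul_pointwise_iff_exists]
  constructor
  · rintro ⟨y, hy, rfl⟩
    obtain ⟨z, rfl⟩ := (mem_OO y).1 hy
    refine ⟨z, ?_⟩
    rw [osmul]
    simp
  · rintro ⟨z, rfl⟩
    refine ⟨fun i => (z i : K), (mem_OO _).2 ⟨z, rfl⟩, ?_⟩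
    rw [osmul]
    simp

/-- the coordinates -/
private def cmap (m : ℕ) : (Fin m → 𝓞 K) →+ (Fin m → K) where
  toFun z i := (z i : K)
  map_zero' := by
    funext i
    simp
  map_add' z z' := by
    funext i
    simp

private theorem cmap_inj (m : ℕ) : Function.Injective (cmap K m) := by
  intro z z' h
  funext i
  exact RingOfIntegers.coe_injective (congrFun h i)

/-- multiplication by `n` on `𝓞^m` -/
private def mulN (m n : ℕ) : (Fin m → 𝓞 K) →ₗ[ℤ] (Fin m → 𝓞 K) := (n : ℤ) • LinearMap.id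

private theorem mulN_index (m n : ℕ) (hn : n ≠ 0) :
    (LinearMap.range (mulN K m n)).toAddSubgroup.index = n ^ (m * Module.finrank ℚ K) := by
  have hinj : Function.Injective (mulN K m n) := by
    intro z z' h
    have h1 : (n : ℤ) • z = (n : ℤ) • z' := h
    exact smul_right_injective _ (by exact_mod_cast hn : (n : ℤ) ≠ 0) h1
  have h1 := Submodule.natAbs_det_equiv (LinearMap.range (mulN K m n))
    (LinearEquiv.ofInjective (mulN K m n) hinj)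
  have h2 : (LinearMap.range (mulN K m n)).subtype ∘ₗ AddMonoidHom.toIntLinearMap
      ((LinearEquiv.ofInjective (mulN K m n) hinj : (Fin m → 𝓞 K) ≃ₗ[ℤ] _) :
        (Fin m → 𝓞 K) →+ _) = mulN K m n := by
    ext z
    rfl
  rw [h2] at h1
  have h3 : LinearMap.det (mulN K m n) = (n : ℤ) ^ (m * Module.finrank ℚ K) := by
    unfold mulN
    rw [LinearMap.det_smul, LinearMap.det_id, mul_one, Module.finrank_pi_fintype]
    simp [RingOfIntegers.rank]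
  rw [h3, Int.natAbs_pow, Int.natAbs_natCast] at h1
  exact h1.symm

private theorem idx_nO (m n : ℕ) (hn : n ≠ 0) :
    (nO K n m).toAddSubgroup.relIndex (OO K m).toAddSubgroup = n ^ (m * Module.finrank ℚ K) := by
  have h1 : (nO K n m).toAddSubgroup =
      (LinearMap.range (mulN K m n)).toAddSubgroup.map (cmap K m) := by
    ext x
    rw [Submodule.mem_toAddSubgroup, mem_nO, AddSubgroup.mem_map]
    constructor
    · rintro ⟨z, rfl⟩
      refine ⟨(n : ℤ) • z, ⟨z, rfl⟩, ?_⟩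
      funext i
      simp [cmap]
    · rintro ⟨y, ⟨z, rfl⟩, rfl⟩
      refine ⟨z, ?_⟩
      funext i
      simp [cmap, mulN]
  have h2 : (OO K m).toAddSubgroup = (⊤ : AddSubgroup (Fin m → 𝓞 K)).map (cmap K m) := by
    ext x
    rw [Submodule.mem_toAddSubgroup, mem_OO, AddSubgroup.mem_map]
    constructor
    · rintro ⟨z, rfl⟩
      exact ⟨z, trivial, rfl⟩
    · rintro ⟨z, _, rfl⟩
      exact ⟨z, rfl⟩
  rw [h1, h2, AddSubgroup.relIndex_map_map_of_injective _ _ (cmap_inj K m),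
    AddSubgroup.relIndex_top_right, mulN_index K m n hn]
variable {K} in
private theorem nO_le {m n k : ℕ} : nO K (n * k) m ≤ nO K n m := by
  intro x hx
  rw [mem_nO] at hx ⊢
  obtain ⟨z, rfl⟩ := hx
  refine ⟨fun i => (k : 𝓞 K) * z i, ?_⟩
  funext i
  push_cast
  ring

variable {K} in
private theorem nO_le_OO {m n : ℕ} : nO K n m ≤ OO K m := by
  intro x hx
  rw [mem_nO] at hx
  rw [mem_OO]
  obtain ⟨z, rfl⟩ := hx
  refine ⟨fun i => (n : 𝓞 K) * z i, ?_⟩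
  funext i
  simp

variable {K} in
private theorem nO_le_VL {Λ : Submodule (𝓞 K) (Fin 2 → K)} (hL : Lt Λ) (h : OO K 2 ≤ Λ) :
    nO K (ix Λ ^ 3) 4 ≤ VL Λ := by
  intro x hx
  rw [mem_nO] at hx
  obtain ⟨z, rfl⟩ := hx
  have h1 := vl_lo hL h (fun i => (z i : K)) ((mem_OO _).2 ⟨z, rfl⟩)
  rw [osmul] at h1
  convert h1 using 1
  funext i
  simp

variable {K} in
private theorem idx_mul (m n k : ℕ) (hn : n ≠ 0) (hk : k ≠ 0) :
    (nO K (n * k) m).toAddSubgroup.relIndex (nO K n m).toAddSubgroup =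
      k ^ (m * Module.finrank ℚ K) := by
  have h1 := AddSubgroup.relIndex_mul_relIndex (nO K (n * k) m).toAddSubgroup
    (nO K n m).toAddSubgroup (OO K m).toAddSubgroup (nO_le (K := K)) (nO_le_OO (K := K))
  rw [idx_nO K m n hn, idx_nO K m (n * k) (Nat.mul_ne_zero hn hk), mul_pow, mul_comm] at h1
  exact Nat.eq_of_mul_eq_mul_left (by positivity) h1

variable {K} in
private theorem idx_vl {Λ : Submodule (𝓞 K) (Fin 2 → K)} (hL : Lt Λ) (h : OO K 2 ≤ Λ) :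
    (nO K (ix Λ ^ 3) 4).toAddSubgroup.relIndex (VL Λ).toAddSubgroup ≠ 0 ∧
    (nO K (ix Λ ^ 3) 4).toAddSubgroup.relIndex (VL Λ).toAddSubgroup ≤
      ix Λ ^ (5 * (4 * Module.finrank ℚ K)) := by
  have hN : ix Λ ≠ 0 := by have := ix_pos hL h; omega
  have hN0 : ((ix Λ : 𝓞 K) ^ 2) ≠ 0 := pow_ne_zero _ (by exact_mod_cast hN)
  have hNK : (ix Λ : K) ≠ 0 := by exact_mod_cast hN
  set φ : (Fin 4 → K) →+ (Fin 4 → K) :=
    DistribSMul.toAddMonoidHom (Fin 4 → K) ((ix Λ : 𝓞 K) ^ 2) with hφ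
  have hφa : ∀ x, φ x = fun i => (ix Λ : K) ^ 2 * x i := by
    intro x
    rw [hφ, DistribSMul.toAddMonoidHom_apply, osmul]
    simp
  have hinj : Function.Injective φ := by
    intro x y hxy
    rw [hφa, hφa] at hxy
    funext i
    exact mul_left_cancel₀ (pow_ne_zero 2 hNK) (congrFun hxy i)
  have hmap : (nO K (ix Λ ^ 3) 4).toAddSubgroup.map φ = (nO K (ix Λ ^ 5) 4).toAddSubgroup := by
    ext x
    rw [AddSubgroup.mem_map, Submodule.mem_toAddSubgroup, mem_nO]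
    constructor
    · rintro ⟨y, hy, rfl⟩
      rw [Submodule.mem_toAddSubgroup, mem_nO] at hy
      obtain ⟨z, rfl⟩ := hy
      refine ⟨z, ?_⟩
      rw [hφa]
      funext i
      push_cast
      ring
    · rintro ⟨z, rfl⟩
      refine ⟨fun i => ((ix Λ ^ 3 : ℕ) : K) * (z i : K), ?_, ?_⟩
      · rw [Submodule.mem_toAddSubgroup, mem_nO]
        exact ⟨z, rfl⟩
      · rw [hφa]
        funext i
        push_cast
        ring
  have hle : (VL Λ).toAddSubgroup.map φ ≤ (OO K 4).toAddSubgroup := by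
    rintro x ⟨y, hy, rfl⟩
    exact vl_hi hL h y hy
  have h1 := idx_nO K 4 (ix Λ ^ 5) (pow_ne_zero _ hN)
  have h2 : (nO K (ix Λ ^ 3) 4).toAddSubgroup.relIndex (VL Λ).toAddSubgroup =
      (nO K (ix Λ ^ 5) 4).toAddSubgroup.relIndex ((VL Λ).toAddSubgroup.map φ) := by
    rw [← hmap, AddSubgroup.relIndex_map_map_of_injective _ _ hinj]
  have h3 : (nO K (ix Λ ^ 5) 4).toAddSubgroup.relIndex (OO K 4).toAddSubgroup ≠ 0 := by
    rw [h1]
    exact pow_ne_zero _ (pow_ne_zero _ hN)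
  rw [h2]
  constructor
  · intro h4
    exact h3 (AddSubgroup.relIndex_eq_zero_of_le_right hle h4)
  · refine (AddSubgroup.relIndex_le_of_le_right hle h3).trans ?_
    rw [h1, ← pow_mul]

theorem dl_bd : ∃ (C : ℝ) (A : ℕ), 1 ≤ C ∧ ∀ Λ : Submodule (𝓞 K) (Fin 2 → K), Lt Λ → OO K 2 ≤ Λ →
    0 < dl Λ ∧ dl Λ ≤ C * (ix Λ : ℝ) ^ A := by
  have hcv := cv_pos K 4
  refine ⟨max 1 (1 / cv K 4), 5 * (4 * Module.finrank ℚ K), le_max_left _ _, fun Λ hL h => ?_⟩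
  obtain ⟨h1, h2⟩ := idx_vl hL h
  have hN : 1 ≤ ix Λ := ix_pos hL h
  have hNR : (1 : ℝ) ≤ ix Λ := by exact_mod_cast hN
  have h1' : (0 : ℝ) < (nO K (ix Λ ^ 3) 4).toAddSubgroup.relIndex (VL Λ).toAddSubgroup := by
    exact_mod_cast Nat.pos_of_ne_zero h1
  have h2' : ((nO K (ix Λ ^ 3) 4).toAddSubgroup.relIndex (VL Λ).toAddSubgroup : ℝ) ≤
      (ix Λ : ℝ) ^ (5 * (4 * Module.finrank ℚ K)) := by exact_mod_cast h2
  have h3 : (1 : ℝ) ≤ ((ix Λ : ℝ) ^ 3) ^ (4 * Module.finrank ℚ K) :=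
    one_le_pow₀ (one_le_pow₀ hNR)
  unfold dl
  constructor
  · positivity
  · rw [div_le_iff₀ (by positivity)]
    calc ((nO K (ix Λ ^ 3) 4).toAddSubgroup.relIndex (VL Λ).toAddSubgroup : ℝ)
        ≤ (ix Λ : ℝ) ^ (5 * (4 * Module.finrank ℚ K)) := h2'
      _ = (1 / cv K 4) * (ix Λ : ℝ) ^ (5 * (4 * Module.finrank ℚ K)) * (1 * cv K 4) := by
          field_simp
      _ ≤ max 1 (1 / cv K 4) * (ix Λ : ℝ) ^ (5 * (4 * Module.finrank ℚ K)) *
          (((ix Λ : ℝ) ^ 3) ^ (4 * Module.finrank ℚ K) * cv K 4) := by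
          gcongr
          exact le_max_right _ _

variable {K} in
private theorem dl_eq {Λ : Submodule (𝓞 K) (Fin 2 → K)} (hL : Lt Λ) (h : OO K 2 ≤ Λ) (q : ℕ)
    (hq : q ≠ 0) : (nO K (ix Λ ^ 3 * q) 4).toAddSubgroup.relIndex (VL Λ).toAddSubgroup ≠ 0 ∧
    ((nO K (ix Λ ^ 3 * q) 4).toAddSubgroup.relIndex (VL Λ).toAddSubgroup : ℝ) =
      dl Λ * (((ix Λ ^ 3 * q : ℕ) : ℝ) ^ (4 * Module.finrank ℚ K) * cv K 4) := by
  have hcv := (cv_pos K 4).ne'
  have hN : ix Λ ≠ 0 := by have := ix_pos hL h; omega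
  have hNR : (ix Λ : ℝ) ≠ 0 := by exact_mod_cast hN
  have h1 := AddSubgroup.relIndex_mul_relIndex (nO K (ix Λ ^ 3 * q) 4).toAddSubgroup
    (nO K (ix Λ ^ 3) 4).toAddSubgroup (VL Λ).toAddSubgroup (nO_le (K := K)) (nO_le_VL hL h)
  rw [idx_mul 4 (ix Λ ^ 3) q (pow_ne_zero _ hN) hq] at h1
  constructor
  · rw [← h1]
    exact Nat.mul_ne_zero (pow_ne_zero _ hq) (idx_vl hL h).1
  · rw [← h1]
    unfold dl
    push_cast
    rw [mul_pow]
    field_simp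
private theorem sum_fib {A B : Type} [AddCommGroup A] [AddCommGroup B] [Fintype A] [Fintype B]
    (π : A →+ B) (hπ : Function.Surjective π) (F : B → ℝ) :
    (∑ a, F (π a)) * Fintype.card B = Fintype.card A * ∑ b, F b := by
  have hk : ∀ b : B, (Finset.univ.filter (fun a => π a = b)).card =
      (Finset.univ.filter (fun a => π a = 0)).card := fun b =>
    AddMonoidHom.card_fiber_eq_of_mem_range π (hπ b) (hπ 0)
  set k := (Finset.univ.filter (fun a => π a = 0)).card with hkdef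
  have h1 : ∑ a, F (π a) = k * ∑ b, F b := by
    rw [← Finset.sum_fiberwise Finset.univ π (fun a => F (π a)), Finset.mul_sum]
    refine Finset.sum_congr rfl fun b _ => ?_
    rw [Finset.sum_congr rfl (g := fun _ => F b) fun a ha => by rw [(Finset.mem_filter.1 ha).2],
      Finset.sum_const, hk b, nsmul_eq_mul]
  have h2 : Fintype.card A = k * Fintype.card B := by
    have h3 := Finset.sum_fiberwise Finset.univ π (fun _ => 1)
    simp only [Finset.sum_const, smul_eq_mul, mul_one, hk] at h3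
    rw [Finset.card_univ, Finset.card_univ, mul_comm] at h3
    exact h3.symm
  rw [h1, h2]
  push_cast
  ring

variable {K} in
private theorem per_out {m : ℕ} {V : Submodule (𝓞 K) (Fin m → K)} {J : Ideal (𝓞 K)}
    {h : (Fin m → K) → ℝ} (hper : Per V J h) (v w : V)
    (hvw : (v : Fin m → K) - w ∈ J • V) : h v = h w := by
  have h1 := hper w w.2 _ hvw
  rw [← h1]
  congr 1
  abel

variable {K} in
private theorem mem_JV {m : ℕ} (V : Submodule (𝓞 K) (Fin m → K)) (J : Ideal (𝓞 K)) (v : V) :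
    v ∈ (J • ⊤ : Submodule (𝓞 K) V) ↔ (v : Fin m → K) ∈ J • V := by
  have h1 : (J • ⊤ : Submodule (𝓞 K) V).map V.subtype = J • V := by
    rw [Submodule.map_smul'', Submodule.map_top, Submodule.range_subtype]
  rw [← h1]
  constructor
  · intro hv
    exact ⟨v, hv, rfl⟩
  · rintro ⟨w, hw, hwv⟩
    have h2 : w = v := Subtype.ext hwv
    rwa [← h2]

variable {K} in
private theorem sum_mean {m : ℕ} (V W : Submodule (𝓞 K) (Fin m → K)) (J : Ideal (𝓞 K))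
    (hWJ : W ≤ J • V) (h : (Fin m → K) → ℝ) (hper : Per V J h)
    [Fintype (V ⧸ W.comap V.subtype)] :
    ∑ c : V ⧸ W.comap V.subtype, h ((Quotient.out c : V) : Fin m → K) =
      Fintype.card (V ⧸ W.comap V.subtype) * mean V J h := by
  have hle : W.comap V.subtype ≤ (J • ⊤ : Submodule (𝓞 K) V) := fun v hv =>
    (mem_JV V J v).2 (hWJ hv)
  set π : (V ⧸ W.comap V.subtype) →ₗ[𝓞 K] (V ⧸ (J • ⊤ : Submodule (𝓞 K) V)) :=
    Submodule.factor hle with hπ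
  have hsurj : Function.Surjective π := Submodule.factor_surjective hle
  haveI : Finite (V ⧸ (J • ⊤ : Submodule (𝓞 K) V)) := Finite.of_surjective π hsurj
  haveI : Fintype (V ⧸ (J • ⊤ : Submodule (𝓞 K) V)) := Fintype.ofFinite _
  have h1 := sum_fib π.toAddMonoidHom hsurj
    (fun x : V ⧸ (J • ⊤ : Submodule (𝓞 K) V) => h ((Quotient.out x : V) : Fin m → K))
  have h2 : ∀ c : V ⧸ W.comap V.subtype, h ((Quotient.out c : V) : Fin m → K) =
      h ((Quotient.out (π.toAddMonoidHom c) : V) : Fin m → K) := by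
    intro c
    refine per_out hper _ _ ?_
    rw [← Submodule.coe_sub, ← mem_JV, ← Submodule.Quotient.eq]
    have h3 : (Submodule.Quotient.mk (Quotient.out c) : V ⧸ W.comap V.subtype) = c :=
      Quotient.out_eq c
    have h4 : (Submodule.Quotient.mk (Quotient.out (π c)) :
        V ⧸ (J • ⊤ : Submodule (𝓞 K) V)) = π c := Quotient.out_eq _
    change (Submodule.Quotient.mk (Quotient.out c) : V ⧸ (J • ⊤ : Submodule (𝓞 K) V)) =
      Submodule.Quotient.mk (Quotient.out (π c))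
    rw [h4]
    conv_rhs => rw [← h3]
    rw [hπ]
    exact (Submodule.factor_mk hle _).symm
  rw [Finset.sum_congr rfl fun c _ => h2 c]
  unfold mean
  rw [finsum_eq_sum_of_fintype, Nat.card_eq_fintype_card]
  have h5 : (Fintype.card (V ⧸ (J • ⊤ : Submodule (𝓞 K) V)) : ℝ) ≠ 0 := by
    have : 0 < Fintype.card (V ⧸ (J • ⊤ : Submodule (𝓞 K) V)) := Fintype.card_pos
    exact_mod_cast this.ne'
  rw [mul_div_assoc', eq_div_iff h5]
  exact h1

variable {K} in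
private theorem mean_le {m : ℕ} (V : Submodule (𝓞 K) (Fin m → K)) (J : Ideal (𝓞 K))
    (h : (Fin m → K) → ℝ) (hh : ∀ f, |h f| ≤ 1) : |mean V J h| ≤ 1 := by
  unfold mean
  by_cases hfin : Finite (V ⧸ (J • ⊤ : Submodule (𝓞 K) V))
  · haveI : Fintype (V ⧸ (J • ⊤ : Submodule (𝓞 K) V)) := Fintype.ofFinite _
    rw [finsum_eq_sum_of_fintype, Nat.card_eq_fintype_card, abs_div, Nat.abs_cast]
    have h5 : (0 : ℝ) < (Fintype.card (V ⧸ (J • ⊤ : Submodule (𝓞 K) V)) : ℝ) := by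
      exact_mod_cast Fintype.card_pos
    rw [div_le_one h5]
    refine (Finset.abs_sum_le_sum_abs _ _).trans ?_
    refine (Finset.sum_le_sum fun c _ => hh _).trans ?_
    simp
  · haveI : Infinite (V ⧸ (J • ⊤ : Submodule (𝓞 K) V)) := not_finite_iff_infinite.1 hfin
    rw [Nat.card_eq_zero_of_infinite]
    simp
variable {K} in
private theorem emb_add_smul {m : ℕ} (v : Fin m → K) (n : ℕ) (z : Fin m → 𝓞 K) :
    emb (v + fun i => (n : K) * (z i : K)) = emb v + (n : ℝ) • emb (fun i => (z i : K)) := by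
  funext w i
  simp [emb]

variable {K} in
private theorem part_sum (V : Submodule (𝓞 K) (Fin 4 → K)) (n : ℕ) (hn : n ≠ 0) (J : Ideal (𝓞 K))
    (hWV : nO K n 4 ≤ V) (hWJ : nO K n 4 ≤ J • V) (h : (Fin 4 → K) → ℝ) (hper : Per V J h)
    [Fintype (V ⧸ (nO K n 4).comap V.subtype)] (D : Set (En K 4))
    (hfin : ∀ v : En K 4, Rl v →
      {z : Fin 4 → 𝓞 K | v + (n : ℝ) • emb (fun i => (z i : K)) ∈ D}.Finite) :
    {f | f ∈ V ∧ emb f ∈ D}.Finite ∧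
    ∑ᶠ f ∈ {f | f ∈ V ∧ emb f ∈ D}, h f = ∑ c : V ⧸ (nO K n 4).comap V.subtype,
      h ((Quotient.out c : V) : Fin 4 → K) *
        ({z : Fin 4 → 𝓞 K | emb ((Quotient.out c : V) : Fin 4 → K) +
          (n : ℝ) • emb (fun i => (z i : K)) ∈ D}.ncard : ℝ) := by
  have hnK : (n : K) ≠ 0 := by exact_mod_cast hn
  set G : (Σ _ : V ⧸ (nO K n 4).comap V.subtype, (Fin 4 → 𝓞 K)) → (Fin 4 → K) :=
    fun p => ((Quotient.out p.1 : V) : Fin 4 → K) + fun i => (n : K) * (p.2 i : K) with hG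
  have hmem : ∀ z : Fin 4 → 𝓞 K, (fun i => (n : K) * (z i : K)) ∈ nO K n 4 := fun z =>
    (mem_nO _).2 ⟨z, rfl⟩
  have hmk : ∀ (c : V ⧸ (nO K n 4).comap V.subtype),
      (Submodule.Quotient.mk (Quotient.out c) : V ⧸ (nO K n 4).comap V.subtype) = c := fun c =>
    Quotient.out_eq c
  have hinj : Function.Injective G := by
    rintro ⟨c, z⟩ ⟨c', z'⟩ hp
    have hp' : ((Quotient.out c : V) : Fin 4 → K) + (fun i => (n : K) * (z i : K)) =
        ((Quotient.out c' : V) : Fin 4 → K) + fun i => (n : K) * (z' i : K) := hp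
    have hc : c = c' := by
      rw [← hmk c, ← hmk c', Submodule.Quotient.eq, Submodule.mem_comap, Submodule.subtype_apply,
        Submodule.coe_sub]
      have h1 : ((Quotient.out c : V) : Fin 4 → K) - (Quotient.out c' : V) =
          (fun i => (n : K) * (z' i : K)) - fun i => (n : K) * (z i : K) := by
        rw [sub_eq_sub_iff_add_eq_add, hp', add_comm]
      rw [h1]
      exact (nO K n 4).sub_mem (hmem z') (hmem z)
    subst hc
    have hz : z = z' := by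
      funext i
      have h1 := congrFun (add_left_cancel hp') i
      exact RingOfIntegers.coe_injective (mul_left_cancel₀ hnK h1)
    rw [hz]
  set Z : (V ⧸ (nO K n 4).comap V.subtype) → Finset (Fin 4 → 𝓞 K) := fun c =>
    (hfin (emb ((Quotient.out c : V) : Fin 4 → K)) (rl_emb _)).toFinset with hZ
  have hS : {f | f ∈ V ∧ emb f ∈ D} = ((Finset.univ.sigma Z).image G : Set (Fin 4 → K)) := by
    ext f
    rw [Finset.mem_coe, Finset.mem_image]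
    constructor
    · rintro ⟨hf, hfD⟩
      set c : V ⧸ (nO K n 4).comap V.subtype := Submodule.Quotient.mk ⟨f, hf⟩ with hc
      have h1 : (⟨f, hf⟩ : V) - Quotient.out c ∈ (nO K n 4).comap V.subtype := by
        rw [← Submodule.Quotient.eq, hmk c]
      rw [Submodule.mem_comap, Submodule.subtype_apply, Submodule.coe_sub, mem_nO] at h1
      obtain ⟨z, hz⟩ := h1
      have h2 : G ⟨c, z⟩ = f := by
        rw [hG]
        simp only
        rw [← hz]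
        simp
      refine ⟨⟨c, z⟩, ?_, h2⟩
      rw [Finset.mem_sigma]
      refine ⟨Finset.mem_univ _, ?_⟩
      rw [hZ]
      simp only [Set.Finite.mem_toFinset]
      change emb ((Quotient.out c : V) : Fin 4 → K) + (n : ℝ) • emb (fun i => (z i : K)) ∈ D
      rw [← emb_add_smul]
      rwa [← h2] at hfD
    · rintro ⟨⟨c, z⟩, hp, rfl⟩
      rw [Finset.mem_sigma, hZ] at hp
      simp only [Set.Finite.mem_toFinset] at hp
      have h1 : emb ((Quotient.out c : V) : Fin 4 → K) + (n : ℝ) • emb (fun i => (z i : K)) ∈ D :=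
        hp.2
      rw [← emb_add_smul] at h1
      exact ⟨V.add_mem (Quotient.out c).2 (hWV (hmem z)), h1⟩
  constructor
  · rw [hS]
    exact Finset.finite_toSet _
  · rw [hS, finsum_mem_coe_finset, Finset.sum_image fun x _ y _ hxy => hinj hxy, Finset.sum_sigma]
    refine Finset.sum_congr rfl fun c _ => ?_
    have h1 : ∀ z ∈ Z c, h (G ⟨c, z⟩) = h ((Quotient.out c : V) : Fin 4 → K) := fun z _ =>
      hper _ (Quotient.out c).2 _ (hWJ (hmem z))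
    rw [Finset.sum_congr rfl h1, Finset.sum_const, nsmul_eq_mul, mul_comm, hZ]
    rw [Set.ncard_eq_toFinset_card _ (hfin (emb ((Quotient.out c : V) : Fin 4 → K)) (rl_emb _))]

variable {K} in
private theorem card_eq (V : Submodule (𝓞 K) (Fin 4 → K)) (W : Submodule (𝓞 K) (Fin 4 → K)) :
    Nat.card (V ⧸ W.comap V.subtype) = W.toAddSubgroup.relIndex V.toAddSubgroup := rfl
variable {K} in
private theorem nO_le_JV {Λ : Submodule (𝓞 K) (Fin 2 → K)} (hL : Lt Λ) (h : OO K 2 ≤ Λ)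
    (J : Ideal (𝓞 K)) : nO K (ix Λ ^ 3 * Ideal.absNorm J) 4 ≤ J • VL Λ := by
  intro x hx
  rw [mem_nO] at hx
  obtain ⟨z, rfl⟩ := hx
  have h1 : (fun i => ((ix Λ ^ 3 : ℕ) : K) * (z i : K)) ∈ VL Λ :=
    nO_le_VL hL h ((mem_nO _).2 ⟨z, rfl⟩)
  have h2 := Submodule.smul_mem_smul (Ideal.absNorm_mem J) h1
  rw [osmul] at h2
  convert h2 using 1
  funext i
  push_cast
  ring

private theorem per_num (N q y : ℝ) (hN : 1 ≤ N) (hq : 1 ≤ q) (hy : 1 ≤ y) (A₁ A₂ : ℕ) :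
    N ^ A₂ * y ^ A₁ * (N ^ 3 * q) ≤ (N * q * y) ^ (A₁ + A₂ + 3) := by
  have hm : 1 ≤ N * q * y := one_le_mul_of_one_le_of_one_le
    (one_le_mul_of_one_le_of_one_le hN hq) hy
  have h1 : N ≤ N * q * y := by
    calc N = N * 1 * 1 := by ring
      _ ≤ N * q * y := by gcongr
  have h2 : y ≤ N * q * y := by
    calc y = 1 * 1 * y := by ring
      _ ≤ N * q * y := by gcongr
  have h3 : N ^ 3 * q ≤ (N * q * y) ^ 3 := by
    calc N ^ 3 * q = N ^ 3 * q ^ 1 * 1 ^ 3 := by ring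
      _ ≤ N ^ 3 * q ^ 3 * y ^ 3 := by
          gcongr
          norm_num
      _ = (N * q * y) ^ 3 := by ring
  calc N ^ A₂ * y ^ A₁ * (N ^ 3 * q) ≤ (N * q * y) ^ A₂ * (N * q * y) ^ A₁ * (N * q * y) ^ 3 := by
        gcongr
    _ = (N * q * y) ^ (A₁ + A₂ + 3) := by
        rw [← pow_add, ← pow_add]
        congr 1
        ring

private theorem per_case1 (sg : InfinitePlace K → Bool) : ∃ (C : ℝ) (A : ℕ), 1 ≤ C ∧
    ∀ (Λ : Submodule (𝓞 K) (Fin 2 → K)) (J : Ideal (𝓞 K)) (h : (Fin 4 → K) → ℝ) (T R₁ R₂ : ℝ),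
    Lt Λ → OO K 2 ≤ Λ → J ≠ ⊥ → Per (VL Λ) J h → (∀ f, |h f| ≤ 1) →
    ((ix Λ ^ 3 * Ideal.absNorm J : ℕ) : ℝ) ≤ T → 0 < R₁ → R₁ ≤ R₂ →
    {f | f ∈ VL Λ ∧ emb f ∈ Dg K sg T R₁ R₂}.Finite ∧
    |(∑ᶠ f ∈ {f | f ∈ VL Λ ∧ emb f ∈ Dg K sg T R₁ R₂}, h f) - dl Λ * mean (VL Λ) J h *
        (T ^ (4 * Module.finrank ℚ K) * vD K sg (R₁ / T ^ (4 * Module.finrank ℚ K))
          (R₂ / T ^ (4 * Module.finrank ℚ K)))| ≤
      C * ((ix Λ : ℝ) * Ideal.absNorm J * (1 + T ^ (4 * Module.finrank ℚ K) / R₁)) ^ A *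
        (T ^ (4 * Module.finrank ℚ K) / T) := by
  obtain ⟨C₁, A₁, hC₁, hcnt⟩ := form_cnt K sg
  obtain ⟨C₂, A₂, hC₂, hdl⟩ := dl_bd K
  refine ⟨C₁ * C₂, A₁ + A₂ + 3, one_le_mul_of_one_le_of_one_le hC₁ hC₂,
    fun Λ J h T R₁ R₂ hL hO hJ hper hh hnT hR₁ hR₂ => ?_⟩
  obtain ⟨q, hqdef⟩ : ∃ q, q = Ideal.absNorm J := ⟨_, rfl⟩
  have hq0 : q ≠ 0 := by
    rw [hqdef, Ne, Ideal.absNorm_eq_zero_iff]
    exact hJ
  have hN : 1 ≤ ix Λ := ix_pos hL hO
  have hNR : (1 : ℝ) ≤ ix Λ := by exact_mod_cast hN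
  have hqR : (1 : ℝ) ≤ q := by exact_mod_cast Nat.pos_of_ne_zero hq0
  have hJV := nO_le_JV hL hO J
  rw [← hqdef] at hnT hJV ⊢
  set n : ℕ := ix Λ ^ 3 * q with hn
  have hn0 : n ≠ 0 := Nat.mul_ne_zero (pow_ne_zero _ (by omega)) hq0
  have hn1 : 1 ≤ n := Nat.pos_of_ne_zero hn0
  have hnR : (0 : ℝ) < n := by exact_mod_cast hn1
  have hT : 1 ≤ T := le_trans (by exact_mod_cast hn1) hnT
  obtain ⟨hidx, hdleq⟩ := dl_eq hL hO q hq0
  rw [← hn] at hidx hdleq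
  have hVV : nO K n 4 ≤ VL Λ := (nO_le (K := K)).trans (nO_le_VL hL hO)
  haveI : Finite (VL Λ ⧸ (nO K n 4).comap (VL Λ).subtype) :=
    Nat.finite_of_card_ne_zero (by rw [card_eq]; exact hidx)
  haveI : Fintype (VL Λ ⧸ (nO K n 4).comap (VL Λ).subtype) := Fintype.ofFinite _
  have hfin : ∀ v : En K 4, Rl v →
      {z : Fin 4 → 𝓞 K | v + (n : ℝ) • emb (fun i => (z i : K)) ∈ Dg K sg T R₁ R₂}.Finite :=
    fun v hv => (hcnt n T R₁ R₂ v hv hn1 hnT hR₁ hR₂).1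
  obtain ⟨hf, hsum⟩ := part_sum (VL Λ) n hn0 J hVV hJV h hper (Dg K sg T R₁ R₂) hfin
  refine ⟨hf, ?_⟩
  have hmean := sum_mean (VL Λ) (nO K n 4) J hJV h hper
  have hcard : (Fintype.card (VL Λ ⧸ (nO K n 4).comap (VL Λ).subtype) : ℝ) =
      dl Λ * ((n : ℝ) ^ (4 * Module.finrank ℚ K) * cv K 4) := by
    rw [← hdleq, ← card_eq, Nat.card_eq_fintype_card]
  obtain ⟨hdl0, hdl1⟩ := hdl Λ hL hO
  set B : ℝ := (n : ℝ) ^ (4 * Module.finrank ℚ K) * cv K 4 with hB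
  have hB0 : 0 < B := mul_pos (by positivity) (cv_pos K 4)
  set X : ℝ := T ^ (4 * Module.finrank ℚ K) with hX
  have hX0 : 0 < X := by positivity
  set M : ℝ := X * vD K sg (R₁ / X) (R₂ / X) with hM
  set y : ℝ := 1 + X / R₁ with hy
  have hy1 : 1 ≤ y := by
    have : 0 ≤ X / R₁ := by positivity
    linarith
  rw [hsum]
  set Nc : (VL Λ ⧸ (nO K n 4).comap (VL Λ).subtype) → ℝ := fun c =>
    ({z : Fin 4 → 𝓞 K | emb ((Quotient.out c : VL Λ) : Fin 4 → K) +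
          (n : ℝ) • emb (fun i => (z i : K)) ∈ Dg K sg T R₁ R₂}.ncard : ℝ) with hNc
  have hNb : ∀ c, |Nc c * B - M| ≤ C₁ * y ^ A₁ * (n / T) * X := fun c =>
    (hcnt n T R₁ R₂ (emb ((Quotient.out c : VL Λ) : Fin 4 → K)) (rl_emb _) hn1 hnT hR₁ hR₂).2
  set H : (VL Λ ⧸ (nO K n 4).comap (VL Λ).subtype) → ℝ := fun c =>
    h ((Quotient.out c : VL Λ) : Fin 4 → K) with hH
  have hH1 : ∀ c, |H c| ≤ 1 := fun c => hh _
  have hmean' : ∑ c, H c = dl Λ * B * mean (VL Λ) J h := by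
    rw [← hcard]
    exact hmean
  have hid : ∑ c, H c * Nc c - dl Λ * mean (VL Λ) J h * M =
      (∑ c, H c * (Nc c * B - M)) / B := by
    rw [eq_div_iff hB0.ne', sub_mul, Finset.sum_mul]
    have h1 : ∑ c, H c * (Nc c * B - M) = ∑ c, H c * Nc c * B - (∑ c, H c) * M := by
      rw [Finset.sum_mul, ← Finset.sum_sub_distrib]
      refine Finset.sum_congr rfl fun c _ => ?_
      ring
    rw [h1, hmean']
    ring
  change |∑ c, H c * Nc c - dl Λ * mean (VL Λ) J h * M| ≤ _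
  rw [hid, abs_div, abs_of_pos hB0, div_le_iff₀ hB0]
  have h2 : |∑ c, H c * (Nc c * B - M)| ≤ dl Λ * B * (C₁ * y ^ A₁ * (n / T) * X) := by
    refine (Finset.abs_sum_le_sum_abs _ _).trans ?_
    refine (Finset.sum_le_sum (g := fun _ => C₁ * y ^ A₁ * (n / T) * X) fun c _ => ?_).trans ?_
    · rw [abs_mul]
      calc |H c| * |Nc c * B - M| ≤ 1 * (C₁ * y ^ A₁ * (n / T) * X) :=
            mul_le_mul (hH1 c) (hNb c) (abs_nonneg _) zero_le_one
        _ = _ := one_mul _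
    · rw [Finset.sum_const, Finset.card_univ, nsmul_eq_mul, hcard]
  refine h2.trans ?_
  have h5 := per_num (ix Λ : ℝ) q y hNR hqR hy1 A₁ A₂
  have h6 : dl Λ * (y ^ A₁ * n) ≤ C₂ * ((ix Λ : ℝ) * q * y) ^ (A₁ + A₂ + 3) := by
    have h7 : (n : ℝ) = (ix Λ : ℝ) ^ 3 * q := by
      rw [hn]
      push_cast
      ring
    calc dl Λ * (y ^ A₁ * n) ≤ C₂ * (ix Λ : ℝ) ^ A₂ * (y ^ A₁ * n) := by gcongr
      _ = C₂ * ((ix Λ : ℝ) ^ A₂ * y ^ A₁ * ((ix Λ : ℝ) ^ 3 * q)) := by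
          rw [h7]
          ring
      _ ≤ _ := by gcongr
  calc dl Λ * B * (C₁ * y ^ A₁ * (n / T) * X) = (C₁ * (X / T) * B) * (dl Λ * (y ^ A₁ * n)) := by
        field_simp
    _ ≤ (C₁ * (X / T) * B) * (C₂ * ((ix Λ : ℝ) * q * y) ^ (A₁ + A₂ + 3)) := by gcongr
    _ = _ := by ring

private theorem dg_mono {sg : InfinitePlace K → Bool} {T T' R₁ R₂ : ℝ} (hT : 0 ≤ T) (h : T ≤ T') :
    Dg K sg T R₁ R₂ ⊆ Dg K sg T' R₁ R₂ := by
  rintro x ⟨h1, h0, h2, h3⟩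
  refine ⟨fun w => ?_, h0, h2, h3⟩
  obtain ⟨a1, a2, a3, a4⟩ := h1 w
  have e2 : T ^ 2 ≤ T' ^ 2 := pow_le_pow_left₀ hT h 2
  have e6 : T ^ 6 ≤ T' ^ 6 := pow_le_pow_left₀ hT h 6
  exact ⟨a1.trans e2, a2.trans e2, a3.trans e6, a4.trans e6⟩

private theorem fin_bd {S S' : Set (Fin 4 → K)} (hS : S'.Finite) (hSS : S ⊆ S')
    (h : (Fin 4 → K) → ℝ) (hh : ∀ f, |h f| ≤ 1) :
    |∑ᶠ f ∈ S, h f| ≤ ∑ᶠ f ∈ S', (1 : ℝ) := by
  have hS0 : S.Finite := hS.subset hSS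
  rw [finsum_mem_eq_finite_toFinset_sum _ hS0, finsum_mem_eq_finite_toFinset_sum _ hS]
  refine (Finset.abs_sum_le_sum_abs _ _).trans ?_
  refine (Finset.sum_le_sum fun f _ => hh f).trans ?_
  refine Finset.sum_le_sum_of_subset_of_nonneg ?_ fun _ _ _ => zero_le_one
  exact Set.Finite.toFinset_subset_toFinset.2 hSS

theorem per_cnt (sg : InfinitePlace K → Bool) : ∃ (C : ℝ) (A : ℕ), 1 ≤ C ∧
    ∀ (Λ : Submodule (𝓞 K) (Fin 2 → K)) (J : Ideal (𝓞 K)) (h : (Fin 4 → K) → ℝ) (T R₁ R₂ : ℝ),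
    Lt Λ → OO K 2 ≤ Λ → J ≠ ⊥ → Per (VL Λ) J h → (∀ f, |h f| ≤ 1) → 1 ≤ T → 0 < R₁ → R₁ ≤ R₂ →
    {f | f ∈ VL Λ ∧ emb f ∈ Dg K sg T R₁ R₂}.Finite ∧
    |(∑ᶠ f ∈ {f | f ∈ VL Λ ∧ emb f ∈ Dg K sg T R₁ R₂}, h f) - dl Λ * mean (VL Λ) J h *
        (T ^ (4 * Module.finrank ℚ K) * vD K sg (R₁ / T ^ (4 * Module.finrank ℚ K))
          (R₂ / T ^ (4 * Module.finrank ℚ K)))| ≤
      C * ((ix Λ : ℝ) * Ideal.absNorm J * (1 + T ^ (4 * Module.finrank ℚ K) / R₁)) ^ A *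
        (T ^ (4 * Module.finrank ℚ K) / T) := by
  obtain ⟨C₁, A₁, hC₁, hcase⟩ := per_case1 K sg
  obtain ⟨C₂, A₂, hC₂, hdl⟩ := dl_bd K
  obtain ⟨C₃, A₃, hC₃, hvd⟩ := vd_bd K sg
  obtain ⟨D, hD⟩ : ∃ D, D = 4 * Module.finrank ℚ K := ⟨_, rfl⟩
  rw [← hD] at hcase ⊢
  have hD1 : 1 ≤ D := by
    have : 0 < Module.finrank ℚ K := Module.finrank_pos
    omega
  obtain ⟨e1, he1⟩ : ∃ e1, e1 = A₂ + 3 * D + (3 * D + 1) * A₃ := ⟨_, rfl⟩
  obtain ⟨e2, he2⟩ : ∃ e2, e2 = (3 * D + 2) * A₁ + 3 * D := ⟨_, rfl⟩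
  obtain ⟨e3, he3⟩ : ∃ e3, e3 = A₂ + 3 + A₃ := ⟨_, rfl⟩
  have hC₂₃ : 1 ≤ C₂ * C₃ := one_le_mul_of_one_le_of_one_le hC₂ hC₃
  refine ⟨C₁ + 2 * (C₂ * C₃), e1 + e2 + e3 + A₁, by linarith,
    fun Λ J h T R₁ R₂ hL hO hJ hper hh hT hR₁ hR₂ => ?_⟩
  obtain ⟨q, hqdef⟩ : ∃ q, q = Ideal.absNorm J := ⟨_, rfl⟩
  have hq0 : q ≠ 0 := by
    rw [hqdef, Ne, Ideal.absNorm_eq_zero_iff]
    exact hJ
  have hN : 1 ≤ ix Λ := ix_pos hL hO
  have hNR : (1 : ℝ) ≤ ix Λ := by exact_mod_cast hN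
  have hqR : (1 : ℝ) ≤ q := by exact_mod_cast Nat.pos_of_ne_zero hq0
  have hX1 : 1 ≤ T ^ D := one_le_pow₀ hT
  have hXT : 1 ≤ T ^ D / T := by
    rw [le_div_iff₀ (by linarith), one_mul]
    exact le_self_pow₀ hT (by omega)
  have hy0 : 0 ≤ T ^ D / R₁ := by positivity
  have hy1 : 1 ≤ 1 + T ^ D / R₁ := by linarith
  have hm : 1 ≤ (ix Λ : ℝ) * q * (1 + T ^ D / R₁) := one_le_mul_of_one_le_of_one_le
    (one_le_mul_of_one_le_of_one_le hNR hqR) hy1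
  obtain ⟨m, hmdef⟩ : ∃ m : ℝ, m = (ix Λ : ℝ) * q * (1 + T ^ D / R₁) := ⟨_, rfl⟩
  rw [← hmdef] at hm
  have hm0 : 0 < m := by linarith
  by_cases hnT : ((ix Λ ^ 3 * Ideal.absNorm J : ℕ) : ℝ) ≤ T
  · obtain ⟨h1, h2⟩ := hcase Λ J h T R₁ R₂ hL hO hJ hper hh hnT hR₁ hR₂
    refine ⟨h1, h2.trans ?_⟩
    rw [← hqdef, ← hmdef]
    have h3 : m ^ A₁ ≤ m ^ (e1 + e2 + e3 + A₁) := pow_le_pow_right₀ hm (by omega)
    have h4 : C₁ ≤ C₁ + 2 * (C₂ * C₃) := by linarith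
    gcongr
  · push Not at hnT
    rw [← hqdef] at hnT
    obtain ⟨n, hn⟩ : ∃ n : ℕ, n = ix Λ ^ 3 * q := ⟨_, rfl⟩
    rw [← hn] at hnT
    have hn0 : n ≠ 0 := by
      rw [hn]
      exact Nat.mul_ne_zero (pow_ne_zero _ (by omega)) hq0
    have hnR1 : (1 : ℝ) ≤ n := by exact_mod_cast Nat.pos_of_ne_zero hn0
    have hone : Per (VL Λ) J (fun _ => (1 : ℝ)) := fun f _ g _ => rfl
    obtain ⟨h1, h2⟩ := hcase Λ J (fun _ => (1 : ℝ)) (n : ℝ) R₁ R₂ hL hO hJ hone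
      (fun f => by simp) (by rw [← hqdef, ← hn]) hR₁ hR₂
    have hsub : {f | f ∈ VL Λ ∧ emb f ∈ Dg K sg T R₁ R₂} ⊆
        {f | f ∈ VL Λ ∧ emb f ∈ Dg K sg (n : ℝ) R₁ R₂} := fun f hf =>
      ⟨hf.1, dg_mono K (by linarith) hnT.le hf.2⟩
    refine ⟨h1.subset hsub, ?_⟩
    have h3 := fin_bd K h1 hsub h hh
    obtain ⟨hdl0, hdl1⟩ := hdl Λ hL hO
    -- sizes
    have hNm : (ix Λ : ℝ) ≤ m := by
      rw [hmdef]
      calc (ix Λ : ℝ) = ix Λ * 1 * 1 := by ring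
        _ ≤ ix Λ * q * (1 + T ^ D / R₁) := by gcongr
    have hNqm : (ix Λ : ℝ) * q ≤ m := by
      rw [hmdef]
      exact le_mul_of_one_le_right (by positivity) hy1
    have hym : 1 + T ^ D / R₁ ≤ m := by
      rw [hmdef]
      exact le_mul_of_one_le_left (by positivity) (one_le_mul_of_one_le_of_one_le hNR hqR)
    have hnm : (n : ℝ) ≤ m ^ 3 := by
      have h4 := per_num (ix Λ : ℝ) q (1 + T ^ D / R₁) hNR hqR hy1 0 0
      rw [← hmdef] at h4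
      rw [hn]
      push_cast
      simpa using h4
    have hnD : (n : ℝ) ^ D ≤ m ^ (3 * D) := by
      rw [pow_mul]
      exact pow_le_pow_left₀ (by positivity) hnm D
    have hnD1 : (1 : ℝ) ≤ (n : ℝ) ^ D := one_le_pow₀ hnR1
    have hy' : 1 + (n : ℝ) ^ D / R₁ ≤ m ^ (3 * D + 1) := by
      have h4 : 1 + (n : ℝ) ^ D / R₁ ≤ (n : ℝ) ^ D * (1 + T ^ D / R₁) := by
        have h5 : (n : ℝ) ^ D / R₁ ≤ (n : ℝ) ^ D * (T ^ D / R₁) := by
          rw [← mul_div_assoc]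
          gcongr
          exact le_mul_of_one_le_right (by positivity) hX1
        linarith
      refine h4.trans ?_
      rw [pow_succ]
      gcongr
    have hy'0 : 0 ≤ 1 + (n : ℝ) ^ D / R₁ := by positivity
    -- the main terms
    obtain ⟨v1, v2⟩ := hvd (R₁ / (n : ℝ) ^ D) (R₂ / (n : ℝ) ^ D) (by positivity)
    obtain ⟨w1, w2⟩ := hvd (R₁ / T ^ D) (R₂ / T ^ D) (by positivity)
    rw [one_div_div] at v2 w2
    have hdlm : dl Λ ≤ C₂ * m ^ A₂ := hdl1.trans (by gcongr)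
    have hmean1 := mean_le (VL Λ) J (fun _ => (1 : ℝ)) (fun f => by simp)
    have hmean2 := mean_le (VL Λ) J h hh
    have hmt1 : dl Λ * mean (VL Λ) J (fun _ => (1 : ℝ)) *
        ((n : ℝ) ^ D * vD K sg (R₁ / (n : ℝ) ^ D) (R₂ / (n : ℝ) ^ D)) ≤ C₂ * C₃ * m ^ e1 := by
      have h4 : vD K sg (R₁ / (n : ℝ) ^ D) (R₂ / (n : ℝ) ^ D) ≤ C₃ * m ^ ((3 * D + 1) * A₃) := by
        refine v2.trans ?_
        rw [pow_mul]
        gcongr
      calc dl Λ * mean (VL Λ) J (fun _ => (1 : ℝ)) *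
            ((n : ℝ) ^ D * vD K sg (R₁ / (n : ℝ) ^ D) (R₂ / (n : ℝ) ^ D))
          ≤ dl Λ * 1 * ((n : ℝ) ^ D * vD K sg (R₁ / (n : ℝ) ^ D) (R₂ / (n : ℝ) ^ D)) := by
            gcongr
            exact (abs_le.1 hmean1).2
        _ ≤ C₂ * m ^ A₂ * 1 * (m ^ (3 * D) * (C₃ * m ^ ((3 * D + 1) * A₃))) := by gcongr
        _ = C₂ * C₃ * m ^ e1 := by
            rw [he1, pow_add, pow_add]
            ring
    have hmt2 : |dl Λ * mean (VL Λ) J h * (T ^ D * vD K sg (R₁ / T ^ D) (R₂ / T ^ D))| ≤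
        C₂ * C₃ * m ^ e3 * (T ^ D / T) := by
      have h4 : vD K sg (R₁ / T ^ D) (R₂ / T ^ D) ≤ C₃ * m ^ A₃ := by
        refine w2.trans ?_
        gcongr
      have h5 : T ^ D ≤ m ^ 3 * (T ^ D / T) := by
        have h6 : T ^ D = T * (T ^ D / T) := by
          field_simp
        calc T ^ D = T * (T ^ D / T) := h6
          _ ≤ m ^ 3 * (T ^ D / T) := by
              gcongr
              exact hnT.le.trans hnm
      rw [abs_mul, abs_mul, abs_of_pos hdl0, abs_of_nonneg (mul_nonneg (by positivity) w1)]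
      calc dl Λ * |mean (VL Λ) J h| * (T ^ D * vD K sg (R₁ / T ^ D) (R₂ / T ^ D))
          ≤ C₂ * m ^ A₂ * 1 * (m ^ 3 * (T ^ D / T) * (C₃ * m ^ A₃)) := by gcongr
        _ = C₂ * C₃ * m ^ e3 * (T ^ D / T) := by
            rw [he3, pow_add, pow_add]
            ring
    have herr : C₁ * ((ix Λ : ℝ) * Ideal.absNorm J * (1 + (n : ℝ) ^ D / R₁)) ^ A₁ *
        ((n : ℝ) ^ D / n) ≤ C₁ * m ^ e2 := by
      rw [← hqdef]
      have h4 : (ix Λ : ℝ) * q * (1 + (n : ℝ) ^ D / R₁) ≤ m ^ (3 * D + 2) := by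
        calc (ix Λ : ℝ) * q * (1 + (n : ℝ) ^ D / R₁) ≤ m * m ^ (3 * D + 1) := by gcongr
          _ = m ^ (3 * D + 2) := by
              rw [← pow_succ']
      have h5 : (n : ℝ) ^ D / n ≤ m ^ (3 * D) := (div_le_self (by positivity) hnR1).trans hnD
      calc C₁ * ((ix Λ : ℝ) * q * (1 + (n : ℝ) ^ D / R₁)) ^ A₁ * ((n : ℝ) ^ D / n)
          ≤ C₁ * (m ^ (3 * D + 2)) ^ A₁ * m ^ (3 * D) := by gcongr
        _ = C₁ * m ^ e2 := by
            rw [he2, pow_add, pow_mul]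
            ring
    have h4 := (abs_le.1 h2).2
    have h5 : |∑ᶠ f ∈ {f | f ∈ VL Λ ∧ emb f ∈ Dg K sg T R₁ R₂}, h f| ≤
        C₂ * C₃ * m ^ e1 + C₁ * m ^ e2 := by
      linarith
    have h6 : |(∑ᶠ f ∈ {f | f ∈ VL Λ ∧ emb f ∈ Dg K sg T R₁ R₂}, h f) - dl Λ * mean (VL Λ) J h *
        (T ^ D * vD K sg (R₁ / T ^ D) (R₂ / T ^ D))| ≤
        C₂ * C₃ * m ^ e1 + C₁ * m ^ e2 + C₂ * C₃ * m ^ e3 * (T ^ D / T) := by
      refine (abs_sub _ _).trans ?_
      linarith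
    refine h6.trans ?_
    rw [← hqdef, ← hmdef]
    have hA : ∀ e, e ≤ e1 + e2 + e3 + A₁ → m ^ e ≤ m ^ (e1 + e2 + e3 + A₁) := fun e he =>
      pow_le_pow_right₀ hm he
    have g1 := hA e1 (by omega)
    have g2 := hA e2 (by omega)
    have g3 := hA e3 (by omega)
    have hP : 0 ≤ m ^ (e1 + e2 + e3 + A₁) := by positivity
    calc C₂ * C₃ * m ^ e1 + C₁ * m ^ e2 + C₂ * C₃ * m ^ e3 * (T ^ D / T)
        ≤ (C₂ * C₃ * m ^ (e1 + e2 + e3 + A₁) + C₁ * m ^ (e1 + e2 + e3 + A₁)) * 1 +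
          C₂ * C₃ * m ^ (e1 + e2 + e3 + A₁) * (T ^ D / T) := by
          rw [mul_one]
          gcongr
      _ ≤ (C₂ * C₃ * m ^ (e1 + e2 + e3 + A₁) + C₁ * m ^ (e1 + e2 + e3 + A₁)) * (T ^ D / T) +
          C₂ * C₃ * m ^ (e1 + e2 + e3 + A₁) * (T ^ D / T) := by
          gcongr
      _ = _ := by ring

end H12.SQM
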