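import Pool.Agent.H12.SQM.Defs

/-!
# [SQ VECR] Real cubic forms, 100-180 lines. File Pool/Agent/H12/SQM/VecR.lean

`f : Fin 4 → ℝ`, `a = f 0`, .., `e = f 3`. `l, m : Fin 2 → ℝ` are linear forms `ℓ₁(v) = l 0 v 0 + l 1 v 1`, `ℓ₂(v) = m 0 v 0 + m 1 v 1`, `δ = dt l m`.
`red_pos` (`disc f > 0`): `disc f = δ²`, `f(v) δ = -ℓ₁ ℓ₂ (ℓ₁ + ℓ₂)`, `hes f v = ℓ₁² + ℓ₁ℓ₂ + ℓ₂²`. PROOF as `fac` in `H97/SXM/VecA.lean` over `ℝ`, because `f` has three real roots: case `a ≠ 0`: `a t³ + b t² + c t + e` has a real root `r₁` (intermediate value theorem, or: a real polynomial of odd degree), the quadratic cofactor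
`a (t² + p t + s)` has discriminant `p² - 4s`, and `disc f = a⁴ (p² - 4 s) (r₁² + p r₁ + s)² > 0`, so `p² - 4s > 0` and there are real `r₂, r₃`. `ℓ₁ = a (r₂ - r₃)(x - r₁ y)`, `ℓ₂ = a (r₃ - r₁)(x - r₂ y)`, `δ = a² (r₁-r₂)(r₂-r₃)(r₃-r₁)`; identities by `ring`. Case `a = 0`: `b ≠ 0`, `b t² + c t + e`: `disc f = b² (c² - 4 b e) > 0`: real roots
`r₁, r₂`: `ℓ₁ = b (r₁ - r₂) y`, `ℓ₂ = b (x - r₁ y)`, `δ = -b² (r₁ - r₂)`.
`red_neg` (`disc f < 0`): `disc f = -27 δ²`, `f(v) δ = ℓ₁³ + ℓ₂³`, `hes f v = -9 ℓ₁ ℓ₂`. PROOF. `hes f = A x² + B x y + C y²`, `B² - 4 A C = -3 disc f > 0`. So there are real linear forms `p, q` with `hes f v = -9 p(v) q(v)` (if `A ≠ 0` by the quadratic formula; if `A = 0`: `y (B x + C y)`), `dt p q ≠ 0`. Write `f` in the coordinates `p, q`: `f = α p³ + β p² q + γ p q² + ε q³`;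
the Hessian in these coordinates is `dt(p,q)² ((β² - 3αγ) p² + (βγ - 9αε) p q + (γ² - 3βε) q²)`, so `β² = 3αγ`, `γ² = 3βε`, `dt² (βγ - 9αε) = -9`; if `β ≠ 0` then `γ ≠ 0`, `β²γ² = 9αγβε` so `βγ = 9αε`, a contradiction; so `β = 0`, and `γ² = 3βε = 0`. `αε dt² = 1`. Let `t = (α dt)^(1/3)` (real cube root, sign included: `∃ t, t³ = α dt`; `t ≠ 0`),
`ℓ₁ = t p`, `ℓ₂ = t⁻¹ q`: `δ = dt p q`, `ℓ₁³ = α δ p³`, `ℓ₂³ = t⁻³ q³ = (α δ)⁻¹ q³ = ε δ q³`. (Other choices are possible: start from a real root of `f`. The cube root: `Real.rpow` of the absolute value, or the intermediate value theorem.)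
`v1_pos`, `v1_neg`: the condition `V1` (`‖hes f v‖ ≤ T²`, `‖f(v)² disc f‖ ≤ T⁶`) in the new coordinates: `fp = xy(x+y)`: `hes fp (x,y) = x²+xy+y²`, `disc fp = 1`; `fm = x³+y³`: `hes fm (x, y) = -9xy`, `disc fm = -27`; `f(v)² disc f = (f(v) δ)² disc fp` (resp. `fm`).
-/

set_option autoImplicit false

open scoped NumberField Classical
open IsDedekindDomain NumberField MeasureTheory H38.ML H63.MA H67.SX H77.MF H97.SXM

noncomputable section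

namespace H12.SQM

private theorem real_root (p q r : ℝ) : ∃ t : ℝ, t ^ 3 + p * t ^ 2 + q * t + r = 0 := by
  obtain ⟨M, hM⟩ : ∃ M : ℝ, M = 1 + |p| + |q| + |r| := ⟨_, rfl⟩
  have hM1 : 1 ≤ M := by
    rw [hM]
    have := abs_nonneg p
    have := abs_nonneg q
    have := abs_nonneg r
    linarith
  have hM2 : M ≤ M ^ 2 := by nlinarith
  have hM3 : 1 ≤ M ^ 2 := by nlinarith
  have e : M ^ 3 = (1 + |p| + |q| + |r|) * M ^ 2 := by rw [← hM]; ring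
  have p1 : |p * M ^ 2| = |p| * M ^ 2 := by rw [abs_mul, abs_of_nonneg (sq_nonneg M)]
  have q1 : |q * M| ≤ |q| * M ^ 2 := by
    rw [abs_mul, abs_of_nonneg (by linarith : (0 : ℝ) ≤ M)]
    exact mul_le_mul_of_nonneg_left hM2 (abs_nonneg q)
  have r1 : |r| ≤ |r| * M ^ 2 := le_mul_of_one_le_right (abs_nonneg r) hM3
  have p2 := abs_le.1 p1.le
  have q2 := abs_le.1 q1
  have r2 := abs_le.1 r1
  have h1 : 0 ≤ M ^ 3 + p * M ^ 2 + q * M + r := by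
    nlinarith [p2.1, q2.1, r2.1]
  have h2 : (-M) ^ 3 + p * (-M) ^ 2 + q * (-M) + r ≤ 0 := by
    nlinarith [p2.2, q2.1, r2.2, p2.1, q2.2, r2.1]
  have hc : ContinuousOn (fun t : ℝ => t ^ 3 + p * t ^ 2 + q * t + r) (Set.Icc (-M) M) := by
    fun_prop
  have h3 := intermediate_value_Icc (by linarith : -M ≤ M) hc
  obtain ⟨t, -, ht⟩ := h3 (show (0 : ℝ) ∈ Set.Icc _ _ from ⟨h2, h1⟩)
  exact ⟨t, ht⟩

private theorem rp_a {f : Fin 4 → ℝ} (ha : f 0 ≠ 0) (hf : 0 < disc f) : ∃ l m : Fin 2 → ℝ, disc f = dt l m ^ 2 ∧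
    (∀ v : Fin 2 → ℝ, ev f v * dt l m = -((l 0 * v 0 + l 1 * v 1) * (m 0 * v 0 + m 1 * v 1) *
      ((l 0 * v 0 + l 1 * v 1) + (m 0 * v 0 + m 1 * v 1)))) ∧
    ∀ v : Fin 2 → ℝ, hes f v = (l 0 * v 0 + l 1 * v 1) ^ 2 +
      (l 0 * v 0 + l 1 * v 1) * (m 0 * v 0 + m 1 * v 1) + (m 0 * v 0 + m 1 * v 1) ^ 2 := by
  obtain ⟨r1, hr⟩ := real_root (f 1 / f 0) (f 2 / f 0) (f 3 / f 0)
  have he : f 3 = -(f 0 * r1 ^ 3 + f 1 * r1 ^ 2 + f 2 * r1) := by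
    have h1 : f 0 * (r1 ^ 3 + f 1 / f 0 * r1 ^ 2 + f 2 / f 0 * r1 + f 3 / f 0) = 0 := by rw [hr, mul_zero]
    have h2 : f 0 * (r1 ^ 3 + f 1 / f 0 * r1 ^ 2 + f 2 / f 0 * r1 + f 3 / f 0) =
        f 0 * r1 ^ 3 + f 1 * r1 ^ 2 + f 2 * r1 + f 3 := by
      field_simp
    rw [h2] at h1
    linarith
  have hD : disc f = ((f 1 + f 0 * r1) ^ 2 - 4 * f 0 * (f 2 + f 1 * r1 + f 0 * r1 ^ 2)) *
      (3 * f 0 * r1 ^ 2 + 2 * f 1 * r1 + f 2) ^ 2 := by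
    rw [disc, he]
    ring
  have hΔ : 0 < (f 1 + f 0 * r1) ^ 2 - 4 * f 0 * (f 2 + f 1 * r1 + f 0 * r1 ^ 2) := by
    by_contra hcon
    push Not at hcon
    rw [hD] at hf
    exact absurd hf (not_lt.2 (mul_nonpos_of_nonpos_of_nonneg hcon (sq_nonneg _)))
  obtain ⟨s, hs⟩ : ∃ s : ℝ, s ^ 2 = (f 1 + f 0 * r1) ^ 2 - 4 * f 0 * (f 2 + f 1 * r1 + f 0 * r1 ^ 2) :=
    ⟨Real.sqrt _, Real.sq_sqrt hΔ.le⟩
  obtain ⟨r2, hr2⟩ : ∃ r2 : ℝ, r2 = (-(f 1 + f 0 * r1) + s) / (2 * f 0) := ⟨_, rfl⟩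
  obtain ⟨r3, hr3⟩ : ∃ r3 : ℝ, r3 = (-(f 1 + f 0 * r1) - s) / (2 * f 0) := ⟨_, rfl⟩
  have hb : f 1 = f 0 * -(r1 + r2 + r3) := by
    rw [hr2, hr3]
    field_simp
    ring
  have h23 : f 0 * (r2 * r3) = f 2 + f 1 * r1 + f 0 * r1 ^ 2 := by
    have h1 : f 0 * (r2 * r3) = ((f 1 + f 0 * r1) ^ 2 - s ^ 2) / (4 * f 0) := by
      rw [hr2, hr3]
      field_simp
      ring
    rw [h1, hs]
    field_simp
    ring
  have hc : f 2 = f 0 * (r1 * r2 + r1 * r3 + r2 * r3) := by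
    have : f 2 = f 0 * (r2 * r3) - f 1 * r1 - f 0 * r1 ^ 2 := by linarith
    rw [this, hb]
    ring
  have hd : f 3 = f 0 * -(r1 * r2 * r3) := by
    rw [he, hb, hc]
    ring
  clear hr he hD hΔ hs hr2 hr3 h23 hf
  refine ⟨![f 0 * (r2 - r3), -(f 0 * (r2 - r3) * r1)], ![f 0 * (r3 - r1), -(f 0 * (r3 - r1) * r2)],
    ?_, ?_, ?_⟩
  · simp only [disc, H77.MF.dt, hb, hc, hd, Matrix.cons_val_zero, Matrix.cons_val_one]
    ring
  · intro v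
    simp only [ev, H77.MF.dt, hb, hc, hd, Matrix.cons_val_zero, Matrix.cons_val_one]
    ring
  · intro v
    simp only [hes, hA, hC, hb, hc, hd, Matrix.cons_val_zero, Matrix.cons_val_one]
    ring

private theorem rp_b {f : Fin 4 → ℝ} (ha : f 0 = 0) (hf : 0 < disc f) : ∃ l m : Fin 2 → ℝ,
    disc f = dt l m ^ 2 ∧
    (∀ v : Fin 2 → ℝ, ev f v * dt l m = -((l 0 * v 0 + l 1 * v 1) * (m 0 * v 0 + m 1 * v 1) *
      ((l 0 * v 0 + l 1 * v 1) + (m 0 * v 0 + m 1 * v 1)))) ∧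
    ∀ v : Fin 2 → ℝ, hes f v = (l 0 * v 0 + l 1 * v 1) ^ 2 +
      (l 0 * v 0 + l 1 * v 1) * (m 0 * v 0 + m 1 * v 1) + (m 0 * v 0 + m 1 * v 1) ^ 2 := by
  have hD : disc f = (f 2 ^ 2 - 4 * f 1 * f 3) * f 1 ^ 2 := by
    rw [disc, ha]
    ring
  have hb : f 1 ≠ 0 := by
    intro hb
    rw [hD, hb] at hf
    norm_num at hf
  have hΔ : 0 < f 2 ^ 2 - 4 * f 1 * f 3 := by
    by_contra hcon
    push Not at hcon
    rw [hD] at hf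
    exact absurd hf (not_lt.2 (mul_nonpos_of_nonpos_of_nonneg hcon (sq_nonneg _)))
  obtain ⟨s, hs⟩ : ∃ s : ℝ, s ^ 2 = f 2 ^ 2 - 4 * f 1 * f 3 := ⟨Real.sqrt _, Real.sq_sqrt hΔ.le⟩
  obtain ⟨r1, hr1⟩ : ∃ r1 : ℝ, r1 = (-f 2 + s) / (2 * f 1) := ⟨_, rfl⟩
  obtain ⟨r2, hr2⟩ : ∃ r2 : ℝ, r2 = (-f 2 - s) / (2 * f 1) := ⟨_, rfl⟩
  have hc : f 2 = -(f 1 * (r1 + r2)) := by
    rw [hr1, hr2]
    field_simp
    ring
  have hd : f 3 = f 1 * (r1 * r2) := by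
    have h1 : f 1 * (r1 * r2) = (f 2 ^ 2 - s ^ 2) / (4 * f 1) := by
      rw [hr1, hr2]
      field_simp
      ring
    rw [h1, hs]
    field_simp
    ring
  refine ⟨![0, f 1 * (r1 - r2)], ![f 1, -(f 1 * r1)], ?_, ?_, ?_⟩
  · simp only [disc, H77.MF.dt, ha, hc, hd, Matrix.cons_val_zero, Matrix.cons_val_one]
    ring
  · intro v
    simp only [ev, H77.MF.dt, ha, hc, hd, Matrix.cons_val_zero, Matrix.cons_val_one]
    ring
  · intro v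
    simp only [hes, hA, hC, ha, hc, hd, Matrix.cons_val_zero, Matrix.cons_val_one]
    ring

theorem red_pos {f : Fin 4 → ℝ} (hf : 0 < disc f) : ∃ l m : Fin 2 → ℝ, disc f = dt l m ^ 2 ∧
    (∀ v : Fin 2 → ℝ, ev f v * dt l m = -((l 0 * v 0 + l 1 * v 1) * (m 0 * v 0 + m 1 * v 1) *
      ((l 0 * v 0 + l 1 * v 1) + (m 0 * v 0 + m 1 * v 1)))) ∧
    ∀ v : Fin 2 → ℝ, hes f v = (l 0 * v 0 + l 1 * v 1) ^ 2 +
      (l 0 * v 0 + l 1 * v 1) * (m 0 * v 0 + m 1 * v 1) + (m 0 * v 0 + m 1 * v 1) ^ 2 := by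
  by_cases ha : f 0 = 0
  · exact rp_b ha hf
  · exact rp_a ha hf

/-- the Hessian of a form of negative discriminant is a product of linear forms -/
private theorem hes_fac {f : Fin 4 → ℝ} (hf : disc f < 0) : ∃ p0 p1 q0 q1 : ℝ, hA f = -9 * (p0 * q0) ∧
    f 1 * f 2 - 9 * f 0 * f 3 = -9 * (p0 * q1 + p1 * q0) ∧ hC f = -9 * (p1 * q1) := by
  have hD : (f 1 * f 2 - 9 * f 0 * f 3) ^ 2 - 4 * hA f * hC f = -3 * disc f := by
    rw [hA, hC, disc]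
    ring
  generalize f 1 * f 2 - 9 * f 0 * f 3 = B at hD ⊢
  generalize hA f = A at hD ⊢
  generalize hC f = C at hD ⊢
  have hpos : 0 < B ^ 2 - 4 * A * C := by
    rw [hD]
    linarith
  by_cases h0 : A = 0
  · exact ⟨0, 1, -B / 9, -C / 9, by rw [h0]; ring, by ring, by ring⟩
  · obtain ⟨s, hs⟩ : ∃ s : ℝ, s ^ 2 = B ^ 2 - 4 * A * C := ⟨Real.sqrt _, Real.sq_sqrt hpos.le⟩
    refine ⟨1, -((-B + s) / (2 * A)), -A / 9, A * ((-B - s) / (2 * A)) / 9, by ring, ?_, ?_⟩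
    · field_simp
      ring
    · have h1 : -9 * (-((-B + s) / (2 * A)) * (A * ((-B - s) / (2 * A)) / 9)) = (B ^ 2 - s ^ 2) / (4 * A) := by
        field_simp
        ring
      rw [h1, hs]
      field_simp
      ring

theorem red_neg {f : Fin 4 → ℝ} (hf : disc f < 0) : ∃ l m : Fin 2 → ℝ, disc f = -27 * dt l m ^ 2 ∧
    (∀ v : Fin 2 → ℝ, ev f v * dt l m = (l 0 * v 0 + l 1 * v 1) ^ 3 + (m 0 * v 0 + m 1 * v 1) ^ 3) ∧
    ∀ v : Fin 2 → ℝ, hes f v = -9 * ((l 0 * v 0 + l 1 * v 1) * (m 0 * v 0 + m 1 * v 1)) := by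
  obtain ⟨p0, p1, q0, q1, hA1, hB1, hC1⟩ := hes_fac hf
  obtain ⟨D, hD⟩ : ∃ D : ℝ, D = p0 * q1 - p1 * q0 := ⟨_, rfl⟩
  have hdisc : disc f = -27 * D ^ 2 := by
    have h1 : (f 1 * f 2 - 9 * f 0 * f 3) ^ 2 - 4 * hA f * hC f = -3 * disc f := by
      rw [hA, hC, disc]
      ring
    rw [hA1, hB1, hC1] at h1
    rw [hD]
    linarith
  have hD0 : D ≠ 0 := by
    intro h
    rw [hdisc, h] at hf
    norm_num at hf
  -- the coefficients in the new coordinates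
  obtain ⟨F0, hF0⟩ : ∃ F0, F0 = ev f ![q1, -q0] := ⟨_, rfl⟩
  obtain ⟨F3, hF3⟩ : ∃ F3, F3 = ev f ![-p1, p0] := ⟨_, rfl⟩
  obtain ⟨F1, hF1⟩ : ∃ F1, F1 = -p1 * gr0 f ![q1, -q0] + p0 * gr1 f ![q1, -q0] := ⟨_, rfl⟩
  obtain ⟨F2, hF2⟩ : ∃ F2, F2 = q1 * gr0 f ![-p1, p0] + -q0 * gr1 f ![-p1, p0] := ⟨_, rfl⟩
  have e1 : F1 ^ 2 - 3 * F0 * F2 = 0 := by
    have h1 : F1 ^ 2 - 3 * F0 * F2 = D ^ 2 * (hA f * q1 ^ 2 - (f 1 * f 2 - 9 * f 0 * f 3) * (q0 * q1) + hC f * q0 ^ 2) := by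
      rw [hF0, hF1, hF2, hD]
      simp only [ev, gr0, gr1, hA, hC, Matrix.cons_val_zero, Matrix.cons_val_one]
      ring
    rw [h1, hA1, hB1, hC1]
    ring
  have e2 : F2 ^ 2 - 3 * F1 * F3 = 0 := by
    have h1 : F2 ^ 2 - 3 * F1 * F3 = D ^ 2 * (hA f * p1 ^ 2 - (f 1 * f 2 - 9 * f 0 * f 3) * (p0 * p1) + hC f * p0 ^ 2) := by
      rw [hF3, hF1, hF2, hD]
      simp only [ev, gr0, gr1, hA, hC, Matrix.cons_val_zero, Matrix.cons_val_one]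
      ring
    rw [h1, hA1, hB1, hC1]
    ring
  have e3 : F1 * F2 - 9 * F0 * F3 = -9 * D ^ 4 := by
    have h1 : F1 * F2 - 9 * F0 * F3 = D ^ 2 * (-2 * hA f * (p1 * q1) +
        (f 1 * f 2 - 9 * f 0 * f 3) * (p0 * q1 + p1 * q0) - 2 * hC f * (p0 * q0)) := by
      rw [hF0, hF3, hF1, hF2, hD]
      simp only [ev, gr0, gr1, hA, hC, Matrix.cons_val_zero, Matrix.cons_val_one]
      ring
    rw [h1, hA1, hB1, hC1, hD]
    ring
  have hF12 : F1 = 0 ∧ F2 = 0 := by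
    have h1 : F1 * F2 = 0 := by
      by_contra h2
      have h3 : F1 * F2 * (F1 * F2 - 9 * F0 * F3) = 0 := by
        have h4 : F1 ^ 2 = 3 * F0 * F2 := by linarith
        have h5 : F2 ^ 2 = 3 * F1 * F3 := by linarith
        calc F1 * F2 * (F1 * F2 - 9 * F0 * F3) = F1 ^ 2 * F2 ^ 2 - 9 * F0 * F1 * F2 * F3 := by ring
          _ = 0 := by rw [h4, h5]; ring
      rcases mul_eq_zero.1 h3 with h4 | h4
      · exact h2 h4
      · rw [e3] at h4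
        have := pow_ne_zero 4 hD0
        apply this
        linarith
    rcases mul_eq_zero.1 h1 with h2 | h2
    · refine ⟨h2, ?_⟩
      rw [h2] at e2
      have : F2 ^ 2 = 0 := by linarith
      exact pow_eq_zero_iff (two_ne_zero) |>.1 this
    · refine ⟨?_, h2⟩
      rw [h2] at e1
      have : F1 ^ 2 = 0 := by linarith
      exact pow_eq_zero_iff (two_ne_zero) |>.1 this
  have hF03 : F0 * F3 = D ^ 4 := by
    rw [hF12.1] at e3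
    linarith
  have hev : ∀ v : Fin 2 → ℝ, ev f v * D ^ 3 = F0 * (p0 * v 0 + p1 * v 1) ^ 3 + F3 * (q0 * v 0 + q1 * v 1) ^ 3 := by
    intro v
    have h1 : ev f v * D ^ 3 = F0 * (p0 * v 0 + p1 * v 1) ^ 3 +
        F1 * (p0 * v 0 + p1 * v 1) ^ 2 * (q0 * v 0 + q1 * v 1) +
        F2 * (p0 * v 0 + p1 * v 1) * (q0 * v 0 + q1 * v 1) ^ 2 + F3 * (q0 * v 0 + q1 * v 1) ^ 3 := by
      rw [hF0, hF1, hF2, hF3, hD]
      simp only [ev, gr0, gr1, Matrix.cons_val_zero, Matrix.cons_val_one]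
      ring
    rw [h1, hF12.1, hF12.2]
    ring
  have hF0n : F0 ≠ 0 := by
    intro h
    rw [h, zero_mul] at hF03
    exact pow_ne_zero 4 hD0 hF03.symm
  obtain ⟨t, ht⟩ : ∃ t : ℝ, t ^ 3 = F0 / D ^ 2 := by
    obtain ⟨t, ht⟩ := real_root 0 0 (-(F0 / D ^ 2))
    exact ⟨t, by linarith⟩
  have ht0 : t ≠ 0 := by
    rintro rfl
    have h1 : F0 / D ^ 2 = 0 := by rw [← ht]; norm_num
    rw [div_eq_zero_iff] at h1
    exact h1.elim hF0n (pow_ne_zero 2 hD0)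
  have hdt : dt ![t * p0, t * p1] ![t⁻¹ * q0, t⁻¹ * q1] = D := by
    simp only [H77.MF.dt, Matrix.cons_val_zero, Matrix.cons_val_one]
    rw [hD]
    field_simp
  refine ⟨![t * p0, t * p1], ![t⁻¹ * q0, t⁻¹ * q1], ?_, ?_, ?_⟩
  · rw [hdt, hdisc]
  · intro v
    rw [hdt]
    simp only [Matrix.cons_val_zero, Matrix.cons_val_one]
    have h1 : (t * p0 * v 0 + t * p1 * v 1) ^ 3 = F0 / D ^ 2 * (p0 * v 0 + p1 * v 1) ^ 3 := by
      rw [← ht]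
      ring
    have h2 : (t⁻¹ * q0 * v 0 + t⁻¹ * q1 * v 1) ^ 3 = F3 / D ^ 2 * (q0 * v 0 + q1 * v 1) ^ 3 := by
      have h3 : (t⁻¹) ^ 3 = F3 / D ^ 2 := by
        rw [inv_pow, ht, inv_div, div_eq_div_iff hF0n (pow_ne_zero 2 hD0)]
        rw [mul_comm F3, hF03]
        ring
      rw [← h3]
      ring
    rw [h1, h2]
    have h4 := hev v
    have h5 : D ^ 2 ≠ 0 := pow_ne_zero 2 hD0
    field_simp
    linarith
  · intro v
    simp only [Matrix.cons_val_zero, Matrix.cons_val_one]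
    have h1 : hes f v = -9 * ((p0 * v 0 + p1 * v 1) * (q0 * v 0 + q1 * v 1)) := by
      rw [hes, hA1, hB1, hC1]
      ring
    rw [h1]
    field_simp

private theorem mem_VR (T : ℝ) (f : Fin 4 → ℝ) (v : Fin 2 → ℝ) :
    v ∈ VR T f ↔ |hes f v| ≤ T ^ 2 ∧ |ev f v ^ 2 * disc f| ≤ T ^ 6 := by
  have h1 : hes (fun i => (f i : ℂ)) (fun i => (v i : ℂ)) = ((hes f v : ℝ) : ℂ) := by
    simp only [hes, hA, hC]
    push_cast
    ring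
  have h2 : ev (fun i => (f i : ℂ)) (fun i => (v i : ℂ)) ^ 2 * disc (fun i => (f i : ℂ)) =
      ((ev f v ^ 2 * disc f : ℝ) : ℂ) := by
    simp only [ev, disc]
    push_cast
    ring
  show V1 T (fun i => (f i : ℂ)) (fun i => (v i : ℂ)) ↔ _
  unfold V1
  rw [h1, h2, Complex.norm_real, Complex.norm_real, Real.norm_eq_abs, Real.norm_eq_abs]

theorem v1_pos {f : Fin 4 → ℝ} (hf : 0 < disc f) : ∃ l m : Fin 2 → ℝ, disc f = dt l m ^ 2 ∧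
    ∀ (T : ℝ) (v : Fin 2 → ℝ), v ∈ VR T f ↔
      ![l 0 * v 0 + l 1 * v 1, m 0 * v 0 + m 1 * v 1] ∈ VR T fp := by
  obtain ⟨l, m, h1, h2, h3⟩ := red_pos hf
  refine ⟨l, m, h1, fun T v => ?_⟩
  rw [mem_VR, mem_VR]
  have e1 : hes fp ![l 0 * v 0 + l 1 * v 1, m 0 * v 0 + m 1 * v 1] = hes f v := by
    rw [h3]
    simp [hes, hA, hC, fp]
  have e2 : ev fp ![l 0 * v 0 + l 1 * v 1, m 0 * v 0 + m 1 * v 1] ^ 2 * disc fp = ev f v ^ 2 * disc f := by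
    rw [h1, ← mul_pow, h2]
    simp [ev, disc, fp]
    ring
  rw [e1, e2]

theorem v1_neg {f : Fin 4 → ℝ} (hf : disc f < 0) : ∃ l m : Fin 2 → ℝ, disc f = -27 * dt l m ^ 2 ∧
    ∀ (T : ℝ) (v : Fin 2 → ℝ), v ∈ VR T f ↔
      ![l 0 * v 0 + l 1 * v 1, m 0 * v 0 + m 1 * v 1] ∈ VR T fm := by
  obtain ⟨l, m, h1, h2, h3⟩ := red_neg hf
  refine ⟨l, m, h1, fun T v => ?_⟩
  rw [mem_VR, mem_VR]
  have e1 : hes fm ![l 0 * v 0 + l 1 * v 1, m 0 * v 0 + m 1 * v 1] = hes f v := by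
    rw [h3]
    simp [hes, hA, hC, fm]
    try ring
  have e2 : ev fm ![l 0 * v 0 + l 1 * v 1, m 0 * v 0 + m 1 * v 1] ^ 2 * disc fm = ev f v ^ 2 * disc f := by
    have h4 : ev f v ^ 2 * (-27 * dt l m ^ 2) = -27 * (ev f v * dt l m) ^ 2 := by ring
    rw [h1, h4, h2]
    simp [ev, disc, fm]
    try ring
  rw [e1, e2]

end H12.SQM
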