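import Pool.Agent.H12.SQM.Hs
import Pool.Agent.H12.SQM.Eqn
import Pool.Agent.H97.SXM.Lim

/-!
# [SQM WIN] The sums over the windows, 150-240 lines. File Pool/Agent/H97/SXM/Win.lean

`dd = 4 d`, `d = [K : ℚ]`; `wts` gives `k, mS`; `eqn` gives `C, A, η`. For `q` disjoint from `S`: `Q' = S ∪ q`, `nQ Q' = nQ S · nr q`, `absNorm (JS S k * JQ q ^ 3) = c · (nr q)^3` (`JQ_norm`; `nQ q = nr q` by definition), `piQ Q' ≥ c (nr q)^(-2)` (each factor `(1 - 1/N)(1 - 1/N²) ≥ 3/8 ≥ 1/N²`), `cF K sg > 0` (`cV_pos`, `cv_pos`).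
So for a weight with modulus `Q'`, `J = JS S k * JQ q ^ 3` and mean `m`: with `G_q := 3 GQ Q' / (piQ Q' cF)`: `|BB g R₁ R₂ - m G_q(R₁/T^dd, R₂/T^dd)| ≤ C (nr q)^A (y^A T^(-η) + y^(-η) + R₂^(-η))`, `y = T^dd/R₂ ≥ 1` (ERR).
Choose `a > 0` small: `2 a A ≤ η/2`, `4 a ≤ 1`. If `T^a ≤ y ≤ T^(2a)`: `y^A T^(-η) ≤ T^(-η/2)`, `y^(-η) ≤ T^(-aη)`, `R₂ = T^dd/y ≥ T^(dd - 1) ≥ T`, so ERR `≤ 3 C (nr q)^A T^(-η₁)`, `η₁ = aη` (`≤ η/2`).
(1) `q = ∅`: `B = BB (gM ∅)`: `lim_log` (nonnegative, additive in the window: the sum over `(R₁, R₃]` splits, finite sets by `cb_fin`; bounded by `bb_bd`) gives `κ, C, η'` with `|B(αR, R) - κ log(1/α)| ≤ C R^(-η')`.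
(2) `κ > 0`: `eqn_pos` with the second weight of `wts` for `q = ∅`, mean `mS`: let `z₀, c` be the constants of `gq_low`, `z = min z₀ 1`, `T^dd = R/z`, `R₂ = R`, `R₁ = R/2`: `3 mS c z ≤ 3 mS GQ S (z/2) z ≤ C B(R/2, R) + C' (z^(-A) T^(-η) + R^(-η))`. Let `R → ∞`: `3 mS c z ≤ C κ log 2`, so `κ > 0`.
(3) General `q`. `r = ∏_{l ∈ q} M1 l / (2 M0 l)`, so `mS ∏ (M1 l/2) = r · mS ∏ M0 l`. For `R ≥ 1`, `α ∈ [1/2, 1]` let `T ≥ 1` with `T^dd = T^(2a) R` (`T = R^(1/(dd - 2a))`): both weights of `wts` with the same `G_q`: `|BB (gM q)(αR, R) - r BB (gM ∅)(αR, R)| ≤ (1 + |r|) 3 C (nr q)^A T^(-η₁)`, `T^(-η₁) = R^(-η₁/(dd - 2a))`. `|r| ≤ C (nr q)^A'`: `|M1 l / (2 M0 l)| ≤ 2 C/nm l`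
(`M1_bd`, `M0_bd`) `≤ (nm l)^A'` with `2^A' ≥ 2 C` (`nm l ≥ 2`). With (1): `|BB (gM q)(αR, R) - κ r log(1/α)| ≤ C (nr q)^A'' R^(-η'')`.
-/

set_option autoImplicit false

open scoped NumberField Classical
open IsDedekindDomain NumberField H38.ML H63.MA H67.SX H77.MF H97.SXM

noncomputable section

namespace H12.SQM

private theorem err_bd {T R₂ dd a η : ℝ} {A : ℕ} (hT : 1 ≤ T) (hR : 1 ≤ R₂) (hη : 0 < η)
    (ha : 0 < a) (ha4 : 4 * a ≤ 1) (haA : 2 * a * A ≤ η / 2) (hdd : 4 ≤ dd)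
    (h1 : T ^ a ≤ T ^ dd / R₂) (h2 : T ^ dd / R₂ ≤ T ^ (2 * a)) :
    (T ^ dd / R₂) ^ A * T ^ (-η) + (T ^ dd / R₂) ^ (-η) + R₂ ^ (-η) ≤ 3 * T ^ (-(a * η)) := by
  have hT0 : 0 < T := by linarith
  have hR0 : 0 < R₂ := by linarith
  have hy0 : 0 < T ^ dd / R₂ := by positivity
  have e1 : (T ^ dd / R₂) ^ A * T ^ (-η) ≤ T ^ (-(a * η)) := by
    calc (T ^ dd / R₂) ^ A * T ^ (-η) ≤ (T ^ (2 * a)) ^ A * T ^ (-η) := by gcongr
      _ = T ^ (2 * a * A - η) := by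
          rw [← Real.rpow_natCast, ← Real.rpow_mul hT0.le, ← Real.rpow_add hT0]
          congr 1
      _ ≤ T ^ (-(a * η)) := Real.rpow_le_rpow_of_exponent_le hT (by nlinarith)
  have e2 : (T ^ dd / R₂) ^ (-η) ≤ T ^ (-(a * η)) := by
    calc (T ^ dd / R₂) ^ (-η) ≤ (T ^ a) ^ (-η) :=
          Real.rpow_le_rpow_of_nonpos (by positivity) h1 (by linarith)
      _ = T ^ (-(a * η)) := by rw [← Real.rpow_mul hT0.le]; ring_nf
  have e3 : R₂ ^ (-η) ≤ T ^ (-(a * η)) := by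
    have h3 : T ^ a ≤ R₂ := by
      have h4 : T ^ dd ≤ T ^ (2 * a) * R₂ := by rwa [div_le_iff₀ hR0] at h2
      have h5 : T ^ (3 * a) ≤ T ^ dd := Real.rpow_le_rpow_of_exponent_le hT (by linarith)
      have h6 : T ^ (3 * a) = T ^ (2 * a) * T ^ a := by rw [← Real.rpow_add hT0]; ring_nf
      have h7 : 0 < T ^ (2 * a) := by positivity
      rw [h6] at h5
      exact le_of_mul_le_mul_left (h5.trans h4) h7
    calc R₂ ^ (-η) ≤ (T ^ a) ^ (-η) :=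
          Real.rpow_le_rpow_of_nonpos (by positivity) h3 (by linarith)
      _ = T ^ (-(a * η)) := by rw [← Real.rpow_mul hT0.le]; ring_nf
  linarith

private theorem one_wt {m G P X b : ℝ} (hP : 0 < P) (h : |3 * m * G - P * b| ≤ X) :
    |b - m * (3 * G / P)| ≤ X / P := by
  have e : b - m * (3 * G / P) = -((3 * m * G - P * b) / P) := by
    field_simp
    ring
  rw [e, abs_neg, abs_div, abs_of_pos hP]
  gcongr

section pq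

variable {K : Type} [Field K] [NumberField K]

private theorem nm_two (l : Pl K) : (2 : ℝ) ≤ nm l := by exact_mod_cast one_lt_nm l

private theorem nr_one (q : Finset (Pl K)) : 1 ≤ nr q := (JQ_norm q).2.2

private theorem fac_low (l : Pl K) :
    0 < (1 - 1 / (nm l : ℝ)) * (1 - 1 / (nm l : ℝ) ^ 2) ∧
    1 ≤ (1 - 1 / (nm l : ℝ)) * (1 - 1 / (nm l : ℝ) ^ 2) * (nm l : ℝ) ^ 2 := by
  have h2 := nm_two l
  obtain ⟨N, hN⟩ : ∃ N : ℝ, N = nm l := ⟨_, rfl⟩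
  rw [← hN] at h2 ⊢
  have h0 : 0 < N := by linarith
  have e1 : 1 / 2 ≤ 1 - 1 / N := by
    have : 1 / N ≤ 1 / 2 := one_div_le_one_div_of_le (by norm_num) h2
    linarith
  have e2 : 3 / 4 ≤ 1 - 1 / N ^ 2 := by
    have : 1 / N ^ 2 ≤ 1 / 2 ^ 2 := one_div_le_one_div_of_le (by norm_num) (by gcongr)
    linarith
  have e3 : (1 / 2) * (3 / 4) ≤ (1 - 1 / N) * (1 - 1 / N ^ 2) := by
    apply mul_le_mul e1 e2 (by norm_num) (by linarith)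
  have e4 : (4 : ℝ) ≤ N ^ 2 := by nlinarith
  constructor
  · linarith
  · nlinarith

private theorem piq_low (q : Finset (Pl K)) : 0 < piQ q ∧ 1 ≤ piQ q * nr q ^ 2 := by
  constructor
  · exact Finset.prod_pos fun l _ => (fac_low l).1
  · have e : piQ q * nr q ^ 2 =
        ∏ l ∈ q, ((1 - 1 / (nm l : ℝ)) * (1 - 1 / (nm l : ℝ) ^ 2) * (nm l : ℝ) ^ 2) := by
      unfold piQ nr
      rw [← Finset.prod_pow, ← Finset.prod_mul_distrib]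
    rw [e]
    have h := Finset.prod_le_prod (s := q) (f := fun _ => (1 : ℝ))
      (g := fun l : Pl K => (1 - 1 / (nm l : ℝ)) * (1 - 1 / (nm l : ℝ) ^ 2) * (nm l : ℝ) ^ 2)
      (fun _ _ => zero_le_one) (fun l _ => (fac_low l).2)
    rwa [Finset.prod_const_one] at h

end pq

variable {K : IntermediateField ℚ QBar} [NumberField K]

private theorem win_err {κ : ℝ} (hκ : 1 ≤ κ) (hR : RFS K κ) (hO : OCS K κ)
    (S : Finset (Pl K)) (h6 : ∀ l : Pl K, (6 : 𝓞 K) ∈ l.asIdeal → l ∈ S)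
    (Qd : DP K QBar) (c₀ : Cu K) {dd : ℝ} (hdd : dd = ((4 * Module.finrank ℚ K : ℕ) : ℝ)) :
    ∃ (C : ℝ) (A : ℕ) (a η : ℝ), 1 ≤ C ∧ 0 < a ∧ 4 * a ≤ 1 ∧ 0 < η ∧
    ∀ q : Finset (Pl K), (∀ l ∈ q, l ∉ S) → ∃ G : ℝ → ℝ → ℝ, ∀ T R₁ R₂ : ℝ, 1 ≤ T → 1 ≤ R₂ →
      R₁ ≤ R₂ → R₂ ≤ 2 * R₁ → T ^ a ≤ T ^ dd / R₂ → T ^ dd / R₂ ≤ T ^ (2 * a) →
      |H97.SXM.BB (gI S Qd c₀ q) R₁ R₂ - (∏ l ∈ q, (M1 l / 2)) * G (R₁ / T ^ dd) (R₂ / T ^ dd)| ≤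
        C * nr q ^ A * T ^ (-η) ∧
      |H97.SXM.BB (gI S Qd c₀ ∅) R₁ R₂ - (∏ l ∈ q, M0 l) * G (R₁ / T ^ dd) (R₂ / T ^ dd)| ≤
        C * nr q ^ A * T ^ (-η) := by
  obtain ⟨k, mS, hmS, hW⟩ := wtsI S h6 Qd c₀
  obtain ⟨sg, hsg⟩ : ∃ sg : InfinitePlace K → Bool, sg = sgc (toCb c₀) := ⟨_, rfl⟩
  rw [← hsg] at hW
  obtain ⟨C, A, η, hC, hη, hη1, he⟩ := eqn K sg hκ hR hO
  have hd : 1 ≤ Module.finrank ℚ K := Module.finrank_pos
  have hdd4 : 4 ≤ dd := by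
    rw [hdd]
    exact_mod_cast (by omega : 4 ≤ 4 * Module.finrank ℚ K)
  obtain ⟨a, ha⟩ : ∃ a : ℝ, a = η / (4 * (A + 1)) := ⟨_, rfl⟩
  have hA0 : (0 : ℝ) ≤ A := Nat.cast_nonneg A
  have ha0 : 0 < a := by rw [ha]; positivity
  have ha4 : 4 * a ≤ 1 := by
    rw [ha, mul_div_assoc', div_le_one (by positivity)]
    nlinarith
  have haA : 2 * a * A ≤ η / 2 := by
    have h1 : 4 * (A + 1) * a = η := by
      rw [ha]
      field_simp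
    nlinarith
  obtain ⟨NS, hNS⟩ : ∃ NS : ℝ, NS = ((Ideal.absNorm (JS S k) : ℕ) : ℝ) := ⟨_, rfl⟩
  have hNS0 : 0 ≤ NS := by rw [hNS]; positivity
  have hSp := (piq_low S).1
  have hc := cF_pos K sg
  obtain ⟨X, hX⟩ : ∃ X : ℝ, X = 3 * C * (nQ S * NS) ^ A / (piQ S * cF K sg) := ⟨_, rfl⟩
  have hnS := (JQ_norm S).2.2
  have hX0 : 0 ≤ X := by
    rw [hX]
    have : 0 ≤ nQ S := by linarith
    positivity
  refine ⟨1 + X, 4 * A + 2, a, a * η, by linarith, ha0, ha4, by positivity, fun q hq => ?_⟩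
  obtain ⟨⟨H₁, hH₁⟩, H₂, hH₂⟩ := hW q hq
  have hdj : Disjoint S q := by
    rw [Finset.disjoint_right]
    exact hq
  have hnr := nr_one q
  have hpq := piq_low q
  have hPe : piQ (S ∪ q) = piQ S * piQ q := by
    unfold piQ
    exact Finset.prod_union hdj
  have hNe : nQ (S ∪ q) = nQ S * nr q := by
    unfold nQ nr
    exact Finset.prod_union hdj
  have hJe : ((Ideal.absNorm (JS S k * JQ q ^ 3) : ℕ) : ℝ) = NS * nr q ^ 3 := by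
    rw [map_mul, map_pow]
    push_cast
    rw [← hNS, (JQ_norm q).2.1]
    rfl
  have hP0 : 0 < piQ (S ∪ q) * cF K sg := by
    rw [hPe]
    have := hpq.1
    positivity
  refine ⟨fun z₁ z₂ => mS * (3 * GQ sg (S ∪ q) z₁ z₂ / (piQ (S ∪ q) * cF K sg)), ?_⟩
  intro T R₁ R₂ hT hR₂ h12 h21 hy1 hy2
  have hT0 : 0 < T := by linarith
  have hR0 : 0 < R₂ := by linarith
  have hTd : T ^ dd = T ^ (4 * Module.finrank ℚ K) := by
    rw [hdd, Real.rpow_natCast]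
  have hRT : R₂ ≤ T ^ (4 * Module.finrank ℚ K) := by
    rw [← hTd]
    have h1 : 1 ≤ T ^ dd / R₂ := (Real.one_le_rpow hT ha0.le).trans hy1
    rwa [one_le_div hR0] at h1
  have hE := err_bd (A := A) hT hR₂ hη ha0 ha4 haA hdd4 hy1 hy2
  have key : ∀ (H : (Fin 4 → K) → ℝ) (g : Cb K → ℝ) (m : ℝ),
      Wt sg (S ∪ q) (JS S k * JQ q ^ 3) H g m →
      |H97.SXM.BB g R₁ R₂ - m * (3 * GQ sg (S ∪ q) (R₁ / T ^ dd) (R₂ / T ^ dd) / (piQ (S ∪ q) * cF K sg))| ≤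
        (1 + X) * nr q ^ (4 * A + 2) * T ^ (-(a * η)) := by
    intro H g m hH
    have h1 := he (S ∪ q) _ H g m T R₁ R₂ hH hT hR₂ h12 h21 hRT
    rw [← hTd] at h1
    refine (one_wt hP0 h1).trans ?_
    rw [hNe, hJe]
    have h2 : C * (nQ S * nr q * (NS * nr q ^ 3)) ^ A *
        ((T ^ dd / R₂) ^ A * T ^ (-η) + (T ^ dd / R₂) ^ (-η) + R₂ ^ (-η)) ≤
        C * (nQ S * nr q * (NS * nr q ^ 3)) ^ A * (3 * T ^ (-(a * η))) := by
      have : 0 ≤ nQ S := by linarith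
      gcongr
    have h3 : C * (nQ S * nr q * (NS * nr q ^ 3)) ^ A * (3 * T ^ (-(a * η))) =
        X * (piQ S * cF K sg) * nr q ^ (4 * A) * T ^ (-(a * η)) := by
      rw [hX, div_mul_cancel₀ _ (by positivity)]
      have : nQ S * nr q * (NS * nr q ^ 3) = (nQ S * NS) * nr q ^ 4 := by ring
      rw [this, mul_pow, ← pow_mul]
      ring
    rw [h3] at h2
    have hTn : 0 ≤ T ^ (-(a * η)) := by positivity
    calc _ ≤ X * (piQ S * cF K sg) * nr q ^ (4 * A) * T ^ (-(a * η)) / (piQ (S ∪ q) * cF K sg) := by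
            gcongr
      _ ≤ (1 + X) * nr q ^ (4 * A + 2) * T ^ (-(a * η)) := by
          rw [div_le_iff₀ hP0, hPe]
          have h4 : X * (piQ S * cF K sg) * nr q ^ (4 * A) * T ^ (-(a * η)) * 1 ≤
              X * (piQ S * cF K sg) * nr q ^ (4 * A) * T ^ (-(a * η)) * (piQ q * nr q ^ 2) := by
            have := hpq.2
            gcongr
          have h5 : 0 ≤ 1 * (nr q ^ (4 * A + 2) * T ^ (-(a * η)) * (piQ S * piQ q * cF K sg)) := by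
            have := hpq.1
            positivity
          calc X * (piQ S * cF K sg) * nr q ^ (4 * A) * T ^ (-(a * η))
              ≤ X * (piQ S * cF K sg) * nr q ^ (4 * A) * T ^ (-(a * η)) * (piQ q * nr q ^ 2) := by
                linarith
            _ = X * (nr q ^ (4 * A + 2) * T ^ (-(a * η)) * (piQ S * piQ q * cF K sg)) := by ring
            _ ≤ (1 + X) * nr q ^ (4 * A + 2) * T ^ (-(a * η)) * (piQ S * piQ q * cF K sg) := by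
                nlinarith
  constructor
  · have h := key H₁ _ _ hH₁
    have e : mS * (∏ l ∈ q, (M1 l / 2)) *
        (3 * GQ sg (S ∪ q) (R₁ / T ^ dd) (R₂ / T ^ dd) / (piQ (S ∪ q) * cF K sg)) =
        (∏ l ∈ q, (M1 l / 2)) *
        (mS * (3 * GQ sg (S ∪ q) (R₁ / T ^ dd) (R₂ / T ^ dd) / (piQ (S ∪ q) * cF K sg))) := by ring
    rwa [e] at h
  · have h := key H₂ _ _ hH₂
    have e : mS * (∏ l ∈ q, M0 l) *
        (3 * GQ sg (S ∪ q) (R₁ / T ^ dd) (R₂ / T ^ dd) / (piQ (S ∪ q) * cF K sg)) =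
        (∏ l ∈ q, M0 l) *
        (mS * (3 * GQ sg (S ∪ q) (R₁ / T ^ dd) (R₂ / T ^ dd) / (piQ (S ∪ q) * cF K sg))) := by ring
    rwa [e] at h

private theorem D_one (c : Cb K) : 1 ≤ c.D := (od_one (om c)).1

private theorem bb_pos {g : Cb K → ℝ} (h0 : ∀ c, 0 ≤ g c) (R₁ R₂ : ℝ) : 0 ≤ H97.SXM.BB g R₁ R₂ := by
  unfold H97.SXM.BB
  refine finsum_nonneg fun c => finsum_nonneg fun _ => ?_
  have h1 := D_one c
  have h2 := h0 c
  positivity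

private theorem bb_add {κ : ℝ} (hR : RFS K κ) (hO : OCS K κ) (g : Cb K → ℝ) (R₁ R₂ R₃ : ℝ)
    (h12 : R₁ ≤ R₂) (h23 : R₂ ≤ R₃) : H97.SXM.BB g R₁ R₃ = H97.SXM.BB g R₁ R₂ + H97.SXM.BB g R₂ R₃ := by
  obtain ⟨C, _, hC⟩ := cb_fin K hR hO
  have hfin : ∀ R₁ R₂ : ℝ, {c : Cb K | R₁ < c.D ∧ c.D ≤ R₂}.Finite := by
    intro R₁ R₂
    refine (hC (max R₂ 1) (le_max_right _ _)).1.subset ?_
    rintro c ⟨_, hc⟩
    exact hc.trans (le_max_left _ _)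
  have hs : {c : Cb K | R₁ < c.D ∧ c.D ≤ R₃} =
      {c : Cb K | R₁ < c.D ∧ c.D ≤ R₂} ∪ {c : Cb K | R₂ < c.D ∧ c.D ≤ R₃} := by
    ext c
    constructor
    · rintro ⟨h1, h2⟩
      rcases le_or_gt c.D R₂ with h | h
      · exact Or.inl ⟨h1, h⟩
      · exact Or.inr ⟨h, h2⟩
    · rintro (⟨h1, h2⟩ | ⟨h1, h2⟩)
      · exact ⟨h1, h2.trans h23⟩
      · exact ⟨h12.trans_lt h1, h2⟩
  unfold H97.SXM.BB
  rw [hs, finsum_mem_union ?_ (hfin _ _) (hfin _ _)]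
  rw [Set.disjoint_left]
  rintro c ⟨_, h1⟩ ⟨h2, _⟩
  linarith

private theorem win_pos {κ : ℝ} (hκ : 1 ≤ κ) (hR : RFS K κ) (hO : OCS K κ)
    (S : Finset (Pl K)) (h6 : ∀ l : Pl K, (6 : 𝓞 K) ∈ l.asIdeal → l ∈ S)
    (Qd : DP K QBar) (c₀ : Cu K) {κ₀ C η : ℝ} (h0 : 0 ≤ κ₀) (hη : 0 < η)
    (h : ∀ α R : ℝ, 1 / 2 ≤ α → α ≤ 1 → 1 ≤ R →
      |H97.SXM.BB (gI S Qd c₀ ∅) (α * R) R - κ₀ * Real.log (1 / α)| ≤ C * R ^ (-η)) : 0 < κ₀ := by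
  refine lt_of_le_of_ne h0 (fun hz => ?_)
  rw [← hz] at h
  obtain ⟨k, mS, hmS, hW⟩ := wtsI S h6 Qd c₀
  obtain ⟨sg, hsg⟩ : ∃ sg : InfinitePlace K → Bool, sg = sgc (toCb c₀) := ⟨_, rfl⟩
  rw [← hsg] at hW
  obtain ⟨-, H, hH⟩ := hW ∅ (by simp)
  obtain ⟨C₂, A₂, η₂, hC₂, hη₂, -, he⟩ := eqn_pos K sg hκ hR hO
  obtain ⟨c, z₀, hc, hz₀, hlow⟩ := gq_low K sg
  obtain ⟨z, hzd⟩ : ∃ z : ℝ, z = min z₀ 1 := ⟨_, rfl⟩
  have hz0 : 0 < z := by rw [hzd]; exact lt_min hz₀ one_pos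
  have hz1 : z ≤ 1 := by rw [hzd]; exact min_le_right _ _
  have hzz : z ≤ z₀ := by rw [hzd]; exact min_le_left _ _
  obtain ⟨D, hD⟩ : ∃ D : ℕ, D = 4 * Module.finrank ℚ K := ⟨_, rfl⟩
  have hd : 1 ≤ Module.finrank ℚ K := Module.finrank_pos
  have hD0 : D ≠ 0 := by omega
  obtain ⟨N, hN⟩ : ∃ N : ℝ, N = ((Ideal.absNorm (JS S k * JQ ∅ ^ 3) : ℕ) : ℝ) := ⟨_, rfl⟩
  have hm : mS * ∏ l ∈ (∅ : Finset (Pl K)), M0 l = mS := by simp
  rw [hm] at hH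
  have hQ := hlow (S ∪ ∅) z hz0 hzz
  have key : ∀ R : ℝ, 1 ≤ R → 3 * mS * (c * z) ≤ C₂ * (C * R ^ (-η)) + C₂ * N ^ A₂ *
      ((1 / z) ^ A₂ * (R / z) ^ (-(η₂ / D)) + R ^ (-η₂)) := by
    intro R hR1
    have hR0 : 0 < R := by linarith
    have hRz : 1 ≤ R / z := by
      rw [one_le_div hz0]
      linarith
    obtain ⟨T, hT⟩ : ∃ T : ℝ, T = (R / z) ^ (1 / (D : ℝ)) := ⟨_, rfl⟩
    have hT1 : 1 ≤ T := by
      rw [hT]
      exact Real.one_le_rpow hRz (by positivity)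
    have hTD : T ^ D = R / z := by
      rw [hT, ← Real.rpow_natCast, ← Real.rpow_mul (by positivity), one_div_mul_cancel
        (by exact_mod_cast hD0), Real.rpow_one]
    have hTe : T ^ (-η₂) = (R / z) ^ (-(η₂ / D)) := by
      rw [hT, ← Real.rpow_mul (by positivity)]
      congr 1
      ring
    have h1 := he _ _ H _ _ T (R / 2) R hH (gI_facts S Qd c₀ ∅).2.1 hT1 hR1 (by linarith)
      (by linarith) (by
        rw [← hD, hTD, le_div_iff₀ hz0]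
        nlinarith)
    rw [← hD, hTD, hTe, ← hN] at h1
    have e1 : R / 2 / (R / z) = z / 2 := by
      field_simp
    have e2 : R / (R / z) = z := by
      field_simp
    have e3 : R / z / R = 1 / z := by
      field_simp
    rw [e1, e2, e3] at h1
    have h2 : 3 * mS * (c * z) ≤ 3 * mS * GQ sg (S ∪ ∅) (z / 2) z := by gcongr
    have h3 : H97.SXM.BB (gI S Qd c₀ ∅) (R / 2) R ≤ C * R ^ (-η) := by
      have h4 := h (1 / 2) R le_rfl (by norm_num) hR1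
      rw [zero_mul, sub_zero] at h4
      have h5 : 1 / 2 * R = R / 2 := by ring
      rw [h5] at h4
      exact (le_abs_self _).trans h4
    have h6 : C₂ * H97.SXM.BB (gI S Qd c₀ ∅) (R / 2) R ≤ C₂ * (C * R ^ (-η)) := by
      have : 0 ≤ C₂ := by linarith
      gcongr
    linarith
  have ht : Filter.Tendsto (fun R : ℝ => C₂ * (C * R ^ (-η)) + C₂ * N ^ A₂ *
      ((1 / z) ^ A₂ * (R / z) ^ (-(η₂ / D)) + R ^ (-η₂))) Filter.atTop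
      (nhds (C₂ * (C * 0) + C₂ * N ^ A₂ * ((1 / z) ^ A₂ * 0 + 0))) := by
    have t1 := tendsto_rpow_neg_atTop hη
    have t2 := tendsto_rpow_neg_atTop hη₂
    have hDp : (0 : ℝ) < D := by
      have : 0 < D := Nat.pos_of_ne_zero hD0
      exact_mod_cast this
    have t3 := (tendsto_rpow_neg_atTop (y := η₂ / D) (by positivity)).comp
      (Filter.tendsto_id.atTop_div_const hz0)
    have t3' : Filter.Tendsto (fun R : ℝ => (R / z) ^ (-(η₂ / D))) Filter.atTop (nhds 0) := t3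
    exact ((t1.const_mul C).const_mul C₂).add
      (((t3'.const_mul _).add t2).const_mul _)
  have hfin := ge_of_tendsto ht (Filter.eventually_atTop.2 ⟨1, key⟩)
  have hpos : 0 < 3 * mS * (c * z) := by positivity
  simp only [mul_zero, add_zero] at hfin
  linarith

private theorem ratio_bd {K : Type} [Field K] [NumberField K] : ∃ A : ℕ, ∀ q : Finset (Pl K),
    (∀ l ∈ q, (6 : 𝓞 K) ∉ l.asIdeal) →
    |∏ l ∈ q, M1 l / (2 * M0 l)| ≤ nr q ^ A ∧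
    ∏ l ∈ q, (M1 l / 2) = (∏ l ∈ q, M1 l / (2 * M0 l)) * ∏ l ∈ q, M0 l := by
  obtain ⟨C, hC, hM⟩ := M1_bd K
  obtain ⟨A, hA⟩ := pow_unbounded_of_one_lt (2 * C) (one_lt_two : (1 : ℝ) < 2)
  refine ⟨A, fun q hq => ⟨?_, ?_⟩⟩
  · rw [Finset.abs_prod]
    have e : nr q ^ A = ∏ l ∈ q, (nm l : ℝ) ^ A := by
      unfold nr
      rw [Finset.prod_pow]
    rw [e]
    refine Finset.prod_le_prod (fun _ _ => abs_nonneg _) (fun l hl => ?_)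
    have h1 := (hM l (hq l hl)).1
    have h2 := (M0_bd l).1
    have h3 := nm_two l
    have h4 : C / nm l ≤ C / 2 := by gcongr
    rw [abs_div, abs_of_pos (by linarith : 0 < 2 * M0 l), div_le_iff₀ (by linarith)]
    have h5 : (2 : ℝ) ^ A ≤ (nm l : ℝ) ^ A := by gcongr
    have h6 : 2 * C * (1 / 2) ≤ (nm l : ℝ) ^ A * (2 * M0 l) := by
      apply mul_le_mul (hA.le.trans h5) (by linarith) (by norm_num) (by positivity)
    linarith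
  · rw [← Finset.prod_mul_distrib]
    refine Finset.prod_congr rfl fun l _ => ?_
    have h2 := (M0_bd l).1
    have h3 : M0 l ≠ 0 := by linarith
    field_simp

theorem win (K : IntermediateField ℚ QBar) [NumberField K] {κ : ℝ} (hκ : 1 ≤ κ) (hR : RFS K κ) (hO : OCS K κ)
    (S : Finset (Pl K)) (h6 : ∀ l : Pl K, (6 : 𝓞 K) ∈ l.asIdeal → l ∈ S)
    (Qd : DP K QBar) (c₀ : Cu K) : ∃ (κ₀ C : ℝ) (A : ℕ) (η : ℝ), 0 < κ₀ ∧ 1 ≤ C ∧ 0 < η ∧ η ≤ 1 ∧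
    ∀ q : Finset (Pl K), (∀ l ∈ q, l ∉ S) → ∀ α R : ℝ, 1 / 2 ≤ α → α ≤ 1 → 1 ≤ R →
    |H97.SXM.BB (gI S Qd c₀ q) (α * R) R - κ₀ * (∏ l ∈ q, M1 l / (2 * M0 l)) * Real.log (1 / α)| ≤
      C * nr q ^ A * R ^ (-η) := by
  obtain ⟨dd, hdd⟩ : ∃ dd : ℝ, dd = ((4 * Module.finrank ℚ K : ℕ) : ℝ) := ⟨_, rfl⟩
  have hd : 1 ≤ Module.finrank ℚ K := Module.finrank_pos
  have hdd4 : 4 ≤ dd := by
    rw [hdd]
    exact_mod_cast (by omega : 4 ≤ 4 * Module.finrank ℚ K)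
  obtain ⟨C₁, A₁, a, η₁, hC₁, ha0, ha4, hη₁, hE⟩ := win_err hκ hR hO S h6 Qd c₀ hdd
  obtain ⟨C₃, hC₃, hB⟩ := bb_bd K hR hO
  obtain ⟨A₂, hr⟩ := ratio_bd (K := K)
  have hgm := gI_facts S Qd c₀ ∅
  have hlim : ∃ κ C η' : ℝ, 0 ≤ κ ∧ 1 ≤ C ∧ 0 < η' ∧ η' ≤ 1 ∧ ∀ α R : ℝ, 1 / 2 ≤ α → α ≤ 1 →
      1 ≤ R → |H97.SXM.BB (gI S Qd c₀ ∅) (α * R) R - κ * Real.log (1 / α)| ≤ C * R ^ (-η') := by
    obtain ⟨G, hG⟩ := hE ∅ (by simp)
    refine lim_log (B := H97.SXM.BB (gI S Qd c₀ ∅)) (G := G) (dd := dd) (a := a) (η := η₁)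
      (E := max C₁ C₃) (by linarith) ha0 (by linarith) hη₁ (hC₁.trans (le_max_left _ _))
      (bb_pos hgm.2.1) (bb_add hR hO _) ?_ ?_
    · intro R₁ R₂ h1 h12 h21
      refine (le_abs_self _).trans ((hB _ R₁ R₂ ?_ h1 h12 h21).trans (le_max_right _ _))
      intro c
      rw [abs_of_nonneg (hgm.2.1 c)]
      exact hgm.2.2.1 c
    · intro T R₁ R₂ hT h1 h12 h21 hy1 hy2
      have h := (hG T R₁ R₂ hT h1 h12 h21 hy1 hy2).2
      have hn : nr (∅ : Finset (Pl K)) = 1 := by simp [nr]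
      rw [hn, one_pow, mul_one, Finset.prod_empty, one_mul] at h
      have hTp : 0 ≤ T ^ (-η₁) := by positivity
      exact h.trans (mul_le_mul_of_nonneg_right (le_max_left _ _) hTp)
  obtain ⟨κ₀, C₂, η₂, hκ0, hC₂, hη₂, hη₂1, hL⟩ := hlim
  have hκp := win_pos hκ hR hO S h6 Qd c₀ hκ0 hη₂ hL
  have he0 : 0 < dd - 2 * a := by linarith
  obtain ⟨η, hη⟩ : ∃ η : ℝ, η = min (η₁ / (dd - 2 * a)) η₂ := ⟨_, rfl⟩
  have hη0 : 0 < η := by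
    rw [hη]
    exact lt_min (by positivity) hη₂
  have hηa : η ≤ η₁ / (dd - 2 * a) := by rw [hη]; exact min_le_left _ _
  have hηb : η ≤ η₂ := by rw [hη]; exact min_le_right _ _
  refine ⟨κ₀, 2 * C₁ + C₂, A₂ + A₁, η, hκp, by linarith, hη0, hηb.trans hη₂1, ?_⟩
  intro q hq α R hα hα1 hR1
  have hR0 : 0 < R := by linarith
  obtain ⟨G, hG⟩ := hE q hq
  obtain ⟨T, hT⟩ : ∃ T : ℝ, T = R ^ (1 / (dd - 2 * a)) := ⟨_, rfl⟩
  have hT1 : 1 ≤ T := by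
    rw [hT]
    exact Real.one_le_rpow hR1 (by positivity)
  have hT0 : 0 < T := by linarith
  have hTe : T ^ (dd - 2 * a) = R := by
    rw [hT, ← Real.rpow_mul hR0.le, one_div_mul_cancel he0.ne', Real.rpow_one]
  have hTd : T ^ dd / R = T ^ (2 * a) := by
    rw [div_eq_iff hR0.ne', ← hTe, ← Real.rpow_add hT0]
    congr 1
    ring
  have hTη : T ^ (-η₁) = R ^ (-(η₁ / (dd - 2 * a))) := by
    rw [hT, ← Real.rpow_mul hR0.le]
    congr 1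
    ring
  obtain ⟨h1, h2⟩ := hG T (α * R) R hT1 hR1 (by nlinarith) (by nlinarith)
    (by rw [hTd]; exact Real.rpow_le_rpow_of_exponent_le hT1 (by linarith)) (by rw [hTd])
  obtain ⟨hr1, hr2⟩ := hr q (fun l hl h => hq l hl (h6 l h))
  have h3 := hL α R hα hα1 hR1
  obtain ⟨r, hrd⟩ : ∃ r : ℝ, r = ∏ l ∈ q, M1 l / (2 * M0 l) := ⟨_, rfl⟩
  rw [← hrd] at hr1 hr2 ⊢
  rw [hr2] at h1
  obtain ⟨g, hg⟩ : ∃ g : ℝ, g = G (α * R / T ^ dd) (R / T ^ dd) := ⟨_, rfl⟩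
  rw [← hg] at h1 h2
  obtain ⟨B₁, hB₁⟩ : ∃ B : ℝ, B = H97.SXM.BB (gI S Qd c₀ q) (α * R) R := ⟨_, rfl⟩
  obtain ⟨B₂, hB₂⟩ : ∃ B : ℝ, B = H97.SXM.BB (gI S Qd c₀ ∅) (α * R) R := ⟨_, rfl⟩
  obtain ⟨p, hp⟩ : ∃ p : ℝ, p = ∏ l ∈ q, M0 l := ⟨_, rfl⟩
  rw [← hB₁, ← hp] at h1
  rw [← hB₂, ← hp] at h2
  rw [← hB₂] at h3
  rw [← hB₁]
  have hn := nr_one q
  obtain ⟨n, hnd⟩ : ∃ n : ℝ, n = nr q := ⟨_, rfl⟩
  rw [← hnd] at hn h1 h2 hr1 ⊢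
  have hTR : T ^ (-η₁) ≤ R ^ (-η) := by
    rw [hTη]
    exact Real.rpow_le_rpow_of_exponent_le hR1 (by linarith)
  have hRR : R ^ (-η₂) ≤ R ^ (-η) := Real.rpow_le_rpow_of_exponent_le hR1 (by linarith)
  have hRp : 0 < R ^ (-η) := by positivity
  have k1 : |B₁ - r * p * g| ≤ n ^ A₂ * (C₁ * n ^ A₁ * R ^ (-η)) := by
    have hnA : 1 ≤ n ^ A₂ := one_le_pow₀ hn
    have h4 : C₁ * n ^ A₁ * T ^ (-η₁) ≤ C₁ * n ^ A₁ * R ^ (-η) := by gcongr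
    have h5 : 0 ≤ C₁ * n ^ A₁ * R ^ (-η) := by positivity
    nlinarith
  have k2 : |r * B₂ - r * p * g| ≤ n ^ A₂ * (C₁ * n ^ A₁ * R ^ (-η)) := by
    have e : r * B₂ - r * p * g = r * (B₂ - p * g) := by ring
    rw [e, abs_mul]
    have h4 : C₁ * n ^ A₁ * T ^ (-η₁) ≤ C₁ * n ^ A₁ * R ^ (-η) := by gcongr
    exact mul_le_mul hr1 (h2.trans h4) (abs_nonneg _) (by positivity)
  have k3 : |r * B₂ - κ₀ * r * Real.log (1 / α)| ≤ n ^ A₂ * (C₂ * n ^ A₁ * R ^ (-η)) := by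
    have e : r * B₂ - κ₀ * r * Real.log (1 / α) = r * (B₂ - κ₀ * Real.log (1 / α)) := by ring
    rw [e, abs_mul]
    have hnA : 1 ≤ n ^ A₁ := one_le_pow₀ hn
    have h4 : C₂ * R ^ (-η₂) ≤ C₂ * n ^ A₁ * R ^ (-η) := by
      calc C₂ * R ^ (-η₂) = C₂ * 1 * R ^ (-η₂) := by ring
        _ ≤ C₂ * n ^ A₁ * R ^ (-η) := by gcongr
    exact mul_le_mul hr1 (h3.trans h4) (abs_nonneg _) (by positivity)
  have e : B₁ - κ₀ * r * Real.log (1 / α) = (B₁ - r * p * g) - (r * B₂ - r * p * g) +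
      (r * B₂ - κ₀ * r * Real.log (1 / α)) := by ring
  have t1 : |(B₁ - r * p * g) - (r * B₂ - r * p * g) + (r * B₂ - κ₀ * r * Real.log (1 / α))| ≤
      |B₁ - r * p * g| + |r * B₂ - r * p * g| + |r * B₂ - κ₀ * r * Real.log (1 / α)| :=
    (abs_add_le _ _).trans (by gcongr; exact abs_sub _ _)
  rw [e]
  refine t1.trans ?_
  rw [pow_add]
  nlinarith

end H12.SQM
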